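import Pool.Agent.Lib.MP_634427_lc.Maj.LtDefs

/-!
# One step of the soundness proof of the weighted version, for arbitrary finite families

`X` (the children) and `Z` (the list of the next level) are finite families of items with integer
vectors. If the three checks hold and for nearly all `x` in `X` the functional `w` is positive on the
vectors of `x`, then this is so for a substantial part of `Z`.

Proof. By the second check the quadratic form `y ↦ ∑ x j, ⟨y, Psi⟩ ^ 2` is at least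
`|X| * p * U ^ 2 * |y| ^ 2 / 2`, so `T` is invertible and `w = Tᵀ y` with a real vector `y ≠ 0`; then
`⟨y, Psi⟩ = 2 ^ e * ⟨w, 2 * a + e_j⟩`. By the first check `|⟨y, Psi⟩| ≤ 3 * p * U * |y|`, so the mean
of `|⟨y, Psi⟩|` is `≥ U * |y| / (6 * p)`, the mean of `⟨y, Psi⟩` is `≥ U * |y| / (12 * p)`, and the
third check transports this to `Z`.
-/

namespace Pool.Agent.Lib.MP_634427_lc.Maj

open Finset

section

variable {p : ℕ}

/-- The real pairing. -/
private noncomputable def lpr (y : Fin p → ℝ) (ψ : Fin p → ℤ) : ℝ := ∑ r, y r * (ψ r : ℝ)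

/-- The pairing is bounded by the length. -/
private lemma step_cs (y : Fin p → ℝ) (ψ : Fin p → ℤ) {U : ℤ} (hU : 0 < U)
    (h : ∑ r, ψ r ^ 2 ≤ 9 * (p : ℤ) ^ 2 * U ^ 2) :
    |lpr y ψ| ≤ 3 * p * U * Real.sqrt (∑ r, y r ^ 2) := by
  have h1 : (lpr y ψ) ^ 2 ≤ (∑ r, y r ^ 2) * ∑ r, (ψ r : ℝ) ^ 2 :=
    Finset.sum_mul_sq_le_sq_mul_sq _ _ _
  have h2 : ∑ r, (ψ r : ℝ) ^ 2 ≤ 9 * (p : ℝ) ^ 2 * U ^ 2 := by exact_mod_cast h
  have h3 : 0 ≤ ∑ r, y r ^ 2 := Finset.sum_nonneg fun r _ => sq_nonneg _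
  have hU' : (0 : ℝ) < U := by exact_mod_cast hU
  apply abs_le_of_sq_le_sq _ (by positivity)
  rw [mul_pow, Real.sq_sqrt h3]
  calc (lpr y ψ) ^ 2 ≤ (∑ r, y r ^ 2) * (9 * (p : ℝ) ^ 2 * U ^ 2) :=
        h1.trans (mul_le_mul_of_nonneg_left h2 h3)
    _ = (3 * p * U) ^ 2 * ∑ r, y r ^ 2 := by ring

/-- The quadratic form of nearly orthonormal second moments. -/
private lemma step_quad {X : Type} [Fintype X] (Ψ : X → Fin p → Fin p → ℤ) (U : ℤ)
    (c2 : ∀ r r', |2 * (p : ℤ) * (∑ x, ∑ j, Ψ x j r * Ψ x j r') -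
      (if r = r' then 2 * (p : ℤ) * ((Fintype.card X : ℤ) * p * U ^ 2) else 0)| ≤
        (Fintype.card X : ℤ) * p * U ^ 2) (y : Fin p → ℝ) :
    (Fintype.card X : ℝ) * p * U ^ 2 * (∑ r, y r ^ 2) ≤ 2 * ∑ x, ∑ j, lpr y (Ψ x j) ^ 2 := by
  set N : ℝ := (Fintype.card X : ℝ) * p * U ^ 2 with hN
  have hN0 : 0 ≤ N := by positivity
  rcases Nat.eq_zero_or_pos p with h0 | hp
  · subst h0
    simp
  have hp' : (0 : ℝ) < p := by exact_mod_cast hp
  set E : Fin p → Fin p → ℝ := fun r r' =>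
    2 * (p : ℝ) * (∑ x, ∑ j, (Ψ x j r : ℝ) * (Ψ x j r' : ℝ)) -
      (if r = r' then 2 * (p : ℝ) * N else 0) with hE
  have hEb : ∀ r r', |E r r'| ≤ N := by
    intro r r'
    have h1 : ((|2 * (p : ℤ) * (∑ x, ∑ j, Ψ x j r * Ψ x j r') -
      (if r = r' then 2 * (p : ℤ) * ((Fintype.card X : ℤ) * p * U ^ 2) else 0)| : ℤ) : ℝ) ≤
        (((Fintype.card X : ℤ) * p * U ^ 2 : ℤ) : ℝ) := Int.cast_le.2 (c2 r r')
    push_cast at h1
    exact h1
  have h1 : 2 * (p : ℝ) * ∑ x, ∑ j, lpr y (Ψ x j) ^ 2 =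
      ∑ r, ∑ r', y r * y r' * (2 * (p : ℝ) * (∑ x, ∑ j, (Ψ x j r : ℝ) * (Ψ x j r' : ℝ))) := by
    have h2 : ∀ x j, lpr y (Ψ x j) ^ 2 =
        ∑ r, ∑ r', y r * y r' * ((Ψ x j r : ℝ) * (Ψ x j r' : ℝ)) := by
      intro x j
      rw [lpr, pow_two, Finset.sum_mul_sum]
      refine Finset.sum_congr rfl fun r _ => Finset.sum_congr rfl fun r' _ => ?_
      ring
    simp only [h2, Finset.mul_sum]
    have h3 : ∑ x, ∑ j, ∑ r, ∑ r', 2 * (p : ℝ) * (y r * y r' * ((Ψ x j r : ℝ) * (Ψ x j r' : ℝ))) =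
        ∑ x, ∑ r, ∑ r', ∑ j, 2 * (p : ℝ) *
          (y r * y r' * ((Ψ x j r : ℝ) * (Ψ x j r' : ℝ))) := by
      refine Finset.sum_congr rfl fun x _ => ?_
      rw [Finset.sum_comm]
      refine Finset.sum_congr rfl fun r _ => ?_
      rw [Finset.sum_comm]
    rw [h3, Finset.sum_comm]
    refine Finset.sum_congr rfl fun r _ => ?_
    rw [Finset.sum_comm]
    refine Finset.sum_congr rfl fun r' _ => Finset.sum_congr rfl fun x _ =>
      Finset.sum_congr rfl fun j _ => ?_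
    ring
  have h4 : ∑ r, ∑ r', y r * y r' * (2 * (p : ℝ) * (∑ x, ∑ j, (Ψ x j r : ℝ) * (Ψ x j r' : ℝ))) =
      2 * p * N * (∑ r, y r ^ 2) + ∑ r, ∑ r', y r * y r' * E r r' := by
    have h5 : ∀ r r', y r * y r' * (2 * (p : ℝ) * (∑ x, ∑ j, (Ψ x j r : ℝ) * (Ψ x j r' : ℝ))) =
        (if r = r' then 2 * (p : ℝ) * N * (y r * y r') else 0) + y r * y r' * E r r' := by
      intro r r'
      simp only [hE]
      by_cases hr : r = r'
      · rw [if_pos hr, if_pos hr]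
        ring
      · rw [if_neg hr, if_neg hr]
        ring
    simp only [h5, Finset.sum_add_distrib, Finset.sum_ite_eq, Finset.mem_univ, if_true]
    rw [Finset.mul_sum]
    simp only [pow_two]
  have h6 : -(N * (p * ∑ r, y r ^ 2)) ≤ ∑ r, ∑ r', y r * y r' * E r r' := by
    have h7 : |∑ r, ∑ r', y r * y r' * E r r'| ≤ N * (∑ r, |y r|) ^ 2 := by
      refine (Finset.abs_sum_le_sum_abs _ _).trans ?_
      have h8 : ∀ r ∈ (univ : Finset (Fin p)), |∑ r', y r * y r' * E r r'| ≤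
          ∑ r', N * (|y r| * |y r'|) := by
        intro r _
        refine (Finset.abs_sum_le_sum_abs _ _).trans (Finset.sum_le_sum fun r' _ => ?_)
        rw [abs_mul, abs_mul, mul_comm]
        exact mul_le_mul_of_nonneg_right (hEb r r') (by positivity)
      refine (Finset.sum_le_sum h8).trans (le_of_eq ?_)
      simp only [← Finset.mul_sum]
      rw [pow_two, Finset.sum_mul_sum]
      simp only [← Finset.mul_sum]
    have h9 : (∑ r, |y r|) ^ 2 ≤ p * ∑ r, y r ^ 2 := by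
      have := sq_sum_le_card_mul_sum_sq (s := (univ : Finset (Fin p))) (f := fun r => |y r|)
      simpa using this
    have h10 := (abs_le.1 h7).1
    have h11 := mul_le_mul_of_nonneg_left h9 hN0
    linarith
  have h12 : 2 * (p : ℝ) * ∑ x, ∑ j, lpr y (Ψ x j) ^ 2 ≥ p * (N * ∑ r, y r ^ 2) := by
    rw [h1, h4]
    have h13 : 0 ≤ p * (N * ∑ r, y r ^ 2) := by
      have : 0 ≤ ∑ r, y r ^ 2 := Finset.sum_nonneg fun r _ => sq_nonneg _
      positivity
    nlinarith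
  have h14 : p * (N * ∑ r, y r ^ 2) ≤ p * (2 * ∑ x, ∑ j, lpr y (Ψ x j) ^ 2) := by linarith
  exact le_of_mul_le_mul_left h14 hp'

/-- The pairing with `Psi` in terms of the pairing with the vectors. -/
private lemma step_pair (T : Fin p → Fin p → ℤ) (y : Fin p → ℝ) (w : Fin p → ℤ)
    (hy : ∀ k, ∑ r, y r * (T r k : ℝ) = w k) (e : ℕ) (a : Fin p → ℤ) (j : Fin p) :
    lpr y (lpsi T e a j) = 2 ^ e * ((∑ k, w k * ltv a j k : ℤ) : ℝ) := by
  unfold lpr lpsi
  push_cast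
  have h1 : ∀ r, y r * (2 ^ e * ∑ k, (T r k : ℝ) * (ltv a j k : ℝ)) =
      2 ^ e * ∑ k, (y r * (T r k : ℝ)) * (ltv a j k : ℝ) := by
    intro r
    rw [Finset.mul_sum, Finset.mul_sum, Finset.mul_sum]
    refine Finset.sum_congr rfl fun k _ => ?_
    ring
  simp only [h1]
  rw [← Finset.mul_sum, Finset.sum_comm]
  congr 1
  refine Finset.sum_congr rfl fun k _ => ?_
  rw [← Finset.sum_mul, hy]

/-- Sums of pairings. -/
private lemma step_sum (y : Fin p → ℝ) {V : Type} [Fintype V] (Φ : V → Fin p → Fin p → ℤ) :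
    ∑ v, ∑ j, lpr y (Φ v j) = ∑ r, y r * ∑ v, ∑ j, (Φ v j r : ℝ) := by
  unfold lpr
  have h1 : ∀ v, ∑ j, ∑ r, y r * (Φ v j r : ℝ) = ∑ r, ∑ j, y r * (Φ v j r : ℝ) :=
    fun v => Finset.sum_comm
  simp only [h1]
  rw [Finset.sum_comm]
  refine Finset.sum_congr rfl fun r _ => ?_
  simp only [Finset.mul_sum]

/-- The step with real numbers. -/
theorem lt_step_real {X Z : Type} [Fintype X] [Fintype Z] [Nonempty X] (hp : 0 < p)
    (U : ℤ) (hU : 0 < U) (T : Fin p → Fin p → ℤ)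
    (ax : X → Fin p → ℤ) (ex : X → Fin p → ℕ) (az : Z → Fin p → ℤ) (ez : Z → Fin p → ℕ)
    (w : Fin p → ℤ)
    (c1 : ∀ x j, ∑ r, lpsi T (ex x j) (ax x) j r ^ 2 ≤ 9 * (p : ℤ) ^ 2 * U ^ 2)
    (c2 : ∀ r r', |2 * (p : ℤ) * (∑ x, ∑ j, lpsi T (ex x j) (ax x) j r *
        lpsi T (ex x j) (ax x) j r') -
      (if r = r' then 2 * (p : ℤ) * ((Fintype.card X : ℤ) * p * U ^ 2) else 0)| ≤
        (Fintype.card X : ℤ) * p * U ^ 2)
    (c3 : ∀ r, 16 * (p : ℤ) ^ 2 * |(Fintype.card Z : ℤ) *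
        (∑ x, ∑ j, lpsi T (ex x j) (ax x) j r) -
      (Fintype.card X : ℤ) * ∑ z, ∑ j, lpsi T (ez z j) (az z) j r| ≤
        Fintype.card Z * (Fintype.card X : ℤ) * p * U)
    (bad : Finset X) (hbad : 72 * p ^ 2 * bad.card ≤ Fintype.card X)
    (hgood : ∀ x, x ∉ bad → ∀ j, 0 < ∑ k, w k * ltv (ax x) j k) :
    ∃ y : Fin p → ℝ, 0 < Real.sqrt (∑ r, y r ^ 2) ∧
      (∀ z j, ∑ r, y r * (lpsi T (ez z j) (az z) j r : ℝ) =
        2 ^ ez z j * ((∑ k, w k * ltv (az z) j k : ℤ) : ℝ)) ∧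
      (Fintype.card Z : ℝ) * U * Real.sqrt (∑ r, y r ^ 2) ≤
        48 * ∑ z, ∑ j, ∑ r, y r * (lpsi T (ez z j) (az z) j r : ℝ) := by
  classical
  have hp' : (0 : ℝ) < p := by exact_mod_cast hp
  have hp1 : (1 : ℝ) ≤ p := by exact_mod_cast hp
  have hX : (0 : ℝ) < Fintype.card X := by exact_mod_cast Fintype.card_pos
  have hZ : (0 : ℝ) ≤ Fintype.card Z := Nat.cast_nonneg _
  have hU' : (0 : ℝ) < U := by exact_mod_cast hU
  set Ψ : X → Fin p → Fin p → ℤ := fun x j => lpsi T (ex x j) (ax x) j with hΨ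
  set Ψ' : Z → Fin p → Fin p → ℤ := fun z j => lpsi T (ez z j) (az z) j with hΨ'
  have hquad := step_quad Ψ U c2
  -- the matrix is invertible
  set TT : Matrix (Fin p) (Fin p) ℝ := fun r k => (T r k : ℝ) with hTT
  have hinj : Function.Injective TT.vecMul := by
    intro y1 y2 h12
    have h0 : Matrix.vecMul (y1 - y2) TT = 0 := by
      rw [Matrix.sub_vecMul, sub_eq_zero]
      exact h12
    have h1 : ∀ k, ∑ r, (y1 - y2) r * (T r k : ℝ) = ((0 : Fin p → ℤ) k : ℝ) := by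
      intro k
      have := congrFun h0 k
      simpa [Matrix.vecMul, dotProduct] using this
    have h2 := hquad (y1 - y2)
    have h3 : ∀ x j, lpr (y1 - y2) (Ψ x j) = 0 := by
      intro x j
      rw [hΨ]
      simp only
      rw [step_pair T (y1 - y2) 0 h1]
      simp
    simp only [h3] at h2
    have h2' : ∑ x : X, ∑ j : Fin p, (0 : ℝ) ^ 2 = 0 := by simp
    rw [h2'] at h2
    have h4 : 0 ≤ ∑ r, (y1 - y2) r ^ 2 := Finset.sum_nonneg fun r _ => sq_nonneg _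
    have h5 : ∑ r, (y1 - y2) r ^ 2 = 0 := by
      by_contra hne
      have h6 : 0 < ∑ r, (y1 - y2) r ^ 2 := lt_of_le_of_ne h4 (Ne.symm hne)
      have h7 : 0 < (Fintype.card X : ℝ) * p * U ^ 2 * ∑ r, (y1 - y2) r ^ 2 := by positivity
      linarith
    rw [Finset.sum_eq_zero_iff_of_nonneg fun r _ => sq_nonneg _] at h5
    funext r
    have h8 := h5 r (Finset.mem_univ r)
    have h9 : (y1 - y2) r = 0 := by
      exact pow_eq_zero_iff (two_ne_zero) |>.1 h8
    rw [Pi.sub_apply, sub_eq_zero] at h9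
    exact h9
  have hunit : IsUnit TT := Matrix.vecMul_injective_iff_isUnit.1 hinj
  obtain ⟨y, hy⟩ := (Matrix.vecMul_surjective_iff_isUnit.2 hunit) fun k => (w k : ℝ)
  have hyk : ∀ k, ∑ r, y r * (T r k : ℝ) = w k := by
    intro k
    have := congrFun hy k
    simpa [Matrix.vecMul, dotProduct] using this
  have hpair : ∀ x j, lpr y (Ψ x j) = 2 ^ ex x j * ((∑ k, w k * ltv (ax x) j k : ℤ) : ℝ) :=
    fun x j => step_pair T y w hyk _ _ _
  have hpair' : ∀ z j, lpr y (Ψ' z j) = 2 ^ ez z j * ((∑ k, w k * ltv (az z) j k : ℤ) : ℝ) :=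
    fun z j => step_pair T y w hyk _ _ _
  set s := Real.sqrt (∑ r, y r ^ 2) with hs
  have hs2 : s ^ 2 = ∑ r, y r ^ 2 := Real.sq_sqrt (Finset.sum_nonneg fun r _ => sq_nonneg _)
  have hs0 : 0 ≤ s := Real.sqrt_nonneg _
  -- there is a good element
  have hgex : ∃ x, x ∉ bad := by
    by_contra hcon
    push Not at hcon
    have h1 : bad = univ := Finset.eq_univ_of_forall hcon
    rw [h1, Finset.card_univ] at hbad
    have h2 : 0 < Fintype.card X := Fintype.card_pos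
    have h3 : 0 < p ^ 2 := by positivity
    nlinarith
  have hspos : 0 < s := by
    rcases hs0.eq_or_lt with h | h
    · exfalso
      obtain ⟨x, hx⟩ := hgex
      have h1 := hgood x hx ⟨0, hp⟩
      have h2 : ∑ r, y r ^ 2 = 0 := by rw [← hs2, ← h]; ring
      rw [Finset.sum_eq_zero_iff_of_nonneg fun r _ => sq_nonneg _] at h2
      have h3 : ∀ r, y r = 0 := fun r => pow_eq_zero_iff (two_ne_zero) |>.1 (h2 r (Finset.mem_univ r))
      have h4 := hpair x ⟨0, hp⟩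
      have h5 : lpr y (Ψ x ⟨0, hp⟩) = 0 := by
        unfold lpr
        simp [h3]
      rw [h5] at h4
      have h6 : (0 : ℝ) < ((∑ k, w k * ltv (ax x) ⟨0, hp⟩ k : ℤ) : ℝ) := by exact_mod_cast h1
      have h7 : (0 : ℝ) < 2 ^ ex x ⟨0, hp⟩ * ((∑ k, w k * ltv (ax x) ⟨0, hp⟩ k : ℤ) : ℝ) := by
        positivity
      linarith
    · exact h
  have hbound : ∀ x j, |lpr y (Ψ x j)| ≤ 3 * p * U * s := fun x j => step_cs y _ hU (c1 x j)
  have hb0 : 0 < 3 * (p : ℝ) * U * s := by positivity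
  -- lower bound for the sum of the absolute values
  have habs : (Fintype.card X : ℝ) * U * s ≤ 6 * ∑ x, ∑ j, |lpr y (Ψ x j)| := by
    have h1 := hquad y
    rw [← hs2] at h1
    have h2 : ∑ x, ∑ j, lpr y (Ψ x j) ^ 2 ≤ (3 * p * U * s) * ∑ x, ∑ j, |lpr y (Ψ x j)| := by
      rw [Finset.mul_sum]
      refine Finset.sum_le_sum fun x _ => ?_
      rw [Finset.mul_sum]
      refine Finset.sum_le_sum fun j _ => ?_
      rw [← sq_abs, pow_two]
      exact mul_le_mul_of_nonneg_right (hbound x j) (abs_nonneg _)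
    have h3 : (p * U * s) * ((Fintype.card X : ℝ) * U * s) ≤
        (p * U * s) * (6 * ∑ x, ∑ j, |lpr y (Ψ x j)|) := by
      calc (p * U * s) * ((Fintype.card X : ℝ) * U * s) =
            (Fintype.card X : ℝ) * p * U ^ 2 * s ^ 2 := by ring
        _ ≤ 2 * ((3 * p * U * s) * ∑ x, ∑ j, |lpr y (Ψ x j)|) := by linarith
        _ = _ := by ring
    exact le_of_mul_le_mul_left h3 (by positivity)
  -- lower bound for the sum
  have hsum : (Fintype.card X : ℝ) * U * s ≤ 12 * ∑ x, ∑ j, lpr y (Ψ x j) := by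
    have h1 : ∀ x, ∑ j, |lpr y (Ψ x j)| - (if x ∈ bad then 2 * (p * (3 * p * U * s)) else 0) ≤
        ∑ j, lpr y (Ψ x j) := by
      intro x
      by_cases hx : x ∈ bad
      · rw [if_pos hx]
        have h2 : ∑ j, (|lpr y (Ψ x j)| - 2 * (3 * p * U * s)) ≤ ∑ j, lpr y (Ψ x j) := by
          refine Finset.sum_le_sum fun j _ => ?_
          have h3 := hbound x j
          have h4 := neg_abs_le (lpr y (Ψ x j))
          linarith
        rw [Finset.sum_sub_distrib, Finset.sum_const, Finset.card_univ, Fintype.card_fin,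
          nsmul_eq_mul] at h2
        linarith
      · rw [if_neg hx, sub_zero]
        refine Finset.sum_le_sum fun j _ => ?_
        have h3 : (0 : ℝ) < ((∑ k, w k * ltv (ax x) j k : ℤ) : ℝ) := by
          exact_mod_cast hgood x hx j
        have h4 : 0 < lpr y (Ψ x j) := by
          rw [hpair]
          positivity
        rw [abs_of_pos h4]
    have h2 : ∑ x, ∑ j, |lpr y (Ψ x j)| - bad.card * (2 * (p * (3 * p * U * s))) ≤
        ∑ x, ∑ j, lpr y (Ψ x j) := by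
      have h3 := Finset.sum_le_sum fun x (_ : x ∈ (univ : Finset X)) => h1 x
      rw [Finset.sum_sub_distrib, Finset.sum_ite_mem, Finset.univ_inter, Finset.sum_const,
        nsmul_eq_mul] at h3
      exact h3
    have h4 : 72 * (p : ℝ) ^ 2 * bad.card ≤ Fintype.card X := by exact_mod_cast hbad
    have h5 : 12 * (bad.card * (2 * (p * (3 * p * U * s)))) ≤ (Fintype.card X : ℝ) * U * s := by
      calc 12 * (bad.card * (2 * (p * (3 * p * U * s)))) =
            (72 * (p : ℝ) ^ 2 * bad.card) * (U * s) := by ring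
        _ ≤ (Fintype.card X : ℝ) * (U * s) := mul_le_mul_of_nonneg_right h4 (by positivity)
        _ = _ := by ring
    linarith
  refine ⟨y, hspos, hpair', ?_⟩
  -- the third check
  have h1 : |(Fintype.card Z : ℝ) * (∑ x, ∑ j, lpr y (Ψ x j)) -
      (Fintype.card X : ℝ) * ∑ z, ∑ j, lpr y (Ψ' z j)| * 16 ≤
        (Fintype.card Z : ℝ) * (Fintype.card X : ℝ) * U * s := by
    have h2 : (Fintype.card Z : ℝ) * (∑ x, ∑ j, lpr y (Ψ x j)) -
        (Fintype.card X : ℝ) * ∑ z, ∑ j, lpr y (Ψ' z j) =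
        ∑ r, y r * ((Fintype.card Z : ℝ) * (∑ x, ∑ j, (Ψ x j r : ℝ)) -
          (Fintype.card X : ℝ) * ∑ z, ∑ j, (Ψ' z j r : ℝ)) := by
      rw [step_sum, step_sum, Finset.mul_sum, Finset.mul_sum, ← Finset.sum_sub_distrib]
      refine Finset.sum_congr rfl fun r _ => ?_
      ring
    have h3 : ∀ r, |(Fintype.card Z : ℝ) * (∑ x, ∑ j, (Ψ x j r : ℝ)) -
        (Fintype.card X : ℝ) * ∑ z, ∑ j, (Ψ' z j r : ℝ)| * (16 * p) ≤
          (Fintype.card Z : ℝ) * (Fintype.card X : ℝ) * U := by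
      intro r
      have h4 : ((16 * (p : ℤ) ^ 2 * |(Fintype.card Z : ℤ) * (∑ x, ∑ j, Ψ x j r) -
          (Fintype.card X : ℤ) * ∑ z, ∑ j, Ψ' z j r| : ℤ) : ℝ) ≤
            ((Fintype.card Z * (Fintype.card X : ℤ) * p * U : ℤ) : ℝ) := Int.cast_le.2 (c3 r)
      push_cast at h4
      have h5 : (p : ℝ) * (|(Fintype.card Z : ℝ) * (∑ x, ∑ j, (Ψ x j r : ℝ)) -
          (Fintype.card X : ℝ) * ∑ z, ∑ j, (Ψ' z j r : ℝ)| * (16 * p)) ≤
            p * ((Fintype.card Z : ℝ) * (Fintype.card X : ℝ) * U) := by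
        calc _ = 16 * (p : ℝ) ^ 2 * |(Fintype.card Z : ℝ) * (∑ x, ∑ j, (Ψ x j r : ℝ)) -
              (Fintype.card X : ℝ) * ∑ z, ∑ j, (Ψ' z j r : ℝ)| := by ring
          _ ≤ _ := h4
          _ = _ := by ring
      exact le_of_mul_le_mul_left h5 hp'
    have h6 : ∀ r, |y r| ≤ s := by
      intro r
      rw [hs, ← Real.sqrt_sq_eq_abs]
      exact Real.sqrt_le_sqrt (Finset.single_le_sum (f := fun r => y r ^ 2)
        (fun r _ => sq_nonneg _) (Finset.mem_univ r))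
    rw [h2]
    set C : ℝ := (Fintype.card Z : ℝ) * (Fintype.card X : ℝ) * U with hC
    have hC0 : 0 ≤ C := by positivity
    have h7 : |∑ r, y r * ((Fintype.card Z : ℝ) * (∑ x, ∑ j, (Ψ x j r : ℝ)) -
        (Fintype.card X : ℝ) * ∑ z, ∑ j, (Ψ' z j r : ℝ))| * (16 * p) ≤ p * (s * C) := by
      refine (mul_le_mul_of_nonneg_right (Finset.abs_sum_le_sum_abs _ _) (by positivity)).trans ?_
      rw [Finset.sum_mul]
      have h8 : ∀ r ∈ (univ : Finset (Fin p)), |y r * ((Fintype.card Z : ℝ) *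
          (∑ x, ∑ j, (Ψ x j r : ℝ)) - (Fintype.card X : ℝ) * ∑ z, ∑ j, (Ψ' z j r : ℝ))| *
            (16 * p) ≤ s * C := by
        intro r _
        rw [abs_mul, mul_assoc]
        exact mul_le_mul (h6 r) (h3 r) (by positivity) hs0
      refine (Finset.sum_le_sum h8).trans (le_of_eq ?_)
      rw [Finset.sum_const, Finset.card_univ, Fintype.card_fin, nsmul_eq_mul]
    have h9 : (p : ℝ) * (|∑ r, y r * ((Fintype.card Z : ℝ) * (∑ x, ∑ j, (Ψ x j r : ℝ)) -
        (Fintype.card X : ℝ) * ∑ z, ∑ j, (Ψ' z j r : ℝ))| * 16) ≤ p * (C * s) := by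
      linarith
    exact le_of_mul_le_mul_left h9 hp'
  have h2 := (abs_le.1 (show |(Fintype.card Z : ℝ) * (∑ x, ∑ j, lpr y (Ψ x j)) -
      (Fintype.card X : ℝ) * ∑ z, ∑ j, lpr y (Ψ' z j)| ≤
        (Fintype.card Z : ℝ) * (Fintype.card X : ℝ) * U * s / 16 by linarith)).2
  have h3 := mul_le_mul_of_nonneg_left hsum hZ
  have h4 : (Fintype.card X : ℝ) * ((Fintype.card Z : ℝ) * U * s) ≤
      (Fintype.card X : ℝ) * (48 * ∑ z, ∑ j, lpr y (Ψ' z j)) := by
    linarith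
  exact le_of_mul_le_mul_left h4 hX

/-- If the three checks hold and nearly all members of `X` are positive then some member of `Z` is
positive. -/
theorem lt_step_exists {X Z : Type} [Fintype X] [Fintype Z] [Nonempty X] [Nonempty Z]
    (hp : 0 < p) (U : ℤ) (hU : 0 < U) (T : Fin p → Fin p → ℤ)
    (ax : X → Fin p → ℤ) (ex : X → Fin p → ℕ) (az : Z → Fin p → ℤ) (ez : Z → Fin p → ℕ)
    (w : Fin p → ℤ)
    (c1 : ∀ x j, ∑ r, lpsi T (ex x j) (ax x) j r ^ 2 ≤ 9 * (p : ℤ) ^ 2 * U ^ 2)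
    (c2 : ∀ r r', |2 * (p : ℤ) * (∑ x, ∑ j, lpsi T (ex x j) (ax x) j r *
        lpsi T (ex x j) (ax x) j r') -
      (if r = r' then 2 * (p : ℤ) * ((Fintype.card X : ℤ) * p * U ^ 2) else 0)| ≤
        (Fintype.card X : ℤ) * p * U ^ 2)
    (c3 : ∀ r, 16 * (p : ℤ) ^ 2 * |(Fintype.card Z : ℤ) *
        (∑ x, ∑ j, lpsi T (ex x j) (ax x) j r) -
      (Fintype.card X : ℤ) * ∑ z, ∑ j, lpsi T (ez z j) (az z) j r| ≤
        Fintype.card Z * (Fintype.card X : ℤ) * p * U)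
    (bad : Finset X) (hbad : 72 * p ^ 2 * bad.card ≤ Fintype.card X)
    (hgood : ∀ x, x ∉ bad → ∀ j, 0 < ∑ k, w k * ltv (ax x) j k) :
    ∃ z j, 0 < ∑ k, w k * ltv (az z) j k := by
  obtain ⟨y, hs, h1, h2⟩ := lt_step_real hp U hU T ax ex az ez w c1 c2 c3 bad hbad hgood
  by_contra hcon
  push Not at hcon
  have hZ : (0 : ℝ) < Fintype.card Z := by exact_mod_cast Fintype.card_pos
  have hU' : (0 : ℝ) < U := by exact_mod_cast hU
  have h3 : ∑ z, ∑ j, ∑ r, y r * (lpsi T (ez z j) (az z) j r : ℝ) ≤ 0 := by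
    refine Finset.sum_nonpos fun z _ => Finset.sum_nonpos fun j _ => ?_
    rw [h1]
    have h4 : ((∑ k, w k * ltv (az z) j k : ℤ) : ℝ) ≤ 0 := by exact_mod_cast hcon z j
    exact mul_nonpos_of_nonneg_of_nonpos (by positivity) h4
  have h5 : 0 < (Fintype.card Z : ℝ) * U * Real.sqrt (∑ r, y r ^ 2) := by positivity
  linarith

/-- If moreover the first check holds for `Z` then a substantial part of `Z` is positive. -/
theorem lt_step_many {X Z : Type} [Fintype X] [Fintype Z] [Nonempty X]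
    (hp : 0 < p) (U : ℤ) (hU : 0 < U) (T : Fin p → Fin p → ℤ)
    (ax : X → Fin p → ℤ) (ex : X → Fin p → ℕ) (az : Z → Fin p → ℤ) (ez : Z → Fin p → ℕ)
    (w : Fin p → ℤ)
    (c1 : ∀ x j, ∑ r, lpsi T (ex x j) (ax x) j r ^ 2 ≤ 9 * (p : ℤ) ^ 2 * U ^ 2)
    (c2 : ∀ r r', |2 * (p : ℤ) * (∑ x, ∑ j, lpsi T (ex x j) (ax x) j r *
        lpsi T (ex x j) (ax x) j r') -
      (if r = r' then 2 * (p : ℤ) * ((Fintype.card X : ℤ) * p * U ^ 2) else 0)| ≤
        (Fintype.card X : ℤ) * p * U ^ 2)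
    (c3 : ∀ r, 16 * (p : ℤ) ^ 2 * |(Fintype.card Z : ℤ) *
        (∑ x, ∑ j, lpsi T (ex x j) (ax x) j r) -
      (Fintype.card X : ℤ) * ∑ z, ∑ j, lpsi T (ez z j) (az z) j r| ≤
        Fintype.card Z * (Fintype.card X : ℤ) * p * U)
    (c1' : ∀ z j, ∑ r, lpsi T (ez z j) (az z) j r ^ 2 ≤ 9 * (p : ℤ) ^ 2 * U ^ 2)
    (bad : Finset X) (hbad : 72 * p ^ 2 * bad.card ≤ Fintype.card X)
    (hgood : ∀ x, x ∉ bad → ∀ j, 0 < ∑ k, w k * ltv (ax x) j k)
    (pos : Finset Z) (hpos : ∀ z, z ∉ pos → ∀ j, ∑ k, w k * ltv (az z) j k ≤ 0) :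
    Fintype.card Z ≤ 144 * p ^ 2 * pos.card := by
  classical
  obtain ⟨y, hs, h1, h2⟩ := lt_step_real hp U hU T ax ex az ez w c1 c2 c3 bad hbad hgood
  have hU' : (0 : ℝ) < U := by exact_mod_cast hU
  set s := Real.sqrt (∑ r, y r ^ 2) with hsd
  have h3 : ∀ z, ∑ j, ∑ r, y r * (lpsi T (ez z j) (az z) j r : ℝ) ≤
      if z ∈ pos then p * (3 * p * U * s) else 0 := by
    intro z
    by_cases hz : z ∈ pos
    · rw [if_pos hz]
      have h4 : ∀ j ∈ (univ : Finset (Fin p)), ∑ r, y r * (lpsi T (ez z j) (az z) j r : ℝ) ≤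
          3 * p * U * s := fun j _ => (le_abs_self _).trans (step_cs y _ hU (c1' z j))
      refine (Finset.sum_le_sum h4).trans (le_of_eq ?_)
      rw [Finset.sum_const, Finset.card_univ, Fintype.card_fin, nsmul_eq_mul]
    · rw [if_neg hz]
      refine Finset.sum_nonpos fun j _ => ?_
      rw [h1]
      have h4 : ((∑ k, w k * ltv (az z) j k : ℤ) : ℝ) ≤ 0 := by exact_mod_cast hpos z hz j
      exact mul_nonpos_of_nonneg_of_nonpos (by positivity) h4
  have h5 := Finset.sum_le_sum fun z (_ : z ∈ (univ : Finset Z)) => h3 z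
  rw [Finset.sum_ite_mem, Finset.univ_inter, Finset.sum_const, nsmul_eq_mul] at h5
  have h6 : (U * s) * (Fintype.card Z : ℝ) ≤ (U * s) * (144 * p ^ 2 * pos.card) := by
    calc (U * s) * (Fintype.card Z : ℝ) = (Fintype.card Z : ℝ) * U * s := by ring
      _ ≤ 48 * (pos.card * (p * (3 * p * U * s))) := by linarith
      _ = _ := by ring
  have h7 := le_of_mul_le_mul_left h6 (by positivity)
  exact_mod_cast h7

end

end Pool.Agent.Lib.MP_634427_lc.Maj
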