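import Pool.Agent.Lib.MP_634427_lc.Maj.BridgeA

/-!
# Parameters as lists; the combination test

`parC_parL`: `sidx P t t' g` for `t, t', g < P` is `< P ^ 3`, its quotients by `P ^ 2`, `P` are `t`,
`t * P + t'`, and `(sidx : ZMod P) = g`, `((t * P + t' : ℕ) : ZMod P) = t'`. `botN_iff`: compare the
components, `ZMod.natCast_eq_natCast_iff'`, `Nat.mod_eq_of_lt` (`1 < P`).
-/

namespace Pool.Agent.Lib.MP_634427_lc.Maj

open Pool.Agent.Lib.MP_634427_lc

private theorem getD_fn {α : Type} {n : ℕ} (f : Fin n → α) (i : Fin n) (d : α) :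
    (List.ofFn f).getD i.val d = f i := by
  rw [List.getD_eq_getElem _ _ (by simp)]
  simp

private theorem getD_mr {α : Type} {n : ℕ} (f : ℕ → α) {i : ℕ} (hi : i < n) (d : α) :
    ((List.range n).map f).getD i d = f i := by
  rw [List.getD_eq_getElem _ _ (by simpa using hi)]
  simp

private theorem sidx_lt {P t t' g : ℕ} (ht : t < P) (ht' : t' < P) (hg : g < P) :
    sidx P t t' g < P ^ 3 := by
  have h1 : t * P + t' + 1 ≤ P * P := by
    calc t * P + t' + 1 ≤ t * P + P := by omega
      _ = (t + 1) * P := by ring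
      _ ≤ P * P := Nat.mul_le_mul_right _ ht
  have h2 : (t * P + t' + 1) * P ≤ P * P * P := Nat.mul_le_mul_right _ h1
  unfold sidx
  calc (t * P + t') * P + g < (t * P + t') * P + P := by omega
    _ = (t * P + t' + 1) * P := by ring
    _ ≤ P * P * P := h2
    _ = P ^ 3 := by ring

private theorem sidx_div {P t t' g : ℕ} (hg : g < P) : sidx P t t' g / P = t * P + t' := by
  unfold sidx
  rw [Nat.add_comm, Nat.add_mul_div_right _ _ (by omega), Nat.div_eq_of_lt hg, Nat.zero_add]

private theorem sidx_div2 {P t t' g : ℕ} (ht' : t' < P) (hg : g < P) :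
    sidx P t t' g / P / P = t := by
  rw [sidx_div hg, Nat.add_comm, Nat.add_mul_div_right _ _ (by omega), Nat.div_eq_of_lt ht',
    Nat.zero_add]

theorem parC_parL {P m n : ℕ} [NeZero P] (π : Par P m n) : parC P m n (parL π) = π := by
  unfold parC parL
  refine Prod.ext (Prod.ext ?_ ?_) ?_
  · funext j
    show (((List.ofFn fun j => (π.1.1 j).val).getD j.val 0 : ℕ) : ZMod P) = π.1.1 j
    rw [getD_fn, ZMod.natCast_zmod_val]
  · funext j
    show (((List.ofFn fun j => (π.1.2 j).val).getD j.val 0 : ℕ) : ZMod P) = π.1.2 j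
    rw [getD_fn, ZMod.natCast_zmod_val]
  · funext s i
    obtain ⟨t, t', g⟩ := s
    have h1 := ZMod.val_lt t
    have h2 := ZMod.val_lt t'
    have h3 := ZMod.val_lt g
    show (((((List.range (P ^ 3)).map fun k => List.ofFn fun i =>
      (π.2 (((k / P / P : ℕ) : ZMod P), (((k / P : ℕ) : ZMod P), ((k : ℕ) : ZMod P))) i).val).getD
        (sidx P t.val t'.val g.val) []).getD i.val 0 : ℕ) : ZMod P) = π.2 (t, (t', g)) i
    rw [getD_mr _ (sidx_lt h1 h2 h3), getD_fn, ZMod.natCast_zmod_val, sidx_div2 h2 h3, sidx_div h3,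
      ZMod.natCast_zmod_val]
    have e1 : ((t.val * P + t'.val : ℕ) : ZMod P) = t' := by
      rw [Nat.cast_add, Nat.cast_mul, ZMod.natCast_self, mul_zero, zero_add,
        ZMod.natCast_zmod_val]
    have e2 : ((sidx P t.val t'.val g.val : ℕ) : ZMod P) = g := by
      unfold sidx
      rw [Nat.cast_add, Nat.cast_mul, ZMod.natCast_self, mul_zero, zero_add,
        ZMod.natCast_zmod_val]
    rw [e1, e2]

private theorem sum_rg {P : ℕ} (n : ℕ) (a b : ℕ → ℕ) :
    (((List.range n).map fun i => a i * b i).sum : ZMod P) =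
      ∑ i : Fin n, ((a i.val : ℕ) : ZMod P) * ((b i.val : ℕ) : ZMod P) := by
  induction n with
  | zero => simp
  | succ n ih =>
    rw [List.range_succ, List.map_append, List.sum_append, Nat.cast_add, ih, Fin.sum_univ_castSucc]
    simp

/-- The combination test. -/
theorem botN_iff {P m n : ℕ} [Fact P.Prime] (D : IL) (y : List ℕ) : botN P m n D y = true ↔
    ∑ i : Fin n, ((y.getD i.val 0 : ℕ) : ZMod P) • itmC P m n D i =
      ((0 : Fin m → ZMod P), (1 : ZMod P)) := by
  have hP : 1 < P := (Fact.out : P.Prime).one_lt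
  have key : ∀ j : ℕ, (((List.range n).map fun i => y.getD i 0 * (D.getD i []).getD j 0).sum % P =
      if j = 0 then 1 else 0) ↔ ∑ i : Fin n, ((y.getD i.val 0 : ℕ) : ZMod P) *
        (((D.getD i.val []).getD j 0 : ℕ) : ZMod P) = ((if j = 0 then 1 else 0 : ℕ) : ZMod P) := by
    intro j
    rw [← sum_rg n (fun i => y.getD i 0) (fun i => (D.getD i []).getD j 0),
      ZMod.natCast_eq_natCast_iff']
    have : (if j = 0 then 1 else 0) % P = (if j = 0 then 1 else 0) := by
      apply Nat.mod_eq_of_lt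
      split_ifs <;> omega
    rw [this]
  have c1 : ∀ j : Fin m, (∑ i : Fin n, ((y.getD i.val 0 : ℕ) : ZMod P) • itmC P m n D i).1 j =
      ∑ i : Fin n, ((y.getD i.val 0 : ℕ) : ZMod P) *
        (((D.getD i.val []).getD (j.val + 1) 0 : ℕ) : ZMod P) := by
    intro j
    rw [Prod.fst_sum, Finset.sum_apply]
    rfl
  have c2 : (∑ i : Fin n, ((y.getD i.val 0 : ℕ) : ZMod P) • itmC P m n D i).2 =
      ∑ i : Fin n, ((y.getD i.val 0 : ℕ) : ZMod P) *
        (((D.getD i.val []).getD 0 0 : ℕ) : ZMod P) := by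
    rw [Prod.snd_sum]
    rfl
  unfold botN
  rw [List.all_eq_true]
  constructor
  · intro h
    have h' : ∀ j < m + 1, ∑ i : Fin n, ((y.getD i.val 0 : ℕ) : ZMod P) *
        (((D.getD i.val []).getD j 0 : ℕ) : ZMod P) = ((if j = 0 then 1 else 0 : ℕ) : ZMod P) :=
      fun j hj => (key j).1 (of_decide_eq_true (h j (List.mem_range.2 hj)))
    refine Prod.ext ?_ ?_
    · funext j
      rw [c1, h' (j.val + 1) (by omega)]
      simp
    · rw [c2, h' 0 (by omega)]
      simp
  · intro h j hj
    refine decide_eq_true ((key j).2 ?_)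
    rw [List.mem_range] at hj
    rcases Nat.eq_zero_or_pos j with h0 | h0
    · subst h0
      rw [← c2, h]
      simp
    · obtain ⟨j', rfl⟩ : ∃ j', j = j' + 1 := ⟨j - 1, by omega⟩
      have := c1 ⟨j', by omega⟩
      rw [← this, h]
      simp

/-- The combination test for given coefficients. -/
theorem botN_ofFn {P m n : ℕ} [Fact P.Prime] (D : Itm P m n) (y : Fin n → ZMod P)
    (h : ∑ i, y i • D i = ((0 : Fin m → ZMod P), (1 : ZMod P))) :
    botN P m n (itmL D) (List.ofFn fun i => (y i).val) = true := by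
  haveI : NeZero P := ⟨(Fact.out : P.Prime).ne_zero⟩
  rw [botN_iff, itmC_itmL, ← h]
  refine Finset.sum_congr rfl fun i _ => ?_
  rw [getD_fn, ZMod.natCast_zmod_val]

end Pool.Agent.Lib.MP_634427_lc.Maj
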