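import Pool.Agent.Lib.MP_634427_lc.Maj.Defs

/-!
# The integer vectors and the three checks of the weighted version

Every item has an integer vector `a` (the vector of its vote); the functional of the oracle is
positive on `a` if the item is true and negative if it is false. The item has the `p` vectors
`2 * a + e_j`. The certificate of a level contains an integer matrix `T` and exponents `e`, the
vectors of the checks are `Psi = 2 ^ e * T (2 * a + e_j)`, and `U` is the unit of length.
-/

namespace Pool.Agent.Lib.MP_634427_lc.Maj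

/-- The `j`-th vector of an item with vector `a`. -/
def ltv {p : ℕ} (a : Fin p → ℤ) (j k : Fin p) : ℤ := 2 * a k + if k = j then 1 else 0

/-- The vector of the checks. -/
def lpsi {p : ℕ} (T : Fin p → Fin p → ℤ) (e : ℕ) (a : Fin p → ℤ) (j r : Fin p) : ℤ :=
  2 ^ e * ∑ k, T r k * ltv a j k

/-- First check: the vectors of the children are not longer than `3 * p * U`. -/
def LtC1 {P m n p : ℕ} (a : Itm P m (n + 1) → Fin p → ℤ) (U : ℤ) (T : Fin p → Fin p → ℤ)
    (D : Itm P m n) (π : Par P m n) (ec : Seed P → ZMod P → Fin p → ℕ) : Prop :=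
  ∀ s c j, ∑ r, lpsi T (ec s c j) (a (kid D π s c)) j r ^ 2 ≤ 9 * (p : ℤ) ^ 2 * U ^ 2

/-- Second check: the second moments over the children are nearly those of an orthonormal basis. -/
def LtC2 {P m n p : ℕ} [NeZero P] (a : Itm P m (n + 1) → Fin p → ℤ) (U : ℤ)
    (T : Fin p → Fin p → ℤ) (D : Itm P m n) (π : Par P m n)
    (ec : Seed P → ZMod P → Fin p → ℕ) : Prop :=
  ∀ r r', |2 * (p : ℤ) * (∑ s : Seed P, ∑ c : ZMod P, ∑ j,
      lpsi T (ec s c j) (a (kid D π s c)) j r * lpsi T (ec s c j) (a (kid D π s c)) j r') -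
    (if r = r' then 2 * (p : ℤ) * ((P : ℤ) ^ 4 * p * U ^ 2) else 0)| ≤ (P : ℤ) ^ 4 * p * U ^ 2

/-- Third check: the mean over the children is near the mean over the list of the next level. -/
def LtC3 {P m n p M : ℕ} [NeZero P] (a : Itm P m (n + 1) → Fin p → ℤ) (U : ℤ)
    (T : Fin p → Fin p → ℤ) (D : Itm P m n) (π : Par P m n)
    (ec : Seed P → ZMod P → Fin p → ℕ) (Y : Fin M → Itm P m (n + 1))
    (ey : Fin M → Fin p → ℕ) : Prop :=
  ∀ r, 16 * (p : ℤ) ^ 2 * |(M : ℤ) * (∑ s : Seed P, ∑ c : ZMod P, ∑ j,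
      lpsi T (ec s c j) (a (kid D π s c)) j r) -
    (P : ℤ) ^ 4 * ∑ l, ∑ j, lpsi T (ey l j) (a (Y l)) j r| ≤ M * (P : ℤ) ^ 4 * p * U

/-- Bound for the exponents: `p` is the dimension, `b` bounds the bit lengths of the vectors and `c`
the bit length of the number of the items. -/
def ltK (p b c : ℕ) : ℕ := c + 2 * p + 2 * b + 4 + (p ^ 2 + p * (c + p + 2 * b + 4))

/-- The number of binary places of the matrix. -/
def ltL (p b : ℕ) : ℕ := b + 3 * p + 8

end Pool.Agent.Lib.MP_634427_lc.Maj
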