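import Pool.Agent.Lib.MP_634427_lc.Maj.LtNum
import Pool.Agent.Lib.MP_634427_lc.Maj.LtDefs
import Pool.Agent.Lib.MP_634427_lc.Maj.BridgeC

/-!
# Weighted votes: the checks on lists and the checks for items

`sum_famK` is proved like `sum_kids`.
-/

namespace Pool.Agent.Lib.MP_634427_lc.Maj

open Pool.Agent.Lib.MP_634427_lc

/-- The vector of a list of numbers. -/
def vecZ (p : ℕ) (a : List LT.Num) : Fin p → ℤ := fun k => LT.nval (a.getD k.val ([], []))

/-- The matrix of a list of lists. -/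
def matZ (p : ℕ) (T : List (List LT.Num)) : Fin p → Fin p → ℤ := fun r s =>
  LT.nval (LT.entry T r.val s.val)

/-- The exponents of a list. -/
def expZ (p : ℕ) (e : List ℕ) : Fin p → ℕ := fun j => e.getD j.val 0

/-- The exponents of the children. -/
def expK (P p : ℕ) (E : List (List ℕ)) : Seed P → ZMod P → Fin p → ℕ := fun s c =>
  expZ p (E.getD (sidx P s.1.val s.2.1.val s.2.2.val * P + c.val) [])

/-- The vector of an item. -/
def aZ (vt : Word × Word → List LT.Num) (x : Word) (P m p n : ℕ) (D : Itm P m n) : Fin p → ℤ :=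
  vecZ p (vt (x, quest x P (itmL D)))

theorem absle_iff (a b : LT.Num) : absle a b = true ↔ |LT.nval a| ≤ LT.nval b := by
  unfold absle
  rw [Bool.and_eq_true, LT.nle_iff, LT.nle_iff, LT.nval_nneg, abs_le]
  constructor
  · rintro ⟨h1, h2⟩
    exact ⟨by linarith, h1⟩
  · rintro ⟨h1, h2⟩
    exact ⟨h2, by linarith⟩

private theorem sum_rngf {M : Type} [AddCommMonoid M] (p : ℕ) (f : ℕ → M) :
    ((List.range p).map f).sum = ∑ s : Fin p, f s.val := by
  rw [LT.sum_map_range, Finset.sum_range]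

theorem nval_psiN {p : ℕ} (T : List (List LT.Num)) (a : List LT.Num) (e : ℕ) (j r : Fin p) :
    LT.nval (psiN p T a e j.val r.val) = lpsi (matZ p T) e (vecZ p a) j r := by
  unfold psiN lpsi
  rw [LT.nval_nmul, LT.nval_npow2, LT.nval_nsum, List.map_map, sum_rngf]
  congr 1
  refine Finset.sum_congr rfl fun s _ => ?_
  show LT.nval (LT.nmul _ _) = _
  rw [LT.nval_nmul]
  unfold ltv vvN matZ vecZ
  rw [LT.nval_nadd, LT.nval_nadd]
  by_cases h : s = j
  · subst h
    simp only [decide_true, cond_true, if_true, LT.nval_nofNat]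
    push_cast
    ring
  · have h' : ¬ s.val = j.val := fun h1 => h (Fin.ext h1)
    simp only [h, h', decide_false, cond_false, if_false, LT.nval_nofNat]
    push_cast
    ring

private theorem sum_flat {α β γ : Type} [AddCommMonoid γ] (l : List α) (f : α → List β)
    (F : β → γ) : ((l.flatMap f).map F).sum = (l.map fun a => ((f a).map F).sum).sum := by
  induction l with
  | nil => rfl
  | cons a l ih =>
    rw [List.flatMap_cons, List.map_append, List.sum_append, ih, List.map_cons, List.sum_cons]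

theorem nval_fm1 {p : ℕ} (T : List (List LT.Num)) (G : Fam) (r : Fin p) :
    LT.nval (fm1 p T G r.val) =
      (G.map fun g => ∑ j, lpsi (matZ p T) (expZ p g.2 j) (vecZ p g.1) j r).sum := by
  unfold fm1
  rw [LT.nval_nsum, sum_flat]
  refine congrArg List.sum (List.map_congr_left fun g _ => ?_)
  rw [List.map_map, sum_rngf]
  refine Finset.sum_congr rfl fun j _ => ?_
  exact nval_psiN T g.1 (g.2.getD j.val 0) j r

theorem nval_fm2 {p : ℕ} (T : List (List LT.Num)) (G : Fam) (r r' : Fin p) :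
    LT.nval (fm2 p T G r.val r'.val) =
      (G.map fun g => ∑ j, lpsi (matZ p T) (expZ p g.2 j) (vecZ p g.1) j r *
        lpsi (matZ p T) (expZ p g.2 j) (vecZ p g.1) j r').sum := by
  unfold fm2
  rw [LT.nval_nsum, sum_flat]
  refine congrArg List.sum (List.map_congr_left fun g _ => ?_)
  rw [List.map_map, sum_rngf]
  refine Finset.sum_congr rfl fun j _ => ?_
  show LT.nval (LT.nmul _ _) = _
  rw [LT.nval_nmul, nval_psiN T g.1 (g.2.getD j.val 0) j r,
    nval_psiN T g.1 (g.2.getD j.val 0) j r']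
  rfl

private theorem all_rng (p : ℕ) (f : ℕ → Bool) :
    (List.range p).all f = true ↔ ∀ r : Fin p, f r.val = true := by
  rw [List.all_eq_true]
  exact ⟨fun h r => h r.val (List.mem_range.2 r.2), fun h r hr => h ⟨r, List.mem_range.1 hr⟩⟩

theorem c1N_iff {p u : ℕ} (T : List (List LT.Num)) (G : Fam) : c1N p u T G = true ↔
    ∀ g ∈ G, ∀ j, ∑ r, lpsi (matZ p T) (expZ p g.2 j) (vecZ p g.1) j r ^ 2 ≤
      9 * (p : ℤ) ^ 2 * (2 ^ u) ^ 2 := by
  unfold c1N
  rw [List.all_eq_true]
  refine forall₂_congr fun g _ => ?_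
  rw [all_rng]
  refine forall_congr' fun j => ?_
  rw [LT.nle_iff, LT.nval_nsum, LT.nval_nmul, LT.nval_nofNat, LT.nval_npow2, List.map_map,
    sum_rngf]
  have h1 : ∑ s : Fin p, (LT.nval ∘ fun r => LT.nmul (psiN p T g.1 (g.2.getD j.val 0) j.val r)
      (psiN p T g.1 (g.2.getD j.val 0) j.val r)) s.val =
      ∑ r, lpsi (matZ p T) (expZ p g.2 j) (vecZ p g.1) j r ^ 2 := by
    refine Finset.sum_congr rfl fun r _ => ?_
    show LT.nval (LT.nmul _ _) = _
    rw [LT.nval_nmul, nval_psiN T g.1 (g.2.getD j.val 0) j r, pow_two]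
    rfl
  have h2 : ((9 * p ^ 2 : ℕ) : ℤ) * 2 ^ (2 * u) = 9 * (p : ℤ) ^ 2 * (2 ^ u) ^ 2 := by
    push_cast
    rw [← pow_mul, Nat.mul_comm u 2]
  rw [h1, h2]

theorem c2N_iff {p u N : ℕ} (T : List (List LT.Num)) (G : Fam) : c2N p u N T G = true ↔
    ∀ r r' : Fin p, |2 * (p : ℤ) * (G.map fun g => ∑ j,
        lpsi (matZ p T) (expZ p g.2 j) (vecZ p g.1) j r *
          lpsi (matZ p T) (expZ p g.2 j) (vecZ p g.1) j r').sum -
      (if r = r' then 2 * (p : ℤ) * ((N : ℤ) * p * (2 ^ u) ^ 2) else 0)| ≤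
        (N : ℤ) * p * (2 ^ u) ^ 2 := by
  unfold c2N
  rw [all_rng]
  refine forall_congr' fun r => ?_
  rw [all_rng]
  refine forall_congr' fun r' => ?_
  rw [absle_iff, LT.nval_nadd, LT.nval_nneg, LT.nval_nmul, LT.nval_nmul, LT.nval_nmul,
    LT.nval_nofNat, LT.nval_nofNat, LT.nval_nofNat, LT.nval_npow2, nval_fm2]
  have h2 : (2 : ℤ) ^ (2 * u) = (2 ^ u) ^ 2 := by rw [← pow_mul, Nat.mul_comm u 2]
  rw [h2]
  by_cases h : r = r'
  · subst h
    simp only [if_true]
    push_cast
    rw [← sub_eq_add_neg, show 2 * (p : ℤ) * (N * p) * (2 ^ u) ^ 2 =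
      2 * (p : ℤ) * (N * p * (2 ^ u) ^ 2) by ring]
  · have h' : ¬ r.val = r'.val := fun h1 => h (Fin.ext h1)
    simp only [h, h', if_false]
    push_cast
    rw [zero_mul, neg_zero, add_zero, sub_zero]

theorem c3N_iff {p u N M : ℕ} (T : List (List LT.Num)) (G G' : Fam) :
    c3N p u N M T G G' = true ↔
    ∀ r : Fin p, 16 * (p : ℤ) ^ 2 * |(M : ℤ) * (G.map fun g => ∑ j,
        lpsi (matZ p T) (expZ p g.2 j) (vecZ p g.1) j r).sum -
      (N : ℤ) * (G'.map fun g => ∑ j, lpsi (matZ p T) (expZ p g.2 j) (vecZ p g.1) j r).sum| ≤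
        M * N * p * 2 ^ u := by
  unfold c3N
  rw [all_rng]
  refine forall_congr' fun r => ?_
  rw [absle_iff, LT.nval_nmul, LT.nval_nadd, LT.nval_nneg, LT.nval_nmul, LT.nval_nmul,
    LT.nval_nmul, LT.nval_nofNat, LT.nval_nofNat, LT.nval_nofNat, LT.nval_nofNat,
    LT.nval_npow2, nval_fm1, nval_fm1, ← sub_eq_add_neg, abs_mul]
  have h1 : |((16 * p ^ 2 : ℕ) : ℤ)| = 16 * (p : ℤ) ^ 2 := by
    rw [abs_of_nonneg (by positivity)]
    push_cast
    ring
  rw [h1]
  push_cast
  rfl

/-! ### The families -/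

private theorem sum_rngz {α : Type} [AddCommMonoid α] (P : ℕ) [NeZero P] (f : ℕ → α)
    (g : ZMod P → α) (h : ∀ t < P, f t = g (t : ZMod P)) :
    ((List.range P).map f).sum = ∑ t, g t := by
  have h1 : ((List.range P).map f).sum = ∑ t ∈ Finset.range P, f t := rfl
  rw [h1]
  refine Finset.sum_nbij' (fun t => (t : ZMod P)) ZMod.val (fun _ _ => Finset.mem_univ _)
    (fun t _ => Finset.mem_range.2 (ZMod.val_lt t)) (fun t ht => ?_) (fun t _ => ?_)
    (fun t ht => h t (Finset.mem_range.1 ht))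
  · exact ZMod.val_natCast_of_lt (Finset.mem_range.1 ht)
  · exact ZMod.natCast_zmod_val t

theorem sum_famK {α : Type} [AddCommMonoid α] (vt : Word × Word → List LT.Num) (x : Word)
    (P m n : ℕ) [NeZero P] (a : WNode) (F : List LT.Num × List ℕ → α) :
    ((famK vt x P m n a).map F).sum = ∑ s : Seed P, ∑ c : ZMod P,
      F (vt (x, quest x P (itmL (kid (itmC P m n a.1.1.1) (parC P m n a.1.1.2) s c))),
        a.2.2.getD (sidx P s.1.val s.2.1.val s.2.2.val * P + c.val) []) := by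
  unfold famK
  rw [sum_flat, Fintype.sum_prod_type]
  refine sum_rngz P _ _ fun t ht => ?_
  rw [sum_flat, Fintype.sum_prod_type]
  refine sum_rngz P _ _ fun t' ht' => ?_
  rw [sum_flat]
  refine sum_rngz P _ _ fun g hg => ?_
  rw [List.map_map]
  refine sum_rngz P _ _ fun c hc => ?_
  rw [Function.comp_apply, kidN_eq P m n _ _ ht ht' hg c, ZMod.val_natCast_of_lt ht,
    ZMod.val_natCast_of_lt ht', ZMod.val_natCast_of_lt hg, ZMod.val_natCast_of_lt hc]

theorem mem_famK {vt : Word × Word → List LT.Num} {x : Word} {P m n : ℕ} [NeZero P] {a : WNode}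
    {g : List LT.Num × List ℕ} : g ∈ famK vt x P m n a ↔ ∃ (s : Seed P) (c : ZMod P),
      g = (vt (x, quest x P (itmL (kid (itmC P m n a.1.1.1) (parC P m n a.1.1.2) s c))),
        a.2.2.getD (sidx P s.1.val s.2.1.val s.2.2.val * P + c.val) []) := by
  unfold famK
  constructor
  · intro h
    obtain ⟨t, ht, h⟩ := List.mem_flatMap.1 h
    obtain ⟨t', ht', h⟩ := List.mem_flatMap.1 h
    obtain ⟨g', hg', h⟩ := List.mem_flatMap.1 h
    obtain ⟨c, hc, rfl⟩ := List.mem_map.1 h
    refine ⟨((t : ZMod P), ((t' : ZMod P), (g' : ZMod P))), (c : ZMod P), ?_⟩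
    rw [kidN_eq P m n _ _ (List.mem_range.1 ht) (List.mem_range.1 ht') (List.mem_range.1 hg') c,
      ZMod.val_natCast_of_lt (List.mem_range.1 ht), ZMod.val_natCast_of_lt (List.mem_range.1 ht'),
      ZMod.val_natCast_of_lt (List.mem_range.1 hg'), ZMod.val_natCast_of_lt (List.mem_range.1 hc)]
  · rintro ⟨s, c, rfl⟩
    refine List.mem_flatMap.2 ⟨s.1.val, List.mem_range.2 (ZMod.val_lt _), List.mem_flatMap.2
      ⟨s.2.1.val, List.mem_range.2 (ZMod.val_lt _), List.mem_flatMap.2
        ⟨s.2.2.val, List.mem_range.2 (ZMod.val_lt _), List.mem_map.2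
          ⟨c.val, List.mem_range.2 (ZMod.val_lt _), ?_⟩⟩⟩⟩
    rw [kidN_eq P m n _ _ (ZMod.val_lt _) (ZMod.val_lt _) (ZMod.val_lt _) c.val,
      ZMod.natCast_zmod_val, ZMod.natCast_zmod_val, ZMod.natCast_zmod_val, ZMod.natCast_zmod_val]

private theorem sum_getDz {α β : Type} [AddCommMonoid β] (Y : List α) (d : α) (f : α → β) :
    (Y.map f).sum = ∑ l : Fin Y.length, f (Y.getD l.val d) := by
  induction Y with
  | nil => simp
  | cons a Y ih =>
    rw [List.map_cons, List.sum_cons, ih]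
    simp only [List.length_cons]
    rw [Fin.sum_univ_succ]
    simp

theorem c1_iff {vt : Word × Word → List LT.Num} {x : Word} {P m n p u : ℕ} [NeZero P]
    {T : List (List LT.Num)} {a : WNode} : c1N p u T (famK vt x P m n a) = true ↔
      LtC1 (aZ vt x P m p (n + 1)) (2 ^ u) (matZ p T) (itmC P m n a.1.1.1) (parC P m n a.1.1.2)
        (expK P p a.2.2) := by
  rw [c1N_iff]
  constructor
  · intro h s c j
    exact h _ (mem_famK.2 ⟨s, c, rfl⟩) j
  · intro h g hg j
    obtain ⟨s, c, rfl⟩ := mem_famK.1 hg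
    exact h s c j

theorem c2_iff {vt : Word × Word → List LT.Num} {x : Word} {P m n p u : ℕ} [NeZero P]
    {T : List (List LT.Num)} {a : WNode} : c2N p u (P ^ 4) T (famK vt x P m n a) = true ↔
      LtC2 (aZ vt x P m p (n + 1)) (2 ^ u) (matZ p T) (itmC P m n a.1.1.1) (parC P m n a.1.1.2)
        (expK P p a.2.2) := by
  rw [c2N_iff]
  refine forall₂_congr fun r r' => ?_
  rw [sum_famK]
  push_cast
  rfl

theorem c3_iff {vt : Word × Word → List LT.Num} {x : Word} {P m n p u M : ℕ} [NeZero P]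
    {T : List (List LT.Num)} {a : WNode} {Y : List WNode} (hY : Y.length = M) :
    c3N p u (P ^ 4) M T (famK vt x P m n a) (famL vt x P m (n + 1) Y) = true ↔
      LtC3 (aZ vt x P m p (n + 1)) (2 ^ u) (matZ p T) (itmC P m n a.1.1.1) (parC P m n a.1.1.2)
        (expK P p a.2.2) (fun l : Fin M => itmC P m (n + 1) (Y.getD l.val wnil).1.1.1)
        (fun l => expZ p (Y.getD l.val wnil).2.1) := by
  rw [c3N_iff]
  refine forall_congr' fun r => ?_
  have h1 : ((famL vt x P m (n + 1) Y).map fun g => ∑ j,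
      lpsi (matZ p T) (expZ p g.2 j) (vecZ p g.1) j r).sum = ∑ l : Fin M, ∑ j,
        lpsi (matZ p T) (expZ p (Y.getD l.val wnil).2.1 j)
          (aZ vt x P m p (n + 1) (itmC P m (n + 1) (Y.getD l.val wnil).1.1.1)) j r := by
    subst hY
    unfold famL
    rw [List.map_map]
    have h2 : Y.map ((fun g : List LT.Num × List ℕ => ∑ j, lpsi (matZ p T) (expZ p g.2 j)
        (vecZ p g.1) j r) ∘ fun a : WNode =>
          (vt (x, quest x P (normN P m (n + 1) a.1.1.1)), a.2.1)) =
        Y.map fun a => ∑ j, lpsi (matZ p T) (expZ p a.2.1 j)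
          (aZ vt x P m p (n + 1) (itmC P m (n + 1) a.1.1.1)) j r := by
      refine List.map_congr_left fun a _ => ?_
      show ∑ j, lpsi (matZ p T) (expZ p a.2.1 j)
        (vecZ p (vt (x, quest x P (normN P m (n + 1) a.1.1.1)))) j r = _
      rw [normN_eq]
      rfl
    rw [h2, sum_getDz Y wnil]
  rw [sum_famK, h1]
  push_cast
  rfl

end Pool.Agent.Lib.MP_634427_lc.Maj
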