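import Pool.Agent.Lib.MP_634427_lc.Maj.SizeN

/-!
# The size of a node

The entries are `< P`; a list of `k` numbers `< P` has size `≤ k * P`; the item has `n ≤ m + 2` rows of
length `m + 1`, the multipliers are `P ^ 3` lists of length `n`.
-/

namespace Pool.Agent.Lib.MP_634427_lc.Maj

open Pool.Agent.Lib.MP_634427_lc

private theorem szn_list {α : Type} [Enc α] (B : ℕ) (l : List α) (h : ∀ a ∈ l, sz a ≤ B) :
    sz l ≤ l.length * (B + 1) := by
  induction l with
  | nil => simp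
  | cons a l ih =>
    have h1 := h a List.mem_cons_self
    have h2 := ih fun b hb => h b (List.mem_cons_of_mem a hb)
    rw [sz_cons, List.length_cons, Nat.succ_mul]
    omega

private theorem szn_vals {P k : ℕ} [NeZero P] (f : Fin k → ZMod P) :
    sz (List.ofFn fun i => (f i).val) ≤ k * P := by
  have hP : 0 < P := Nat.pos_of_ne_zero (NeZero.ne P)
  have h := szn_list (P - 1) (List.ofFn fun i => (f i).val) (by
    intro a ha
    obtain ⟨i, rfl⟩ := (List.mem_ofFn' _ _).1 ha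
    rw [sz_nat]
    exact Nat.le_sub_one_of_lt (ZMod.val_lt (f i)))
  rwa [List.length_ofFn, Nat.sub_add_cancel hP] at h

private theorem szn_row {P m : ℕ} [NeZero P] (r : Row P m) : sz (rowL r) ≤ (m + 1) * P := by
  have h := szn_vals r.1
  have h2 := ZMod.val_lt r.2
  unfold rowL
  rw [sz_cons, sz_nat, Nat.succ_mul]
  omega

private theorem szn_itm {P m n : ℕ} [NeZero P] (D : Itm P m n) :
    sz (itmL D) ≤ n * ((m + 1) * P + 1) := by
  have h := szn_list ((m + 1) * P) (itmL D) (by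
    intro a ha
    obtain ⟨i, rfl⟩ := (List.mem_ofFn' _ _).1 ha
    exact szn_row _)
  unfold itmL at h ⊢
  rwa [List.length_ofFn] at h

private theorem szn_par {P m n : ℕ} [NeZero P] (π : Par P m n) :
    sz (parL π) ≤ m * P + m * P + 1 + P ^ 3 * (n * P + 1) + 1 := by
  have h := szn_list (n * P) ((List.range (P ^ 3)).map fun k => List.ofFn fun i =>
      (π.2 (((k / P / P : ℕ) : ZMod P), (((k / P : ℕ) : ZMod P), ((k : ℕ) : ZMod P))) i).val) (by
    intro a ha
    obtain ⟨k, -, rfl⟩ := List.mem_map.1 ha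
    exact szn_vals _)
  rw [List.length_map, List.length_range] at h
  have h1 := szn_vals π.1.1
  have h2 := szn_vals π.1.2
  unfold parL
  rw [sz_pair, sz_pair]
  omega

/-- The nodes of a certificate are small. -/
theorem sz_node_le {P m n : ℕ} [NeZero P] (D : Itm P m n) (π : Par P m n)
    (y : Fin n → ZMod P) (hn : n ≤ m + 2) :
    sz ((((itmL D, parL π), List.ofFn fun i => (y i).val) : Node)) ≤ nlen P m := by
  have h1 := szn_itm D
  have h2 := szn_par π
  have h3 := szn_vals y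
  rw [sz_pair, sz_pair]
  have h4 : n * ((m + 1) * P + 1) ≤ (m + 2) * ((m + 1) * P + 1) := Nat.mul_le_mul_right _ hn
  have h5 : P ^ 3 * (n * P + 1) ≤ P ^ 3 * ((m + 2) * P + 1) :=
    Nat.mul_le_mul_left _ (Nat.add_le_add_right (Nat.mul_le_mul_right _ hn) 1)
  have h6 : n * P ≤ (m + 2) * P := Nat.mul_le_mul_right _ hn
  have h7 : (m + 2) * ((m + 1) * P + 1) + (m * P + m * P + 1 + P ^ 3 * ((m + 2) * P + 1) + 1) + 1 +
      (m + 2) * P + 1 ≤ nlen P m := by
    unfold nlen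
    obtain ⟨Q, hQ⟩ : ∃ Q, Q = P + 1 := ⟨_, rfl⟩
    obtain ⟨a, ha⟩ : ∃ a, a = m + 3 := ⟨_, rfl⟩
    have hPQ : P ≤ Q := by omega
    have hQ1 : 1 ≤ Q := by omega
    have ha1 : 1 ≤ a := by omega
    have e1 : (m + 2) * ((m + 1) * P + 1) ≤ a ^ 2 * Q ^ 4 := by
      have : (m + 1) * P + 1 ≤ a * Q ^ 4 := by
        have h : Q ≤ Q ^ 4 := Nat.le_self_pow (by norm_num) Q
        calc (m + 1) * P + 1 ≤ (m + 1) * Q + 1 * Q := by
              exact Nat.add_le_add (Nat.mul_le_mul_left _ hPQ) (by omega)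
          _ = (m + 2) * Q := by ring
          _ ≤ a * Q ^ 4 := Nat.mul_le_mul (by omega) h
      calc (m + 2) * ((m + 1) * P + 1) ≤ a * (a * Q ^ 4) := Nat.mul_le_mul (by omega) this
        _ = a ^ 2 * Q ^ 4 := by ring
    have e0 : a * Q ≤ a ^ 2 * Q ^ 4 := Nat.mul_le_mul (Nat.le_self_pow (by norm_num) a)
      (Nat.le_self_pow (by norm_num) Q)
    have e2 : m * P ≤ a ^ 2 * Q ^ 4 := (Nat.mul_le_mul (by omega) hPQ).trans e0
    have e3 : (m + 2) * P ≤ a ^ 2 * Q ^ 4 := (Nat.mul_le_mul (by omega) hPQ).trans e0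
    have e4 : P ^ 3 * ((m + 2) * P + 1) ≤ a ^ 2 * Q ^ 4 := by
      have h : (m + 2) * P + 1 ≤ a * Q := by
        calc (m + 2) * P + 1 ≤ (m + 2) * Q + 1 * Q :=
              Nat.add_le_add (Nat.mul_le_mul_left _ hPQ) (by omega)
          _ = (m + 3) * Q := by ring
          _ = a * Q := by rw [ha]
      calc P ^ 3 * ((m + 2) * P + 1) ≤ Q ^ 3 * (a * Q) :=
            Nat.mul_le_mul (Nat.pow_le_pow_left hPQ 3) h
        _ = a * Q ^ 4 := by ring
        _ ≤ a ^ 2 * Q ^ 4 := Nat.mul_le_mul_right _ (Nat.le_self_pow (by norm_num) a)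
    have e5 : 4 ≤ a ^ 2 * Q ^ 4 := by
      have : 3 ^ 2 ≤ a ^ 2 := Nat.pow_le_pow_left (by omega) 2
      have h1 : 1 ≤ Q ^ 4 := Nat.one_le_pow _ _ hQ1
      nlinarith
    rw [← hQ, ← ha]
    rw [mul_assoc]
    omega
  omega

end Pool.Agent.Lib.MP_634427_lc.Maj
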