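import Pool.Agent.Lib.MP_634427_lc.Maj.Close

/-!
# The comparison of frequencies in polynomial time
-/

namespace Pool.Agent.Lib.MP_634427_lc.PT

open Pool.Agent.Lib.MP_634427_lc

private lemma eqB {γ : Type} [Enc γ] {f g : γ → List Word} (hf : PT f) (hg : PT g) :
    PT fun c => decide (f c = g c) :=
  eqDec (enc_list_injective enc_word_injective) hf hg

private lemma majCntT {γ : Type} [Enc γ] {v : γ → Maj.SB} {b : γ → List Word} (hv : PT v)
    (hb : PT b) : PT fun c => Maj.cntT (v c) (b c) :=
  length (filter (p := fun c (e : Bool × List Word) => e.1 && decide (e.2 = b c)) hv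
    (and (fst' snd) (eqB (snd' snd) (hb.comp fst))))

private lemma majCntF {γ : Type} [Enc γ] {v : γ → Maj.SB} {b : γ → List Word} (hv : PT v)
    (hb : PT b) : PT fun c => Maj.cntF (v c) (b c) :=
  length (filter (p := fun c (e : Bool × List Word) => !e.1 && decide (e.2 = b c)) hv
    (and (not (fst' snd)) (eqB (snd' snd) (hb.comp fst))))

/-- `PT.all`, `PT.filter`, `PT.length`, `PT.eqDec enc_bundle_injective` (equality of lists of words,
see `PT.eqBundle` in LT/VecPT.lean), `PT.mul`, `PT.add`, `PT.le`. -/
theorem majClose {γ : Type} [Enc γ] {N M R : γ → ℕ} {v w : γ → Maj.SB} (hN : PT N) (hM : PT M)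
    (hR : PT R) (hv : PT v) (hw : PT w) :
    PT fun c => Maj.closeN (N c) (M c) (R c) (v c) (w c) := by
  have hN1 : PT fun p : γ × List Word => N p.1 := hN.comp fst
  have hM1 : PT fun p : γ × List Word => M p.1 := hM.comp fst
  have hR1 : PT fun p : γ × List Word => R p.1 := hR.comp fst
  have hvT : PT fun p : γ × List Word => Maj.cntT (v p.1) p.2 := majCntT (hv.comp fst) snd
  have hvF : PT fun p : γ × List Word => Maj.cntF (v p.1) p.2 := majCntF (hv.comp fst) snd
  have hwT : PT fun p : γ × List Word => Maj.cntT (w p.1) p.2 := majCntT (hw.comp fst) snd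
  have hwF : PT fun p : γ × List Word => Maj.cntF (w p.1) p.2 := majCntF (hw.comp fst) snd
  have hA := add (mul hvT hM1) (mul hwF hN1)
  have hB := add (mul hvF hM1) (mul hwT hN1)
  have hNM := mul hN1 hM1
  exact all (p := fun c (b : List Word) =>
      decide ((Maj.cntT (v c) b * M c + Maj.cntF (w c) b * N c) * R c ≤
        (Maj.cntF (v c) b * M c + Maj.cntT (w c) b * N c) * R c + N c * M c) &&
      decide ((Maj.cntF (v c) b * M c + Maj.cntT (w c) b * N c) * R c ≤
        (Maj.cntT (v c) b * M c + Maj.cntF (w c) b * N c) * R c + N c * M c))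
    (map (f := fun (_ : γ) (e : Bool × List Word) => e.2) (append hv hw) (snd' snd))
    (and (le (mul hA hR1) (add (mul hB hR1) hNM)) (le (mul hB hR1) (add (mul hA hR1) hNM)))

end Pool.Agent.Lib.MP_634427_lc.PT
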