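import Pool.Agent.Lib.MP_634427_lc.Maj.NumPT

/-!
# Computations with items in polynomial time: children, combination test

All numbers are unary. `PT.map`, `PT.flatMap`, `PT.all`, `PT.range`, `PT.getLD`, `PT.mod`, `PT.mul`,
`PT.add`, `PT.eqNat`, `PT.ite`, `PT.majPw`, `PT.majSum`.
-/

namespace Pool.Agent.Lib.MP_634427_lc.PT

open Pool.Agent.Lib.MP_634427_lc
open Pool.Agent.Lib.MP_634427_lc.Maj (IL PL)

variable {γ : Type} [Enc γ]

private lemma ptVec {P t t' g j : γ → ℕ} {u u' : γ → List ℕ} (hP : PT P) (hu : PT u)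
    (hu' : PT u') (ht : PT t) (ht' : PT t') (hg : PT g) (hj : PT j) :
    PT fun c => Maj.vecN (P c) (u c) (u' c) (t c) (t' c) (g c) (j c) :=
  (add (add (add (mul hg (majPw hP ht (add hj (const 2)))) (majPw hP ht' (add hj (const 2))))
    (mul (succ hg) (getLD hj hu (const 0)))) (mul (add (mul hg ht) ht')
      (getLD hj hu' (const 0)))).of_eq fun _ => rfl

private lemma ptNew {P m t t' g k : γ → ℕ} {u u' : γ → List ℕ} (hP : PT P) (hm : PT m)
    (hu : PT u) (hu' : PT u') (ht : PT t) (ht' : PT t') (hg : PT g) (hk : PT k) :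
    PT fun c => Maj.newN (P c) (m c) (u c) (u' c) (t c) (t' c) (g c) (k c) := by
  have h : PT fun c => (List.range (m c)).map fun j =>
      Maj.vecN (P c) (u c) (u' c) (t c) (t' c) (g c) j % P c :=
    map (f := fun c j => Maj.vecN (P c) (u c) (u' c) (t c) (t' c) (g c) j % P c) (range hm)
      (mod (ptVec (hP.comp fst) (hu.comp fst) (hu'.comp fst) (ht.comp fst) (ht'.comp fst)
        (hg.comp fst) snd) (hP.comp fst))
  exact (cons (mod hk hP) h).of_eq fun _ => rfl

private lemma ptCh {P m n : γ → ℕ} {D : γ → IL} {v x : γ → List ℕ} (hP : PT P) (hm : PT m)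
    (hn : PT n) (hD : PT D) (hv : PT v) (hx : PT x) :
    PT fun c => Maj.chN (P c) (m c) (n c) (D c) (v c) (x c) := by
  have h0 : PT fun p : (γ × ℕ) × ℕ => (((D p.1.1).getD p.1.2 []).getD p.2 0 +
      (v p.1.1).getD p.1.2 0 * (x p.1.1).getD p.2 0) % P p.1.1 :=
    mod (add (getLD snd (getLD (snd' fst) (hD.comp (fst' fst)) (const [])) (const 0))
      (mul (getLD (snd' fst) (hv.comp (fst' fst)) (const 0))
        (getLD snd (hx.comp (fst' fst)) (const 0)))) (hP.comp (fst' fst))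
  have h1 : PT fun p : γ × ℕ => (List.range (m p.1 + 1)).map fun j =>
      (((D p.1).getD p.2 []).getD j 0 + (v p.1).getD p.2 0 * (x p.1).getD j 0) % P p.1 :=
    map (f := fun (p : γ × ℕ) (j : ℕ) => (((D p.1).getD p.2 []).getD j 0 +
      (v p.1).getD p.2 0 * (x p.1).getD j 0) % P p.1) (range (succ (hm.comp fst))) h0
  have h2 : PT fun c => (List.range (n c)).map fun i => (List.range (m c + 1)).map fun j =>
      (((D c).getD i []).getD j 0 + (v c).getD i 0 * (x c).getD j 0) % P c :=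
    map (f := fun (c : γ) (i : ℕ) => (List.range (m c + 1)).map fun j =>
      (((D c).getD i []).getD j 0 + (v c).getD i 0 * (x c).getD j 0) % P c) (range hn) h1
  exact (cons hx h2).of_eq fun _ => rfl

private lemma ptKid {P m n t t' g k : γ → ℕ} {D : γ → IL} {π : γ → PL} (hP : PT P)
    (hm : PT m) (hn : PT n) (hD : PT D) (hπ : PT π) (ht : PT t) (ht' : PT t') (hg : PT g)
    (hk : PT k) :
    PT fun c => Maj.kidN (P c) (m c) (n c) (D c) (π c) (t c) (t' c) (g c) (k c) :=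
  (ptCh hP hm hn hD
    (getLD (add (mul (add (mul ht hP) ht') hP) hg) (snd' hπ) (const []))
    (ptNew hP hm (fst' (fst' hπ)) (snd' (fst' hπ)) ht ht' hg hk)).of_eq fun _ => rfl

theorem majKids {P m n : γ → ℕ} {D : γ → IL} {π : γ → PL} (hP : PT P) (hm : PT m) (hn : PT n)
    (hD : PT D) (hπ : PT π) : PT fun c => Maj.kidsN (P c) (m c) (n c) (D c) (π c) := by
  have f4 : PT fun q : (((γ × ℕ) × ℕ) × ℕ) × ℕ => q.1.1.1.1 := fst' (fst' (fst' fst))
  have h4 : PT fun q : (((γ × ℕ) × ℕ) × ℕ) × ℕ => Maj.kidN (P q.1.1.1.1) (m q.1.1.1.1)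
      (n q.1.1.1.1) (D q.1.1.1.1) (π q.1.1.1.1) q.1.1.1.2 q.1.1.2 q.1.2 q.2 :=
    ptKid (hP.comp f4) (hm.comp f4) (hn.comp f4) (hD.comp f4) (hπ.comp f4)
      (snd' (fst' (fst' fst))) (snd' (fst' fst)) (snd' fst) snd
  have h3 : PT fun q : ((γ × ℕ) × ℕ) × ℕ => (List.range (P q.1.1.1)).map fun c =>
      Maj.kidN (P q.1.1.1) (m q.1.1.1) (n q.1.1.1) (D q.1.1.1) (π q.1.1.1) q.1.1.2 q.1.2 q.2 c :=
    map (f := fun (q : ((γ × ℕ) × ℕ) × ℕ) (c : ℕ) => Maj.kidN (P q.1.1.1) (m q.1.1.1)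
      (n q.1.1.1) (D q.1.1.1) (π q.1.1.1) q.1.1.2 q.1.2 q.2 c)
      (range (hP.comp (fst' (fst' fst)))) h4
  have h2 : PT fun q : (γ × ℕ) × ℕ => (List.range (P q.1.1)).flatMap fun g =>
      (List.range (P q.1.1)).map fun c =>
        Maj.kidN (P q.1.1) (m q.1.1) (n q.1.1) (D q.1.1) (π q.1.1) q.1.2 q.2 g c :=
    flatMap (f := fun (q : (γ × ℕ) × ℕ) (g : ℕ) => (List.range (P q.1.1)).map fun c =>
      Maj.kidN (P q.1.1) (m q.1.1) (n q.1.1) (D q.1.1) (π q.1.1) q.1.2 q.2 g c)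
      (range (hP.comp (fst' fst))) h3
  have h1 : PT fun q : γ × ℕ => (List.range (P q.1)).flatMap fun t' =>
      (List.range (P q.1)).flatMap fun g => (List.range (P q.1)).map fun c =>
        Maj.kidN (P q.1) (m q.1) (n q.1) (D q.1) (π q.1) q.2 t' g c :=
    flatMap (f := fun (q : γ × ℕ) (t' : ℕ) => (List.range (P q.1)).flatMap fun g =>
      (List.range (P q.1)).map fun c =>
        Maj.kidN (P q.1) (m q.1) (n q.1) (D q.1) (π q.1) q.2 t' g c)
      (range (hP.comp fst)) h2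
  exact flatMap (f := fun (q : γ) (t : ℕ) => (List.range (P q)).flatMap fun t' =>
      (List.range (P q)).flatMap fun g => (List.range (P q)).map fun c =>
        Maj.kidN (P q) (m q) (n q) (D q) (π q) t t' g c) (range hP) h1

theorem majBot {P m n : γ → ℕ} {D : γ → IL} {y : γ → List ℕ} (hP : PT P) (hm : PT m) (hn : PT n)
    (hD : PT D) (hy : PT y) : PT fun c => Maj.botN (P c) (m c) (n c) (D c) (y c) := by
  have h0 : PT fun q : (γ × ℕ) × ℕ => (y q.1.1).getD q.2 0 *
      ((D q.1.1).getD q.2 []).getD q.1.2 0 :=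
    mul (getLD snd (hy.comp (fst' fst)) (const 0))
      (getLD (snd' fst) (getLD snd (hD.comp (fst' fst)) (const [])) (const 0))
  have h1 : PT fun q : γ × ℕ => (List.range (n q.1)).map fun i => (y q.1).getD i 0 *
      ((D q.1).getD i []).getD q.2 0 :=
    map (f := fun (q : γ × ℕ) (i : ℕ) => (y q.1).getD i 0 * ((D q.1).getD i []).getD q.2 0)
      (range (hn.comp fst)) h0
  have h2 : PT fun q : γ × ℕ => decide (((List.range (n q.1)).map fun i => (y q.1).getD i 0 *
      ((D q.1).getD i []).getD q.2 0).sum % P q.1 = if q.2 = 0 then 1 else 0) :=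
    eqNat (mod (majSum h1) (hP.comp fst)) (ite (eqNat snd (const 0)) (const 1) (const 0))
  exact all (p := fun (c : γ) (j : ℕ) => decide (((List.range (n c)).map fun i =>
    (y c).getD i 0 * ((D c).getD i []).getD j 0).sum % P c = if j = 0 then 1 else 0))
    (range (succ hm)) h2

end Pool.Agent.Lib.MP_634427_lc.PT
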