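import Pool.Agent.Lib.MP_634427_lc.Maj.Check
import Pool.Agent.Lib.MP_634427_lc.Maj.NumPTB
import Pool.Agent.Lib.MP_634427_lc.Maj.ClosePT

/-!
# The check runs in polynomial time
-/

namespace Pool.Agent.Lib.MP_634427_lc.Maj

open Pool.Agent.Lib.MP_634427_lc

section parts

variable {γ : Type} [Enc γ] {f : Word → SB} {gap : (Word × (ℕ × ℕ)) × IL → Bool} {x : γ → Word}
  {P m k0 M R n : γ → ℕ}

private theorem pt_kidsV {a : γ → Node} (hf : PT f) (hx : PT x) (hP : PT P) (hm : PT m)
    (hn : PT n) (ha : PT a) : PT fun c => kidsV f (x c) (P c) (m c) (n c) (a c) :=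
  PT.flatMap (f := fun c (D : IL) => f (quest (x c) (P c) D))
    (PT.majKids hP hm hn (PT.fst' (PT.fst' ha)) (PT.snd' (PT.fst' ha)))
    (hf.comp (PT.majQuest (hx.comp PT.fst) (hP.comp PT.fst) PT.snd))

private theorem pt_listV {Y : γ → List Node} (hf : PT f) (hx : PT x) (hP : PT P) (hm : PT m)
    (hn : PT n) (hY : PT Y) : PT fun c => listV f (x c) (P c) (m c) (n c) (Y c) :=
  PT.flatMap (f := fun c (a : Node) => f (quest (x c) (P c) (normN (P c) (m c) (n c) a.1.1))) hY
    (hf.comp (PT.majQuest (hx.comp PT.fst) (hP.comp PT.fst)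
      (PT.majNorm (hP.comp PT.fst) (hm.comp PT.fst) (hn.comp PT.fst)
        (PT.fst' (PT.fst' PT.snd)))))

private theorem pt_lvlOK {Y Y' : γ → List Node} (hf : PT f) (hgap : PT gap) (hx : PT x)
    (hP : PT P) (hm : PT m) (hk : PT k0) (hM : PT M) (hR : PT R) (hn : PT n) (hY : PT Y)
    (hY' : PT Y') : PT fun c =>
      lvlOK f gap (x c) (P c) (m c) (k0 c) (M c) (R c) (n c) (Y c) (Y' c) :=
  PT.all (p := fun c (a : Node) => gap ((x c, (P c, k0 c)), normN (P c) (m c) (n c) a.1.1) &&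
      closeN (P c ^ 4) (M c) (R c) (kidsV f (x c) (P c) (m c) (n c) a)
        (listV f (x c) (P c) (m c) (n c + 1) (Y' c))) hY
    (PT.and
      (hgap.comp (PT.pair (PT.pair (hx.comp PT.fst) (PT.pair (hP.comp PT.fst) (hk.comp PT.fst)))
        (PT.majNorm (hP.comp PT.fst) (hm.comp PT.fst) (hn.comp PT.fst)
          (PT.fst' (PT.fst' PT.snd)))))
      (PT.majClose (PT.pow (hP.comp PT.fst) 4) (hM.comp PT.fst) (hR.comp PT.fst)
        (pt_kidsV hf (hx.comp PT.fst) (hP.comp PT.fst) (hm.comp PT.fst) (hn.comp PT.fst) PT.snd)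
        (pt_listV hf (hx.comp PT.fst) (hP.comp PT.fst) (hm.comp PT.fst)
          (PT.succ (hn.comp PT.fst)) (hY'.comp PT.fst))))

end parts

theorem pt_check {f : Word → SB} {gap : (Word × (ℕ × ℕ)) × IL → Bool} {m P k0 M R : Word → ℕ}
    (hf : PT f) (hgap : PT gap) (hm : PT m) (hP : PT P) (hk : PT k0) (hM : PT M) (hR : PT R) :
    PT (check f gap m P k0 M R) := by
  have hx : PT fun a : Word × List (List Node) => a.1 := PT.fst
  have hl : PT fun a : Word × List (List Node) => a.2 := PT.snd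
  have hm' := hm.comp hx
  have h1 : PT fun a : Word × List (List Node) => (List.range (m a.1 + 3)).all fun n =>
      decide ((a.2.getD n []).length = M a.1) :=
    PT.all (p := fun (a : Word × List (List Node)) (n : ℕ) =>
        decide ((a.2.getD n []).length = M a.1))
      (PT.range (PT.succ (PT.succ (PT.succ hm'))))
      (PT.eqNat (PT.length (PT.getLD PT.snd (hl.comp PT.fst) (PT.const [])))
        (hM.comp (hx.comp PT.fst)))
  have h2 : PT fun a : Word × List (List Node) => (List.range (m a.1 + 2)).all fun n =>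
      lvlOK f gap a.1 (P a.1) (m a.1) (k0 a.1) (M a.1) (R a.1) n (a.2.getD n [])
        (a.2.getD (n + 1) []) :=
    PT.all (p := fun (a : Word × List (List Node)) (n : ℕ) =>
        lvlOK f gap a.1 (P a.1) (m a.1) (k0 a.1) (M a.1) (R a.1) n (a.2.getD n [])
          (a.2.getD (n + 1) []))
      (PT.range (PT.succ (PT.succ hm')))
      (pt_lvlOK hf hgap (hx.comp PT.fst) (hP.comp (hx.comp PT.fst)) (hm.comp (hx.comp PT.fst))
        (hk.comp (hx.comp PT.fst)) (hM.comp (hx.comp PT.fst)) (hR.comp (hx.comp PT.fst)) PT.snd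
        (PT.getLD PT.snd (hl.comp PT.fst) (PT.const []))
        (PT.getLD (PT.succ PT.snd) (hl.comp PT.fst) (PT.const [])))
  have h3 : PT fun a : Word × List (List Node) => (a.2.getD (m a.1 + 2) []).all fun b =>
      botN (P a.1) (m a.1) (m a.1 + 2) b.1.1 b.2 :=
    PT.all (p := fun (a : Word × List (List Node)) (b : Node) =>
        botN (P a.1) (m a.1) (m a.1 + 2) b.1.1 b.2)
      (PT.getLD (PT.succ (PT.succ hm')) hl (PT.const []))
      (PT.majBot (hP.comp (hx.comp PT.fst)) (hm.comp (hx.comp PT.fst))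
        (PT.succ (PT.succ (hm.comp (hx.comp PT.fst)))) (PT.fst' (PT.fst' PT.snd))
        (PT.snd' PT.snd))
  exact PT.and h1 (PT.and h2 h3)

end Pool.Agent.Lib.MP_634427_lc.Maj
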