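import Pool.Agent.Lib.MP_634427_lc.Maj.LtNum
import Pool.Agent.Lib.MP_634427_lc.Maj.NumPTB
import Pool.Agent.Lib.MP_634427_lc.LT.IsoPT

/-!
# Weighted votes: the check of a certificate runs in polynomial time
-/

namespace Pool.Agent.Lib.MP_634427_lc.PT

open Pool.Agent.Lib.MP_634427_lc
open Pool.Agent.Lib.MP_634427_lc.Maj (IL PL Fam WNode WLev)

variable {γ : Type} [Enc γ]

theorem majVv {a : γ → List LT.Num} {j s : γ → ℕ} (ha : PT a) (hj : PT j) (hs : PT s) :
    PT fun c => Maj.vvN (a c) (j c) (s c) := by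
  have h : PT fun c => (a c).getD (s c) ([], []) := getLD hs ha (const ([], []))
  exact nadd (nadd h h) (cond (eqNat hs hj) (nofNat (const 1)) (nofNat (const 0)))

theorem majPsi {p e j r : γ → ℕ} {T : γ → List (List LT.Num)} {a : γ → List LT.Num} (hp : PT p)
    (hT : PT T) (ha : PT a) (he : PT e) (hj : PT j) (hr : PT r) :
    PT fun c => Maj.psiN (p c) (T c) (a c) (e c) (j c) (r c) :=
  nmul (npow2 he) (nsum (map (f := fun c (s : ℕ) =>
      LT.nmul (LT.entry (T c) (r c) s) (Maj.vvN (a c) (j c) s)) (range hp)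
    (nmul (entry (hT.comp fst) (hr.comp fst) snd) (majVv (ha.comp fst) (hj.comp fst) snd))))

/-- An entry of a member of a family. -/
private theorem majPsiG {p r : γ → ℕ} {T : γ → List (List LT.Num)} (hp : PT p) (hT : PT T)
    (hr : PT r) : PT fun q : (γ × (List LT.Num × List ℕ)) × ℕ =>
      Maj.psiN (p q.1.1) (T q.1.1) q.1.2.1 (q.1.2.2.getD q.2 0) q.2 (r q.1.1) :=
  majPsi (hp.comp (fst' fst)) (hT.comp (fst' fst)) (fst' (snd' fst))
    (getLD snd (snd' (snd' fst)) (const 0)) snd (hr.comp (fst' fst))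

theorem majFm1 {p r : γ → ℕ} {T : γ → List (List LT.Num)} {G : γ → Fam} (hp : PT p) (hT : PT T)
    (hG : PT G) (hr : PT r) : PT fun c => Maj.fm1 (p c) (T c) (G c) (r c) :=
  nsum (flatMap (f := fun c (g : List LT.Num × List ℕ) => (List.range (p c)).map fun j =>
      Maj.psiN (p c) (T c) g.1 (g.2.getD j 0) j (r c)) hG
    (map (f := fun (q : γ × (List LT.Num × List ℕ)) (j : ℕ) =>
      Maj.psiN (p q.1) (T q.1) q.2.1 (q.2.2.getD j 0) j (r q.1)) (range (hp.comp fst))
      (majPsiG hp hT hr)))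

theorem majFm2 {p r r' : γ → ℕ} {T : γ → List (List LT.Num)} {G : γ → Fam} (hp : PT p)
    (hT : PT T) (hG : PT G) (hr : PT r) (hr' : PT r') :
    PT fun c => Maj.fm2 (p c) (T c) (G c) (r c) (r' c) :=
  nsum (flatMap (f := fun c (g : List LT.Num × List ℕ) => (List.range (p c)).map fun j =>
      LT.nmul (Maj.psiN (p c) (T c) g.1 (g.2.getD j 0) j (r c))
        (Maj.psiN (p c) (T c) g.1 (g.2.getD j 0) j (r' c))) hG
    (map (f := fun (q : γ × (List LT.Num × List ℕ)) (j : ℕ) =>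
      LT.nmul (Maj.psiN (p q.1) (T q.1) q.2.1 (q.2.2.getD j 0) j (r q.1))
        (Maj.psiN (p q.1) (T q.1) q.2.1 (q.2.2.getD j 0) j (r' q.1))) (range (hp.comp fst))
      (nmul (majPsiG hp hT hr) (majPsiG hp hT hr'))))

theorem majAbs {a b : γ → LT.Num} (ha : PT a) (hb : PT b) : PT fun c => Maj.absle (a c) (b c) :=
  and (nle ha hb) (nle (nneg ha) hb)

theorem majC1 {p u : γ → ℕ} {T : γ → List (List LT.Num)} {G : γ → Fam} (hp : PT p) (hu : PT u)
    (hT : PT T) (hG : PT G) : PT fun c => Maj.c1N (p c) (u c) (T c) (G c) := by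
  have h0 : PT fun q : ((γ × (List LT.Num × List ℕ)) × ℕ) × ℕ =>
      LT.nmul (Maj.psiN (p q.1.1.1) (T q.1.1.1) q.1.1.2.1 (q.1.1.2.2.getD q.1.2 0) q.1.2 q.2)
        (Maj.psiN (p q.1.1.1) (T q.1.1.1) q.1.1.2.1 (q.1.1.2.2.getD q.1.2 0) q.1.2 q.2) := by
    have h := majPsi (hp.comp (fst' (fst' fst))) (hT.comp (fst' (fst' fst)))
        (fst' (snd' (fst' fst))) (getLD (snd' fst) (snd' (snd' (fst' fst))) (const 0))
        (snd' fst : PT fun q : ((γ × (List LT.Num × List ℕ)) × ℕ) × ℕ => q.1.2) snd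
    exact nmul h h
  have h1 : PT fun q : (γ × (List LT.Num × List ℕ)) × ℕ =>
      LT.nle (LT.nsum ((List.range (p q.1.1)).map fun r =>
          LT.nmul (Maj.psiN (p q.1.1) (T q.1.1) q.1.2.1 (q.1.2.2.getD q.2 0) q.2 r)
            (Maj.psiN (p q.1.1) (T q.1.1) q.1.2.1 (q.1.2.2.getD q.2 0) q.2 r)))
        (LT.nmul (LT.nofNat (9 * p q.1.1 ^ 2)) (LT.npow2 (2 * u q.1.1))) :=
    nle (nsum (map (f := fun (q : (γ × (List LT.Num × List ℕ)) × ℕ) (r : ℕ) =>
        LT.nmul (Maj.psiN (p q.1.1) (T q.1.1) q.1.2.1 (q.1.2.2.getD q.2 0) q.2 r)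
            (Maj.psiN (p q.1.1) (T q.1.1) q.1.2.1 (q.1.2.2.getD q.2 0) q.2 r))
        (range (hp.comp (fst' fst))) h0))
      (nmul (nofNat (mul (const 9) (pow (hp.comp (fst' fst)) 2)))
        (npow2 (mul (const 2) (hu.comp (fst' fst)))))
  have h2 : PT fun q : γ × (List LT.Num × List ℕ) => (List.range (p q.1)).all fun j =>
      LT.nle (LT.nsum ((List.range (p q.1)).map fun r =>
          LT.nmul (Maj.psiN (p q.1) (T q.1) q.2.1 (q.2.2.getD j 0) j r)
            (Maj.psiN (p q.1) (T q.1) q.2.1 (q.2.2.getD j 0) j r)))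
        (LT.nmul (LT.nofNat (9 * p q.1 ^ 2)) (LT.npow2 (2 * u q.1))) :=
    all (p := fun (q : γ × (List LT.Num × List ℕ)) (j : ℕ) =>
      LT.nle (LT.nsum ((List.range (p q.1)).map fun r =>
          LT.nmul (Maj.psiN (p q.1) (T q.1) q.2.1 (q.2.2.getD j 0) j r)
            (Maj.psiN (p q.1) (T q.1) q.2.1 (q.2.2.getD j 0) j r)))
        (LT.nmul (LT.nofNat (9 * p q.1 ^ 2)) (LT.npow2 (2 * u q.1)))) (range (hp.comp fst)) h1
  exact all (p := fun (c : γ) (g : List LT.Num × List ℕ) => (List.range (p c)).all fun j =>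
      LT.nle (LT.nsum ((List.range (p c)).map fun r =>
          LT.nmul (Maj.psiN (p c) (T c) g.1 (g.2.getD j 0) j r)
            (Maj.psiN (p c) (T c) g.1 (g.2.getD j 0) j r)))
        (LT.nmul (LT.nofNat (9 * p c ^ 2)) (LT.npow2 (2 * u c)))) hG h2

theorem majC2 {p u N : γ → ℕ} {T : γ → List (List LT.Num)} {G : γ → Fam} (hp : PT p) (hu : PT u)
    (hN : PT N) (hT : PT T) (hG : PT G) :
    PT fun c => Maj.c2N (p c) (u c) (N c) (T c) (G c) := by
  have h0 : PT fun q : (γ × ℕ) × ℕ =>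
      Maj.absle (LT.nadd (LT.nmul (LT.nofNat (2 * p q.1.1)) (Maj.fm2 (p q.1.1) (T q.1.1) (G q.1.1)
          q.1.2 q.2)) (LT.nneg (LT.nmul
            (LT.nofNat (if q.1.2 = q.2 then 2 * p q.1.1 * (N q.1.1 * p q.1.1) else 0))
            (LT.npow2 (2 * u q.1.1)))))
        (LT.nmul (LT.nofNat (N q.1.1 * p q.1.1)) (LT.npow2 (2 * u q.1.1))) := by
    have hp' := hp.comp (fst' fst : PT fun q : (γ × ℕ) × ℕ => q.1.1)
    have hu' := hu.comp (fst' fst : PT fun q : (γ × ℕ) × ℕ => q.1.1)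
    have hN' := hN.comp (fst' fst : PT fun q : (γ × ℕ) × ℕ => q.1.1)
    exact majAbs (nadd (nmul (nofNat (mul (const 2) hp')) (majFm2 hp' (hT.comp (fst' fst))
        (hG.comp (fst' fst)) (snd' fst) snd)) (nneg (nmul
          (nofNat (ite (eqNat (snd' fst) snd) (mul (mul (const 2) hp') (mul hN' hp')) (const 0)))
          (npow2 (mul (const 2) hu')))))
      (nmul (nofNat (mul hN' hp')) (npow2 (mul (const 2) hu')))
  have h1 : PT fun q : γ × ℕ => (List.range (p q.1)).all fun r' =>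
      Maj.absle (LT.nadd (LT.nmul (LT.nofNat (2 * p q.1)) (Maj.fm2 (p q.1) (T q.1) (G q.1)
          q.2 r')) (LT.nneg (LT.nmul
            (LT.nofNat (if q.2 = r' then 2 * p q.1 * (N q.1 * p q.1) else 0))
            (LT.npow2 (2 * u q.1)))))
        (LT.nmul (LT.nofNat (N q.1 * p q.1)) (LT.npow2 (2 * u q.1))) :=
    all (p := fun (q : γ × ℕ) (r' : ℕ) =>
      Maj.absle (LT.nadd (LT.nmul (LT.nofNat (2 * p q.1)) (Maj.fm2 (p q.1) (T q.1) (G q.1)
          q.2 r')) (LT.nneg (LT.nmul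
            (LT.nofNat (if q.2 = r' then 2 * p q.1 * (N q.1 * p q.1) else 0))
            (LT.npow2 (2 * u q.1)))))
        (LT.nmul (LT.nofNat (N q.1 * p q.1)) (LT.npow2 (2 * u q.1)))) (range (hp.comp fst)) h0
  exact all (p := fun (c : γ) (r : ℕ) => (List.range (p c)).all fun r' =>
      Maj.absle (LT.nadd (LT.nmul (LT.nofNat (2 * p c)) (Maj.fm2 (p c) (T c) (G c) r r'))
          (LT.nneg (LT.nmul (LT.nofNat (if r = r' then 2 * p c * (N c * p c) else 0))
            (LT.npow2 (2 * u c)))))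
        (LT.nmul (LT.nofNat (N c * p c)) (LT.npow2 (2 * u c)))) (range hp) h1

theorem majC3 {p u N M : γ → ℕ} {T : γ → List (List LT.Num)} {G G' : γ → Fam} (hp : PT p)
    (hu : PT u) (hN : PT N) (hM : PT M) (hT : PT T) (hG : PT G) (hG' : PT G') :
    PT fun c => Maj.c3N (p c) (u c) (N c) (M c) (T c) (G c) (G' c) := by
  have h0 : PT fun q : γ × ℕ =>
      Maj.absle (LT.nmul (LT.nofNat (16 * p q.1 ^ 2)) (LT.nadd
          (LT.nmul (LT.nofNat (M q.1)) (Maj.fm1 (p q.1) (T q.1) (G q.1) q.2))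
          (LT.nneg (LT.nmul (LT.nofNat (N q.1)) (Maj.fm1 (p q.1) (T q.1) (G' q.1) q.2)))))
        (LT.nmul (LT.nofNat (M q.1 * N q.1 * p q.1)) (LT.npow2 (u q.1))) := by
    have hp' := hp.comp (fst : PT fun q : γ × ℕ => q.1)
    have hM' := hM.comp (fst : PT fun q : γ × ℕ => q.1)
    have hN' := hN.comp (fst : PT fun q : γ × ℕ => q.1)
    exact majAbs (nmul (nofNat (mul (const 16) (pow hp' 2))) (nadd
        (nmul (nofNat hM') (majFm1 hp' (hT.comp fst) (hG.comp fst) snd))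
        (nneg (nmul (nofNat hN') (majFm1 hp' (hT.comp fst) (hG'.comp fst) snd)))))
      (nmul (nofNat (mul (mul hM' hN') hp')) (npow2 (hu.comp fst)))
  exact all (p := fun (c : γ) (r : ℕ) =>
      Maj.absle (LT.nmul (LT.nofNat (16 * p c ^ 2)) (LT.nadd
          (LT.nmul (LT.nofNat (M c)) (Maj.fm1 (p c) (T c) (G c) r))
          (LT.nneg (LT.nmul (LT.nofNat (N c)) (Maj.fm1 (p c) (T c) (G' c) r)))))
        (LT.nmul (LT.nofNat (M c * N c * p c)) (LT.npow2 (u c)))) (range hp) h0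

/-! ### The families -/

private lemma lptVec {P t t' g j : γ → ℕ} {u u' : γ → List ℕ} (hP : PT P) (hu : PT u)
    (hu' : PT u') (ht : PT t) (ht' : PT t') (hg : PT g) (hj : PT j) :
    PT fun c => Maj.vecN (P c) (u c) (u' c) (t c) (t' c) (g c) (j c) :=
  (add (add (add (mul hg (majPw hP ht (add hj (const 2)))) (majPw hP ht' (add hj (const 2))))
    (mul (succ hg) (getLD hj hu (const 0)))) (mul (add (mul hg ht) ht')
      (getLD hj hu' (const 0)))).of_eq fun _ => rfl

private lemma lptNew {P m t t' g k : γ → ℕ} {u u' : γ → List ℕ} (hP : PT P) (hm : PT m)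
    (hu : PT u) (hu' : PT u') (ht : PT t) (ht' : PT t') (hg : PT g) (hk : PT k) :
    PT fun c => Maj.newN (P c) (m c) (u c) (u' c) (t c) (t' c) (g c) (k c) := by
  have h : PT fun c => (List.range (m c)).map fun j =>
      Maj.vecN (P c) (u c) (u' c) (t c) (t' c) (g c) j % P c :=
    map (f := fun c j => Maj.vecN (P c) (u c) (u' c) (t c) (t' c) (g c) j % P c) (range hm)
      (mod (lptVec (hP.comp fst) (hu.comp fst) (hu'.comp fst) (ht.comp fst) (ht'.comp fst)
        (hg.comp fst) snd) (hP.comp fst))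
  exact (cons (mod hk hP) h).of_eq fun _ => rfl

private lemma lptCh {P m n : γ → ℕ} {D : γ → IL} {v x : γ → List ℕ} (hP : PT P) (hm : PT m)
    (hn : PT n) (hD : PT D) (hv : PT v) (hx : PT x) :
    PT fun c => Maj.chN (P c) (m c) (n c) (D c) (v c) (x c) := by
  have h0 : PT fun p : (γ × ℕ) × ℕ => (((D p.1.1).getD p.1.2 []).getD p.2 0 +
      (v p.1.1).getD p.1.2 0 * (x p.1.1).getD p.2 0) % P p.1.1 :=
    mod (add (getLD snd (getLD (snd' fst) (hD.comp (fst' fst)) (const [])) (const 0))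
      (mul (getLD (snd' fst) (hv.comp (fst' fst)) (const 0))
        (getLD snd (hx.comp (fst' fst)) (const 0)))) (hP.comp (fst' fst))
  have h1 : PT fun p : γ × ℕ => (List.range (m p.1 + 1)).map fun j =>
      (((D p.1).getD p.2 []).getD j 0 + (v p.1).getD p.2 0 * (x p.1).getD j 0) % P p.1 :=
    map (f := fun (p : γ × ℕ) (j : ℕ) => (((D p.1).getD p.2 []).getD j 0 +
      (v p.1).getD p.2 0 * (x p.1).getD j 0) % P p.1) (range (succ (hm.comp fst))) h0
  have h2 : PT fun c => (List.range (n c)).map fun i => (List.range (m c + 1)).map fun j =>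
      (((D c).getD i []).getD j 0 + (v c).getD i 0 * (x c).getD j 0) % P c :=
    map (f := fun (c : γ) (i : ℕ) => (List.range (m c + 1)).map fun j =>
      (((D c).getD i []).getD j 0 + (v c).getD i 0 * (x c).getD j 0) % P c) (range hn) h1
  exact (cons hx h2).of_eq fun _ => rfl

private lemma lptKid {P m n t t' g k : γ → ℕ} {D : γ → IL} {π : γ → PL} (hP : PT P)
    (hm : PT m) (hn : PT n) (hD : PT D) (hπ : PT π) (ht : PT t) (ht' : PT t') (hg : PT g)
    (hk : PT k) :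
    PT fun c => Maj.kidN (P c) (m c) (n c) (D c) (π c) (t c) (t' c) (g c) (k c) :=
  (lptCh hP hm hn hD
    (getLD (add (mul (add (mul ht hP) ht') hP) hg) (snd' hπ) (const []))
    (lptNew hP hm (fst' (fst' hπ)) (snd' (fst' hπ)) ht ht' hg hk)).of_eq fun _ => rfl

theorem majFamK {vt : Word × Word → List LT.Num} {x : γ → Word} {P m n : γ → ℕ} {a : γ → WNode}
    (hvt : PT vt) (hx : PT x) (hP : PT P) (hm : PT m) (hn : PT n) (ha : PT a) :
    PT fun c => Maj.famK vt (x c) (P c) (m c) (n c) (a c) := by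
  have f4 : PT fun q : (((γ × ℕ) × ℕ) × ℕ) × ℕ => q.1.1.1.1 := fst' (fst' (fst' fst))
  have h4 : PT fun q : (((γ × ℕ) × ℕ) × ℕ) × ℕ =>
      ((vt (x q.1.1.1.1, Maj.quest (x q.1.1.1.1) (P q.1.1.1.1) (Maj.kidN (P q.1.1.1.1)
        (m q.1.1.1.1) (n q.1.1.1.1) (a q.1.1.1.1).1.1.1 (a q.1.1.1.1).1.1.2 q.1.1.1.2 q.1.1.2 q.1.2
          q.2)), (a q.1.1.1.1).2.2.getD (Maj.sidx (P q.1.1.1.1) q.1.1.1.2 q.1.1.2 q.1.2 *
            P q.1.1.1.1 + q.2) []) : List LT.Num × List ℕ) := by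
    have hP' := hP.comp f4
    have hk := lptKid hP' (hm.comp f4) (hn.comp f4) (fst' (fst' (fst' (ha.comp f4))))
      (snd' (fst' (fst' (ha.comp f4)))) (snd' (fst' (fst' fst))) (snd' (fst' fst)) (snd' fst) snd
    refine pair (hvt.comp (pair (hx.comp f4) (majQuest (hx.comp f4) hP' hk))) ?_
    exact getLD (add (mul (add (mul (add (mul (snd' (fst' (fst' fst))) hP') (snd' (fst' fst))) hP')
      (snd' fst)) hP') snd) (snd' (snd' (ha.comp f4))) (const [])
  have h3 : PT fun q : ((γ × ℕ) × ℕ) × ℕ => (List.range (P q.1.1.1)).map fun c =>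
      ((vt (x q.1.1.1, Maj.quest (x q.1.1.1) (P q.1.1.1) (Maj.kidN (P q.1.1.1)
        (m q.1.1.1) (n q.1.1.1) (a q.1.1.1).1.1.1 (a q.1.1.1).1.1.2 q.1.1.2 q.1.2 q.2
          c)), (a q.1.1.1).2.2.getD (Maj.sidx (P q.1.1.1) q.1.1.2 q.1.2 q.2 *
            P q.1.1.1 + c) []) : List LT.Num × List ℕ) :=
    map (f := fun (q : ((γ × ℕ) × ℕ) × ℕ) (c : ℕ) =>
      ((vt (x q.1.1.1, Maj.quest (x q.1.1.1) (P q.1.1.1) (Maj.kidN (P q.1.1.1)
        (m q.1.1.1) (n q.1.1.1) (a q.1.1.1).1.1.1 (a q.1.1.1).1.1.2 q.1.1.2 q.1.2 q.2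
          c)), (a q.1.1.1).2.2.getD (Maj.sidx (P q.1.1.1) q.1.1.2 q.1.2 q.2 *
            P q.1.1.1 + c) []) : List LT.Num × List ℕ))
      (range (hP.comp (fst' (fst' fst)))) h4
  have h2 : PT fun q : (γ × ℕ) × ℕ => (List.range (P q.1.1)).flatMap fun g =>
      (List.range (P q.1.1)).map fun c =>
      ((vt (x q.1.1, Maj.quest (x q.1.1) (P q.1.1) (Maj.kidN (P q.1.1)
        (m q.1.1) (n q.1.1) (a q.1.1).1.1.1 (a q.1.1).1.1.2 q.1.2 q.2 g
          c)), (a q.1.1).2.2.getD (Maj.sidx (P q.1.1) q.1.2 q.2 g *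
            P q.1.1 + c) []) : List LT.Num × List ℕ) :=
    flatMap (f := fun (q : (γ × ℕ) × ℕ) (g : ℕ) => (List.range (P q.1.1)).map fun c =>
      ((vt (x q.1.1, Maj.quest (x q.1.1) (P q.1.1) (Maj.kidN (P q.1.1)
        (m q.1.1) (n q.1.1) (a q.1.1).1.1.1 (a q.1.1).1.1.2 q.1.2 q.2 g
          c)), (a q.1.1).2.2.getD (Maj.sidx (P q.1.1) q.1.2 q.2 g *
            P q.1.1 + c) []) : List LT.Num × List ℕ))
      (range (hP.comp (fst' fst))) h3
  have h1 : PT fun q : γ × ℕ => (List.range (P q.1)).flatMap fun t' =>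
      (List.range (P q.1)).flatMap fun g => (List.range (P q.1)).map fun c =>
      ((vt (x q.1, Maj.quest (x q.1) (P q.1) (Maj.kidN (P q.1)
        (m q.1) (n q.1) (a q.1).1.1.1 (a q.1).1.1.2 q.2 t' g
          c)), (a q.1).2.2.getD (Maj.sidx (P q.1) q.2 t' g *
            P q.1 + c) []) : List LT.Num × List ℕ) :=
    flatMap (f := fun (q : γ × ℕ) (t' : ℕ) => (List.range (P q.1)).flatMap fun g =>
      (List.range (P q.1)).map fun c =>
      ((vt (x q.1, Maj.quest (x q.1) (P q.1) (Maj.kidN (P q.1)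
        (m q.1) (n q.1) (a q.1).1.1.1 (a q.1).1.1.2 q.2 t' g
          c)), (a q.1).2.2.getD (Maj.sidx (P q.1) q.2 t' g *
            P q.1 + c) []) : List LT.Num × List ℕ))
      (range (hP.comp fst)) h2
  exact flatMap (f := fun (q : γ) (t : ℕ) => (List.range (P q)).flatMap fun t' =>
      (List.range (P q)).flatMap fun g => (List.range (P q)).map fun c =>
      ((vt (x q, Maj.quest (x q) (P q) (Maj.kidN (P q)
        (m q) (n q) (a q).1.1.1 (a q).1.1.2 t t' g
          c)), (a q).2.2.getD (Maj.sidx (P q) t t' g *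
            P q + c) []) : List LT.Num × List ℕ)) (range hP) h1

theorem majFamL {vt : Word × Word → List LT.Num} {x : γ → Word} {P m n : γ → ℕ}
    {Y : γ → List WNode} (hvt : PT vt) (hx : PT x) (hP : PT P) (hm : PT m) (hn : PT n)
    (hY : PT Y) : PT fun c => Maj.famL vt (x c) (P c) (m c) (n c) (Y c) :=
  map (f := fun c (a : WNode) =>
      ((vt (x c, Maj.quest (x c) (P c) (Maj.normN (P c) (m c) (n c) a.1.1.1)), a.2.1) :
        List LT.Num × List ℕ)) hY
    (pair (hvt.comp (pair (hx.comp fst) (majQuest (hx.comp fst) (hP.comp fst)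
      (majNorm (hP.comp fst) (hm.comp fst) (hn.comp fst) (fst' (fst' (fst' snd)))))))
      (fst' (snd' snd)))

private theorem majNodeW {vt : Word × Word → List LT.Num}
    {gap : (Word × (ℕ × ℕ)) × IL → Bool} {x : γ → Word} {P m k0 M p u n : γ → ℕ}
    {T : γ → List (List LT.Num)} {G' : γ → Fam} {a : γ → WNode} (hvt : PT vt) (hgap : PT gap)
    (hx : PT x) (hP : PT P) (hm : PT m) (hk : PT k0) (hM : PT M) (hp : PT p)
    (hu : PT u) (hn : PT n) (hT : PT T) (hG : PT G') (ha : PT a) :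
    PT fun c => Maj.nodeW vt gap (x c) (P c) (m c) (k0 c) (M c) (p c) (u c) (n c) (T c)
      (G' c) (a c) := by
  have hf := majFamK hvt hx hP hm hn ha
  have hP4 := pow hP 4
  exact and (hgap.comp (pair (pair hx (pair hP hk)) (majNorm hP hm hn (fst' (fst' (fst' ha))))))
    (and (majC1 hp hu hT hf) (and (majC2 hp hu hP4 hT hf) (majC3 hp hu hP4 hM hT hf hG)))

theorem majCheckW {vt : Word × Word → List LT.Num} {gap : (Word × (ℕ × ℕ)) × IL → Bool}
    {m P k0 M p u : Word → ℕ} (hvt : PT vt) (hgap : PT gap) (hm : PT m) (hP : PT P)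
    (hk : PT k0) (hM : PT M) (hp : PT p) (hu : PT u) :
    PT (Maj.checkW vt gap m P k0 M p u) := by
  have hx : PT fun a : Word × List WLev => a.1 := fst
  have hl : PT fun a : Word × List WLev => a.2 := snd
  have hm' := hm.comp hx
  have hL : PT fun q : (Word × List WLev) × ℕ => q.1.2.getD q.2 ([], []) :=
    getLD snd (hl.comp fst) (const ([], []))
  have hL' : PT fun q : (Word × List WLev) × ℕ => q.1.2.getD (q.2 + 1) ([], []) :=
    getLD (succ snd) (hl.comp fst) (const ([], []))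
  have h1 : PT fun a : Word × List WLev => (List.range (m a.1 + 3)).all fun n =>
      decide ((a.2.getD n ([], [])).2.length = M a.1) :=
    all (p := fun (a : Word × List WLev) (n : ℕ) =>
        decide ((a.2.getD n ([], [])).2.length = M a.1))
      (range (succ (succ (succ hm'))))
      (eqNat (length (snd' hL)) (hM.comp (hx.comp fst)))
  have h2 : PT fun a : Word × List WLev => (List.range (m a.1 + 2)).all fun n =>
      (a.2.getD n ([], [])).2.all fun b =>
      Maj.nodeW vt gap a.1 (P a.1) (m a.1) (k0 a.1) (M a.1) (p a.1) (u a.1) n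
        (a.2.getD n ([], [])).1
        (Maj.famL vt a.1 (P a.1) (m a.1) (n + 1) (a.2.getD (n + 1) ([], [])).2) b := by
    refine all (p := fun (a : Word × List WLev) (n : ℕ) => (a.2.getD n ([], [])).2.all fun b =>
      Maj.nodeW vt gap a.1 (P a.1) (m a.1) (k0 a.1) (M a.1) (p a.1) (u a.1) n
        (a.2.getD n ([], [])).1
        (Maj.famL vt a.1 (P a.1) (m a.1) (n + 1) (a.2.getD (n + 1) ([], [])).2) b)
      (range (succ (succ hm'))) ?_
    have hx1 : PT fun q : (Word × List WLev) × ℕ => q.1.1 := hx.comp fst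
    have hF : PT fun q : (Word × List WLev) × ℕ =>
        Maj.famL vt q.1.1 (P q.1.1) (m q.1.1) (q.2 + 1) (q.1.2.getD (q.2 + 1) ([], [])).2 :=
      majFamL hvt hx1 (hP.comp hx1) (hm.comp hx1) (succ snd) (snd' hL')
    have hx2 : PT fun q : ((Word × List WLev) × ℕ) × WNode => q.1.1.1 := hx1.comp fst
    exact all (p := fun (q : (Word × List WLev) × ℕ) (b : WNode) =>
      Maj.nodeW vt gap q.1.1 (P q.1.1) (m q.1.1) (k0 q.1.1) (M q.1.1) (p q.1.1)
        (u q.1.1) q.2 (q.1.2.getD q.2 ([], [])).1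
        (Maj.famL vt q.1.1 (P q.1.1) (m q.1.1) (q.2 + 1) (q.1.2.getD (q.2 + 1) ([], [])).2) b)
      (snd' hL) (majNodeW hvt hgap hx2 (hP.comp hx2) (hm.comp hx2) (hk.comp hx2) (hM.comp hx2)
        (hp.comp hx2) (hu.comp hx2) (snd' fst) (fst' (hL.comp fst)) (hF.comp fst) snd)
  have h3 : PT fun a : Word × List WLev => (a.2.getD (m a.1 + 2) ([], [])).2.all fun b =>
      Maj.botN (P a.1) (m a.1) (m a.1 + 2) b.1.1.1 b.1.2 :=
    all (p := fun (a : Word × List WLev) (b : WNode) =>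
        Maj.botN (P a.1) (m a.1) (m a.1 + 2) b.1.1.1 b.1.2)
      (snd' (getLD (succ (succ hm')) hl (const ([], []))))
      (majBot (hP.comp (hx.comp fst)) (hm.comp (hx.comp fst))
        (succ (succ (hm.comp (hx.comp fst)))) (fst' (fst' (fst' snd)))
        (snd' (fst' snd)))
  exact and h1 (and h2 h3)

end Pool.Agent.Lib.MP_634427_lc.PT
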