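import Pool.Agent.Lib.MP_634427_lc.Maj.Main
import Pool.Agent.Lib.MP_634427_lc.Examples
import Pool.Agent.Lib.MP_634427_lc.Low

/-!
# P = NP if and only if a sparse set is hard under disjunctive, majority or threshold reductions
-/

namespace Pool.Agent.Lib.MP_634427_lc.Maj

open Pool.Agent.Lib.MP_634427_lc

/-- The set whose only member is the empty word is sparse. -/
theorem sparse_nil : Sparse {([] : Word)} :=
  ⟨1, fun n => by
    refine (Set.ncard_le_ncard (t := {([] : Word)}) (fun w hw => hw.1)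
      (Set.finite_singleton _)).trans ?_
    rw [Set.ncard_singleton]
    omega⟩

theorem disj_nil {A : Set Word} (hA : InP A) : DisjReducible A {([] : Word)} := by
  obtain ⟨f, hf, hfA⟩ := hA
  refine ⟨fun x => bif f x then [[]] else [], PT.cond hf (PT.const _) (PT.const _), fun x => ?_⟩
  rw [hfA]
  rcases h : f x with _ | _ <;> simp [h]

open Classical in
theorem maj_nil {A : Set Word} (hA : InP A) : MajReducible A {([] : Word)} := by
  obtain ⟨f, hf, hfA⟩ := hA
  refine ⟨fun x => bif f x then [[]] else [], PT.cond hf (PT.const _) (PT.const _), fun x => ?_⟩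
  rw [hfA]
  rcases h : f x with _ | _ <;> simp [h]

/-- All equivalences. -/
theorem collapse :
    ((∃ S : Set Word, Sparse S ∧ ∀ A : Set Word, InNP A → DisjReducible A S) ↔
      ∀ L : Set Word, InNP L ↔ InP L) ∧
    ((∃ S : Set Word, Sparse S ∧ ∀ A : Set Word, InNP A → MajReducible A S) ↔
      ∀ L : Set Word, InNP L ↔ InP L) ∧
    ((∃ S : Set Word, Sparse S ∧ ∀ A : Set Word, InNP A → PThrReducible A S) ↔
      ∀ L : Set Word, InNP L ↔ InP L) := by
  have key : (∃ S : Set Word, Sparse S ∧ ∀ A : Set Word, InNP A → PThrReducible A S) →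
      ∀ L : Set Word, InNP L ↔ InP L := by
    rintro ⟨S, -, hard⟩ L
    exact ⟨inP_of_thr S hard L, inP_imp_inNP L⟩
  refine ⟨⟨?_, fun h => ?_⟩, ⟨?_, fun h => ?_⟩, key, fun h => ?_⟩
  · rintro ⟨S, hS, hard⟩
    exact key ⟨S, hS, fun A hA => pThrReducible_of_thrReducible hS (hard A hA).thr⟩
  · exact ⟨_, sparse_nil, fun A hA => disj_nil ((h A).1 hA)⟩
  · rintro ⟨S, hS, hard⟩
    exact key ⟨S, hS, fun A hA => pThrReducible_of_thrReducible hS (hard A hA).thr⟩
  · exact ⟨_, sparse_nil, fun A hA => maj_nil ((h A).1 hA)⟩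
  · exact ⟨_, sparse_nil, fun A hA =>
      pThrReducible_of_thrReducible sparse_nil (disj_nil ((h A).1 hA)).thr⟩

end Pool.Agent.Lib.MP_634427_lc.Maj
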