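import Pool.Agent.Lib.MP_634427_lc.Maj.LtModel
import Pool.Agent.Lib.MP_634427_lc.Examples
import Pool.Agent.Lib.MP_634427_lc.Low
import Pool.Agent.Lib.MP_634427_lc.Gen
import Pool.Agent.Lib.MP_634427_lc.Gate.Main

/-!
# Weighted votes contain the threshold, majority and disjunctive reductions
-/

namespace Pool.Agent.Lib.MP_634427_lc.Maj

open Pool.Agent.Lib.MP_634427_lc

/-- A threshold truth-table reduction is a weighted vote. -/
theorem wvote_of_pThr {A S : Set Word} (h : PThrReducible A S) : WVote A S := by
  classical
  obtain ⟨f, d, c, hf, hdm, hS, hfd, hfA⟩ := h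
  refine ⟨0, fun x => (f x).map fun e => ((e.1, [true]), e.2), d, c,
    PT.map (f := fun (_ : Word) (e : Bool × List Word) => ((e.1, [true]), e.2)) hf
      (PT.pair (PT.pair (PT.fst' PT.snd) (PT.const [true])) (PT.snd' PT.snd)), hdm, hS,
    fun x => ⟨fun e he => ?_, ?_⟩⟩
  · obtain ⟨e', he', rfl⟩ := List.mem_map.1 he
    exact Or.inr ⟨hfd x e' he', rfl⟩
  · rw [hfA]
    have h1 : votes S ((f x).map fun e => ((e.1, [true]), e.2)) = balance S (f x) := by
      unfold votes balance
      rw [List.map_map]
      refine congrArg List.sum (List.map_congr_left fun e _ => ?_)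
      show (if ∀ w ∈ e.2, w ∈ S then weight (e.1, [true]) else 0) = _
      have h2 : weight (e.1, [true]) = if e.1 then 1 else -1 := by
        unfold weight
        simp [ofDigits]
      rw [h2]
    rw [h1]

/-- Disjunctive truth-table reductions to sparse sets are weighted votes. -/
theorem wvote_of_disj {A S : Set Word} (hS : Sparse S) (h : DisjReducible A S) : WVote A S :=
  wvote_of_pThr (pThrReducible_of_thrReducible hS h.thr)

/-- Majority truth-table reductions to sparse sets are weighted votes. -/
theorem wvote_of_maj {A S : Set Word} (hS : Sparse S) (h : MajReducible A S) : WVote A S :=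
  wvote_of_pThr (pThrReducible_of_thrReducible hS h.thr)

/-- All sets that are many-one reducible to a set given by weighted threshold gates are weighted
votes over one sparse set. -/
theorem exists_wvote {B : Set Word} (hB : ThresholdGates B) : ∃ S : Set Word, Sparse S ∧
    ∀ A, ManyOneReducible A B → WVote A S := by
  obtain ⟨S, hS0, hSn, hS⟩ := Gate.exists_votes hB
  refine ⟨S, ⟨1, fun n => by rw [pow_one]; exact hSn n⟩, ?_⟩
  rintro A ⟨f, hf, hAf⟩
  obtain ⟨out, hout, h1, h2⟩ := hS f hf
  refine ⟨1, out, fun _ => 0, 1, hout, monotone_const, fun n => ?_, fun x => ⟨?_, ?_⟩⟩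
  · rw [pow_zero]
    omega
  · intro e he
    exact Or.inl (h1 x e he)
  · rw [hAf x, h2 x]

end Pool.Agent.Lib.MP_634427_lc.Maj
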