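import Pool.Agent.Lib.MP_634427_lc.Maj.LtMain
import Pool.Agent.Lib.MP_634427_lc.Maj.LtConv
import Pool.Agent.Lib.MP_634427_lc.Maj.Final

/-!
# P = NP if and only if a sparse set is hard for NP under weighted votes
-/

namespace Pool.Agent.Lib.MP_634427_lc.Maj

open Pool.Agent.Lib.MP_634427_lc

private theorem ltf_sum (x : Word) : (∑ i ∈ Finset.range x.length,
    if x.getD i false = true then (if i = 0 then (1 : ℝ) else 0) else 0) =
      if x.getD 0 false = true then 1 else 0 := by
  cases x with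
  | nil => simp
  | cons a x =>
    rw [List.length_cons, Finset.sum_range_succ']
    have h : ∑ i ∈ Finset.range x.length, (if (a :: x).getD (i + 1) false = true then
        (if i + 1 = 0 then (1 : ℝ) else 0) else 0) = 0 := by
      refine Finset.sum_eq_zero fun i _ => ?_
      rw [if_neg (Nat.succ_ne_zero i), ite_self]
    rw [h, zero_add, if_pos rfl]

/-- The words with first letter `1` form a set given by weighted threshold gates. -/
theorem thresholdGates_head : ThresholdGates {x : Word | x.getD 0 false = true} := by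
  intro n
  refine ⟨fun i => if i = 0 then 1 else 0, 1 / 2, fun x hx => ?_⟩
  subst hx
  rw [ltf_sum]
  change x.getD 0 false = true ↔ _
  by_cases h : x.getD 0 false = true
  · rw [if_pos h]
    exact iff_of_true h (by norm_num)
  · rw [if_neg h]
    exact iff_of_false h (by norm_num)

theorem manyOne_head {A : Set Word} (hA : InP A) :
    ManyOneReducible A {x : Word | x.getD 0 false = true} := by
  obtain ⟨f, hf, hfA⟩ := hA
  refine ⟨fun x => [f x], PT.cons hf (PT.const []), fun x => ?_⟩
  rw [hfA]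
  rfl

/-- All equivalences for weighted votes. -/
theorem collapse_votes :
    ((∃ S : Set Word, Sparse S ∧ ∀ A : Set Word, InNP A → DisjReducible A S) ↔
      ∀ L : Set Word, InNP L ↔ InP L) ∧
    ((∃ S : Set Word, Sparse S ∧ ∀ A : Set Word, InNP A → MajReducible A S) ↔
      ∀ L : Set Word, InNP L ↔ InP L) ∧
    ((∃ S : Set Word, Sparse S ∧ ∀ A : Set Word, InNP A → WVote A S) ↔
      ∀ L : Set Word, InNP L ↔ InP L) ∧
    ((∃ B : Set Word, ThresholdGates B ∧ ∀ A : Set Word, InNP A → ManyOneReducible A B) ↔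
      ∀ L : Set Word, InNP L ↔ InP L) := by
  have key : (∃ S : Set Word, Sparse S ∧ ∀ A : Set Word, InNP A → WVote A S) →
      ∀ L : Set Word, InNP L ↔ InP L := by
    rintro ⟨S, hS, hard⟩ L
    exact ⟨inP_of_wvote S hS hard L, inP_imp_inNP L⟩
  refine ⟨⟨?_, fun h => ?_⟩, ⟨?_, fun h => ?_⟩, ⟨key, fun h => ?_⟩, ?_, fun h => ?_⟩
  · rintro ⟨S, hS, hard⟩
    exact key ⟨S, hS, fun A hA => wvote_of_disj hS (hard A hA)⟩
  · exact ⟨_, sparse_nil, fun A hA => disj_nil ((h A).1 hA)⟩
  · rintro ⟨S, hS, hard⟩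
    exact key ⟨S, hS, fun A hA => wvote_of_maj hS (hard A hA)⟩
  · exact ⟨_, sparse_nil, fun A hA => maj_nil ((h A).1 hA)⟩
  · exact ⟨_, sparse_nil, fun A hA => wvote_of_disj sparse_nil (disj_nil ((h A).1 hA))⟩
  · rintro ⟨B, hB, hard⟩
    obtain ⟨S, hS, hBS⟩ := exists_wvote hB
    exact key ⟨S, hS, fun A hA => hBS A (hard A hA)⟩
  · exact ⟨_, thresholdGates_head, fun A hA => manyOne_head ((h A).1 hA)⟩

end Pool.Agent.Lib.MP_634427_lc.Maj
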