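import Pool.Agent.Lib.MP_634427_lc.Maj.Num

/-!
# Sizes of lists of natural numbers, lengths of the questions

The size `sz` of a number is the number, of a list the sum of `sz a + 1` over its members, of a pair
the sum plus one, of a word at most twice its length (`sz_word_le`); `length_code` gives the length
of a question. `LD.length_bits_le`: at most `z` digits for a number `< 2 ^ z`.
-/

namespace Pool.Agent.Lib.MP_634427_lc.Maj

open Pool.Agent.Lib.MP_634427_lc

/-- Bound for the length of the questions. -/
def qlen (z : ℕ) : ℕ := 4 * z ^ 3 + 2 * z ^ 2 + 10 * z + 5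

private lemma sz_list_le {α : Type} [Enc α] (B : ℕ) (l : List α) (h : ∀ a ∈ l, sz a ≤ B) :
    sz l ≤ l.length * (B + 1) := by
  induction l with
  | nil => simp
  | cons a l ih =>
    have h1 := h a List.mem_cons_self
    have h2 := ih fun b hb => h b (List.mem_cons_of_mem a hb)
    rw [sz_cons, List.length_cons, Nat.succ_mul]
    omega

private lemma sz_bits_le {z k : ℕ} (h : k < 2 ^ z) : sz (LD.bits k) ≤ 2 * z := by
  have h1 := sz_word_le (LD.bits k)
  have h2 := LD.length_bits_le h
  omega

/-- The questions are short. -/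
theorem length_quest_le {x : Word} {P m n z : ℕ} [NeZero P] (D : Itm P m n) (hP : P < 2 ^ z)
    (hn : n ≤ m + 2) (hm : m + 2 ≤ z) (hx : x.length ≤ z) :
    (quest x P (itmL D)).length ≤ qlen z := by
  have hrow : ∀ r : Row P m, sz ((rowL r).map LD.bits) ≤ z * (2 * z + 1) := by
    intro r
    have h1 : sz ((rowL r).map LD.bits) ≤ ((rowL r).map LD.bits).length * (2 * z + 1) := by
      refine sz_list_le (2 * z) _ fun a ha => ?_
      obtain ⟨k, hk, rfl⟩ := List.mem_map.1 ha
      refine sz_bits_le (lt_trans ?_ hP)
      rcases List.mem_cons.1 hk with rfl | hk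
      · exact ZMod.val_lt _
      · obtain ⟨j, rfl⟩ := (List.mem_ofFn' _ _).1 hk
        exact ZMod.val_lt _
    have h2 : ((rowL r).map LD.bits).length = m + 1 := by
      simp [rowL]
    rw [h2] at h1
    exact h1.trans (Nat.mul_le_mul_right _ (by omega))
  have hitm : sz ((itmL D).map fun r => r.map LD.bits) ≤ z * (z * (2 * z + 1) + 1) := by
    have h1 : sz ((itmL D).map fun r => r.map LD.bits) ≤
        ((itmL D).map fun r => r.map LD.bits).length * (z * (2 * z + 1) + 1) := by
      refine sz_list_le _ _ fun a ha => ?_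
      obtain ⟨r, hr, rfl⟩ := List.mem_map.1 ha
      obtain ⟨i, rfl⟩ := (List.mem_ofFn' _ _).1 hr
      exact hrow (D i)
    have h2 : ((itmL D).map fun r => r.map LD.bits).length = n := by
      simp [itmL]
    rw [h2] at h1
    exact h1.trans (Nat.mul_le_mul_right _ (by omega))
  have h3 : (quest x P (itmL D)).length =
      2 * (sz x + (sz (LD.bits P) + sz ((itmL D).map fun r => r.map LD.bits) + 1) + 1) + 1 :=
    length_code _
  have h4 := sz_word_le x
  have h5 := sz_bits_le hP
  have h6 : z * (z * (2 * z + 1) + 1) = 2 * z ^ 3 + z ^ 2 + z := by ring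
  rw [h6] at hitm
  rw [h3]
  unfold qlen
  omega

/-- Bound for the size of a node. -/
def nlen (P m : ℕ) : ℕ := 8 * (m + 3) ^ 2 * (P + 1) ^ 4

end Pool.Agent.Lib.MP_634427_lc.Maj
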