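import Pool.Agent.Lib.MP_634427_lc.Maj.GapRel

/-!
# The gap test

`ProjCands` for `gapRel Rel m`, the projection `W ↦ W.take (m x)`, the length `k * m x` of `W` and the
length `m x` of the projection. The test `gap ((x, (P, k0)), D)`: for all `k < k0` no member `u` of
`cand ((x, P), (k + 1, D))` with `u.length = m x` satisfies `Rel (x, u)`.
-/

namespace Pool.Agent.Lib.MP_634427_lc.Maj

open Pool.Agent.Lib.MP_634427_lc

/-- The gap test. -/
def gapT (Rel : Word × Word → Bool) (m : Word → ℕ)
    (cand : (Word × ℕ) × (ℕ × IL) → List Word) (a : (Word × (ℕ × ℕ)) × IL) : Bool :=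
  (List.range a.1.2.2).all fun k => (cand ((a.1.1, a.1.2.1), (k + 1, a.2))).all fun u =>
    !(decide (u.length = m a.1.1) && Rel (a.1.1, u))

private lemma pt_gapT {Rel : Word × Word → Bool} {m : Word → ℕ} (hRel : PT Rel) (hm : PT m)
    {cand : (Word × ℕ) × (ℕ × IL) → List Word} (hc : PT cand) : PT (gapT Rel m cand) := by
  unfold gapT
  refine PT.all (PT.range (PT.snd' (PT.snd' PT.fst))) ?_
  refine PT.all (hc.comp (PT.pair (PT.pair (PT.fst' (PT.fst' PT.fst))
    (PT.fst' (PT.snd' (PT.fst' PT.fst)))) (PT.pair (PT.succ PT.snd) (PT.snd' PT.fst)))) ?_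
  refine PT.not (PT.and (PT.eqNat (PT.length PT.snd) (hm.comp (PT.fst' (PT.fst' (PT.fst' PT.fst)))))
    (hRel.comp (PT.pair (PT.fst' (PT.fst' (PT.fst' PT.fst))) PT.snd)))

/-- The gap test. -/
theorem exists_gap (hP : ProjCands) {Rel : Word × Word → Bool} {m : Word → ℕ} (hRel : PT Rel)
    (hm : PT m) : ∃ gap : (Word × (ℕ × ℕ)) × IL → Bool, PT gap ∧
      (∀ (x : Word) (P k0 n : ℕ) [NeZero P] (D : Itm P (m x) n),
        gap ((x, (P, k0)), itmL D) = true → (∃ w ∈ TW Rel m x, Sat D w) →
          k0 < ((TW Rel m x).filter fun w => Sat D w).card) ∧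
      ∀ x P k0 D, TW Rel m x = ∅ → gap ((x, (P, k0)), D) = true := by
  obtain ⟨cand, hcand, hc⟩ := hP (gapRel Rel m) (fun p => p.2.take (m p.1.1.1))
    (fun a => a.2.1 * m a.1.1) (fun a => m a.1.1) (pt_gapRel hRel hm)
    (PT.take (hm.comp (PT.fst' (PT.fst' PT.fst))) PT.snd)
    (PT.mul (PT.fst' PT.snd) (hm.comp (PT.fst' PT.fst))) (hm.comp (PT.fst' PT.fst))
  refine ⟨gapT Rel m cand, pt_gapT hRel hm hcand, ?_, ?_⟩
  · intro x P k0 n _ D hg hex
    by_contra hcon
    push Not at hcon
    obtain ⟨w, hw, hsat⟩ := hex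
    have hpos : 1 ≤ ((TW Rel m x).filter fun w => Sat D w).card :=
      Finset.card_pos.2 ⟨w, Finset.mem_filter.2 ⟨hw, hsat⟩⟩
    obtain ⟨k, hk⟩ : ∃ k, ((TW Rel m x).filter fun w => Sat D w).card = k + 1 :=
      ⟨_, (Nat.sub_add_cancel hpos).symm⟩
    obtain ⟨W, hWl, hW⟩ := gapRel_exists D hk
    have hlen : (W.take (m x)).length = m x := by
      rw [List.length_take, hWl]
      refine min_eq_left ?_
      calc m x = 1 * m x := (one_mul _).symm
        _ ≤ (k + 1) * m x := Nat.mul_le_mul_right _ (by omega)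
    have hmem := hc ((x, P), (k + 1, itmL D)) (W.take (m x)) hlen ⟨W, hWl, hW⟩
      fun W' hl' hW' => by
        have h1 := gapRel_unique D hk hWl hl' hW hW'
        show W'.take (m x) = W.take (m x)
        rw [h1]
    have hR : Rel (x, W.take (m x)) = true := by
      have h1 := hW
      unfold gapRel at h1
      rw [Bool.and_eq_true] at h1
      have h2 := List.all_eq_true.1 h1.1 0 (List.mem_range.2 (by simp))
      rw [Bool.and_eq_true] at h2
      have h3 := h2.1
      simp only [blk, Nat.zero_mul, List.drop_zero] at h3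
      exact h3
    unfold gapT at hg
    have h1 := List.all_eq_true.1 hg k (List.mem_range.2 (by simp only; omega))
    have h2 := List.all_eq_true.1 h1 _ hmem
    simp only [hlen, decide_true, Bool.true_and, hR, Bool.not_true] at h2
    exact absurd h2 (by simp)
  · intro x P k0 D hT
    unfold gapT
    refine List.all_eq_true.2 fun k _ => List.all_eq_true.2 fun u _ => ?_
    simp only
    by_contra hcon
    rw [Bool.not_eq_true, Bool.not_eq_false', Bool.and_eq_true, decide_eq_true_eq] at hcon
    obtain ⟨hl, hR⟩ := hcon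
    have h1 : (fun i : Fin (m x) => u.get ⟨i.val, by rw [hl]; exact i.2⟩) ∈ TW Rel m x := by
      unfold TW
      rw [Finset.mem_filter]
      refine ⟨Finset.mem_univ _, ?_⟩
      have h2 : (List.ofFn fun i : Fin (m x) => u.get ⟨i.val, by rw [hl]; exact i.2⟩) = u := by
        apply List.ext_get
        · rw [List.length_ofFn, hl]
        · intro n h1 h2
          simp
      rw [h2]
      exact hR
    rw [hT] at h1
    exact absurd h1 (Finset.notMem_empty _)

end Pool.Agent.Lib.MP_634427_lc.Maj
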