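import Pool.Agent.Lib.MP_634427_lc.Maj.QuestPT

/-!
# The questions form a set in NP

`bval_bits`: as in LD/Bits.lean (there private). `zeroB_iff`: the sum has value `S` with
`(S : ZMod P) = ev r w` and `S < (m + 1) * P`, so `S = k * P` for some `k < m + 2` iff `P ∣ S`.
`exists_quest`: `Small.exists_np_code (qver Rel) (fun a => m a.1)`.
-/

namespace Pool.Agent.Lib.MP_634427_lc.Maj

open Pool.Agent.Lib.MP_634427_lc

private theorem quest_bval_inc : ∀ l : Word, LT.bval (LD.inc l) = LT.bval l + 1
  | [] => rfl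
  | false :: l => by
    show LT.bval (true :: l) = _
    rw [LT.bval_cons, LT.bval_cons, LT.dg_true, LT.dg_false]
    omega
  | true :: l => by
    show LT.bval (false :: LD.inc l) = _
    rw [LT.bval_cons, LT.bval_cons, LT.dg_true, LT.dg_false, quest_bval_inc l]
    omega

theorem bval_bits (n : ℕ) : LT.bval (LD.bits n) = n := by
  induction n with
  | zero => rfl
  | succ n ih =>
    show LT.bval (LD.inc (LD.bits n)) = _
    rw [quest_bval_inc, ih]

theorem bval_sumB (l : List Word) : LT.bval (sumB l) = (l.map LT.bval).sum := by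
  induction l with
  | nil => rfl
  | cons a l ih =>
    show LT.bval (LT.addB a (sumB l)) = _
    rw [LT.bval_addB, ih, List.map_cons, List.sum_cons]

private theorem quest_eqB (a b : Word) : eqB a b = true ↔ LT.bval a = LT.bval b := by
  unfold eqB
  rw [Bool.and_eq_true, LT.leB_iff, LT.leB_iff]
  exact ⟨fun h => le_antisymm h.1 h.2, fun h => ⟨h.le, h.ge⟩⟩

private theorem quest_sum_range (f : ℕ → ℕ) (m : ℕ) :
    ((List.range m).map f).sum = ∑ i ∈ Finset.range m, f i := by
  induction m with
  | zero => rfl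
  | succ m ih => rw [List.sum_range_succ, Finset.sum_range_succ, ih]

/-- The value of the selected sum. -/
private theorem quest_sel {P m : ℕ} (r : Row P m) (w : Fin m → Bool) :
    LT.bval (sumB (selB (List.ofFn w) ((rowL r).map LD.bits))) =
      r.2.val + ∑ j, if w j = true then (r.1 j).val else 0 := by
  rw [bval_sumB]
  unfold selB
  rw [List.map_cons, List.sum_cons, List.map_map, List.length_ofFn]
  have h0 : ((rowL r).map LD.bits).getD 0 [] = LD.bits r.2.val := rfl
  rw [h0, bval_bits, quest_sum_range, Finset.sum_range]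
  congr 1
  refine Finset.sum_congr rfl fun j _ => ?_
  have h1 : (List.ofFn w).getD j.val false = w j := by
    rw [List.getD_eq_getElem _ _ (by rw [List.length_ofFn]; exact j.isLt), List.getElem_ofFn]
  have h2 : ((rowL r).map LD.bits).getD (j.val + 1) [] = LD.bits (r.1 j).val := by
    unfold rowL
    rw [List.map_cons, List.getD_cons_succ, List.getD_eq_getElem _ _ (by
      rw [List.length_map, List.length_ofFn]; exact j.isLt), List.getElem_map, List.getElem_ofFn]
  show LT.bval (bif (List.ofFn w).getD j.val false then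
    ((rowL r).map LD.bits).getD (j.val + 1) [] else []) = _
  rw [h1, h2]
  cases w j with
  | true => rw [cond_true, if_pos rfl, bval_bits]
  | false => rw [cond_false, if_neg (by decide)]; rfl

/-- The test of one row. -/
theorem zeroB_iff {P m : ℕ} [NeZero P] (r : Row P m) (w : Fin m → Bool) :
    zeroB (List.ofFn w) (LD.bits P) ((rowL r).map LD.bits) = true ↔ ev r w = 0 := by
  obtain ⟨S, hS⟩ : ∃ S, S = r.2.val + ∑ j, if w j = true then (r.1 j).val else 0 := ⟨_, rfl⟩
  have hcast : ((S : ℕ) : ZMod P) = ev r w := by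
    rw [hS, Nat.cast_add, Nat.cast_sum, ZMod.natCast_zmod_val]
    unfold ev
    rw [add_comm]
    congr 1
    refine Finset.sum_congr rfl fun j _ => ?_
    split_ifs
    · exact ZMod.natCast_zmod_val _
    · exact Nat.cast_zero
  have hP : 0 < P := Nat.pos_of_ne_zero (NeZero.ne P)
  have hlt : S < (m + 1) * P := by
    have h1 : ∑ j, (if w j = true then (r.1 j).val else 0) ≤ m * (P - 1) := by
      calc ∑ j, (if w j = true then (r.1 j).val else 0) ≤ ∑ _j : Fin m, (P - 1) := by
            refine Finset.sum_le_sum fun j _ => ?_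
            have := ZMod.val_lt (r.1 j)
            split_ifs <;> omega
        _ = m * (P - 1) := by simp
    have h2 := ZMod.val_lt r.2
    have h3 : m * (P - 1) ≤ m * P := Nat.mul_le_mul_left m (Nat.sub_le _ _)
    have h4 : (m + 1) * P = m * P + P := by ring
    omega
  have hz : zeroB (List.ofFn w) (LD.bits P) ((rowL r).map LD.bits) = true ↔
      ∃ k < m + 2, S = k * P := by
    unfold zeroB
    rw [List.any_eq_true, List.length_ofFn]
    refine exists_congr fun k => ?_
    rw [List.mem_range, quest_eqB, quest_sel, ← hS, bval_sumB, List.map_replicate, bval_bits,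
      List.sum_replicate, smul_eq_mul]
  rw [hz, ← hcast, ZMod.natCast_eq_zero_iff]
  constructor
  · rintro ⟨k, -, hk⟩
    exact ⟨k, by rw [hk, mul_comm]⟩
  · rintro ⟨k, hk⟩
    refine ⟨k, ?_, by rw [hk, mul_comm]⟩
    by_contra h
    push Not at h
    have h1 : (m + 1) * P ≤ P * k := by
      rw [mul_comm P k]
      exact Nat.mul_le_mul_right P (by omega)
    omega

theorem qver_iff {Rel : Word × Word → Bool} {P m n : ℕ} [NeZero P] (x : Word) (D : Itm P m n)
    (w : Fin m → Bool) :
    qver Rel ((x, (LD.bits P, (itmL D).map fun r => r.map LD.bits)), List.ofFn w) = true ↔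
      Rel (x, List.ofFn w) = true ∧ Sat D w := by
  unfold qver
  rw [Bool.and_eq_true]
  refine and_congr_right fun _ => ?_
  rw [List.all_eq_true]
  constructor
  · intro h i
    refine (zeroB_iff (D i) w).1 (h _ ?_)
    refine List.mem_map.2 ⟨rowL (D i), ?_, rfl⟩
    exact List.mem_ofFn.2 ⟨i, rfl⟩
  · intro h r hr
    obtain ⟨r', hr', rfl⟩ := List.mem_map.1 hr
    obtain ⟨i, rfl⟩ := List.mem_ofFn.1 hr'
    exact (zeroB_iff (D i) w).2 (h i)

/-- The questions form a set in NP. -/
theorem exists_quest {Rel : Word × Word → Bool} {m : Word → ℕ} (hRel : PT Rel) (hm : PT m) :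
    ∃ A : Set Word, InNP A ∧ ∀ (x : Word) (P n : ℕ) [NeZero P] (D : Itm P (m x) n),
      quest x P (itmL D) ∈ A ↔ ∃ w ∈ TW Rel m x, Sat D w := by
  obtain ⟨A, hA, h⟩ := Small.exists_np_code (α := Word × (Word × List (List Word))) (qver Rel)
    (fun a => m a.1) (PT.majQver hRel) (hm.comp PT.fst)
  refine ⟨A, hA, fun x P n _ D => ?_⟩
  unfold quest
  rw [h]
  constructor
  · rintro ⟨u, hu, hq⟩
    have hu' : u.length = m x := hu
    obtain ⟨w, rfl⟩ : ∃ w : Fin (m x) → Bool, u = List.ofFn w := by
      refine ⟨fun i => u.get (Fin.cast hu'.symm i), ?_⟩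
      refine List.ext_getElem (by rw [List.length_ofFn, hu']) fun i h1 h2 => ?_
      rw [List.getElem_ofFn]
      rfl
    obtain ⟨h1, h2⟩ := (qver_iff x D w).1 hq
    exact ⟨w, Finset.mem_filter.2 ⟨Finset.mem_univ _, h1⟩, h2⟩
  · rintro ⟨w, hw, hs⟩
    exact ⟨List.ofFn w, List.length_ofFn, (qver_iff x D w).2 ⟨(Finset.mem_filter.1 hw).2, hs⟩⟩

end Pool.Agent.Lib.MP_634427_lc.Maj
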