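import Pool.Agent.Lib.MP_634427_lc.Maj.Prm

/-!
# The parameters in polynomial time (unary numbers)
-/

namespace Pool.Agent.Lib.MP_634427_lc.PT

open Pool.Agent.Lib.MP_634427_lc

variable {γ : Type} [Enc γ]

private theorem majq {z : γ → ℕ} (hz : PT z) : PT fun a => Maj.qlen (z a) :=
  add (add (add (mul (const 4) (pow hz 3)) (mul (const 2) (pow hz 2))) (mul (const 10) hz))
    (const 5)

private theorem majp {z : γ → ℕ} (cf : ℕ) (hz : PT z) : PT fun a => Maj.pZ cf (z a) :=
  pow (add (mul (const 2) (majq hz)) (const 2)) cf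

theorem majR {z : γ → ℕ} (cf c : ℕ) (hz : PT z) : PT fun a => Maj.RZ cf c (z a) :=
  add (mul (const 4) (add (pow (majp cf hz) c) (const c))) (const 1)

theorem majM {z : γ → ℕ} (cf c : ℕ) (hz : PT z) : PT fun a => Maj.MZ cf c (z a) :=
  add (mul (mul (const 16) (pow (majp cf hz) 2)) (pow (majR cf c hz) 2)) (const 1)

theorem majP {z : γ → ℕ} (cf c : ℕ) (hz : PT z) : PT fun a => Maj.PZ cf c (z a) :=
  nextPrime (add
    (mul (mul (const 4) (majM cf c hz))
      (add (mul (mul (const 36) (pow (majp cf hz) 2)) (pow (majR cf c hz) 2)) (const 1)))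
    (mul (mul (const 4) (add (majp cf hz) (const 1))) (pow (add hz (const 1)) 2)))

theorem majk {z : γ → ℕ} (cf c : ℕ) (hz : PT z) : PT fun a => Maj.kZ cf c (z a) :=
  mul (mul (const 4) (add (majp cf hz) (const 1))) (majP cf c hz)

end Pool.Agent.Lib.MP_634427_lc.PT
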