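import Pool.Agent.Lib.MP_634427_lc.Maj.LtDefs
import Pool.Agent.Lib.MP_634427_lc.Maj.PrmPT

/-!
# The parameters of the weighted version

`z` is the main parameter, `p` the dimension, `b` bounds the bit lengths of the vectors; `p` and `b`
are polynomials in `z`.
-/

namespace Pool.Agent.Lib.MP_634427_lc.Maj

open Pool.Agent.Lib.MP_634427_lc

/-- Length of the lists. -/
def MW (p : ℕ) : ℕ := 409600 * p ^ 8

/-- The prime number. -/
def PW (p z : ℕ) : ℕ :=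
  LT.nextPrime (4 * MW p * (921600 * p ^ 8 + 1) + 144 * p ^ 2 * (z + 1) ^ 2)

/-- Bound for the gap test. -/
def kW (p z : ℕ) : ℕ := 144 * p ^ 2 * PW p z

/-- Bound for the bit length of the number of the items of a level. -/
def cW (z : ℕ) : ℕ := z * (z + 1) ^ 2

/-- The exponent of the unit of length. -/
def uW (p b z : ℕ) : ℕ := ltK p b (cW z) + ltL p b

theorem prime_PW (p z : ℕ) : (PW p z).Prime := LT.nextPrime_prime _

private theorem wprm_lt (p z : ℕ) :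
    4 * MW p * (921600 * p ^ 8 + 1) + 144 * p ^ 2 * (z + 1) ^ 2 < PW p z := LT.lt_nextPrime _

theorem MW_pos {p : ℕ} (hp : 0 < p) : 0 < MW p := by
  unfold MW
  positivity

/-- `hP` of `lt_exist`. -/
theorem wprm_P (p z : ℕ) : 4 * MW p * (921600 * p ^ 8 + 1) ≤ PW p z := by
  have h := wprm_lt p z
  omega

/-- `hP` of `lt_sound`. -/
theorem wprm_P' (p : ℕ) {z m : ℕ} (h : m ≤ z) : 144 * p ^ 2 * (m + 1) ^ 2 ≤ PW p z := by
  have h1 := wprm_lt p z
  have h2 : 144 * p ^ 2 * (m + 1) ^ 2 ≤ 144 * p ^ 2 * (z + 1) ^ 2 :=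
    Nat.mul_le_mul_left _ (Nat.pow_le_pow_left (by omega) 2)
  omega

section PT

variable {γ : Type} [Enc γ]

theorem PT_MW {p : γ → ℕ} (hp : PT p) : PT fun a => MW (p a) :=
  PT.mul (PT.const 409600) (PT.pow hp 8)

theorem PT_PW {p z : γ → ℕ} (hp : PT p) (hz : PT z) : PT fun a => PW (p a) (z a) :=
  PT.nextPrime (PT.add
    (PT.mul (PT.mul (PT.const 4) (PT_MW hp)) (PT.succ (PT.mul (PT.const 921600) (PT.pow hp 8))))
    (PT.mul (PT.mul (PT.const 144) (PT.pow hp 2)) (PT.pow (PT.succ hz) 2)))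

theorem PT_kW {p z : γ → ℕ} (hp : PT p) (hz : PT z) : PT fun a => kW (p a) (z a) :=
  PT.mul (PT.mul (PT.const 144) (PT.pow hp 2)) (PT_PW hp hz)

theorem PT_cW {z : γ → ℕ} (hz : PT z) : PT fun a => cW (z a) :=
  PT.mul hz (PT.pow (PT.succ hz) 2)

theorem PT_ltK {p b c : γ → ℕ} (hp : PT p) (hb : PT b) (hc : PT c) :
    PT fun a => ltK (p a) (b a) (c a) :=
  PT.add (PT.add (PT.add (PT.add hc (PT.mul (PT.const 2) hp)) (PT.mul (PT.const 2) hb))
    (PT.const 4)) (PT.add (PT.pow hp 2) (PT.mul hp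
      (PT.add (PT.add (PT.add hc hp) (PT.mul (PT.const 2) hb)) (PT.const 4))))

theorem PT_ltL {p b : γ → ℕ} (hp : PT p) (hb : PT b) : PT fun a => ltL (p a) (b a) :=
  PT.add (PT.add hb (PT.mul (PT.const 3) hp)) (PT.const 8)

theorem PT_uW {p b z : γ → ℕ} (hp : PT p) (hb : PT b) (hz : PT z) :
    PT fun a => uW (p a) (b a) (z a) :=
  PT.add (PT_ltK hp hb (PT_cW hz)) (PT_ltL hp hb)

end PT

private theorem wprm_exp (q : ℕ) : ∃ E : ℕ, ∀ z, E ≤ z → (z + 2) ^ q < 2 ^ z := by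
  have h := (tendsto_pow_const_div_const_pow_of_one_lt q (one_lt_two (α := ℝ))).comp
    (Filter.tendsto_add_atTop_nat 2)
  have h1 := h.eventually (gt_mem_nhds (show (0 : ℝ) < 1 / 4 by norm_num))
  obtain ⟨E, hE⟩ := h1.exists_forall_of_atTop
  refine ⟨E, fun z hz => ?_⟩
  have h2 := hE z hz
  simp only [Function.comp_apply] at h2
  rw [div_lt_iff₀ (by positivity), pow_add] at h2
  have h3 : ((z + 2 : ℕ) : ℝ) ^ q < 2 ^ z := by
    have h4 : (1 / 4 : ℝ) * (2 ^ z * 2 ^ 2) = 2 ^ z := by ring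
    rwa [h4] at h2
  exact_mod_cast h3

/-- The prime number is small. -/
theorem exists_EW {p : ℕ → ℕ} (hp : PT p) : ∃ E : ℕ, 1 ≤ E ∧ ∀ z, E ≤ z → PW (p z) z < 2 ^ z := by
  obtain ⟨q, hq⟩ := (PT_PW hp PT.id).size_le
  obtain ⟨E, hE⟩ := wprm_exp q
  refine ⟨E + 1, by omega, fun z hz => ?_⟩
  have h1 := hq z
  rw [sz_nat, sz_nat] at h1
  exact h1.trans_lt (hE z (by omega))

end Pool.Agent.Lib.MP_634427_lc.Maj
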