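import Pool.Agent.Lib.MP_634427_lc.Maj.Defs

/-!
# Most systems of `m + 2` equations in `m` unknowns are contradictory

Proof. If `(0, 1)` is not in the span of the `m + 2` rows then there is a linear functional which
vanishes on the rows and is 1 on `(0, 1)` (for instance by `Submodule.exists_le_ker_of_notMem` or
by a complement), i.e. a vector `l : Fin m → ZMod P` with `∑ j, l j * (D i).1 j + (D i).2 = 0` for
all `i`. For a fixed `l` such a `D` is determined by its first components: `P ^ (m * (m + 2))`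
items. So there are at most `P ^ m * P ^ (m * (m + 2))` bad items, and all items are
`P ^ ((m + 1) * (m + 2)) = P ^ (m * (m + 2)) * P ^ (m + 2)`.
-/

namespace Pool.Agent.Lib.MP_634427_lc.Maj

/-- A system which does not contain the contradiction is killed by a functional. -/
private lemma bot_functional {P m n : ℕ} [Fact P.Prime] (D : Itm P m n)
    (h : ¬ ∃ y : Fin n → ZMod P, ∑ i, y i • D i = ((0 : Fin m → ZMod P), (1 : ZMod P))) :
    ∃ l : Fin m → ZMod P, ∀ i, (D i).2 = -∑ j, l j * (D i).1 j := by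
  have h1 : ((0 : Fin m → ZMod P), (1 : ZMod P)) ∉ Submodule.span (ZMod P) (Set.range D) := by
    intro hm
    exact h ((Submodule.mem_span_range_iff_exists_fun (ZMod P)).1 hm)
  obtain ⟨f, hf, hle⟩ := Submodule.exists_le_ker_of_notMem h1
  set c := f ((0 : Fin m → ZMod P), (1 : ZMod P)) with hc
  refine ⟨fun j => c⁻¹ * f (Pi.single j 1, 0), fun i => ?_⟩
  have h2 : f (D i) = 0 := hle (Submodule.subset_span ⟨i, rfl⟩)
  have h3 : D i = (∑ j, (D i).1 j • ((Pi.single j 1 : Fin m → ZMod P), (0 : ZMod P))) +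
      (D i).2 • ((0 : Fin m → ZMod P), (1 : ZMod P)) := by
    apply Prod.ext
    · simp only [Prod.fst_add, Prod.fst_sum, Prod.smul_fst, smul_zero, add_zero]
      funext k
      simp [Finset.sum_apply, Pi.single_apply]
    · simp [Prod.snd_sum]
  rw [h3, map_add, map_sum, map_smul] at h2
  simp only [map_smul, smul_eq_mul] at h2
  have h4 : (∑ j, (D i).1 j * f (Pi.single j 1, 0)) + (D i).2 * c = 0 := h2
  have h5 : (D i).2 = -(c⁻¹ * ∑ j, (D i).1 j * f (Pi.single j 1, 0)) := by
    have : (∑ j, (D i).1 j * f (Pi.single j 1, 0)) = -((D i).2 * c) := by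
      rw [← sub_eq_zero, sub_neg_eq_add]; exact h4
    rw [this]
    field_simp
  rw [h5, Finset.mul_sum]
  congr 1
  exact Finset.sum_congr rfl fun j _ => by ring

open scoped Classical in
/-- For most items of level `m + 2` the equation `0 = 1` is a combination of the equations. -/
theorem bot (P m : ℕ) [Fact P.Prime] :
    (Finset.univ.filter fun D : Itm P m (m + 2) => ¬ ∃ y : Fin (m + 2) → ZMod P,
      ∑ i, y i • D i = ((0 : Fin m → ZMod P), (1 : ZMod P))).card * P ≤
      Fintype.card (Itm P m (m + 2)) := by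
  set B := Finset.univ.filter fun D : Itm P m (m + 2) => ¬ ∃ y : Fin (m + 2) → ZMod P,
      ∑ i, y i • D i = ((0 : Fin m → ZMod P), (1 : ZMod P)) with hB
  have hP : 0 < P := (Fact.out : P.Prime).pos
  have hbad : ∀ D : Itm P m (m + 2), ∃ l : Fin m → ZMod P,
      D ∈ B → ∀ i, (D i).2 = -∑ j, l j * (D i).1 j := by
    intro D
    by_cases hD : D ∈ B
    · obtain ⟨l, hl⟩ := bot_functional D (Finset.mem_filter.1 hD).2
      exact ⟨l, fun _ => hl⟩
    · exact ⟨0, fun h => absurd h hD⟩
  choose l hl using hbad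
  let g : Itm P m (m + 2) → (Fin m → ZMod P) × (Fin (m + 2) → Fin m → ZMod P) := fun D =>
    (l D, fun i => (D i).1)
  have hinj : Set.InjOn g (B : Set (Itm P m (m + 2))) := by
    intro D hD E hE hDE
    obtain ⟨h1, h2⟩ := Prod.mk.inj hDE
    funext i
    have h3 : (D i).1 = (E i).1 := congrFun h2 i
    apply Prod.ext h3
    rw [hl D hD i, hl E hE i, h1, h3]
  have hcard := Finset.card_le_card_of_injOn (t := Finset.univ) g (fun _ _ => Finset.mem_univ _) hinj
  have e1 : (Finset.univ : Finset ((Fin m → ZMod P) × (Fin (m + 2) → Fin m → ZMod P))).card =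
      P ^ m * (P ^ m) ^ (m + 2) := by
    rw [Finset.card_univ]
    simp [ZMod.card]
  have e2 : Fintype.card (Itm P m (m + 2)) = (P ^ m) ^ (m + 2) * P ^ (m + 2) := by
    simp [ZMod.card, mul_pow]
  rw [e2]
  rw [e1] at hcard
  calc B.card * P ≤ (P ^ m * (P ^ m) ^ (m + 2)) * P := Nat.mul_le_mul_right _ hcard
    _ = (P ^ m) ^ (m + 2) * P ^ (m + 1) := by ring
    _ ≤ (P ^ m) ^ (m + 2) * P ^ (m + 2) :=
        Nat.mul_le_mul_left _ (Nat.pow_le_pow_right hP (by omega))

private lemma ev_sum {P m n : ℕ} (D : Itm P m n) (y : Fin n → ZMod P) (w : Fin m → Bool) :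
    ev (∑ i, y i • D i) w = ∑ i, y i * ev (D i) w := by
  unfold ev
  simp only [Prod.fst_sum, Prod.snd_sum, Prod.smul_fst, Prod.smul_snd, Finset.sum_apply,
    Pi.smul_apply, smul_eq_mul, mul_add, Finset.sum_add_distrib]
  congr 1
  have h : ∀ j : Fin m, (if w j = true then ∑ i, y i * (D i).1 j else 0) =
      ∑ i, y i * (if w j = true then (D i).1 j else 0) := by
    intro j
    split_ifs
    · rfl
    · simp
  rw [Finset.sum_congr rfl fun j _ => h j, Finset.sum_comm]
  exact Finset.sum_congr rfl fun i _ => by rw [Finset.mul_sum]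

/-- A contradictory system has no solution. -/
theorem not_sat_of_comb {P m n : ℕ} [Fact P.Prime] {D : Itm P m n} {y : Fin n → ZMod P}
    (h : ∑ i, y i • D i = ((0 : Fin m → ZMod P), (1 : ZMod P))) (w : Fin m → Bool) :
    ¬ Sat D w := by
  intro hs
  have h1 := ev_sum D y w
  rw [h] at h1
  have h2 : ∑ i, y i * ev (D i) w = 0 := Finset.sum_eq_zero fun i _ => by rw [hs i, mul_zero]
  rw [h2] at h1
  simp [ev] at h1

end Pool.Agent.Lib.MP_634427_lc.Maj
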