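import Pool.Agent.Lib.MP_634427_lc.Maj.Num

/-!
# Items and lists

Proofs: `List.ofFn` and `(List.range n).map` (List.ext_getElem or List.ofFn_eq_map / map range),
`ZMod.natCast_val`, `ZMod.cast_id`, `ZMod.val_natCast`, `ZMod.natCast_mod`, `ZMod.natCast_self_eq_zero`.
In `chN_eq`, `newN_eq`: two natural numbers `a % P` and `ZMod.val e` are equal if `(a : ZMod P) = e`
(`ZMod.val_natCast`); `pwN P t (j + 2) = t ^ (j + 2) % P` (since `P ≠ 0`) is cast to
`(t : ZMod P) ^ (j + 2)`.
-/

namespace Pool.Agent.Lib.MP_634427_lc.Maj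

open Pool.Agent.Lib.MP_634427_lc

private theorem bra_ofFn {α : Type} {n : ℕ} (f : Fin n → α) (d : α) (i : Fin n) :
    (List.ofFn f).getD i.val d = f i := by
  rw [List.getD_eq_getElem _ _ (by rw [List.length_ofFn]; exact i.isLt), List.getElem_ofFn]

private theorem bra_map {α : Type} (n : ℕ) (f : ℕ → α) :
    (List.range n).map f = List.ofFn fun i : Fin n => f i.val := by
  apply List.ext_getElem
  · rw [List.length_map, List.length_range, List.length_ofFn]
  · intro i h1 h2
    rw [List.getElem_map, List.getElem_range, List.getElem_ofFn]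

private theorem bra_cons {α : Type} (n : ℕ) (f : ℕ → α) :
    (List.range (n + 1)).map f = f 0 :: List.ofFn fun i : Fin n => f (i.val + 1) := by
  rw [List.range_succ_eq_map, List.map_cons, List.map_map, bra_map]
  rfl

private theorem bra_val {P : ℕ} (a : ℕ) (e : ZMod P) (h : (a : ZMod P) = e) :
    a % P = e.val := by
  rw [← h, ZMod.val_natCast]

private theorem bra_pw {P : ℕ} [NeZero P] (t j : ℕ) :
    ((pwN P t j : ℕ) : ZMod P) = (t : ZMod P) ^ j := by
  have h1 : P - 1 + 1 = P := Nat.succ_pred_eq_of_ne_zero (NeZero.ne P)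
  unfold pwN
  rw [h1, ZMod.natCast_mod, Nat.cast_pow]

theorem rowC_rowL {P m : ℕ} [NeZero P] (r : Row P m) : rowC P m (rowL r) = r := by
  refine Prod.ext (funext fun j => ?_) ?_
  · show (((rowL r).getD (j.val + 1) 0 : ℕ) : ZMod P) = r.1 j
    unfold rowL
    rw [List.getD_cons_succ, bra_ofFn (fun j => (r.1 j).val) 0 j, ZMod.natCast_val, ZMod.cast_id]
  · show (((rowL r).getD 0 0 : ℕ) : ZMod P) = r.2
    unfold rowL
    rw [List.getD_cons_zero, ZMod.natCast_val, ZMod.cast_id]

theorem itmC_itmL {P m n : ℕ} [NeZero P] (D : Itm P m n) : itmC P m n (itmL D) = D := by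
  funext i
  show rowC P m ((itmL D).getD i.val []) = D i
  unfold itmL
  rw [bra_ofFn (fun i => rowL (D i)) [] i, rowC_rowL]

private theorem bra_row (P m : ℕ) [NeZero P] (r : List ℕ) :
    (List.range (m + 1)).map (fun j => r.getD j 0 % P) = rowL (rowC P m r) := by
  rw [bra_cons]
  unfold rowL rowC
  refine congrArg₂ List.cons (bra_val _ _ rfl) (congrArg List.ofFn (funext fun j => ?_))
  exact bra_val _ _ rfl

theorem normN_eq (P m n : ℕ) [NeZero P] (D : IL) : normN P m n D = itmL (itmC P m n D) := by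
  unfold normN itmL itmC
  rw [bra_map]
  exact congrArg List.ofFn (funext fun i => bra_row P m _)

theorem newN_eq (P m n : ℕ) [NeZero P] (π : PL) (t t' g c : ℕ) :
    newN P m π.1.1 π.1.2 t t' g c = rowL ((vec (parC P m n π).1.1 (parC P m n π).1.2
      ((t : ZMod P), ((t' : ZMod P), (g : ZMod P))), (c : ZMod P)) : Row P m) := by
  unfold newN rowL
  rw [bra_map]
  refine congrArg₂ List.cons (bra_val _ _ rfl) (congrArg List.ofFn (funext fun j => ?_))
  refine bra_val _ _ ?_
  unfold vecN vec parC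
  rw [Nat.cast_add, Nat.cast_add, Nat.cast_add, Nat.cast_mul, Nat.cast_mul, Nat.cast_mul,
    Nat.cast_add, Nat.cast_add, Nat.cast_mul, Nat.cast_one, bra_pw, bra_pw]

theorem chN_eq (P m n : ℕ) [NeZero P] (D : IL) (v : List ℕ) (x : Row P m) :
    chN P m n D v (rowL x) =
      itmL (child (itmC P m n D) (fun i => ((v.getD i.val 0 : ℕ) : ZMod P)) x) := by
  unfold chN itmL
  rw [bra_map, List.ofFn_succ]
  refine congrArg₂ List.cons ?_ (congrArg List.ofFn (funext fun i => ?_))
  · rfl
  · show (List.range (m + 1)).map (fun j => ((D.getD i.val []).getD j 0 +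
      v.getD i.val 0 * (rowL x).getD j 0) % P) =
        rowL (itmC P m n D i + ((v.getD i.val 0 : ℕ) : ZMod P) • x)
    rw [bra_cons]
    unfold rowL
    refine congrArg₂ List.cons (bra_val _ _ ?_) (congrArg List.ofFn (funext fun j => ?_))
    · show (((D.getD i.val []).getD 0 0 + v.getD i.val 0 * x.2.val : ℕ) : ZMod P) =
        (((D.getD i.val []).getD 0 0 : ℕ) : ZMod P) + ((v.getD i.val 0 : ℕ) : ZMod P) * x.2
      rw [Nat.cast_add, Nat.cast_mul, ZMod.natCast_val, ZMod.cast_id]
    · refine bra_val _ _ ?_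
      rw [List.getD_cons_succ, bra_ofFn (fun j => (x.1 j).val) 0 j]
      show (((D.getD i.val []).getD (j.val + 1) 0 + v.getD i.val 0 * (x.1 j).val : ℕ) : ZMod P) =
        (((D.getD i.val []).getD (j.val + 1) 0 : ℕ) : ZMod P) +
          ((v.getD i.val 0 : ℕ) : ZMod P) * x.1 j
      rw [Nat.cast_add, Nat.cast_mul, ZMod.natCast_val, ZMod.cast_id]

theorem kidN_eq (P m n : ℕ) [NeZero P] (D : IL) (π : PL) {t t' g : ℕ} (ht : t < P) (ht' : t' < P)
    (hg : g < P) (c : ℕ) : kidN P m n D π t t' g c =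
      itmL (kid (itmC P m n D) (parC P m n π) ((t : ZMod P), ((t' : ZMod P), (g : ZMod P)))
        (c : ZMod P)) := by
  unfold kidN kid
  rw [newN_eq P m n, chN_eq]
  refine congrArg (fun v => itmL (child (itmC P m n D) v _)) (funext fun i => ?_)
  show (((π.2.getD (sidx P t t' g) []).getD i.val 0 : ℕ) : ZMod P) =
    (((π.2.getD (sidx P (t : ZMod P).val (t' : ZMod P).val (g : ZMod P).val) []).getD i.val 0 :
      ℕ) : ZMod P)
  rw [ZMod.val_natCast_of_lt ht, ZMod.val_natCast_of_lt ht', ZMod.val_natCast_of_lt hg]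

end Pool.Agent.Lib.MP_634427_lc.Maj
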