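import Pool.Agent.Lib.MP_634427_lc.Maj.BridgeA

/-!
# Sums over all children

`sum_kids`: `∑ t : ZMod P, f t = ((List.range P).map fun t => f (t : ZMod P)).sum` (for instance
`Fin.sum_univ_eq_sum_range` / `Finset.sum_nbij'` with `ZMod.val`), then `kidN_eq`.
-/

namespace Pool.Agent.Lib.MP_634427_lc.Maj

open Pool.Agent.Lib.MP_634427_lc

private theorem bridgeB_flat {α β γ : Type*} [AddCommMonoid γ] (l : List α) (f : α → List β)
    (F : β → γ) : ((l.flatMap f).map F).sum = (l.map fun a => ((f a).map F).sum).sum := by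
  induction l with
  | nil => rfl
  | cons a l ih =>
    rw [List.flatMap_cons, List.map_append, List.sum_append, ih, List.map_cons, List.sum_cons]

private theorem bridgeB_range {α : Type*} [AddCommMonoid α] (P : ℕ) [NeZero P] (f : ℕ → α)
    (g : ZMod P → α) (h : ∀ t < P, f t = g (t : ZMod P)) :
    ((List.range P).map f).sum = ∑ t, g t := by
  have h1 : ((List.range P).map f).sum = ∑ t ∈ Finset.range P, f t := rfl
  rw [h1]
  refine Finset.sum_nbij' (fun t => (t : ZMod P)) ZMod.val (fun _ _ => Finset.mem_univ _)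
    (fun t _ => Finset.mem_range.2 (ZMod.val_lt t)) (fun t ht => ?_) (fun t _ => ?_)
    (fun t ht => h t (Finset.mem_range.1 ht))
  · exact ZMod.val_natCast_of_lt (Finset.mem_range.1 ht)
  · exact ZMod.natCast_zmod_val t

/-- Sums over the list of all children. -/
theorem sum_kids {α : Type} [AddCommMonoid α] (P m n : ℕ) [NeZero P] (D : IL) (π : PL)
    (F : IL → α) : ((kidsN P m n D π).map F).sum =
      ∑ s : Seed P, ∑ c : ZMod P, F (itmL (kid (itmC P m n D) (parC P m n π) s c)) := by
  unfold kidsN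
  rw [bridgeB_flat, Fintype.sum_prod_type]
  refine bridgeB_range P _ _ fun t ht => ?_
  rw [bridgeB_flat, Fintype.sum_prod_type]
  refine bridgeB_range P _ _ fun t' ht' => ?_
  rw [bridgeB_flat]
  refine bridgeB_range P _ _ fun g hg => ?_
  rw [List.map_map]
  refine bridgeB_range P _ _ fun c _ => ?_
  rw [Function.comp_apply, kidN_eq P m n D π ht ht' hg c]

/-- Every child in the list is the list of an item. -/
theorem mem_kids {P m n : ℕ} [NeZero P] {D : IL} {π : PL} {E : IL} (h : E ∈ kidsN P m n D π) :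
    ∃ D' : Itm P m (n + 1), E = itmL D' := by
  unfold kidsN at h
  obtain ⟨t, ht, h⟩ := List.mem_flatMap.1 h
  obtain ⟨t', ht', h⟩ := List.mem_flatMap.1 h
  obtain ⟨g, hg, h⟩ := List.mem_flatMap.1 h
  obtain ⟨c, -, rfl⟩ := List.mem_map.1 h
  exact ⟨_, kidN_eq P m n D π (List.mem_range.1 ht) (List.mem_range.1 ht') (List.mem_range.1 hg) c⟩

end Pool.Agent.Lib.MP_634427_lc.Maj
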