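import Pool.Agent.Lib.MP_634427_lc.Data
import Pool.Agent.Lib.MP_634427_lc.Core

/-!
# Signed lists of bundles: counts, balance, comparison of frequencies
-/

namespace Pool.Agent.Lib.MP_634427_lc.Maj

open Pool.Agent.Lib.MP_634427_lc

/-- Lists of signed bundles. -/
abbrev SB : Type := List (Bool × List Word)

/-- The number of the positive members with bundle `b`. -/
def cntT (v : SB) (b : List Word) : ℕ := (v.filter fun e => e.1 && decide (e.2 = b)).length

/-- The number of the negative members with bundle `b`. -/
def cntF (v : SB) (b : List Word) : ℕ := (v.filter fun e => !e.1 && decide (e.2 = b)).length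

/-- The difference. -/
noncomputable def net (v : SB) (b : List Word) : ℝ := (cntT v b : ℝ) - cntF v b

/-- Do the frequencies in `v` (a union of `N` lists) and in `w` (a union of `M` lists) differ by at
most `1 / R`, for all bundles? -/
def closeN (N M R : ℕ) (v w : SB) : Bool :=
  ((v ++ w).map fun e => e.2).all fun b =>
    decide ((cntT v b * M + cntF w b * N) * R ≤ (cntF v b * M + cntT w b * N) * R + N * M) &&
      decide ((cntF v b * M + cntT w b * N) * R ≤ (cntT v b * M + cntF w b * N) * R + N * M)

private theorem cl_zero {v : SB} {b : List Word} (h : b ∉ v.map fun e => e.2) :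
    cntT v b = 0 ∧ cntF v b = 0 := by
  have h1 : ∀ e ∈ v, e.2 ≠ b := fun e he hb => h (List.mem_map.2 ⟨e, he, hb⟩)
  constructor
  · unfold cntT
    rw [List.length_eq_zero_iff, List.filter_eq_nil_iff]
    intro e he
    simp [h1 e he]
  · unfold cntF
    rw [List.length_eq_zero_iff, List.filter_eq_nil_iff]
    intro e he
    simp [h1 e he]

private theorem cl_one {N M R : ℕ} (hN : 0 < N) (hM : 0 < M) (hR : 0 < R) (a b c d : ℕ) :
    ((a * M + d * N) * R ≤ (b * M + c * N) * R + N * M ∧
      (b * M + c * N) * R ≤ (a * M + d * N) * R + N * M) ↔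
    |((a : ℝ) - b) / (N : ℝ) - ((c : ℝ) - d) / (M : ℝ)| ≤ 1 / (R : ℝ) := by
  have hN' : (0 : ℝ) < N := by exact_mod_cast hN
  have hM' : (0 : ℝ) < M := by exact_mod_cast hM
  have hR' : (0 : ℝ) < R := by exact_mod_cast hR
  have e : ((a : ℝ) - b) / (N : ℝ) - ((c : ℝ) - d) / (M : ℝ) =
      (((a : ℝ) * M + d * N) - (b * M + c * N)) / ((N : ℝ) * M) := by
    field_simp
    ring
  have hNM : (0 : ℝ) < (N : ℝ) * M := mul_pos hN' hM'
  rw [e, abs_div, abs_of_pos hNM, div_le_div_iff₀ hNM hR', one_mul]
  have e1 : |((a : ℝ) * M + d * N) - (b * M + c * N)| * R =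
      |(((a : ℝ) * M + d * N) - (b * M + c * N)) * R| := by
    rw [abs_mul, abs_of_pos hR']
  rw [e1, abs_le]
  have c1 : (a * M + d * N) * R ≤ (b * M + c * N) * R + N * M ↔
      (((a : ℝ) * M + d * N) - (b * M + c * N)) * R ≤ (N : ℝ) * M := by
    rw [← Nat.cast_le (α := ℝ)]
    push_cast
    constructor <;> intro h <;> nlinarith
  have c2 : (b * M + c * N) * R ≤ (a * M + d * N) * R + N * M ↔
      -((N : ℝ) * M) ≤ (((a : ℝ) * M + d * N) - (b * M + c * N)) * R := by
    rw [← Nat.cast_le (α := ℝ)]
    push_cast
    constructor <;> intro h <;> nlinarith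
  rw [c1, c2]
  exact and_comm

/-- The comparison. A bundle that does not occur has net 0 in both lists. -/
theorem closeN_iff {N M R : ℕ} (hN : 0 < N) (hM : 0 < M) (hR : 0 < R) (v w : SB) :
    closeN N M R v w = true ↔ ∀ b, |net v b / (N : ℝ) - net w b / (M : ℝ)| ≤ 1 / (R : ℝ) := by
  unfold closeN net
  rw [List.all_eq_true]
  constructor
  · intro h b
    by_cases hb : b ∈ (v ++ w).map fun e => e.2
    · have h1 := h b hb
      rw [Bool.and_eq_true, decide_eq_true_iff, decide_eq_true_iff] at h1
      exact (cl_one hN hM hR _ _ _ _).1 h1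
    · rw [List.map_append, List.mem_append, not_or] at hb
      rw [(cl_zero hb.1).1, (cl_zero hb.1).2, (cl_zero hb.2).1, (cl_zero hb.2).2]
      have hR' : (0 : ℝ) < R := by exact_mod_cast hR
      simp only [Nat.cast_zero, sub_zero, zero_div, abs_zero]
      positivity
  · intro h b _
    rw [Bool.and_eq_true, decide_eq_true_iff, decide_eq_true_iff]
    exact (cl_one hN hM hR _ _ _ _).2 (h b)

theorem net_flatMap {α : Type} (l : List α) (f : α → SB) (b : List Word) :
    net (l.flatMap f) b = (l.map fun a => net (f a) b).sum := by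
  induction l with
  | nil => simp [net, cntT, cntF]
  | cons a l ih =>
    rw [List.flatMap_cons, List.map_cons, List.sum_cons, ← ih]
    unfold net cntT cntF
    rw [List.filter_append, List.filter_append, List.length_append, List.length_append]
    push_cast
    ring

end Pool.Agent.Lib.MP_634427_lc.Maj
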