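import Pool.Agent.Lib.MP_634427_lc.Maj.Num
import Pool.Agent.Lib.MP_634427_lc.Maj.Close

/-!
# The certificate check
-/

namespace Pool.Agent.Lib.MP_634427_lc.Maj

open Pool.Agent.Lib.MP_634427_lc

/-- The answers of the reduction for all children of a node. -/
def kidsV (f : Word → SB) (x : Word) (P m n : ℕ) (a : Node) : SB :=
  (kidsN P m n a.1.1 a.1.2).flatMap fun D => f (quest x P D)

/-- The answers of the reduction for a list of nodes of level `n`. -/
def listV (f : Word → SB) (x : Word) (P m n : ℕ) (Y : List Node) : SB :=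
  Y.flatMap fun a => f (quest x P (normN P m n a.1.1))

/-- The test of a level: the gap test for each node, and the comparison of the answers for its
children with the answers for the next list. -/
def lvlOK (f : Word → SB) (gap : (Word × (ℕ × ℕ)) × IL → Bool) (x : Word) (P m k0 M R n : ℕ)
    (Y Y' : List Node) : Bool :=
  Y.all fun a => gap ((x, (P, k0)), normN P m n a.1.1) &&
    closeN (P ^ 4) M R (kidsV f x P m n a) (listV f x P m (n + 1) Y')

/-- The check of a certificate. -/
def check (f : Word → SB) (gap : (Word × (ℕ × ℕ)) × IL → Bool) (m P k0 M R : Word → ℕ)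
    (a : Word × List (List Node)) : Bool :=
  ((List.range (m a.1 + 3)).all fun n => decide ((a.2.getD n []).length = M a.1)) &&
  (((List.range (m a.1 + 2)).all fun n => lvlOK f gap a.1 (P a.1) (m a.1) (k0 a.1) (M a.1) (R a.1)
      n (a.2.getD n []) (a.2.getD (n + 1) [])) &&
    (a.2.getD (m a.1 + 2) []).all fun b => botN (P a.1) (m a.1) (m a.1 + 2) b.1.1 b.2)

end Pool.Agent.Lib.MP_634427_lc.Maj
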