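import Pool.Agent.Lib.MP_634427_lc.Maj.Close

/-!
# The balance and the net counts
-/

namespace Pool.Agent.Lib.MP_634427_lc.Maj

open Pool.Agent.Lib.MP_634427_lc

private theorem closeB_net_nil (b : List Word) : net ([] : SB) b = 0 := by
  unfold net cntT cntF
  simp

private theorem closeB_net_cons (e : Bool × List Word) (v : SB) (b : List Word) :
    net (e :: v) b = (if e.2 = b then (if e.1 = true then (1 : ℝ) else -1) else 0) + net v b := by
  obtain ⟨s, c⟩ := e
  unfold net cntT cntF
  by_cases hc : c = b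
  · cases s <;> simp [hc] <;> ring
  · cases s <;> simp [hc]

private theorem closeB_abs (v : SB) (B : Finset (List Word)) :
    ∑ b ∈ B, |net v b| ≤ (v.length : ℝ) := by
  classical
  induction v with
  | nil =>
    rw [Finset.sum_eq_zero fun b _ => by rw [closeB_net_nil, abs_zero]]
    simp
  | cons e v ih =>
    have h1 : ∀ b ∈ B, |net (e :: v) b| ≤ (if e.2 = b then (1 : ℝ) else 0) + |net v b| := by
      intro b _
      rw [closeB_net_cons]
      refine (abs_add_le _ _).trans (add_le_add ?_ le_rfl)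
      split_ifs <;> norm_num
    refine (Finset.sum_le_sum h1).trans ?_
    rw [Finset.sum_add_distrib, Finset.sum_ite_eq, List.length_cons]
    push_cast
    have h2 : (if e.2 ∈ B then (1 : ℝ) else 0) ≤ 1 := by split_ifs <;> norm_num
    linarith

/-- The balance is the sum of the net counts of the bundles inside `S`. -/
theorem balance_eq_net (S : Set Word) (v : SB) (BS : Finset (List Word))
    (h : ∀ e ∈ v, (∀ w ∈ e.2, w ∈ S) → e.2 ∈ BS) (h' : ∀ b ∈ BS, ∀ w ∈ b, w ∈ S) :
    ((balance S v : ℤ) : ℝ) = ∑ b ∈ BS, net v b := by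
  classical
  induction v with
  | nil =>
    rw [Finset.sum_eq_zero fun b _ => closeB_net_nil b]
    unfold balance
    simp
  | cons e v ih =>
    have ih' := ih fun e' he' => h e' (List.mem_cons_of_mem _ he')
    have h1 : balance S (e :: v) =
        (if ∀ w ∈ e.2, w ∈ S then (if e.1 then 1 else -1) else 0) + balance S v := by
      unfold balance
      rw [List.map_cons, List.sum_cons]
    rw [h1, Finset.sum_congr rfl fun b _ => closeB_net_cons e v b, Finset.sum_add_distrib, ← ih',
      Finset.sum_ite_eq]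
    have h2 : (∀ w ∈ e.2, w ∈ S) ↔ e.2 ∈ BS := ⟨h e List.mem_cons_self, h' e.2⟩
    by_cases h3 : e.2 ∈ BS
    · rw [if_pos h3, if_pos (h2.2 h3)]
      cases e.1 <;> simp
    · rw [if_neg h3, if_neg fun h4 => h3 (h2.1 h4)]
      simp

/-- `∑ net ^ 2 ≤ (∑ |net|) ^ 2 ≤ |v| ^ 2`. -/
theorem sum_net_sq_le (v : SB) (B : Finset (List Word)) :
    ∑ b ∈ B, net v b ^ 2 ≤ (v.length : ℝ) ^ 2 := by
  have h1 := closeB_abs v B
  have h2 : ∀ b ∈ B, net v b ^ 2 ≤ |net v b| * (v.length : ℝ) := by
    intro b hb
    rw [← sq_abs, sq]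
    refine mul_le_mul_of_nonneg_left ?_ (abs_nonneg _)
    exact (Finset.single_le_sum (f := fun b => |net v b|) (fun b _ => abs_nonneg _) hb).trans h1
  refine (Finset.sum_le_sum h2).trans ?_
  rw [← Finset.sum_mul, sq]
  exact mul_le_mul_of_nonneg_right h1 (Nat.cast_nonneg _)

theorem neg_le_sum_net (v : SB) (B : Finset (List Word)) :
    -(v.length : ℝ) ≤ ∑ b ∈ B, net v b := by
  have h1 := closeB_abs v B
  have h2 : -∑ b ∈ B, |net v b| ≤ ∑ b ∈ B, net v b := by
    rw [← Finset.sum_neg_distrib]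
    exact Finset.sum_le_sum fun b _ => neg_abs_le _
  linarith

end Pool.Agent.Lib.MP_634427_lc.Maj
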