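import Mathlib

/-!
# A random sample of good elements has the right means

Proof. Choose `Y : Fin M → Ω` uniformly. The fraction of the `Y` with some `Y k` not good is
`≤ M * τ`. With `ψ b = 𝔼 ω, φ ω b` the mean over `Y` of `∑ b, ((∑ k, φ (Y k) b) / M - ψ b) ^ 2` is
`(∑ b, 𝔼 (φ - ψ b) ^ 2) / M ≤ p ^ 2 / M` (independence: for `k ≠ l` the mean of
`(φ (Y k) b - ψ b) * (φ (Y l) b - ψ b)` is 0). If some `b ∈ B` violates the bound then the sum is
`> (δ / 2) ^ 2`; so the fraction of these `Y` is `≤ 4 * p ^ 2 / (M * δ ^ 2)`. The sum of the two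
fractions is `< 1`.
-/

namespace Pool.Agent.Lib.MP_634427_lc.Maj

open Finset
open scoped BigOperators

private lemma sum_cons {Ω : Type} [Fintype Ω] (n : ℕ) (f : (Fin (n + 1) → Ω) → ℝ) :
    ∑ Y : Fin (n + 1) → Ω, f Y = ∑ a : Ω, ∑ Y : Fin n → Ω, f (Fin.cons a Y) := by
  rw [← (Fin.consEquiv fun _ : Fin (n + 1) => Ω).sum_comp, Fintype.sum_prod_type]
  rfl

private lemma sum_const_fun {Ω : Type} [Fintype Ω] (n : ℕ) (c : ℝ) :
    ∑ _Y : Fin n → Ω, c = (Fintype.card Ω : ℝ) ^ n * c := by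
  rw [Finset.sum_const, Finset.card_univ, Fintype.card_fun, Fintype.card_fin, nsmul_eq_mul]
  push_cast
  rfl

private lemma lin_sum {Ω : Type} [Fintype Ω] (g : Ω → ℝ) (n : ℕ) :
    (Fintype.card Ω : ℝ) * ∑ Y : Fin n → Ω, ∑ k, g (Y k) =
      n * (Fintype.card Ω : ℝ) ^ n * ∑ a, g a := by
  induction n with
  | zero => simp
  | succ n ih =>
    rw [sum_cons]
    simp only [Fin.sum_univ_succ, Fin.cons_zero, Fin.cons_succ, Finset.sum_add_distrib]
    simp only [Finset.sum_const, Finset.card_univ, nsmul_eq_mul, Fintype.card_fun,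
      Fintype.card_fin, Nat.cast_pow]
    rw [← Finset.mul_sum, mul_add, ih]
    push_cast
    ring

private lemma sq_sum {Ω : Type} [Fintype Ω] (g : Ω → ℝ) (hg : ∑ a, g a = 0) (n : ℕ) :
    (Fintype.card Ω : ℝ) * ∑ Y : Fin n → Ω, (∑ k, g (Y k)) ^ 2 =
      n * (Fintype.card Ω : ℝ) ^ n * ∑ a, g a ^ 2 := by
  induction n with
  | zero => simp
  | succ n ih =>
    rw [sum_cons]
    have h1 : ∀ (a : Ω) (Y : Fin n → Ω), (∑ k, g ((Fin.cons a Y : Fin (n + 1) → Ω) k)) ^ 2 =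
        g a ^ 2 + 2 * g a * (∑ k, g (Y k)) + (∑ k, g (Y k)) ^ 2 := by
      intro a Y
      rw [Fin.sum_univ_succ]
      simp only [Fin.cons_zero, Fin.cons_succ]
      ring
    simp only [h1, Finset.sum_add_distrib, Finset.sum_const, Finset.card_univ,
      nsmul_eq_mul, Fintype.card_fun, Fintype.card_fin, Nat.cast_pow]
    have h2 : ∑ a : Ω, ∑ Y : Fin n → Ω, 2 * g a * (∑ k, g (Y k)) = 0 := by
      simp only [← Finset.mul_sum]
      rw [← Finset.sum_mul, ← Finset.mul_sum, hg]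
      ring
    rw [h2, ← Finset.mul_sum, mul_add, add_zero, ih]
    push_cast
    ring

/-- Selection of a representative sample of good elements. -/
theorem pick {Ω β : Type} [Fintype Ω] [Nonempty Ω] (B : Finset β) (φ : Ω → β → ℝ) (p : ℝ)
    (hφ : ∀ ω, ∑ b ∈ B, φ ω b ^ 2 ≤ p ^ 2) (good : Ω → Prop) [DecidablePred good] (τ : ℝ)
    (hτ : ((Finset.univ.filter fun ω => ¬ good ω).card : ℝ) ≤ τ * Fintype.card Ω) (M : ℕ)
    (hM : 0 < M) (δ : ℝ) (hδ : 0 < δ) (h : M * τ + 4 * p ^ 2 / (M * δ ^ 2) < 1) :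
    ∃ Y : Fin M → Ω, (∀ k, good (Y k)) ∧
      ∀ b ∈ B, |(∑ k, φ (Y k) b) / M - 𝔼 ω, φ ω b| ≤ δ / 2 := by
  classical
  by_contra hcon
  simp only [not_exists, not_and] at hcon
  set N : ℝ := (Fintype.card Ω : ℝ) with hN
  have hN0 : 0 < N := by rw [hN]; exact_mod_cast Fintype.card_pos
  have hM0 : (0 : ℝ) < M := by exact_mod_cast hM
  set ψ : β → ℝ := fun b => 𝔼 ω, φ ω b with hψ
  have hψs : ∀ b, ∑ ω, φ ω b = N * ψ b := by
    intro b
    simp only [hψ]
    rw [Fintype.expect_eq_sum_div_card, mul_div_cancel₀ _ hN0.ne']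
  have hsum0 : ∀ b, ∑ ω, (φ ω b - ψ b) = 0 := by
    intro b
    rw [Finset.sum_sub_distrib, hψs, Finset.sum_const, Finset.card_univ, nsmul_eq_mul]
    ring
  have hvar : ∀ b, ∑ ω, (φ ω b - ψ b) ^ 2 ≤ ∑ ω, φ ω b ^ 2 := by
    intro b
    have e : ∀ ω, (φ ω b - ψ b) ^ 2 = φ ω b ^ 2 - 2 * ψ b * φ ω b + ψ b ^ 2 := by
      intro ω; ring
    simp only [e, Finset.sum_add_distrib, Finset.sum_sub_distrib, ← Finset.mul_sum, hψs,
      Finset.sum_const, Finset.card_univ, nsmul_eq_mul]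
    nlinarith [mul_nonneg hN0.le (sq_nonneg (ψ b))]
  set S : (Fin M → Ω) → ℝ := fun Y => ∑ b ∈ B, ((∑ k, φ (Y k) b) / M - ψ b) ^ 2 with hS
  set T : (Fin M → Ω) → ℝ := fun Y => ∑ k, if good (Y k) then 0 else 1 with hT
  have hSn : ∀ Y, 0 ≤ S Y := fun Y => Finset.sum_nonneg fun b _ => sq_nonneg _
  have hTn : ∀ Y, 0 ≤ T Y := fun Y => Finset.sum_nonneg fun k _ => by split_ifs <;> norm_num
  -- every sample is bad
  have hbad : ∀ Y, 1 ≤ T Y + 4 / δ ^ 2 * S Y := by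
    intro Y
    by_cases hg : ∀ k, good (Y k)
    · have h1 := hcon Y hg
      simp only [not_forall, not_le] at h1
      obtain ⟨b, hb, hlt⟩ := h1
      have h2 : ((∑ k, φ (Y k) b) / M - ψ b) ^ 2 ≤ S Y :=
        Finset.single_le_sum (f := fun b => ((∑ k, φ (Y k) b) / M - ψ b) ^ 2)
          (fun b _ => sq_nonneg _) hb
      have h3 : (δ / 2) ^ 2 ≤ ((∑ k, φ (Y k) b) / M - ψ b) ^ 2 := by
        rw [← sq_abs ((∑ k, φ (Y k) b) / M - ψ b)]
        exact pow_le_pow_left₀ (by positivity) hlt.le 2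
      have h4 : 1 ≤ 4 / δ ^ 2 * S Y := by
        rw [div_mul_eq_mul_div, le_div_iff₀ (by positivity)]
        nlinarith
      linarith [hTn Y]
    · simp only [not_forall] at hg
      obtain ⟨k, hk⟩ := hg
      have h1 : (1 : ℝ) ≤ T Y := by
        have h2 := Finset.single_le_sum (f := fun k => if good (Y k) then (0 : ℝ) else 1)
          (fun k _ => by split_ifs <;> norm_num) (Finset.mem_univ k)
        simpa [hk] using h2
      have h3 : 0 ≤ 4 / δ ^ 2 * S Y := mul_nonneg (by positivity) (hSn Y)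
      linarith
  -- the mean of T
  have hTs : ∑ Y, T Y ≤ M * τ * N ^ M := by
    have h1 := lin_sum (fun ω => if good ω then (0 : ℝ) else 1) M
    have h2 : ∑ ω, (if good ω then (0 : ℝ) else 1) ≤ τ * N := by
      refine le_trans (le_of_eq ?_) hτ
      rw [Finset.card_filter]
      push_cast
      exact Finset.sum_congr rfl fun ω _ => by by_cases hh : good ω <;> simp [hh]
    have h3 : N * ∑ Y, T Y ≤ N * (M * τ * N ^ M) := by
      rw [hT]
      rw [h1]
      calc (M : ℝ) * N ^ M * ∑ ω, (if good ω then (0 : ℝ) else 1) ≤ M * N ^ M * (τ * N) :=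
            mul_le_mul_of_nonneg_left h2 (by positivity)
        _ = N * (M * τ * N ^ M) := by ring
    exact le_of_mul_le_mul_left h3 hN0
  -- the mean of S
  have hSs : ∑ Y, S Y ≤ p ^ 2 / M * N ^ M := by
    have h1 : ∑ Y, S Y = ∑ b ∈ B, (∑ Y : Fin M → Ω, (∑ k, (φ (Y k) b - ψ b)) ^ 2) / M ^ 2 := by
      rw [hS, Finset.sum_comm]
      refine Finset.sum_congr rfl fun b _ => ?_
      rw [Finset.sum_div]
      refine Finset.sum_congr rfl fun Y _ => ?_
      rw [← div_pow]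
      congr 1
      rw [Finset.sum_sub_distrib, Finset.sum_const, Finset.card_univ, Fintype.card_fin,
        nsmul_eq_mul, sub_div, mul_div_cancel_left₀ _ hM0.ne']
    have h2 : N * ∑ Y, S Y ≤ N * (p ^ 2 / M * N ^ M) := by
      rw [h1, Finset.mul_sum]
      have h3 : ∀ b ∈ B, N * ((∑ Y : Fin M → Ω, (∑ k, (φ (Y k) b - ψ b)) ^ 2) / M ^ 2) ≤
          N ^ M / M * ∑ ω, φ ω b ^ 2 := by
        intro b _
        rw [← mul_div_assoc, sq_sum (fun ω => φ ω b - ψ b) (hsum0 b) M]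
        calc (M : ℝ) * N ^ M * (∑ a, (φ a b - ψ b) ^ 2) / M ^ 2
            = N ^ M / M * ∑ a, (φ a b - ψ b) ^ 2 := by field_simp
          _ ≤ _ := mul_le_mul_of_nonneg_left (hvar b) (by positivity)
      refine (Finset.sum_le_sum h3).trans ?_
      rw [← Finset.mul_sum, Finset.sum_comm]
      calc N ^ M / M * ∑ ω, ∑ b ∈ B, φ ω b ^ 2 ≤ N ^ M / M * ∑ _ω : Ω, p ^ 2 :=
            mul_le_mul_of_nonneg_left (Finset.sum_le_sum fun ω _ => hφ ω) (by positivity)
        _ = N * (p ^ 2 / M * N ^ M) := by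
            rw [Finset.sum_const, Finset.card_univ, nsmul_eq_mul]
            ring
    exact le_of_mul_le_mul_left h2 hN0
  have hfin : N ^ M * 1 ≤ M * τ * N ^ M + 4 / δ ^ 2 * (p ^ 2 / M * N ^ M) := by
    rw [hN, ← sum_const_fun (Ω := Ω) M 1, ← hN]
    calc ∑ _Y : Fin M → Ω, (1 : ℝ) ≤ ∑ Y, (T Y + 4 / δ ^ 2 * S Y) :=
          Finset.sum_le_sum fun Y _ => hbad Y
      _ = ∑ Y, T Y + 4 / δ ^ 2 * ∑ Y, S Y := by
          rw [Finset.sum_add_distrib, ← Finset.mul_sum]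
      _ ≤ _ := add_le_add hTs (mul_le_mul_of_nonneg_left hSs (by positivity))
  have hNM : 0 < N ^ M := by positivity
  have e : M * τ * N ^ M + 4 / δ ^ 2 * (p ^ 2 / M * N ^ M) =
      N ^ M * (M * τ + 4 * p ^ 2 / (M * δ ^ 2)) := by
    field_simp
  rw [e] at hfin
  have := le_of_mul_le_mul_left hfin hNM
  linarith

end Pool.Agent.Lib.MP_634427_lc.Maj
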