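import Pool.Agent.Lib.MP_634427_lc.Maj.LocN
import Pool.Agent.Lib.MP_634427_lc.Maj.BridgeC
import Pool.Agent.Lib.MP_634427_lc.Maj.CloseB
import Pool.Agent.Lib.MP_634427_lc.Maj.Exist
import Pool.Agent.Lib.MP_634427_lc.Maj.SizeNode

/-!
# Completeness of the check

Apply `exist_lists` with `δ = 1 / R`, `φ n D b = phiN f x P m n D b` for `n ≤ m + 2` and `0` for larger
`n` (so that `hφ` holds for all `n`, by `sum_net_sq_le` and `hp`), and `B` = the finite set of all
bundles in the answers `f (quest x P (itmL D))`, `n ≤ m + 2`, `D : Itm P m n`. The certificate: the list of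
the `m + 3` lists of the `M` nodes `((itmL (Y n k), parL (π n k)), coefficients of the combination)`
(the coefficients are used for `n = m + 2` only, 0 otherwise). `itmC_itmL`, `parC_parL`,
`normN_eq`, `loc_phiN`, `mean_phiN`, `closeN_iff` (for `b` outside `B` all nets are 0), `botN_ofFn`,
`sz_node_le`.
-/

namespace Pool.Agent.Lib.MP_634427_lc.Maj

open Pool.Agent.Lib.MP_634427_lc

private theorem cc_net_zero {v : SB} {b : List Word} (h : b ∉ v.map fun e => e.2) :
    net v b = 0 := by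
  have h1 : ∀ e ∈ v, e.2 ≠ b := fun e he hb => h (List.mem_map.2 ⟨e, he, hb⟩)
  have h2 : cntT v b = 0 := by
    unfold cntT
    rw [List.length_eq_zero_iff, List.filter_eq_nil_iff]
    intro e he
    simp [h1 e he]
  have h3 : cntF v b = 0 := by
    unfold cntF
    rw [List.length_eq_zero_iff, List.filter_eq_nil_iff]
    intro e he
    simp [h1 e he]
  unfold net
  rw [h2, h3, sub_self]

private theorem cc_getD {α : Type} {n : ℕ} (f : Fin n → α) (d : α) (i : Fin n) :
    (List.ofFn f).getD i.val d = f i := by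
  rw [List.getD_eq_getElem _ _ (by rw [List.length_ofFn]; exact i.isLt), List.getElem_ofFn]

private theorem cc_sz {α : Type} [Enc α] (B : ℕ) (l : List α) (h : ∀ a ∈ l, sz a ≤ B) :
    sz l ≤ l.length * (B + 1) := by
  induction l with
  | nil => simp
  | cons a l ih =>
    have h1 := h a List.mem_cons_self
    have h2 := ih fun b hb => h b (List.mem_cons_of_mem a hb)
    rw [sz_cons, List.length_cons, Nat.succ_mul]
    omega

theorem check_complete {f : Word → SB} {gap : (Word × (ℕ × ℕ)) × IL → Bool}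
    {m P k0 M R : Word → ℕ} (x : Word) (hprime : (P x).Prime) (p : ℕ)
    (hp : ∀ n ≤ m x + 2, ∀ D : Itm (P x) (m x) n, (f (quest x (P x) (itmL D))).length ≤ p)
    (hgap : ∀ D : IL, gap ((x, (P x, k0 x)), D) = true) (hM0 : 0 < M x) (hR0 : 0 < R x)
    (hM : 16 * (p : ℝ) ^ 2 / (1 / (R x : ℝ)) ^ 2 ≤ (M x : ℕ))
    (hP : 4 * (M x : ℕ) * (36 * (p : ℝ) ^ 2 / (1 / (R x : ℝ)) ^ 2 + 1) ≤ (P x : ℕ)) :
    ∃ Y : List (List Node), sz Y ≤ (m x + 3) * (M x * (nlen (P x) (m x) + 1) + 1) ∧
      check f gap m P k0 M R (x, Y) = true := by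
  classical
  have : Fact (P x).Prime := ⟨hprime⟩
  obtain ⟨φ, hφd⟩ : ∃ φ : ∀ n, Itm (P x) (m x) n → List Word → ℝ, φ = fun n D b =>
    if n ≤ m x + 2 then phiN f x (P x) (m x) n D b else 0 := ⟨_, rfl⟩
  have hφ1 : ∀ n ≤ m x + 2, φ n = phiN f x (P x) (m x) n := by
    intro n hn
    rw [hφd]
    funext D b
    exact if_pos hn
  have hφ2 : ∀ n, ¬ n ≤ m x + 2 → ∀ D b, φ n D b = 0 := by
    intro n hn D b
    rw [hφd]
    exact if_neg hn
  obtain ⟨B, hB⟩ : ∃ B : Finset (List Word), ∀ n ≤ m x + 2, ∀ D : Itm (P x) (m x) n,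
      ∀ b ∉ B, phiN f x (P x) (m x) n D b = 0 := by
    refine ⟨(Finset.range (m x + 3)).biUnion fun n =>
      (Finset.univ : Finset (Itm (P x) (m x) n)).biUnion fun D =>
        ((f (quest x (P x) (itmL D))).map fun e => e.2).toFinset, fun n hn D b hb => ?_⟩
    refine cc_net_zero fun hb' => hb ?_
    exact Finset.mem_biUnion.2 ⟨n, Finset.mem_range.2 (by omega),
      Finset.mem_biUnion.2 ⟨D, Finset.mem_univ _, List.mem_toFinset.2 hb'⟩⟩
  have hφ3 : ∀ n D, ∑ b ∈ B, φ n D b ^ 2 ≤ (p : ℝ) ^ 2 := by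
    intro n D
    by_cases hn : n ≤ m x + 2
    · rw [hφ1 n hn]
      refine (sum_net_sq_le _ B).trans ?_
      have h1 : ((f (quest x (P x) (itmL D))).length : ℝ) ≤ p := by
        exact_mod_cast hp n hn D
      exact pow_le_pow_left₀ (Nat.cast_nonneg _) h1 2
    · rw [Finset.sum_congr rfl fun b _ => by rw [hφ2 n hn D b]]
      simp only [ne_eq, OfNat.ofNat_ne_zero, not_false_eq_true, zero_pow, Finset.sum_const_zero]
      positivity
  have hR' : (0 : ℝ) < R x := by exact_mod_cast hR0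
  obtain ⟨Y, π, h1, h2⟩ := exist_lists B φ (p : ℝ) (1 / (R x : ℝ)) (M x) hφ3
    (one_div_pos.2 hR') hM0 hM hP
  have h3 : ∀ n k, ∃ y : Fin n → ZMod (P x), n = m x + 2 →
      ∑ i, y i • Y n k i = ((0 : Fin (m x) → ZMod (P x)), (1 : ZMod (P x))) := by
    intro n k
    by_cases hn : n = m x + 2
    · subst hn
      obtain ⟨y, hy⟩ := h2 k
      exact ⟨y, fun _ => hy⟩
    · exact ⟨0, fun h => absurd h hn⟩
  choose y hy using h3
  obtain ⟨nd, hnd⟩ : ∃ nd : ℕ → Fin (M x) → Node, ∀ n k, nd n k =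
    ((itmL (Y n k), parL (π n k)), List.ofFn fun i => (y n k i).val) := ⟨_, fun _ _ => rfl⟩
  obtain ⟨Z, hZ⟩ : ∃ Z : List (List Node), Z = List.ofFn fun n : Fin (m x + 3) =>
    List.ofFn fun k : Fin (M x) => nd n.val k := ⟨_, rfl⟩
  have hZ1 : ∀ n < m x + 3, Z.getD n [] = List.ofFn fun k : Fin (M x) => nd n k := by
    intro n hn
    rw [hZ]
    exact cc_getD (fun n : Fin (m x + 3) => List.ofFn fun k : Fin (M x) => nd n.val k) []
      (⟨n, hn⟩ : Fin (m x + 3))
  have hmn : ∀ n < m x + 3, ∀ a ∈ Z.getD n [], ∃ k, a = nd n k := by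
    intro n hn a ha
    rw [hZ1 n hn] at ha
    obtain ⟨k, hk⟩ := (List.mem_ofFn' _ _).1 ha
    exact ⟨k, hk.symm⟩
  refine ⟨Z, ?_, ?_⟩
  · have h4 : ∀ a ∈ Z, sz a ≤ M x * (nlen (P x) (m x) + 1) := by
      intro a ha
      rw [hZ] at ha
      obtain ⟨n, rfl⟩ := (List.mem_ofFn' _ _).1 ha
      have h5 := cc_sz (nlen (P x) (m x)) (List.ofFn fun k : Fin (M x) => nd n.val k) (by
        intro c hc
        obtain ⟨k, rfl⟩ := (List.mem_ofFn' _ _).1 hc
        change sz (nd n.val k) ≤ _
        rw [hnd]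
        exact sz_node_le _ _ _ (by have := n.isLt; omega))
      rwa [List.length_ofFn] at h5
    have h6 := cc_sz _ Z h4
    have h7 : Z.length = m x + 3 := by rw [hZ, List.length_ofFn]
    rwa [h7] at h6
  · have hcmp : ∀ n < m x + 2, ∀ k b,
        |loc (phiN f x (P x) (m x) (n + 1)) (Y n k) (π n k) b -
          (∑ l, phiN f x (P x) (m x) (n + 1) (Y (n + 1) l) b) / M x| ≤ 1 / (R x : ℝ) := by
      intro n hn k b
      by_cases hb : b ∈ B
      · have h4 := h1 n hn k b hb
        rwa [hφ1 (n + 1) (by omega)] at h4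
      · have h4 := hB (n + 1) (by omega)
        have h5 : loc (phiN f x (P x) (m x) (n + 1)) (Y n k) (π n k) b = 0 := by
          unfold loc
          rw [Finset.sum_eq_zero fun s _ => Finset.sum_eq_zero fun c _ => h4 _ b hb, zero_div]
        rw [h5, Finset.sum_eq_zero fun l _ => h4 _ b hb, zero_div, sub_zero, abs_zero]
        exact (one_div_pos.2 hR').le
    have hP4 : 0 < P x ^ 4 := pow_pos hprime.pos 4
    unfold check
    rw [Bool.and_eq_true, Bool.and_eq_true]
    refine ⟨List.all_eq_true.2 fun n hn => ?_, List.all_eq_true.2 fun n hn => ?_,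
      List.all_eq_true.2 fun a ha => ?_⟩
    · have hn' := List.mem_range.1 hn
      refine decide_eq_true ?_
      change (Z.getD n []).length = M x
      rw [hZ1 n hn', List.length_ofFn]
    · have hn' : n < m x + 2 := List.mem_range.1 hn
      change lvlOK f gap x (P x) (m x) (k0 x) (M x) (R x) n (Z.getD n []) (Z.getD (n + 1) []) = true
      unfold lvlOK
      refine List.all_eq_true.2 fun a ha => ?_
      rw [Bool.and_eq_true]
      refine ⟨hgap _, ?_⟩
      obtain ⟨k, rfl⟩ := hmn n (by omega) a ha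
      rw [closeN_iff hP4 hM0 hR0]
      intro b
      have h4 := loc_phiN f x (P x) (m x) n (nd n k) b
      have h5 : itmC (P x) (m x) n (nd n k).1.1 = Y n k := by rw [hnd]; exact itmC_itmL _
      have h6 : parC (P x) (m x) n (nd n k).1.2 = π n k := by rw [hnd]; exact parC_parL _
      rw [h5, h6] at h4
      have h7 := mean_phiN f x (P x) (m x) (n + 1) (Z.getD (n + 1) []) b (M := M x)
        (by rw [hZ1 (n + 1) (by omega), List.length_ofFn])
      have h8 : ∀ l : Fin (M x), itmC (P x) (m x) (n + 1)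
          ((Z.getD (n + 1) []).getD l.val (([], (([], []), [])), [])).1.1 = Y (n + 1) l := by
        intro l
        rw [hZ1 (n + 1) (by omega), cc_getD (fun k : Fin (M x) => nd (n + 1) k), hnd]
        exact itmC_itmL _
      rw [Finset.sum_congr rfl fun l _ => by rw [h8 l]] at h7
      rw [← h4, ← h7]
      exact hcmp n hn' k b
    · change botN (P x) (m x) (m x + 2) a.1.1 a.2 = true
      obtain ⟨k, rfl⟩ := hmn (m x + 2) (by omega) a ha
      rw [hnd]
      exact botN_ofFn _ _ (hy (m x + 2) k rfl)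

end Pool.Agent.Lib.MP_634427_lc.Maj
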