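import Pool.Agent.Lib.MP_634427_lc.Maj.Cover
import Pool.Agent.Lib.MP_634427_lc.Maj.Bot

/-!
# Soundness of the certificate, in the language of items

Proof of `sound`. Suppose `T` is not empty. Claim: for `n ≤ m + 2` there is `k` with
`∃ w ∈ T, Sat (Y n k) w`. `n = 0`: there are no equations. Step: let `T'` be the solutions of
`Y n k`, `|T'| > k0` by `hgap`. By `cover` for `T'` and `u, u'` of `π n k` the number of the children
`kid (Y n k) (π n k) s c` without a witness is `≤ P ^ 4 * ε`, `ε = P / |T'| + (m + 1) ^ 2 / P ≤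
1 / (2 * (p + 1))`. So `∑ b ∈ BS, loc (φ (n + 1)) (Y n k) (π n k) b ≥ (1 - ε) - ε * p ≥ 1 / 2` by
`h1` and `h3`. By `hclose` the mean over `l` of `∑ b ∈ BS, φ (n + 1) (Y (n + 1) l) b` is
`≥ 1 / 2 - |BS| / R ≥ 1 / 4 > 0`, so some `l` has a positive sum and `h2` applies. At level `m + 2`
this contradicts `hbot` and `not_sat_of_comb`.
-/

namespace Pool.Agent.Lib.MP_634427_lc.Maj

/-- Solutions of a child. -/
theorem sat_kid_iff {P m n : ℕ} (D : Itm P m n) (π : Par P m n) (s : Seed P) (c : ZMod P)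
    (w : Fin m → Bool) :
    Sat (kid D π s c) w ↔ Sat D w ∧ ev (vec π.1.1 π.1.2 s, c) w = 0 := by
  have hev : ∀ (r x : Row P m) (a : ZMod P), ev (r + a • x) w = ev r w + a * ev x w := by
    intro r x a
    unfold ev
    simp only [Prod.fst_add, Prod.snd_add, Prod.smul_fst, Prod.smul_snd, Pi.add_apply,
      Pi.smul_apply, smul_eq_mul]
    have h1 : ∑ j, (if w j = true then r.1 j + a * x.1 j else 0) =
        ∑ j, (if w j = true then r.1 j else 0) + a * ∑ j, (if w j = true then x.1 j else 0) := by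
      rw [Finset.mul_sum, ← Finset.sum_add_distrib]
      refine Finset.sum_congr rfl fun j _ => ?_
      split_ifs <;> ring
    rw [h1]
    ring
  unfold kid child Sat
  rw [Fin.forall_fin_succ]
  simp only [Fin.cons_zero, Fin.cons_succ, hev]
  constructor
  · rintro ⟨h1, h2⟩
    refine ⟨fun i => ?_, h1⟩
    have h3 := h2 i
    rw [h1, mul_zero, add_zero] at h3
    exact h3
  · rintro ⟨h1, h2⟩
    refine ⟨h2, fun i => ?_⟩
    rw [h1 i, h2]
    ring

/-- If the lists pass all tests then there is no witness. `BS` are the bundles inside `S`. -/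
theorem sound {P m : ℕ} [Fact P.Prime] {β : Type} (T : Finset (Fin m → Bool))
    (φ : ∀ n, Itm P m n → β → ℝ) (BS : Finset β) (p k0 M R : ℕ)
    (h1 : ∀ n ≤ m + 2, ∀ D : Itm P m n, (∃ w ∈ T, Sat D w) → 1 ≤ ∑ b ∈ BS, φ n D b)
    (h2 : ∀ n ≤ m + 2, ∀ D : Itm P m n, 0 < ∑ b ∈ BS, φ n D b → ∃ w ∈ T, Sat D w)
    (h3 : ∀ n ≤ m + 2, ∀ D : Itm P m n, -(p : ℝ) ≤ ∑ b ∈ BS, φ n D b)
    (hM : 0 < M) (hR : 4 * BS.card ≤ R) (hR0 : 0 < R)
    (hk : 4 * (p + 1) * P ≤ k0) (hP : 4 * (p + 1) * (m + 1) ^ 2 ≤ P)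
    (Y : ∀ n, Fin M → Itm P m n) (π : ∀ n, Fin M → Par P m n)
    (hgap : ∀ n < m + 2, ∀ k, (∃ w ∈ T, Sat (Y n k) w) →
      k0 < (T.filter fun w => Sat (Y n k) w).card)
    (hclose : ∀ n < m + 2, ∀ k, ∀ b ∈ BS, |loc (φ (n + 1)) (Y n k) (π n k) b -
        (∑ l, φ (n + 1) (Y (n + 1) l) b) / M| ≤ 1 / (R : ℝ))
    (hbot : ∀ k, ∃ y : Fin (m + 2) → ZMod P,
      ∑ i, y i • Y (m + 2) k i = ((0 : Fin m → ZMod P), (1 : ZMod P))) : T = ∅ := by
  classical
  by_contra hT
  obtain ⟨w0, hw0⟩ := Finset.nonempty_iff_ne_empty.2 hT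
  have hP0 : 0 < P := (Fact.out : P.Prime).pos
  have hPp : (0 : ℝ) < P := by exact_mod_cast hP0
  have hP4 : (0 : ℝ) < (P : ℝ) ^ 4 := by positivity
  have claim : ∀ n, n ≤ m + 2 → ∃ k, ∃ w ∈ T, Sat (Y n k) w := by
    intro n
    induction n with
    | zero => intro _; exact ⟨⟨0, hM⟩, w0, hw0, fun i => i.elim0⟩
    | succ n ih =>
      intro hn
      obtain ⟨k, hk'⟩ := ih (by omega)
      have hn' : n < m + 2 := by omega
      have hg := hgap n hn' k hk'
      obtain ⟨T', hT'⟩ : ∃ T', T' = T.filter fun w => Sat (Y n k) w := ⟨_, rfl⟩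
      rw [← hT'] at hg
      have hc := cover (π n k).1.1 (π n k).1.2 T'
      obtain ⟨B, hB⟩ : ∃ B, B = Finset.univ.filter fun q : Seed P × ZMod P =>
        ∀ w ∈ T', ev (vec (π n k).1.1 (π n k).1.2 q.1, q.2) w ≠ 0 := ⟨_, rfl⟩
      rw [← hB] at hc
      have hB2 : 2 * (p + 1) * B.card ≤ P ^ 4 := by
        have ht : 4 * (p + 1) * P ≤ T'.card := hk.trans hg.le
        have htP : 0 < T'.card * P := Nat.mul_pos (by omega) hP0
        have h1 : 4 * (p + 1) * (P ^ 2 + T'.card * (m + 1) ^ 2) ≤ 2 * (T'.card * P) := by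
          have e1 : 4 * (p + 1) * P * P ≤ T'.card * P := Nat.mul_le_mul_right _ ht
          have e2 : 4 * (p + 1) * (m + 1) ^ 2 * T'.card ≤ P * T'.card := Nat.mul_le_mul_right _ hP
          calc 4 * (p + 1) * (P ^ 2 + T'.card * (m + 1) ^ 2)
              = 4 * (p + 1) * P * P + 4 * (p + 1) * (m + 1) ^ 2 * T'.card := by ring
            _ ≤ T'.card * P + P * T'.card := Nat.add_le_add e1 e2
            _ = 2 * (T'.card * P) := by ring
        have h2 : (T'.card * P) * (4 * (p + 1) * B.card) ≤ (T'.card * P) * (2 * P ^ 4) := by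
          calc (T'.card * P) * (4 * (p + 1) * B.card)
              = 4 * (p + 1) * (B.card * (T'.card * P)) := by ring
            _ ≤ 4 * (p + 1) * (P ^ 4 * (P ^ 2 + T'.card * (m + 1) ^ 2)) :=
                Nat.mul_le_mul_left _ hc
            _ = P ^ 4 * (4 * (p + 1) * (P ^ 2 + T'.card * (m + 1) ^ 2)) := by ring
            _ ≤ P ^ 4 * (2 * (T'.card * P)) := Nat.mul_le_mul_left _ h1
            _ = (T'.card * P) * (2 * P ^ 4) := by ring
        have h3 := Nat.le_of_mul_le_mul_left h2 htP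
        have h4 : 4 * (p + 1) * B.card = 2 * (2 * (p + 1) * B.card) := by ring
        omega
      have hB3 : 2 * ((p : ℝ) + 1) * B.card ≤ (P : ℝ) ^ 4 := by exact_mod_cast hB2
      have hq : ∀ q : Seed P × ZMod P, (1 : ℝ) - (if q ∈ B then ((p : ℝ) + 1) else 0) ≤
          ∑ b ∈ BS, φ (n + 1) (kid (Y n k) (π n k) q.1 q.2) b := by
        intro q
        by_cases hqB : q ∈ B
        · rw [if_pos hqB]
          have h4 := h3 (n + 1) hn (kid (Y n k) (π n k) q.1 q.2)
          linarith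
        · rw [if_neg hqB, sub_zero]
          apply h1 (n + 1) hn
          rw [hB, Finset.mem_filter] at hqB
          push Not at hqB
          obtain ⟨w, hw, hw2⟩ := hqB (Finset.mem_univ _)
          rw [hT', Finset.mem_filter] at hw
          exact ⟨w, hw.1, (sat_kid_iff _ _ _ _ _).2 ⟨hw.2, hw2⟩⟩
      have hcard : (Fintype.card (Seed P × ZMod P) : ℝ) = (P : ℝ) ^ 4 := by
        have h4 : Fintype.card (Seed P × ZMod P) = P ^ 4 := by
          rw [Fintype.card_prod, Fintype.card_prod, Fintype.card_prod, ZMod.card]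
          ring
        rw [h4]
        push_cast
        rfl
      have hsum : (P : ℝ) ^ 4 / 2 ≤ ∑ q : Seed P × ZMod P, ∑ b ∈ BS,
          φ (n + 1) (kid (Y n k) (π n k) q.1 q.2) b := by
        refine le_trans ?_ (Finset.sum_le_sum fun q _ => hq q)
        rw [Finset.sum_sub_distrib, Finset.sum_ite_mem, Finset.univ_inter, Finset.sum_const,
          Finset.sum_const, Finset.card_univ, nsmul_eq_mul, nsmul_eq_mul, hcard, mul_one]
        nlinarith
      have hloc : (1 / 2 : ℝ) ≤ ∑ b ∈ BS, loc (φ (n + 1)) (Y n k) (π n k) b := by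
        have e : ∑ b ∈ BS, loc (φ (n + 1)) (Y n k) (π n k) b =
            (∑ q : Seed P × ZMod P, ∑ b ∈ BS, φ (n + 1) (kid (Y n k) (π n k) q.1 q.2) b) /
              (P : ℝ) ^ 4 := by
          unfold loc
          rw [← Finset.sum_div, Finset.sum_comm (s := (Finset.univ : Finset (Seed P × ZMod P)))]
          congr 1
          refine Finset.sum_congr rfl fun b _ => ?_
          exact (Fintype.sum_prod_type (fun q : Seed P × ZMod P =>
            φ (n + 1) (kid (Y n k) (π n k) q.1 q.2) b)).symm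
        rw [e, le_div_iff₀ hP4]
        linarith
      have hR' : (0 : ℝ) < R := by exact_mod_cast hR0
      have hM' : (0 : ℝ) < M := by exact_mod_cast hM
      have hmean : ∑ b ∈ BS, loc (φ (n + 1)) (Y n k) (π n k) b - 1 / 4 ≤
          ∑ b ∈ BS, (∑ l, φ (n + 1) (Y (n + 1) l) b) / M := by
        have e1 : ∑ b ∈ BS, (loc (φ (n + 1)) (Y n k) (π n k) b - 1 / (R : ℝ)) ≤
            ∑ b ∈ BS, (∑ l, φ (n + 1) (Y (n + 1) l) b) / M := by
          refine Finset.sum_le_sum fun b hb => ?_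
          have h5 := (abs_le.1 (hclose n hn' k b hb)).2
          linarith
        rw [Finset.sum_sub_distrib, Finset.sum_const, nsmul_eq_mul] at e1
        have e2 : (BS.card : ℝ) * (1 / (R : ℝ)) ≤ 1 / 4 := by
          have h6 : 4 * (BS.card : ℝ) ≤ R := by exact_mod_cast hR
          rw [mul_one_div, div_le_iff₀ hR']
          linarith
        linarith
      have hpos : 0 < ∑ l, ∑ b ∈ BS, φ (n + 1) (Y (n + 1) l) b := by
        rw [← Finset.sum_div] at hmean
        have h7 : 0 < (∑ b ∈ BS, ∑ l, φ (n + 1) (Y (n + 1) l) b) / (M : ℝ) := by linarith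
        rw [Finset.sum_comm]
        exact (div_pos_iff_of_pos_right hM').1 h7
      obtain ⟨l, _, hl⟩ := Finset.exists_lt_of_sum_lt (s := Finset.univ)
        (f := fun _ : Fin M => (0 : ℝ)) (g := fun l => ∑ b ∈ BS, φ (n + 1) (Y (n + 1) l) b)
        (by rw [Finset.sum_const_zero]; exact hpos)
      exact ⟨l, h2 _ hn _ hl⟩
  obtain ⟨k, w, _, hw⟩ := claim (m + 2) le_rfl
  obtain ⟨y, hy⟩ := hbot k
  exact not_sat_of_comb hy w hw

end Pool.Agent.Lib.MP_634427_lc.Maj
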