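import Pool.Agent.Lib.MP_634427_lc.Maj.LocN
import Pool.Agent.Lib.MP_634427_lc.Maj.BridgeC
import Pool.Agent.Lib.MP_634427_lc.Maj.CloseB
import Pool.Agent.Lib.MP_634427_lc.Maj.Sound

/-!
# Soundness of the check

Apply `sound` with `β = List Word`, `φ n D b = net (f (quest x P (itmL D))) b`,
`Y n k = itmC P m n (a.1.1)` and `π n k = parC P m n (a.1.2)` for the node `a` = the `k`-th member of
the `n`-th list. `loc (φ (n + 1)) (Y n k) (π n k) b` is `net (kidsV ..) b / P ^ 4` by `net_flatMap` and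
`sum_kids`; `(∑ l, φ (n + 1) (Y (n + 1) l) b) / M` is `net (listV ..) b / M` by `net_flatMap` and
`normN_eq` (the list has length `M`); `closeN_iff`, `botN_iff`. `h1`, `h2`, `h3` come from `hS`,
`balance_eq_net` (an integer `> 0` is `≥ 1`) and `neg_le_sum_net`.
-/

namespace Pool.Agent.Lib.MP_634427_lc.Maj

open Pool.Agent.Lib.MP_634427_lc

private theorem csnd_mem {α : Type} (l : List α) (d : α) {k : ℕ} (h : k < l.length) :
    l.getD k d ∈ l := by
  rw [List.getD_eq_getElem _ _ h]
  exact List.getElem_mem h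

theorem check_sound {f : Word → SB} {gap : (Word × (ℕ × ℕ)) × IL → Bool} {m P k0 M R : Word → ℕ}
    (x : Word) (hprime : (P x).Prime) (S : Set Word) (T : Finset (Fin (m x) → Bool))
    (BS : Finset (List Word)) (p : ℕ)
    (hS : ∀ n ≤ m x + 2, ∀ D : Itm (P x) (m x) n,
      (0 < balance S (f (quest x (P x) (itmL D))) ↔ ∃ w ∈ T, Sat D w))
    (hBS : ∀ b ∈ BS, ∀ w ∈ b, w ∈ S)
    (hBS' : ∀ n ≤ m x + 2, ∀ D : Itm (P x) (m x) n, ∀ e ∈ f (quest x (P x) (itmL D)),
      (∀ w ∈ e.2, w ∈ S) → e.2 ∈ BS)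
    (hp : ∀ n ≤ m x + 2, ∀ D : Itm (P x) (m x) n, (f (quest x (P x) (itmL D))).length ≤ p)
    (hgap : ∀ n < m x + 2, ∀ D : Itm (P x) (m x) n, gap ((x, (P x, k0 x)), itmL D) = true →
      (∃ w ∈ T, Sat D w) → k0 x < (T.filter fun w => Sat D w).card)
    (hM : 0 < M x) (hR : 4 * BS.card ≤ R x) (hR0 : 0 < R x)
    (hk : 4 * (p + 1) * P x ≤ k0 x) (hP : 4 * (p + 1) * (m x + 1) ^ 2 ≤ P x)
    (Y : List (List Node)) (h : check f gap m P k0 M R (x, Y) = true) : T = ∅ := by
  haveI : Fact (P x).Prime := ⟨hprime⟩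
  haveI : NeZero (P x) := ⟨hprime.ne_zero⟩
  have hdef : check f gap m P k0 M R (x, Y) =
      (((List.range (m x + 3)).all fun n => decide ((Y.getD n []).length = M x)) &&
      (((List.range (m x + 2)).all fun n => lvlOK f gap x (P x) (m x) (k0 x) (M x) (R x)
        n (Y.getD n []) (Y.getD (n + 1) [])) &&
      (Y.getD (m x + 2) []).all fun b => botN (P x) (m x) (m x + 2) b.1.1 b.2)) := rfl
  rw [hdef, Bool.and_eq_true, Bool.and_eq_true, List.all_eq_true, List.all_eq_true,
    List.all_eq_true] at h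
  obtain ⟨hA, hB, hC⟩ := h
  have hlen : ∀ n < m x + 3, (Y.getD n []).length = M x := by
    intro n hn
    exact of_decide_eq_true (hA n (List.mem_range.2 hn))
  have hnode : ∀ n < m x + 3, ∀ k : Fin (M x),
      (Y.getD n []).getD k.val (([], (([], []), [])), []) ∈ Y.getD n [] := by
    intro n hn k
    refine csnd_mem _ _ ?_
    rw [hlen n hn]
    exact k.isLt
  have hlvl : ∀ n < m x + 2, ∀ a ∈ Y.getD n [],
      gap ((x, (P x, k0 x)), normN (P x) (m x) n a.1.1) = true ∧
        closeN (P x ^ 4) (M x) (R x) (kidsV f x (P x) (m x) n a)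
          (listV f x (P x) (m x) (n + 1) (Y.getD (n + 1) [])) = true := by
    intro n hn a ha
    have h1 := hB n (List.mem_range.2 hn)
    unfold lvlOK at h1
    rw [List.all_eq_true] at h1
    have h2 := h1 a ha
    rw [Bool.and_eq_true] at h2
    exact h2
  refine sound T (phiN f x (P x) (m x)) BS p (k0 x) (M x) (R x) ?_ ?_ ?_ hM hR hR0 hk hP
    (fun n k => itmC (P x) (m x) n ((Y.getD n []).getD k.val (([], (([], []), [])), [])).1.1)
    (fun n k => parC (P x) (m x) n ((Y.getD n []).getD k.val (([], (([], []), [])), [])).1.2)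
    ?_ ?_ ?_
  · intro n hn D hw
    have h1 := (hS n hn D).2 hw
    have h2 := balance_eq_net S (f (quest x (P x) (itmL D))) BS (hBS' n hn D) hBS
    unfold phiN
    rw [← h2]
    have h3 : (1 : ℤ) ≤ balance S (f (quest x (P x) (itmL D))) := by omega
    exact_mod_cast h3
  · intro n hn D hw
    have h2 := balance_eq_net S (f (quest x (P x) (itmL D))) BS (hBS' n hn D) hBS
    unfold phiN at hw
    rw [← h2] at hw
    exact (hS n hn D).1 (by exact_mod_cast hw)
  · intro n hn D
    have h1 := neg_le_sum_net (f (quest x (P x) (itmL D))) BS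
    have h2 : ((f (quest x (P x) (itmL D))).length : ℝ) ≤ p := by exact_mod_cast hp n hn D
    unfold phiN
    linarith
  · intro n hn k hw
    have h1 := (hlvl n hn _ (hnode n (by omega) k)).1
    rw [normN_eq] at h1
    exact hgap n hn _ h1 hw
  · intro n hn k b _
    have h1 := (hlvl n hn _ (hnode n (by omega) k)).2
    have hP4 : 0 < P x ^ 4 := pow_pos hprime.pos 4
    have h2 := (closeN_iff hP4 hM hR0 _ _).1 h1 b
    rw [← loc_phiN] at h2
    rw [← mean_phiN f x (P x) (m x) (n + 1) (Y.getD (n + 1) []) b (hlen (n + 1) (by omega))] at h2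
    exact h2
  · intro k
    have h1 := hC _ (hnode (m x + 2) (by omega) k)
    exact ⟨_, (botN_iff _ _).1 h1⟩

end Pool.Agent.Lib.MP_634427_lc.Maj
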