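import Pool.Agent.Lib.MP_634427_lc.Maj.Defs

/-!
# Collisions of two 0-1 vectors

Proof. Put `d j = (if w j then 1 else 0) - (if w' j then 1 else 0)`, some `d j ≠ 0` in `ZMod P`. The
difference of the two values for the seed `(t, t', g)` is `g * q t + q t'` where
`q t = ∑ j, d j * t ^ (j + 2) + ∑ j, d j * u j + t * ∑ j, d j * u' j` is a polynomial in `t` of
degree `≤ m + 1` which is not zero (the coefficient of `t ^ (j + 2)` is `d j`). So `q` has at most
`m + 1` zeros. If `q t ≠ 0` then `g` is determined by `t, t'` (at most `P ^ 2` seeds); otherwise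
`q t = q t' = 0` (at most `(m + 1) ^ 2 * P` seeds).
-/

namespace Pool.Agent.Lib.MP_634427_lc.Maj

open Polynomial in
/-- The polynomial `q`. -/
private noncomputable def cpol {P m : ℕ} (u u' d : Fin m → ZMod P) : (ZMod P)[X] :=
  (∑ j, C (d j) * X ^ (j.val + 2)) + C (∑ j, d j * u j) + C (∑ j, d j * u' j) * X

open Polynomial in
private theorem cpol_eval {P m : ℕ} (u u' d : Fin m → ZMod P) (t : ZMod P) :
    (cpol u u' d).eval t =
      (∑ j, d j * t ^ (j.val + 2)) + (∑ j, d j * u j) + (∑ j, d j * u' j) * t := by
  simp [cpol, eval_finsetSum]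

open Polynomial in
private theorem cpol_coeff {P m : ℕ} (u u' d : Fin m → ZMod P) (j : Fin m) :
    (cpol u u' d).coeff (j.val + 2) = d j := by
  unfold cpol
  rw [coeff_add, coeff_add, finsetSum_coeff, coeff_C, coeff_C_mul, coeff_X]
  rw [if_neg (by omega), if_neg (by omega)]
  simp only [coeff_C_mul, coeff_X_pow, mul_ite, mul_one, mul_zero, add_zero]
  rw [Finset.sum_eq_single j]
  · simp
  · intro k _ hk
    rw [if_neg]
    intro h
    apply hk
    apply Fin.ext
    omega
  · intro h
    exact absurd (Finset.mem_univ j) h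

open Polynomial in
private theorem cpol_natDegree {P m : ℕ} (hm : 0 < m) (u u' d : Fin m → ZMod P) :
    (cpol u u' d).natDegree ≤ m + 1 := by
  unfold cpol
  refine natDegree_add_le_of_degree_le (natDegree_add_le_of_degree_le ?_ ?_) ?_
  · refine natDegree_sum_le_of_forall_le _ _ ?_
    intro j _
    refine (natDegree_C_mul_X_pow_le _ _).trans ?_
    have := j.isLt
    omega
  · rw [natDegree_C]
    exact Nat.zero_le _
  · refine (natDegree_C_mul_le _ _).trans ?_
    refine natDegree_X_le.trans ?_
    omega

/-- Few zeros. -/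
private theorem card_zeros {P m : ℕ} [Fact P.Prime] (hm : 0 < m) (u u' d : Fin m → ZMod P)
    (hd : ∃ j, d j ≠ 0) :
    (Finset.univ.filter fun t : ZMod P => (cpol u u' d).eval t = 0).card ≤ m + 1 := by
  obtain ⟨j, hj⟩ := hd
  have h0 : cpol u u' d ≠ 0 := by
    intro h
    apply hj
    rw [← cpol_coeff u u' d j, h]
    simp
  have h1 : (Finset.univ.filter fun t : ZMod P => (cpol u u' d).eval t = 0) ⊆
      (cpol u u' d).roots.toFinset := by
    intro t ht
    rw [Multiset.mem_toFinset, Polynomial.mem_roots h0]
    exact (Finset.mem_filter.1 ht).2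
  refine (Finset.card_le_card h1).trans ?_
  refine (Multiset.toFinset_card_le _).trans ?_
  exact (Polynomial.card_roots' _).trans (cpol_natDegree hm u u' d)

/-- The difference of the two values. -/
private theorem ev_sub {P m : ℕ} (u u' : Fin m → ZMod P) (w w' : Fin m → Bool) (s : Seed P) :
    ev (vec u u' s, 0) w - ev (vec u u' s, 0) w' =
      s.2.2 * (cpol u u' fun j => (if w j = true then 1 else 0) -
        (if w' j = true then 1 else 0)).eval s.1 +
      (cpol u u' fun j => (if w j = true then 1 else 0) -
        (if w' j = true then 1 else 0)).eval s.2.1 := by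
  set d : Fin m → ZMod P := fun j => (if w j = true then 1 else 0) -
        (if w' j = true then 1 else 0) with hd
  have h1 : ev (vec u u' s, 0) w - ev (vec u u' s, 0) w' = ∑ j, d j * vec u u' s j := by
    unfold ev
    simp only [add_zero]
    rw [← Finset.sum_sub_distrib]
    refine Finset.sum_congr rfl fun j _ => ?_
    simp only [hd]
    by_cases h : w j = true <;> by_cases h' : w' j = true <;> simp [h, h']
  rw [h1, cpol_eval, cpol_eval]
  rw [Finset.sum_mul, Finset.sum_mul, ← Finset.sum_add_distrib, ← Finset.sum_add_distrib,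
    ← Finset.sum_add_distrib, ← Finset.sum_add_distrib, Finset.mul_sum,
    ← Finset.sum_add_distrib]
  refine Finset.sum_congr rfl fun j _ => ?_
  unfold vec
  ring

/-- Two different 0-1 vectors have the same value for few seeds. -/
theorem card_coll {P m : ℕ} [Fact P.Prime] (u u' : Fin m → ZMod P) {w w' : Fin m → Bool}
    (hw : w ≠ w') :
    (Finset.univ.filter fun s : Seed P => ev (vec u u' s, 0) w = ev (vec u u' s, 0) w').card ≤
      P ^ 2 + (m + 1) ^ 2 * P := by
  classical
  obtain ⟨j0, hj0⟩ := Function.ne_iff.1 hw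
  have hm : 0 < m := lt_of_le_of_lt (Nat.zero_le _) j0.isLt
  set d : Fin m → ZMod P := fun j => (if w j = true then 1 else 0) -
        (if w' j = true then 1 else 0) with hd
  have hdj : ∃ j, d j ≠ 0 := by
    refine ⟨j0, ?_⟩
    simp only [hd]
    have h1 : (1 : ZMod P) ≠ 0 := one_ne_zero
    cases h : w j0 <;> cases h' : w' j0
    · exact absurd (h.trans h'.symm) hj0
    · simp
    · simp
    · exact absurd (h.trans h'.symm) hj0
  set Z : Finset (ZMod P) := Finset.univ.filter fun t => (cpol u u' d).eval t = 0 with hZ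
  have hZc : Z.card ≤ m + 1 := card_zeros hm u u' d hdj
  have hsub : (Finset.univ.filter fun s : Seed P => ev (vec u u' s, 0) w = ev (vec u u' s, 0) w') ⊆
      (Finset.univ.image fun p : ZMod P × ZMod P => ((p.1, (p.2,
        -(cpol u u' d).eval p.2 / (cpol u u' d).eval p.1)) : Seed P)) ∪
      Z ×ˢ (Z ×ˢ (Finset.univ : Finset (ZMod P))) := by
    intro s hs
    have h1 : ev (vec u u' s, 0) w = ev (vec u u' s, 0) w' := (Finset.mem_filter.1 hs).2
    have h2 := ev_sub u u' w w' s
    rw [h1, sub_self] at h2
    rw [← hd] at h2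
    by_cases hq : (cpol u u' d).eval s.1 = 0
    · refine Finset.mem_union_right _ ?_
      rw [hq, mul_zero, zero_add] at h2
      rw [Finset.mem_product, Finset.mem_product]
      exact ⟨Finset.mem_filter.2 ⟨Finset.mem_univ _, hq⟩,
        Finset.mem_filter.2 ⟨Finset.mem_univ _, h2.symm⟩, Finset.mem_univ _⟩
    · refine Finset.mem_union_left _ ?_
      refine Finset.mem_image.2 ⟨(s.1, s.2.1), Finset.mem_univ _, ?_⟩
      refine Prod.ext rfl (Prod.ext rfl ?_)
      change -(cpol u u' d).eval s.2.1 / (cpol u u' d).eval s.1 = s.2.2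
      rw [div_eq_iff hq]
      linear_combination h2
  have hP : Fintype.card (ZMod P) = P := ZMod.card P
  refine (Finset.card_le_card hsub).trans ((Finset.card_union_le _ _).trans ?_)
  refine Nat.add_le_add ?_ ?_
  · refine Finset.card_image_le.trans ?_
    rw [Finset.card_univ, Fintype.card_prod, hP, pow_two]
  · rw [Finset.card_product, Finset.card_product, Finset.card_univ, hP]
    calc Z.card * (Z.card * P) = Z.card * Z.card * P := by ring
      _ ≤ (m + 1) * (m + 1) * P := Nat.mul_le_mul_right _ (Nat.mul_le_mul hZc hZc)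
      _ = (m + 1) ^ 2 * P := by ring

end Pool.Agent.Lib.MP_634427_lc.Maj
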