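import Pool.Agent.Lib.MP_634427_lc.Maj.Coll

/-!
# Covering: a large set of 0-1 vectors meets nearly all of the new equations

Proof (second moment). For a seed `s` and `c` let `N s c` be the number of `w ∈ T` with
`ev (vec u u' s, c) w = 0`. For fixed `s` every `w` is counted for exactly one `c`, and
`∑ c, N s c ^ 2` is the number of pairs `(w, w')` in `T` with the same value `ev (vec u u' s, 0)`.
By `card_coll`, `∑ s c, N s c ^ 2 ≤ |T| * P ^ 3 + |T| ^ 2 * (P ^ 2 + (m + 1) ^ 2 * P)`. Since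
`∑ s c, N s c = |T| * P ^ 3` and there are `P ^ 4` pairs `(s, c)`,
`∑ s c, (N s c - |T| / P) ^ 2 = ∑ s c, N s c ^ 2 - |T| ^ 2 * P ^ 2 ≤
|T| * P ^ 3 + |T| ^ 2 * (m + 1) ^ 2 * P`, and each `(s, c)` with `N s c = 0` contributes
`|T| ^ 2 / P ^ 2`. Multiply by `P ^ 3 / |T|`.
-/

namespace Pool.Agent.Lib.MP_634427_lc.Maj

private theorem cov_ev {P m : ℕ} (a : Fin m → ZMod P) (c : ZMod P) (w : Fin m → Bool) :
    ev (a, c) w = 0 ↔ -ev (a, 0) w = c := by
  unfold ev
  simp only [add_zero]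
  constructor
  · intro h
    rw [eq_comm, eq_neg_iff_add_eq_zero, add_comm]
    exact h
  · intro h
    rw [← h]
    ring

private theorem cov_N {P m : ℕ} [Fact P.Prime] (a : Fin m → ZMod P) (c : ZMod P)
    (T : Finset (Fin m → Bool)) :
    ((T.filter fun w => ev (a, c) w = 0).card : ℤ) =
      ∑ w ∈ T, if -ev (a, 0) w = c then (1 : ℤ) else 0 := by
  rw [Finset.card_filter]
  push_cast
  refine Finset.sum_congr rfl fun w _ => ?_
  simp only [cov_ev]

private theorem cov_sum1 {P m : ℕ} [Fact P.Prime] (a : Fin m → ZMod P)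
    (T : Finset (Fin m → Bool)) :
    ∑ c : ZMod P, ((T.filter fun w => ev (a, c) w = 0).card : ℤ) = T.card := by
  simp only [cov_N]
  rw [Finset.sum_comm]
  simp

private theorem cov_sum2 {P m : ℕ} [Fact P.Prime] (a : Fin m → ZMod P)
    (T : Finset (Fin m → Bool)) :
    ∑ c : ZMod P, ((T.filter fun w => ev (a, c) w = 0).card : ℤ) ^ 2 =
      ∑ w ∈ T, ∑ w' ∈ T, if ev (a, 0) w = ev (a, 0) w' then (1 : ℤ) else 0 := by
  simp only [cov_N, pow_two, Finset.sum_mul_sum]
  rw [Finset.sum_comm]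
  refine Finset.sum_congr rfl fun w _ => ?_
  rw [Finset.sum_comm]
  refine Finset.sum_congr rfl fun w' _ => ?_
  rw [Finset.sum_eq_single (-ev (a, 0) w)]
  · by_cases h : ev (a, 0) w = ev (a, 0) w'
    · rw [if_pos rfl, if_pos h, if_pos (by rw [h]), one_mul]
    · rw [if_pos rfl, if_neg h, if_neg, mul_zero]
      intro h'
      exact h (neg_injective h').symm
  · intro c _ hc
    rw [if_neg (fun h => hc h.symm), zero_mul]
  · intro h
    exact absurd (Finset.mem_univ _) h

/-- The covering lemma. -/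
theorem cover {P m : ℕ} [Fact P.Prime] (u u' : Fin m → ZMod P) (T : Finset (Fin m → Bool)) :
    (Finset.univ.filter fun q : Seed P × ZMod P =>
      ∀ w ∈ T, ev (vec u u' q.1, q.2) w ≠ 0).card * (T.card * P) ≤
      P ^ 4 * (P ^ 2 + T.card * (m + 1) ^ 2) := by
  classical
  rcases Nat.eq_zero_or_pos T.card with hT0 | hT0
  · rw [hT0]
    simp
  set B := Finset.univ.filter fun q : Seed P × ZMod P =>
      ∀ w ∈ T, ev (vec u u' q.1, q.2) w ≠ 0 with hB
  set N : Seed P × ZMod P → ℤ := fun q =>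
    ((T.filter fun w => ev (vec u u' q.1, q.2) w = 0).card : ℤ) with hN
  have hP : (Fintype.card (ZMod P)) = P := ZMod.card P
  have hseed : Fintype.card (Seed P) = P ^ 3 := by
    simp only [Seed, Fintype.card_prod, hP]
    ring
  have h1 : ∑ q, N q = (T.card : ℤ) * P ^ 3 := by
    rw [Fintype.sum_prod_type]
    have : ∀ s : Seed P, ∑ c, N (s, c) = (T.card : ℤ) := fun s => cov_sum1 (vec u u' s) T
    rw [Finset.sum_congr rfl fun s _ => this s, Finset.sum_const, Finset.card_univ, hseed]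
    ring
  have h2 : ∑ q, N q ^ 2 ≤ (T.card : ℤ) * P ^ 3 + (T.card : ℤ) ^ 2 * (P ^ 2 + (m + 1) ^ 2 * P) := by
    rw [Fintype.sum_prod_type]
    have e1 : ∀ s : Seed P, ∑ c, N (s, c) ^ 2 =
        ∑ w ∈ T, ∑ w' ∈ T, if ev (vec u u' s, 0) w = ev (vec u u' s, 0) w' then (1 : ℤ) else 0 :=
      fun s => cov_sum2 (vec u u' s) T
    rw [Finset.sum_congr rfl fun s _ => e1 s, Finset.sum_comm]
    have e2 : ∀ w ∈ T, ∑ s : Seed P, ∑ w' ∈ T,
        (if ev (vec u u' s, 0) w = ev (vec u u' s, 0) w' then (1 : ℤ) else 0) ≤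
        (P : ℤ) ^ 3 + (T.card : ℤ) * (P ^ 2 + (m + 1) ^ 2 * P) := by
      intro w hw
      rw [Finset.sum_comm]
      have e3 : ∀ w' ∈ T, ∑ s : Seed P,
          (if ev (vec u u' s, 0) w = ev (vec u u' s, 0) w' then (1 : ℤ) else 0) ≤
          (if w = w' then (P : ℤ) ^ 3 else 0) + (P ^ 2 + (m + 1) ^ 2 * P) := by
        intro w' _
        have e4 : ∑ s : Seed P,
            (if ev (vec u u' s, 0) w = ev (vec u u' s, 0) w' then (1 : ℤ) else 0) =
            ((Finset.univ.filter fun s : Seed P =>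
              ev (vec u u' s, 0) w = ev (vec u u' s, 0) w').card : ℤ) := by
          rw [Finset.card_filter]
          push_cast
          exact Finset.sum_congr rfl fun s _ => by split_ifs <;> simp
        rw [e4]
        by_cases h : w = w'
        · rw [if_pos h]
          have h5 := Finset.card_filter_le (Finset.univ : Finset (Seed P))
            (fun s => ev (vec u u' s, 0) w = ev (vec u u' s, 0) w')
          rw [Finset.card_univ, hseed] at h5
          have h6 : ((Finset.univ.filter fun s : Seed P =>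
              ev (vec u u' s, 0) w = ev (vec u u' s, 0) w').card : ℤ) ≤ (P : ℤ) ^ 3 := by
            exact_mod_cast h5
          have h7 : (0 : ℤ) ≤ (P : ℤ) ^ 2 + ((m : ℤ) + 1) ^ 2 * P := by positivity
          linarith
        · rw [if_neg h]
          have h5 := card_coll u u' h
          have h6 : ((Finset.univ.filter fun s : Seed P =>
              ev (vec u u' s, 0) w = ev (vec u u' s, 0) w').card : ℤ) ≤
              (P : ℤ) ^ 2 + ((m : ℤ) + 1) ^ 2 * P := by
            exact_mod_cast h5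
          linarith
      refine (Finset.sum_le_sum e3).trans ?_
      rw [Finset.sum_add_distrib, Finset.sum_ite_eq, if_pos hw, Finset.sum_const, nsmul_eq_mul]
    refine (Finset.sum_le_sum e2).trans ?_
    rw [Finset.sum_const, nsmul_eq_mul]
    apply le_of_eq
    ring
  have h3 : (B.card : ℤ) * (T.card : ℤ) ^ 2 ≤ ∑ q, ((P : ℤ) * N q - T.card) ^ 2 := by
    have h4 : ∑ q ∈ B, ((P : ℤ) * N q - T.card) ^ 2 ≤ ∑ q, ((P : ℤ) * N q - T.card) ^ 2 :=
      Finset.sum_le_sum_of_subset_of_nonneg (Finset.subset_univ B) fun q _ _ => sq_nonneg _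
    refine le_trans (le_of_eq ?_) h4
    have h5 : ∀ q ∈ B, ((P : ℤ) * N q - T.card) ^ 2 = (T.card : ℤ) ^ 2 := by
      intro q hq
      rw [hB, Finset.mem_filter] at hq
      have h6 : N q = 0 := by
        rw [hN]
        simp only
        rw [Finset.filter_false_of_mem hq.2]
        simp
      rw [h6]
      ring
    rw [Finset.sum_congr rfl h5, Finset.sum_const, nsmul_eq_mul]
  have h4 : ∑ q, ((P : ℤ) * N q - T.card) ^ 2 =
      (P : ℤ) ^ 2 * ∑ q, N q ^ 2 - (P : ℤ) ^ 4 * (T.card : ℤ) ^ 2 := by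
    have h5 : ∀ q, ((P : ℤ) * N q - T.card) ^ 2 =
        (P : ℤ) ^ 2 * N q ^ 2 - 2 * P * T.card * N q + (T.card : ℤ) ^ 2 := fun q => by ring
    rw [Finset.sum_congr rfl fun q _ => h5 q, Finset.sum_add_distrib, Finset.sum_sub_distrib,
      ← Finset.mul_sum, ← Finset.mul_sum, h1, Finset.sum_const, Finset.card_univ,
      Fintype.card_prod, hseed, hP]
    ring
  have hTz : (0 : ℤ) < T.card := by exact_mod_cast hT0
  have h5 : (B.card : ℤ) * (T.card : ℤ) ^ 2 ≤
      (T.card : ℤ) * P ^ 5 + (T.card : ℤ) ^ 2 * ((m + 1) ^ 2 * P ^ 3) := by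
    refine h3.trans ?_
    rw [h4]
    have h6 := mul_le_mul_of_nonneg_left h2 (by positivity : (0 : ℤ) ≤ (P : ℤ) ^ 2)
    linarith
  have h6 : (B.card : ℤ) * T.card ≤ P ^ 5 + T.card * ((m + 1) ^ 2 * P ^ 3) := by
    have h7 : (T.card : ℤ) * ((B.card : ℤ) * T.card) ≤
        (T.card : ℤ) * (P ^ 5 + T.card * ((m + 1) ^ 2 * P ^ 3)) := by
      linarith
    exact le_of_mul_le_mul_left h7 hTz
  have h7 : (B.card : ℤ) * (T.card * P) ≤ P ^ 4 * (P ^ 2 + T.card * (m + 1) ^ 2) := by
    have h8 := mul_le_mul_of_nonneg_right h6 (by positivity : (0 : ℤ) ≤ (P : ℤ))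
    linarith
  exact_mod_cast h7

end Pool.Agent.Lib.MP_634427_lc.Maj
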