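import Mathlib

/-!
# Systems of linear equations modulo a prime, their children

An item of level `n` is a system of `n` linear equations modulo `P` in `m` unknowns; it is true if
it has a 0-1 solution in a given set. A child of an item is obtained by adding one equation `x` on
top and by adding a multiple of `x` to each of the old equations.
-/

namespace Pool.Agent.Lib.MP_634427_lc.Maj

/-- A linear equation in `m` unknowns: coefficients and constant. -/
abbrev Row (P m : ℕ) : Type := (Fin m → ZMod P) × ZMod P

/-- The value of an equation at a 0-1 vector. -/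
def ev {P m : ℕ} (r : Row P m) (w : Fin m → Bool) : ZMod P :=
  (∑ j, if w j = true then r.1 j else 0) + r.2

/-- An item of level `n`. -/
abbrev Itm (P m n : ℕ) : Type := Fin n → Row P m

/-- `w` solves all equations of the item. -/
def Sat {P m n : ℕ} (D : Itm P m n) (w : Fin m → Bool) : Prop := ∀ i, ev (D i) w = 0

instance {P m n : ℕ} (D : Itm P m n) : DecidablePred (Sat D) := fun _ =>
  inferInstanceAs (Decidable (∀ _, _))

/-- A new equation on top, the old ones are changed by multiples of it. -/
def child {P m n : ℕ} (D : Itm P m n) (v : Fin n → ZMod P) (x : Row P m) : Itm P m (n + 1) :=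
  Fin.cons x fun i => D i + v i • x

/-- The seeds `(t, t', g)`. -/
abbrev Seed (P : ℕ) : Type := ZMod P × (ZMod P × ZMod P)

/-- The coefficients of the new equation. -/
def vec {P m : ℕ} (u u' : Fin m → ZMod P) (s : Seed P) : Fin m → ZMod P := fun j =>
  s.2.2 * s.1 ^ (j.val + 2) + s.2.1 ^ (j.val + 2) + (s.2.2 + 1) * u j +
    (s.2.2 * s.1 + s.2.1) * u' j

/-- The parameters of an item of level `n`: `u`, `u'` and the multipliers. -/
abbrev Par (P m n : ℕ) : Type :=
  ((Fin m → ZMod P) × (Fin m → ZMod P)) × (Seed P → Fin n → ZMod P)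

/-- The child with seed `s` and constant `c`. -/
def kid {P m n : ℕ} (D : Itm P m n) (π : Par P m n) (s : Seed P) (c : ZMod P) :
    Itm P m (n + 1) :=
  child D (π.2 s) (vec π.1.1 π.1.2 s, c)

/-- The mean of `φ · b` over all children. -/
noncomputable def loc {P m n : ℕ} [NeZero P] {β : Type} (φ : Itm P m (n + 1) → β → ℝ)
    (D : Itm P m n) (π : Par P m n) (b : β) : ℝ :=
  (∑ s : Seed P, ∑ c : ZMod P, φ (kid D π s c) b) / (P : ℝ) ^ 4

/-- The determinant of the coefficients of `u`, `u'` for two seeds. -/
def sdet {P : ℕ} (s s' : Seed P) : ZMod P :=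
  (s.2.2 + 1) * (s'.2.2 * s'.1 + s'.2.1) - (s'.2.2 + 1) * (s.2.2 * s.1 + s.2.1)

end Pool.Agent.Lib.MP_634427_lc.Maj
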