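import Pool.Agent.Lib.MP_634427_lc.Maj.Num
import Pool.Agent.Lib.MP_634427_lc.LD.BitsPT

/-!
# Computations with items in polynomial time

All numbers are unary here. `majPw`: iterate `r ↦ r * t % (P - 1 + 1)` (`PT.iterate`, the values are
`< P - 1 + 1`), start with `1 % (P - 1 + 1)`. `sumNat`: `PT.foldr_add` or `foldr_bdd`. The rest: `PT.map`,
`PT.flatMap`, `PT.all`, `PT.range`, `PT.getLD`, `PT.mod`, `PT.mul`, `PT.add`, `PT.eqNat`, `PT.ite`.
-/

namespace Pool.Agent.Lib.MP_634427_lc.PT

open Pool.Agent.Lib.MP_634427_lc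
open Pool.Agent.Lib.MP_634427_lc.Maj (IL PL)

variable {γ : Type} [Enc γ]

private lemma iter_pw (M t i : ℕ) : (fun r => r * t % M)^[i] (1 % M) = t ^ i % M := by
  induction i with
  | zero => rfl
  | succ i ih => rw [Function.iterate_succ_apply', ih, pow_succ, Nat.mod_mul_mod]

theorem majPw {P t j : γ → ℕ} (hP : PT P) (ht : PT t) (hj : PT j) :
    PT fun c => Maj.pwN (P c) (t c) (j c) := by
  have h := iterate (n := j) (s := fun c => 1 % (P c - 1 + 1))
    (f := fun c (r : ℕ) => r * t c % (P c - 1 + 1)) hj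
    (mod (const 1) (succ (sub hP (const 1))))
    (mod (mul snd (ht.comp fst)) (succ (sub (hP.comp fst) (const 1)))) (by
      obtain ⟨k, hk⟩ := hP.size_le
      refine ⟨k, fun c i _ => ?_⟩
      have h1 := hk c
      rw [sz_nat] at h1 ⊢
      rw [iter_pw]
      have h2 := Nat.mod_lt (t c ^ i) (Nat.succ_pos (P c - 1))
      have h3 : t c ^ i % (P c - 1 + 1) ≤ P c - 1 := Nat.lt_succ_iff.1 h2
      omega)
  exact h.of_eq fun c => iter_pw _ _ _

theorem majSum {l : γ → List ℕ} (hl : PT l) : PT fun c => (l c).sum := by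
  have h := foldr_add (f := fun (_ : γ) (a r : ℕ) => a + r) hl (const (0 : ℕ))
    (add (fst' snd) (snd' snd)) (by
      obtain ⟨k, hk⟩ := hl.size_le
      refine ⟨k, fun c a r ha => ?_⟩
      have h1 := sz_mem_le ha
      have h2 := hk c
      rw [sz_nat] at h1
      rw [sz_nat, sz_nat]
      omega)
  exact h.of_eq fun c => (List.sum_eq_foldr (l := l c)).symm

theorem majNorm {P m n : γ → ℕ} {D : γ → IL} (hP : PT P) (hm : PT m) (hn : PT n) (hD : PT D) :
    PT fun c => Maj.normN (P c) (m c) (n c) (D c) :=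
  map (f := fun c (i : ℕ) => (List.range (m c + 1)).map fun j =>
      ((D c).getD i []).getD j 0 % P c) (range hn)
    (map (f := fun (q : γ × ℕ) (j : ℕ) => ((D q.1).getD q.2 []).getD j 0 % P q.1)
      (range (succ (hm.comp fst)))
      (mod (getLD snd (getLD (snd' fst) (hD.comp (fst' fst)) (const [])) (const 0))
        (hP.comp (fst' fst))))

theorem majQuest {x : γ → Word} {P : γ → ℕ} {D : γ → IL} (hx : PT x) (hP : PT P) (hD : PT D) :
    PT fun c => Maj.quest (x c) (P c) (D c) := by
  have he : PT (fun a : Word × (Word × List (List Word)) => (enc a : BT)) :=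
    ⟨_, .id, fun _ => rfl⟩
  exact PT.code (he.comp (pair hx (pair (bitsLD hP)
    (map (f := fun (_ : γ) (r : List ℕ) => r.map LD.bits) hD
      (map (f := fun (_ : γ × List ℕ) (a : ℕ) => LD.bits a) snd (bitsLD snd))))))

end Pool.Agent.Lib.MP_634427_lc.PT
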