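import Pool.Agent.Lib.MP_634427_lc.Maj.Num
import Pool.Agent.Lib.MP_634427_lc.LT.Bin
import Pool.Agent.Lib.MP_634427_lc.Small.Canon
import Pool.Agent.Lib.MP_634427_lc.Maj.NumPT

/-!
# The gap test: the relation

If the item `D` is solved by at least one and at most `k0` witnesses of `x`, then a witness of `x` is
found. For the number `k` of these witnesses the relation `gapRel` between `((x, P), (k, D))` and `W`
has exactly one `W` of length `k * m x`: the `k` blocks of `W` of length `m x` are the solutions in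
increasing order (as binary numbers). By `ProjCands` with the projection `W ↦ W.take (m x)` a
polynomial-time list contains the least solution. The test: for no `k` with `1 ≤ k ≤ k0` the list
contains a witness of `x`.
-/

namespace Pool.Agent.Lib.MP_634427_lc.Maj

open Pool.Agent.Lib.MP_634427_lc

/-- Is `u` a solution of the item? (unary numbers) -/
def solN (P : ℕ) (D : IL) (u : Word) : Bool :=
  D.all fun r => decide ((r.getD 0 0 +
    ((List.range u.length).map fun j => bif u.getD j false then r.getD (j + 1) 0 else 0).sum) % P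
      = 0)

private lemma gapDefs_sum (n : ℕ) (f : ℕ → ℕ) :
    ((List.range n).map f).sum = ∑ j : Fin n, f j := by
  rw [← Fin.sum_univ_eq_sum_range f n |>.symm]
  induction n with
  | zero => simp
  | succ n ih => rw [List.range_succ, List.map_append, List.sum_append, ih, Finset.sum_range_succ]; simp

private lemma gapDefs_row {P m : ℕ} [NeZero P] (r : Row P m) (w : Fin m → Bool) :
    ((rowL r).getD 0 0 + ((List.range (List.ofFn w).length).map fun j =>
      bif (List.ofFn w).getD j false then (rowL r).getD (j + 1) 0 else 0).sum) % P = 0 ↔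
      ev r w = 0 := by
  rw [gapDefs_sum, ← Nat.dvd_iff_mod_eq_zero, ← ZMod.natCast_eq_zero_iff]
  have h : ∀ j : Fin (List.ofFn w).length,
      (((bif (List.ofFn w).getD j false then (rowL r).getD (j + 1) 0 else 0 : ℕ) : ℕ) : ZMod P) =
        if w (Fin.cast (List.length_ofFn) j) = true then r.1 (Fin.cast (List.length_ofFn) j)
          else 0 := by
    intro j
    have hj : (j : ℕ) < m := by simpa using j.2
    have e1 : (List.ofFn w).getD j false = w (Fin.cast (List.length_ofFn) j) := by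
      rw [List.getD_eq_getElem _ _ j.2, List.getElem_ofFn]
      rfl
    have e2 : (rowL r).getD (j + 1) 0 = (r.1 (Fin.cast (List.length_ofFn) j)).val := by
      rw [rowL, List.getD_cons_succ, List.getD_eq_getElem _ _ (by simpa using hj),
        List.getElem_ofFn]
      rfl
    rw [e1, e2]
    cases w (Fin.cast (List.length_ofFn) j)
    · simp
    · simp
  rw [Nat.cast_add, Nat.cast_sum, Finset.sum_congr rfl fun j _ => h j]
  have e0 : (((rowL r).getD 0 0 : ℕ) : ZMod P) = r.2 := by
    simp [rowL]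
  have e3 : ∑ j : Fin (List.ofFn w).length,
      (if w (Fin.cast (List.length_ofFn) j) = true then r.1 (Fin.cast (List.length_ofFn) j)
          else 0) = ∑ j : Fin m, if w j = true then r.1 j else 0 :=
    Fintype.sum_equiv (finCongr List.length_ofFn) _ _ fun j => rfl
  rw [e0, e3, ev, add_comm]

theorem solN_iff {P m n : ℕ} [NeZero P] (D : Itm P m n) (w : Fin m → Bool) :
    solN P (itmL D) (List.ofFn w) = true ↔ Sat D w := by
  unfold solN itmL Sat
  rw [List.all_eq_true]
  constructor
  · intro h i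
    have h1 := h (rowL (D i)) (List.mem_ofFn.2 ⟨i, rfl⟩)
    rw [decide_eq_true_eq] at h1
    exact (gapDefs_row (D i) w).1 h1
  · intro h r hr
    obtain ⟨i, rfl⟩ := List.mem_ofFn.1 hr
    rw [decide_eq_true_eq]
    exact (gapDefs_row (D i) w).2 (h i)

/-- The `i`-th block of length `m`. -/
def blk (m i : ℕ) (W : Word) : Word := (W.drop (i * m)).take m

/-- The blocks of `W` are `k` witnesses of `x` that solve `D`, in increasing order. -/
def gapRel (Rel : Word × Word → Bool) (m : Word → ℕ) (a : ((Word × ℕ) × (ℕ × IL)) × Word) : Bool :=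
  ((List.range a.1.2.1).all fun i => Rel (a.1.1.1, blk (m a.1.1.1) i a.2) &&
    solN a.1.1.2 a.1.2.2 (blk (m a.1.1.1) i a.2)) &&
  ((List.range (a.1.2.1 - 1)).all fun i =>
    !LT.leB (blk (m a.1.1.1) (i + 1) a.2) (blk (m a.1.1.1) i a.2))

private lemma gapDefs_ptSol {γ : Type} [Enc γ] {P : γ → ℕ} {D : γ → IL} {u : γ → Word}
    (hP : PT P) (hD : PT D) (hu : PT u) : PT fun c => solN (P c) (D c) (u c) := by
  have h1 : PT fun q : (γ × List ℕ) × ℕ =>
      bif (u q.1.1).getD q.2 false then q.1.2.getD (q.2 + 1) 0 else 0 :=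
    PT.cond (PT.getLD PT.snd (hu.comp (PT.fst' PT.fst)) (PT.const false))
      (PT.getLD (PT.succ PT.snd) (PT.snd' PT.fst) (PT.const 0)) (PT.const 0)
  have h2 : PT fun q : γ × List ℕ => ((List.range (u q.1).length).map fun j =>
      bif (u q.1).getD j false then q.2.getD (j + 1) 0 else 0).sum :=
    PT.majSum (PT.map (f := fun (q : γ × List ℕ) (j : ℕ) =>
      bif (u q.1).getD j false then q.2.getD (j + 1) 0 else 0)
      (PT.range (PT.length (hu.comp PT.fst))) h1)
  exact PT.all hD (PT.eqNat (PT.mod (PT.add (PT.getLD (PT.const 0) PT.snd (PT.const 0)) h2)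
    (hP.comp PT.fst)) (PT.const 0))

private lemma gapDefs_ptBlk {γ : Type} [Enc γ] {m i : γ → ℕ} {W : γ → Word}
    (hm : PT m) (hi : PT i) (hW : PT W) : PT fun c => blk (m c) (i c) (W c) :=
  PT.take hm (PT.drop (PT.mul hi hm) hW)

theorem pt_gapRel {Rel : Word × Word → Bool} {m : Word → ℕ} (hRel : PT Rel) (hm : PT m) :
    PT (gapRel Rel m) := by
  have hx : PT fun q : (((Word × ℕ) × (ℕ × IL)) × Word) × ℕ => q.1.1.1.1 :=
    PT.fst' (PT.fst' (PT.fst' PT.fst))
  have hP : PT fun q : (((Word × ℕ) × (ℕ × IL)) × Word) × ℕ => q.1.1.1.2 :=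
    PT.snd' (PT.fst' (PT.fst' PT.fst))
  have hD : PT fun q : (((Word × ℕ) × (ℕ × IL)) × Word) × ℕ => q.1.1.2.2 :=
    PT.snd' (PT.snd' (PT.fst' PT.fst))
  have hW : PT fun q : (((Word × ℕ) × (ℕ × IL)) × Word) × ℕ => q.1.2 :=
    PT.snd' PT.fst
  have hmx : PT fun q : (((Word × ℕ) × (ℕ × IL)) × Word) × ℕ => m q.1.1.1.1 := hm.comp hx
  have hb : PT fun q : (((Word × ℕ) × (ℕ × IL)) × Word) × ℕ => blk (m q.1.1.1.1) q.2 q.1.2 :=
    gapDefs_ptBlk hmx PT.snd hW
  have hb' : PT fun q : (((Word × ℕ) × (ℕ × IL)) × Word) × ℕ =>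
      blk (m q.1.1.1.1) (q.2 + 1) q.1.2 :=
    gapDefs_ptBlk hmx (PT.succ PT.snd) hW
  have hk : PT fun a : ((Word × ℕ) × (ℕ × IL)) × Word => a.1.2.1 :=
    PT.fst' (PT.snd' PT.fst)
  have h1 := PT.all (p := fun (a : ((Word × ℕ) × (ℕ × IL)) × Word) (i : ℕ) =>
    Rel (a.1.1.1, blk (m a.1.1.1) i a.2) && solN a.1.1.2 a.1.2.2 (blk (m a.1.1.1) i a.2))
    (PT.range hk) (PT.and (hRel.comp (PT.pair hx hb)) (gapDefs_ptSol hP hD hb))
  have h2 := PT.all (p := fun (a : ((Word × ℕ) × (ℕ × IL)) × Word) (i : ℕ) =>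
    !LT.leB (blk (m a.1.1.1) (i + 1) a.2) (blk (m a.1.1.1) i a.2))
    (PT.range (PT.sub hk (PT.const 1))) (PT.not (PT.leB hb' hb))
  exact PT.and h1 h2

end Pool.Agent.Lib.MP_634427_lc.Maj
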