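import Pool.Agent.Lib.MP_634427_lc.Maj.GapDefs

/-!
# The list of the solutions in increasing order

`LT.bval` is injective on words of the same length (`LT.bval`: least significant digit first), so
the finset of the solutions can be sorted by `LT.bval` of `List.ofFn w`; `W` is the concatenation.
Uniqueness: the blocks of `W` are `k` different solutions in increasing order, so they are all
solutions, and a strictly increasing enumeration of a finite set is unique.
-/

namespace Pool.Agent.Lib.MP_634427_lc.Maj

open Pool.Agent.Lib.MP_634427_lc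

private lemma gr_bval_inj : ∀ {a b : Word}, a.length = b.length → LT.bval a = LT.bval b → a = b
  | [], [], _, _ => rfl
  | [], _ :: _, h, _ => by simp at h
  | _ :: _, [], h, _ => by simp at h
  | x :: a, y :: b, h, h' => by
    rw [LT.bval_cons, LT.bval_cons] at h'
    have h1 : LT.dg x = LT.dg y := by
      cases x <;> cases y <;> simp at h' ⊢ <;> omega
    have h2 : LT.bval a = LT.bval b := by omega
    have h3 : x = y := by
      cases x <;> cases y <;> simp at h1 ⊢
    rw [h3, gr_bval_inj (by simpa using h) h2]

private lemma gr_blk_flatten {mm : ℕ} : ∀ (L : List Word), (∀ a ∈ L, a.length = mm) →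
    ∀ i (hi : i < L.length), blk mm i L.flatten = L[i]
  | [], _, i, hi => by simp at hi
  | a :: L, h, 0, _ => by
    have h1 : a.length = mm := h a (List.mem_cons_self)
    rw [blk, Nat.zero_mul, List.drop_zero, List.flatten_cons, ← h1, List.take_left]
    rfl
  | a :: L, h, i + 1, hi => by
    have h1 : a.length = mm := h a (List.mem_cons_self)
    have h2 := gr_blk_flatten L (fun b hb => h b (List.mem_cons_of_mem _ hb)) i (by simpa using hi)
    have h3 : (i + 1) * mm = a.length + i * mm := by rw [h1]; ring
    rw [blk, List.flatten_cons, h3, List.drop_append, Nat.add_sub_cancel_left,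
      List.drop_eq_nil_of_le (by omega), List.nil_append]
    exact h2

private lemma gr_ext {mm : ℕ} : ∀ {k : ℕ} {W W' : Word}, W.length = k * mm → W'.length = k * mm →
    (∀ i < k, blk mm i W = blk mm i W') → W = W'
  | 0, W, W', h, h', _ => by
    rw [Nat.zero_mul] at h h'
    rw [List.length_eq_zero_iff.1 h, List.length_eq_zero_iff.1 h']
  | k + 1, W, W', h, h', hb => by
    have h0 := hb 0 (Nat.succ_pos k)
    rw [blk, blk, Nat.zero_mul, List.drop_zero, List.drop_zero] at h0
    have h1 : W.drop mm = W'.drop mm := by
      refine gr_ext (mm := mm) (k := k) ?_ ?_ fun i hi => ?_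
      · rw [List.length_drop, h, Nat.succ_mul, Nat.add_sub_cancel]
      · rw [List.length_drop, h', Nat.succ_mul, Nat.add_sub_cancel]
      · have h2 := hb (i + 1) (Nat.succ_lt_succ hi)
        rw [blk, blk] at h2 ⊢
        rw [List.drop_drop, List.drop_drop]
        have h3 : mm + i * mm = (i + 1) * mm := by ring
        rw [h3]
        exact h2
    rw [← List.take_append_drop mm W, ← List.take_append_drop mm W', h0, h1]

private lemma gr_ofFn {n : ℕ} {l : Word} (h : l.length = n) : ∃ w : Fin n → Bool, List.ofFn w = l := by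
  subst h
  exact ⟨l.get, List.ofFn_get l⟩

private lemma gr_mono {f : ℕ → ℕ} {k : ℕ} (h : ∀ i, i < k - 1 → f i < f (i + 1)) :
    ∀ j i, i < j → j < k → f i < f j
  | 0, i, hi, _ => absurd hi (Nat.not_lt_zero i)
  | j + 1, i, hi, hj => by
    have h1 := h j (by omega)
    rcases Nat.lt_or_ge i j with h2 | h2
    · exact (gr_mono h j i h2 (by omega)).trans h1
    · have h3 : i = j := by omega
      rw [h3]
      exact h1

private lemma gr_iff {Rel : Word × Word → Bool} {m : Word → ℕ} {x : Word} {P k : ℕ} {D : IL}
    {W : Word} : gapRel Rel m (((x, P), (k, D)), W) = true ↔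
      (∀ i < k, Rel (x, blk (m x) i W) = true ∧ solN P D (blk (m x) i W) = true) ∧
      ∀ i < k - 1, LT.bval (blk (m x) i W) < LT.bval (blk (m x) (i + 1) W) := by
  unfold gapRel
  simp only [Bool.and_eq_true, List.all_eq_true, List.mem_range, Bool.not_eq_true']
  refine and_congr Iff.rfl (forall₂_congr fun i _ => ?_)
  rw [← not_le, ← LT.leB_iff, Bool.not_eq_true]

/-- There is a list of blocks. -/
theorem gapRel_exists {Rel : Word × Word → Bool} {m : Word → ℕ} {x : Word} {P n : ℕ} [NeZero P]
    (D : Itm P (m x) n) {k : ℕ} (hk : ((TW Rel m x).filter fun w => Sat D w).card = k) :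
    ∃ W : Word, W.length = k * m x ∧ gapRel Rel m (((x, P), (k, itmL D)), W) = true := by
  classical
  let key : (Fin (m x) → Bool) → ℕ := fun w => LT.bval (List.ofFn w)
  have hkey : Function.Injective key := by
    intro w w' h
    exact List.ofFn_injective (gr_bval_inj (by rw [List.length_ofFn, List.length_ofFn]) h)
  let T : Finset ℕ := ((TW Rel m x).filter fun w => Sat D w).image key
  have hT : T.card = k := by rw [Finset.card_image_of_injective _ hkey, hk]
  have hw : ∀ i : Fin k, ∃ w ∈ (TW Rel m x).filter (fun w => Sat D w), key w =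
      T.orderEmbOfFin hT i := fun i => Finset.mem_image.1 (T.orderEmbOfFin_mem hT i)
  choose w hwS hwk using hw
  let L : List Word := List.ofFn fun i : Fin k => List.ofFn (w i)
  have hL : ∀ a ∈ L, a.length = m x := by
    intro a ha
    obtain ⟨i, rfl⟩ := List.mem_ofFn.1 ha
    exact List.length_ofFn
  have hlen : L.length = k := List.length_ofFn
  have hblk : ∀ i (hi : i < k), blk (m x) i L.flatten = List.ofFn (w ⟨i, hi⟩) := by
    intro i hi
    rw [gr_blk_flatten L hL i (by rw [hlen]; exact hi), List.getElem_ofFn]
  refine ⟨L.flatten, ?_, gr_iff.2 ⟨fun i hi => ?_, fun i hi => ?_⟩⟩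
  · rw [List.length_flatten, List.map_congr_left hL, List.map_const', List.sum_replicate, hlen,
      smul_eq_mul]
  · rw [hblk i hi, solN_iff]
    have h1 := Finset.mem_filter.1 (hwS ⟨i, hi⟩)
    exact ⟨(Finset.mem_filter.1 h1.1).2, h1.2⟩
  · have h1 : i < k := by omega
    have h2 : i + 1 < k := by omega
    rw [hblk i h1, hblk (i + 1) h2]
    change key (w ⟨i, h1⟩) < key (w ⟨i + 1, h2⟩)
    rw [hwk, hwk]
    exact (T.orderEmbOfFin hT).strictMono (Fin.mk_lt_mk.2 (Nat.lt_succ_self i))

/-- The list of blocks is unique. -/
theorem gapRel_unique {Rel : Word × Word → Bool} {m : Word → ℕ} {x : Word} {P n : ℕ} [NeZero P]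
    (D : Itm P (m x) n) {k : ℕ} (hk : ((TW Rel m x).filter fun w => Sat D w).card = k)
    {W W' : Word} (hW : W.length = k * m x) (hW' : W'.length = k * m x)
    (h : gapRel Rel m (((x, P), (k, itmL D)), W) = true)
    (h' : gapRel Rel m (((x, P), (k, itmL D)), W') = true) : W = W' := by
  classical
  let key : (Fin (m x) → Bool) → ℕ := fun w => LT.bval (List.ofFn w)
  have hkey : Function.Injective key := by
    intro w w' h
    exact List.ofFn_injective (gr_bval_inj (by rw [List.length_ofFn, List.length_ofFn]) h)
  let T : Finset ℕ := ((TW Rel m x).filter fun w => Sat D w).image key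
  have hT : T.card = k := by rw [Finset.card_image_of_injective _ hkey, hk]
  have hlen : ∀ {V : Word}, V.length = k * m x → ∀ i < k, (blk (m x) i V).length = m x := by
    intro V hV i hi
    rw [blk, List.length_take, List.length_drop, hV]
    have h1 : (i + 1) * m x ≤ k * m x := Nat.mul_le_mul_right _ hi
    rw [Nat.succ_mul] at h1
    omega
  have key1 : ∀ {V : Word}, V.length = k * m x →
      gapRel Rel m (((x, P), (k, itmL D)), V) = true →
      (fun i : Fin k => LT.bval (blk (m x) i V)) = T.orderEmbOfFin hT := by
    intro V hV hr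
    obtain ⟨h1, h2⟩ := gr_iff.1 hr
    refine T.orderEmbOfFin_unique hT (fun i => ?_) fun i j hij => ?_
    · obtain ⟨w, hw⟩ := gr_ofFn (hlen hV i i.2)
      refine Finset.mem_image.2 ⟨w, ?_, congrArg LT.bval hw⟩
      have h3 := h1 i i.2
      rw [← hw, solN_iff] at h3
      exact Finset.mem_filter.2 ⟨Finset.mem_filter.2 ⟨Finset.mem_univ _, h3.1⟩, h3.2⟩
    · exact gr_mono (f := fun i => LT.bval (blk (m x) i V)) h2 j i hij j.2
  refine gr_ext hW hW' fun i hi => ?_
  have h1 : (fun i : Fin k => LT.bval (blk (m x) i W)) =
      fun i : Fin k => LT.bval (blk (m x) i W') := (key1 hW h).trans (key1 hW' h').symm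
  exact gr_bval_inj (by rw [hlen hW i hi, hlen hW' i hi]) (congrFun h1 ⟨i, hi⟩)

end Pool.Agent.Lib.MP_634427_lc.Maj
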