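import Pool.Agent.Lib.MP_634427_lc.Maj.Shift

/-!
# Mixing: the mean over the children of an item is nearly independent of the item

Proof. Put `μ = 𝔼 X x, f X x`, `g X = 𝔼 x v, f (X + v ⊗ x) x`, `h = g - μ` (so `𝔼 h = 0`,
`𝔼 g ^ 2 = μ ^ 2 + 𝔼 h ^ 2`), `H X x = 𝔼 v, h (X + v ⊗ x)`. Then, replacing `X` by `X - v ⊗ x` and
`v` by `- v`, `𝔼 h ^ 2 = 𝔼 X x v, (f (X + v ⊗ x) x - μ) * h X = 𝔼 X x, (f X x - μ) * H X x`, whose
square is `≤ (𝔼 (f - μ) ^ 2) * (𝔼 H ^ 2)` by Cauchy-Schwarz. And `𝔼 X x, H X x ^ 2 =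
𝔼 x v v' X, h (X + v ⊗ x) * h (X + v' ⊗ x) = 𝔼 x v X, h X * h (X + v ⊗ x) ≤ 𝔼 h ^ 2 / |K|` by
`shift_corr`. So `(𝔼 h ^ 2) ^ 2 ≤ 𝔼 (f - μ) ^ 2 * 𝔼 h ^ 2 / |K|`, hence
`𝔼 h ^ 2 ≤ 𝔼 (f - μ) ^ 2 / |K| ≤ 𝔼 f ^ 2 / |K|`.
-/

namespace Pool.Agent.Lib.MP_634427_lc.Maj

open Finset
open scoped BigOperators

/-- The mixing lemma. -/
theorem mix {K V : Type} [Field K] [Fintype K] [AddCommGroup V] [Module K V] [Fintype V]
    (n : ℕ) (f : (Fin n → V) → V → ℝ) :
    𝔼 X : Fin n → V, (𝔼 x : V, 𝔼 v : Fin n → K, f (fun i => X i + v i • x) x) ^ 2 ≤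
      (𝔼 X : Fin n → V, 𝔼 x : V, f X x) ^ 2 +
        (𝔼 X : Fin n → V, 𝔼 x : V, f X x ^ 2) / (Fintype.card K : ℝ) := by
  classical
  have hK : (0 : ℝ) < Fintype.card K := by exact_mod_cast Fintype.card_pos
  have hsh : ∀ (x : V) (v : Fin n → K) (F : (Fin n → V) → ℝ),
      𝔼 X : Fin n → V, F (fun i => X i + v i • x) = 𝔼 X : Fin n → V, F X := by
    intro x v F
    exact Fintype.expect_equiv (Equiv.addRight (fun i => v i • x)) _ _ (fun X => rfl)
  obtain ⟨μ, hμ⟩ : ∃ μ : ℝ, μ = 𝔼 X : Fin n → V, 𝔼 x : V, f X x := ⟨_, rfl⟩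
  obtain ⟨g, hg⟩ : ∃ g : (Fin n → V) → ℝ, ∀ X, g X =
      𝔼 x : V, 𝔼 v : Fin n → K, f (fun i => X i + v i • x) x := ⟨_, fun _ => rfl⟩
  obtain ⟨h, hh⟩ : ∃ h : (Fin n → V) → ℝ, ∀ X, h X = g X - μ := ⟨_, fun _ => rfl⟩
  obtain ⟨H, hH⟩ : ∃ H : V → (Fin n → V) → ℝ, ∀ x X, H x X =
      𝔼 v : Fin n → K, h (fun i => X i + v i • x) := ⟨_, fun _ _ => rfl⟩
  have hμ' : 𝔼 x : V, 𝔼 X : Fin n → V, f X x = μ := by rw [hμ, expect_comm]
  have hgm : 𝔼 X : Fin n → V, g X = μ := by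
    rw [expect_congr rfl (fun X _ => hg X), expect_comm, ← hμ']
    refine expect_congr rfl fun x _ => ?_
    rw [expect_comm, expect_congr rfl (fun v _ => hsh x v (fun X => f X x)), Fintype.expect_const]
  have hh0 : 𝔼 X : Fin n → V, h X = 0 := by
    rw [expect_congr rfl (fun X _ => hh X), expect_sub_distrib, hgm, Fintype.expect_const,
      sub_self]
  have hg2 : 𝔼 X : Fin n → V, g X ^ 2 = μ ^ 2 + 𝔼 X : Fin n → V, h X ^ 2 := by
    have h1 : ∀ X, g X ^ 2 = h X ^ 2 + (2 * μ * h X + μ ^ 2) := by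
      intro X
      rw [hh]
      ring
    rw [expect_congr rfl (fun X _ => h1 X), expect_add_distrib, expect_add_distrib, ← mul_expect,
      hh0, Fintype.expect_const]
    ring
  -- the square of `h`
  have e1 : 𝔼 X : Fin n → V, h X ^ 2 = 𝔼 x : V, 𝔼 X : Fin n → V, (f X x - μ) * H x X := by
    have h1 : ∀ X, h X ^ 2 = 𝔼 x : V, 𝔼 v : Fin n → K,
        (f (fun i => X i + v i • x) x - μ) * h X := by
      intro X
      have h2 : ∀ x : V, 𝔼 v : Fin n → K, (f (fun i => X i + v i • x) x - μ) * h X =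
          ((𝔼 v : Fin n → K, f (fun i => X i + v i • x) x) - μ) * h X := by
        intro x
        rw [← expect_mul, expect_sub_distrib, Fintype.expect_const]
      rw [expect_congr rfl (fun x _ => h2 x), ← expect_mul, expect_sub_distrib,
        Fintype.expect_const, ← hg, ← hh, pow_two]
    rw [expect_congr rfl (fun X _ => h1 X), expect_comm]
    refine expect_congr rfl fun x _ => ?_
    rw [expect_comm]
    have h3 : ∀ v : Fin n → K, 𝔼 X : Fin n → V, (f (fun i => X i + v i • x) x - μ) * h X =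
        𝔼 X : Fin n → V, (f X x - μ) * h (fun i => X i + (-v) i • x) := by
      intro v
      rw [← hsh x v (fun X => (f X x - μ) * h (fun i => X i + (-v) i • x))]
      refine expect_congr rfl fun X _ => ?_
      congr 2
      funext i
      rw [Pi.neg_apply, neg_smul, add_neg_cancel_right]
    rw [expect_congr rfl (fun v _ => h3 v)]
    have h4 : 𝔼 v : Fin n → K, 𝔼 X : Fin n → V, (f X x - μ) * h (fun i => X i + (-v) i • x) =
        𝔼 v : Fin n → K, 𝔼 X : Fin n → V, (f X x - μ) * h (fun i => X i + v i • x) :=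
      Fintype.expect_equiv (Equiv.neg (Fin n → K)) _ _ (fun v => rfl)
    rw [h4, expect_comm]
    refine expect_congr rfl fun X _ => ?_
    rw [hH, mul_expect]
  have e2 : 𝔼 x : V, 𝔼 X : Fin n → V, H x X ^ 2 ≤
      (𝔼 X : Fin n → V, h X ^ 2) / (Fintype.card K : ℝ) := by
    have h1 := shift_corr (K := K) n h
    rw [hh0] at h1
    have h2 : 𝔼 x : V, 𝔼 X : Fin n → V, H x X ^ 2 =
        𝔼 x : V, 𝔼 v : Fin n → K, 𝔼 Y : Fin n → V, h Y * h (fun i => Y i + v i • x) := by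
      refine expect_congr rfl fun x _ => ?_
      have h3 : ∀ X, H x X ^ 2 = 𝔼 v : Fin n → K, 𝔼 v' : Fin n → K,
          h (fun i => X i + v i • x) * h (fun i => X i + v' i • x) := by
        intro X
        rw [pow_two, hH, expect_mul_expect]
      rw [expect_congr rfl (fun X _ => h3 X), expect_comm]
      have h4 : ∀ v : Fin n → K, 𝔼 X : Fin n → V, 𝔼 v' : Fin n → K,
          h (fun i => X i + v i • x) * h (fun i => X i + v' i • x) =
          𝔼 v' : Fin n → K, 𝔼 Y : Fin n → V, h Y * h (fun i => Y i + v' i • x) := by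
        intro v
        rw [expect_comm]
        have h5 : ∀ v' : Fin n → K, 𝔼 X : Fin n → V,
            h (fun i => X i + v i • x) * h (fun i => X i + v' i • x) =
            𝔼 Y : Fin n → V, h Y * h (fun i => Y i + (v' - v) i • x) := by
          intro v'
          rw [← hsh x v (fun Y => h Y * h (fun i => Y i + (v' - v) i • x))]
          refine expect_congr rfl fun X _ => ?_
          congr 2
          funext i
          rw [Pi.sub_apply, sub_smul, add_add_sub_cancel]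
        rw [expect_congr rfl (fun v' _ => h5 v')]
        exact Fintype.expect_equiv (Equiv.subRight v) _ _ (fun v' => rfl)
      rw [expect_congr rfl (fun v _ => h4 v), Fintype.expect_const]
    rw [h2]
    refine h1.trans (le_of_eq ?_)
    ring
  have e3 : (𝔼 X : Fin n → V, h X ^ 2) ^ 2 ≤ (𝔼 x : V, 𝔼 X : Fin n → V, (f X x - μ) ^ 2) *
      (𝔼 x : V, 𝔼 X : Fin n → V, H x X ^ 2) := by
    rw [e1, ← expect_product' univ univ (fun x X => (f X x - μ) * H x X),
      ← expect_product' univ univ (fun x X => (f X x - μ) ^ 2),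
      ← expect_product' univ univ (fun x X => H x X ^ 2)]
    exact expect_mul_sq_le_sq_mul_sq _ _ _
  have e4 : 𝔼 x : V, 𝔼 X : Fin n → V, (f X x - μ) ^ 2 ≤
      𝔼 X : Fin n → V, 𝔼 x : V, f X x ^ 2 := by
    have h1 : ∀ x : V, 𝔼 X : Fin n → V, (f X x - μ) ^ 2 =
        (𝔼 X : Fin n → V, f X x ^ 2) - 2 * μ * (𝔼 X : Fin n → V, f X x) + μ ^ 2 := by
      intro x
      have h2 : ∀ X, (f X x - μ) ^ 2 = f X x ^ 2 - 2 * μ * f X x + μ ^ 2 := fun X => by ring
      rw [expect_congr rfl (fun X _ => h2 X), expect_add_distrib, expect_sub_distrib, ← mul_expect,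
        Fintype.expect_const]
    rw [expect_congr rfl (fun x _ => h1 x), expect_add_distrib, expect_sub_distrib, ← mul_expect,
      hμ', Fintype.expect_const, expect_comm]
    nlinarith [sq_nonneg μ]
  have e5 : 0 ≤ 𝔼 X : Fin n → V, h X ^ 2 := expect_nonneg fun X _ => sq_nonneg _
  have e6 : 0 ≤ 𝔼 X : Fin n → V, 𝔼 x : V, f X x ^ 2 :=
    expect_nonneg fun X _ => expect_nonneg fun x _ => sq_nonneg _
  have e7 : 𝔼 X : Fin n → V, h X ^ 2 ≤
      (𝔼 X : Fin n → V, 𝔼 x : V, f X x ^ 2) / (Fintype.card K : ℝ) := by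
    rcases e5.eq_or_lt with h0 | h0
    · rw [← h0]
      exact div_nonneg e6 hK.le
    · have h1 : (𝔼 X : Fin n → V, h X ^ 2) ^ 2 ≤ (𝔼 X : Fin n → V, 𝔼 x : V, f X x ^ 2) *
          ((𝔼 X : Fin n → V, h X ^ 2) / (Fintype.card K : ℝ)) := by
        refine e3.trans (mul_le_mul e4 e2 ?_ e6)
        exact expect_nonneg fun x _ => expect_nonneg fun X _ => sq_nonneg _
      rw [← mul_div_assoc, pow_two, mul_comm (𝔼 X : Fin n → V, 𝔼 x : V, f X x ^ 2),
        mul_div_assoc] at h1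
      exact le_of_mul_le_mul_left h1 h0
  rw [← expect_congr rfl (fun X _ => congrArg (fun t => t ^ 2) (hg X)), hg2, ← hμ]
  exact add_le_add le_rfl e7

end Pool.Agent.Lib.MP_634427_lc.Maj
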