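import Pool.Agent.Lib.MP_634427_lc.Maj.Defs

/-!
# Pairs of seeds with vanishing determinant

Proof. For a seed `s = (t, t', g)` put `a = g + 1`, `b = g * t + t'`. For fixed `t` the map
`(t', g) ↦ (a, b)` is a bijection of `ZMod P × ZMod P`. So the number of pairs with
`a * b' - a' * b = 0` is `P ^ 2` times the number of `((a, b), (a', b'))` with `a * b' = a' * b`,
which is `P ^ 3 + P ^ 2 - P ≤ 2 * P ^ 3` (a simple way: for `(a, b) ≠ 0` and each of the `P` values
of one of `a', b'` the other one is determined: `≤ P ^ 2 * P`; for `(a, b) = 0` there are `P ^ 2`).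
-/

namespace Pool.Agent.Lib.MP_634427_lc.Maj

/-- Pairs with `g ≠ -1`: the second component of the second seed is determined by the rest. -/
private theorem card_one (P : ℕ) [Fact P.Prime] :
    (Finset.univ.filter fun q : Seed P × Seed P =>
      sdet q.1 q.2 = 0 ∧ q.1.2.2 + 1 ≠ 0).card ≤ P ^ 5 := by
  have h : (Finset.univ.filter fun q : Seed P × Seed P =>
      sdet q.1 q.2 = 0 ∧ q.1.2.2 + 1 ≠ 0).card ≤
      (Finset.univ : Finset (Seed P × (ZMod P × ZMod P))).card := by
    apply Finset.card_le_card_of_injOn (fun q => (q.1, (q.2.1, q.2.2.2)))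
    · intro q _
      exact Finset.mem_coe.2 (Finset.mem_univ _)
    · rintro ⟨s, t₁, t₂, g⟩ hq ⟨s', t₁', t₂', g'⟩ hq' heq
      simp only [Finset.coe_filter, Finset.mem_univ, true_and, Set.mem_ofPred_eq] at hq hq'
      simp only [Prod.mk.injEq] at heq
      obtain ⟨rfl, rfl, rfl⟩ := heq
      obtain ⟨h1, h2⟩ := hq
      obtain ⟨h3, _⟩ := hq'
      simp only [sdet] at h1 h3
      have h4 : (s.2.2 + 1) * (t₂ - t₂') = 0 := by linear_combination h1 - h3
      have h5 : t₂ = t₂' := by
        rcases mul_eq_zero.1 h4 with h | h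
        · exact absurd h h2
        · exact sub_eq_zero.1 h
      rw [h5]
  refine h.trans (le_of_eq ?_)
  rw [Finset.card_univ]
  simp only [Seed, Fintype.card_prod, ZMod.card]
  ring

/-- Pairs with `g = -1`. -/
private theorem card_two (P : ℕ) [Fact P.Prime] :
    (Finset.univ.filter fun q : Seed P × Seed P => q.1.2.2 + 1 = 0).card ≤ P ^ 5 := by
  have h : (Finset.univ.filter fun q : Seed P × Seed P => q.1.2.2 + 1 = 0).card ≤
      (Finset.univ : Finset ((ZMod P × ZMod P) × Seed P)).card := by
    apply Finset.card_le_card_of_injOn (fun q => ((q.1.1, q.1.2.1), q.2))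
    · intro q _
      exact Finset.mem_coe.2 (Finset.mem_univ _)
    · rintro ⟨⟨t₁, t₂, g⟩, s⟩ hq ⟨⟨t₁', t₂', g'⟩, s'⟩ hq' heq
      simp only [Finset.coe_filter, Finset.mem_univ, true_and, Set.mem_ofPred_eq] at hq hq'
      simp only [Prod.mk.injEq] at heq
      obtain ⟨⟨rfl, rfl⟩, rfl⟩ := heq
      have h5 : g = g' := by linear_combination hq - hq'
      rw [h5]
  refine h.trans (le_of_eq ?_)
  rw [Finset.card_univ]
  simp only [Seed, Fintype.card_prod, ZMod.card]
  ring

/-- For few pairs of seeds the determinant vanishes. -/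
theorem card_sdet (P : ℕ) [Fact P.Prime] :
    (Finset.univ.filter fun q : Seed P × Seed P => sdet q.1 q.2 = 0).card ≤ 2 * P ^ 5 := by
  have hsub : (Finset.univ.filter fun q : Seed P × Seed P => sdet q.1 q.2 = 0) ⊆
      (Finset.univ.filter fun q : Seed P × Seed P => sdet q.1 q.2 = 0 ∧ q.1.2.2 + 1 ≠ 0) ∪
      (Finset.univ.filter fun q : Seed P × Seed P => q.1.2.2 + 1 = 0) := by
    intro q hq
    rw [Finset.mem_filter] at hq
    rw [Finset.mem_union, Finset.mem_filter, Finset.mem_filter]
    by_cases h : q.1.2.2 + 1 = 0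
    · exact Or.inr ⟨hq.1, h⟩
    · exact Or.inl ⟨hq.1, hq.2, h⟩
  have h1 := card_one P
  have h2 := card_two P
  have h3 := (Finset.card_le_card hsub).trans (Finset.card_union_le _ _)
  omega

end Pool.Agent.Lib.MP_634427_lc.Maj
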