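import Pool.Agent.Lib.MP_634427_lc.Maj.Pair
import Pool.Agent.Lib.MP_634427_lc.Maj.Sdet
import Pool.Agent.Lib.MP_634427_lc.Maj.Mix

/-!
# The mean over the children of a random item is close to the global mean

Proof. Put `ψ b = 𝔼 E, φ E b`, `Z s b = 𝔼 c, φ (kid D π s c) b - ψ b` (depends on `D, π`). Then
`loc φ D π b - ψ b = 𝔼 s, Z s b`, and its square is `𝔼 s, 𝔼 s', Z s b * Z s' b`.
If `sdet s s' ≠ 0` then by `pair_good` (with `F = G = φ _ b`, and with one of them constant)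
`𝔼 D π, Z s b * Z s' b = 𝔼 D, (h D - ψ b) ^ 2`, `h D = 𝔼 x v, φ (child D v x) b`, and by `mix`
(`K = ZMod P`, `V = Row P m`, `f X x = φ (Fin.cons x X) b`; the mean of `f` is `ψ b` since
`(x, X) ↦ Fin.cons x X` is a bijection) this is `≤ (𝔼 E, φ E b ^ 2) / P`; the sum over `b ∈ B` is
`≤ p ^ 2 / P`. The pairs with `sdet s s' = 0` are at most `2 * P ^ 5` of `P ^ 6` and for each of
them `∑ b, |Z s b * Z s' b| ≤ (∑ b, Z s b ^ 2 + ∑ b, Z s' b ^ 2) / 2 ≤ (2 * p) ^ 2` because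
`∑ b, (𝔼 c, φ (..) b - ψ b) ^ 2 ≤ 2 * ∑ b, (𝔼 c, φ (..) b) ^ 2 + 2 * ∑ b, ψ b ^ 2 ≤ 4 * p ^ 2`
(Jensen). Total `p ^ 2 / P + 8 * p ^ 2 / P`.
-/

namespace Pool.Agent.Lib.MP_634427_lc.Maj

open Finset
open scoped BigOperators

/-- The variance. -/
private theorem locDev_var {ι : Type*} [Fintype ι] [Nonempty ι] (f : ι → ℝ) :
    𝔼 i, (f i - 𝔼 j, f j) ^ 2 = 𝔼 i, f i ^ 2 - (𝔼 i, f i) ^ 2 := by
  obtain ⟨μ, hμ⟩ : ∃ μ : ℝ, μ = 𝔼 i, f i := ⟨_, rfl⟩
  rw [← hμ]
  have h1 : ∀ i, (f i - μ) ^ 2 = f i ^ 2 - 2 * μ * f i + μ ^ 2 := fun i => by ring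
  rw [expect_congr rfl (fun i _ => h1 i), expect_add_distrib, expect_sub_distrib, ← mul_expect,
    Fintype.expect_const, ← hμ]
  ring

/-- Jensen. -/
private theorem locDev_jensen {ι : Type*} [Fintype ι] [Nonempty ι] (f : ι → ℝ) :
    (𝔼 i, f i) ^ 2 ≤ 𝔼 i, f i ^ 2 := by
  have h1 := locDev_var f
  have h2 : 0 ≤ 𝔼 i, (f i - 𝔼 j, f j) ^ 2 := expect_nonneg fun i _ => sq_nonneg _
  linarith

/-- The mean over the items of level `n + 1`. -/
private theorem locDev_cons {P m n : ℕ} [NeZero P] (f : Itm P m (n + 1) → ℝ) :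
    𝔼 X : Itm P m n, 𝔼 x : Row P m, f (Fin.cons x X) = 𝔼 E : Itm P m (n + 1), f E := by
  rw [expect_comm, ← expect_product' univ univ (fun x X => f (Fin.cons x X)), univ_product_univ]
  exact Fintype.expect_equiv (Fin.consEquiv (fun _ => Row P m)) _ _ (fun p => rfl)

/-- Second moment of the deviation of the local means. -/
theorem loc_dev {P m : ℕ} [Fact P.Prime] (n : ℕ) {β : Type} (B : Finset β)
    (φ : Itm P m (n + 1) → β → ℝ) (p : ℝ) (hφ : ∀ D, ∑ b ∈ B, φ D b ^ 2 ≤ p ^ 2) :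
    𝔼 D : Itm P m n, 𝔼 π : Par P m n,
        ∑ b ∈ B, (loc φ D π b - 𝔼 E : Itm P m (n + 1), φ E b) ^ 2 ≤ 9 * p ^ 2 / (P : ℝ) := by
  classical
  have hP : (0 : ℝ) < P := by exact_mod_cast (Fact.out : P.Prime).pos
  obtain ⟨ψ, hψ⟩ : ∃ ψ : β → ℝ, ∀ b, ψ b = 𝔼 E : Itm P m (n + 1), φ E b := ⟨_, fun _ => rfl⟩
  obtain ⟨z, hz⟩ : ∃ z : Itm P m n → Par P m n → Seed P → β → ℝ, ∀ D π s b,
      z D π s b = 𝔼 c : ZMod P, (φ (kid D π s c) b - ψ b) :=
    ⟨fun D π s b => 𝔼 c : ZMod P, (φ (kid D π s c) b - ψ b), fun _ _ _ _ => rfl⟩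
  have hloc : ∀ D π b, loc φ D π b - ψ b = 𝔼 s : Seed P, z D π s b := by
    intro D π b
    rw [expect_congr rfl (fun s _ => hz D π s b)]
    simp only [expect_sub_distrib, Fintype.expect_const]
    congr 1
    simp only [Fintype.expect_eq_sum_div_card, ← Finset.sum_div, Fintype.card_prod, ZMod.card]
    unfold loc
    rw [div_div]
    congr 1
    push_cast
    ring
  obtain ⟨T, hT⟩ : ∃ T : Seed P → Seed P → ℝ, ∀ s s', T s s' = 𝔼 D : Itm P m n, 𝔼 π : Par P m n,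
      ∑ b ∈ B, z D π s b * z D π s' b := ⟨_, fun _ _ => rfl⟩
  have hmain : 𝔼 D : Itm P m n, 𝔼 π : Par P m n, ∑ b ∈ B, (loc φ D π b - ψ b) ^ 2 =
      𝔼 s : Seed P, 𝔼 s' : Seed P, T s s' := by
    have h1 : ∀ D π, ∑ b ∈ B, (loc φ D π b - ψ b) ^ 2 =
        𝔼 s : Seed P, 𝔼 s' : Seed P, ∑ b ∈ B, z D π s b * z D π s' b := by
      intro D π
      have h2 : ∀ b, (loc φ D π b - ψ b) ^ 2 =
          𝔼 s : Seed P, 𝔼 s' : Seed P, z D π s b * z D π s' b := by
        intro b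
        rw [hloc, pow_two, Fintype.expect_mul_expect]
      rw [sum_congr rfl (fun b _ => h2 b), ← expect_sum_comm]
      refine expect_congr rfl fun s _ => ?_
      rw [← expect_sum_comm]
    simp only [h1, hT]
    have h3 : ∀ D : Itm P m n, 𝔼 π : Par P m n, 𝔼 s : Seed P, 𝔼 s' : Seed P,
        ∑ b ∈ B, z D π s b * z D π s' b = 𝔼 s : Seed P, 𝔼 s' : Seed P, 𝔼 π : Par P m n,
        ∑ b ∈ B, z D π s b * z D π s' b := by
      intro D
      rw [expect_comm]
      refine expect_congr rfl fun s _ => ?_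
      rw [expect_comm]
    rw [expect_congr rfl (fun D _ => h3 D), expect_comm]
    refine expect_congr rfl fun s _ => ?_
    rw [expect_comm]
  have hψ2 : ∑ b ∈ B, 𝔼 E : Itm P m (n + 1), φ E b ^ 2 ≤ p ^ 2 := by
    rw [← expect_sum_comm]
    exact expect_le univ_nonempty fun E _ => hφ E
  have hgood : ∀ s s', sdet s s' ≠ 0 → T s s' ≤ p ^ 2 / P := by
    intro s s' h
    have h1 : T s s' = ∑ b ∈ B, 𝔼 D : Itm P m n, (𝔼 x : Row P m, 𝔼 v : Fin n → ZMod P,
        (φ (child D v x) b - ψ b)) ^ 2 := by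
      rw [hT]
      have h2 : ∀ D : Itm P m n, 𝔼 π : Par P m n, ∑ b ∈ B, z D π s b * z D π s' b =
          ∑ b ∈ B, 𝔼 π : Par P m n, z D π s b * z D π s' b := by
        intro D
        rw [expect_sum_comm]
      rw [expect_congr rfl (fun D _ => h2 D), expect_sum_comm]
      refine sum_congr rfl fun b _ => ?_
      have h3 := pair_good (m := m) (n := n) h (fun E => φ E b - ψ b) (fun E => φ E b - ψ b)
      have h4 : 𝔼 D : Itm P m n, 𝔼 π : Par P m n, z D π s b * z D π s' b =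
          𝔼 D : Itm P m n, 𝔼 π : Par P m n, 𝔼 c : ZMod P, 𝔼 c' : ZMod P,
            (φ (kid D π s c) b - ψ b) * (φ (kid D π s' c') b - ψ b) := by
        refine expect_congr rfl fun D _ => expect_congr rfl fun π _ => ?_
        rw [hz, hz, Fintype.expect_mul_expect]
      rw [h4, h3]
      refine expect_congr rfl fun D _ => ?_
      rw [pow_two]
    have h5 : ∀ b, 𝔼 D : Itm P m n, (𝔼 x : Row P m, 𝔼 v : Fin n → ZMod P,
        (φ (child D v x) b - ψ b)) ^ 2 ≤ (𝔼 E : Itm P m (n + 1), φ E b ^ 2) / P := by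
      intro b
      have h6 := mix (K := ZMod P) (V := Row P m) n (fun X x => φ (Fin.cons x X) b - ψ b)
      rw [locDev_cons (fun E => φ E b - ψ b), locDev_cons (fun E => (φ E b - ψ b) ^ 2),
        ZMod.card] at h6
      refine h6.trans ?_
      rw [expect_sub_distrib, Fintype.expect_const, ← hψ, sub_self, zero_pow two_ne_zero,
        zero_add, hψ, locDev_var (fun E => φ E b)]
      exact div_le_div_of_nonneg_right (sub_le_self _ (sq_nonneg _)) hP.le
    rw [h1]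
    refine (sum_le_sum fun b _ => h5 b).trans ?_
    rw [← Finset.sum_div]
    exact div_le_div_of_nonneg_right hψ2 hP.le
  have hzz : ∀ D π s, ∑ b ∈ B, z D π s b ^ 2 ≤ 4 * p ^ 2 := by
    intro D π s
    have h1 : ∀ b, z D π s b ^ 2 ≤ 2 * (𝔼 c : ZMod P, φ (kid D π s c) b ^ 2) +
        2 * 𝔼 E : Itm P m (n + 1), φ E b ^ 2 := by
      intro b
      have h2 := locDev_jensen (fun c : ZMod P => φ (kid D π s c) b)
      have h3 := locDev_jensen (fun E : Itm P m (n + 1) => φ E b)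
      rw [← hψ] at h3
      rw [hz, expect_sub_distrib, Fintype.expect_const]
      nlinarith [sq_nonneg ((𝔼 c : ZMod P, φ (kid D π s c) b) + ψ b)]
    refine (sum_le_sum fun b _ => h1 b).trans ?_
    rw [sum_add_distrib, ← mul_sum, ← mul_sum]
    have h4 : ∑ b ∈ B, 𝔼 c : ZMod P, φ (kid D π s c) b ^ 2 ≤ p ^ 2 := by
      rw [← expect_sum_comm]
      exact expect_le univ_nonempty fun c _ => hφ _
    linarith
  have hbad : ∀ s s', T s s' ≤ 4 * p ^ 2 := by
    intro s s'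
    rw [hT]
    refine expect_le univ_nonempty fun D _ => expect_le univ_nonempty fun π _ => ?_
    have h1 : ∑ b ∈ B, z D π s b * z D π s' b ≤
        ∑ b ∈ B, (z D π s b ^ 2 + z D π s' b ^ 2) / 2 :=
      sum_le_sum fun b _ => by nlinarith [sq_nonneg (z D π s b - z D π s' b)]
    refine h1.trans ?_
    rw [← Finset.sum_div, sum_add_distrib]
    have h2 := hzz D π s
    have h3 := hzz D π s'
    linarith
  have hall : ∀ s s', T s s' ≤ p ^ 2 / P + if sdet s s' = 0 then 4 * p ^ 2 else 0 := by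
    intro s s'
    by_cases h : sdet s s' = 0
    · rw [if_pos h]
      have h1 := hbad s s'
      have h2 : 0 ≤ p ^ 2 / P := div_nonneg (sq_nonneg _) hP.le
      linarith
    · rw [if_neg h, add_zero]
      exact hgood s s' h
  simp only [← hψ]
  rw [hmain]
  have hsum : 𝔼 s : Seed P, 𝔼 s' : Seed P, (if sdet s s' = 0 then 4 * p ^ 2 else 0) ≤
      8 * p ^ 2 / P := by
    rw [← expect_product' univ univ (fun s s' : Seed P => if sdet s s' = 0 then 4 * p ^ 2 else 0),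
      univ_product_univ, Fintype.expect_eq_sum_div_card, ← Finset.sum_filter, Finset.sum_const,
      nsmul_eq_mul]
    have h1 : ((univ.filter fun q : Seed P × Seed P => sdet q.1 q.2 = 0).card : ℝ) ≤
        2 * (P : ℝ) ^ 5 := by exact_mod_cast card_sdet P
    have h2 : (Fintype.card (Seed P × Seed P) : ℝ) = (P : ℝ) ^ 6 := by
      simp only [Fintype.card_prod, ZMod.card]
      push_cast
      ring
    rw [h2, div_le_div_iff₀ (pow_pos hP 6) hP]
    have h3 : (0 : ℝ) ≤ 4 * p ^ 2 * P := by positivity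
    have h4 := mul_le_mul_of_nonneg_right h1 h3
    calc _ = ((univ.filter fun q : Seed P × Seed P => sdet q.1 q.2 = 0).card : ℝ) *
          (4 * p ^ 2 * P) := by ring
      _ ≤ 2 * (P : ℝ) ^ 5 * (4 * p ^ 2 * P) := h4
      _ = 8 * p ^ 2 * (P : ℝ) ^ 6 := by ring
  have hfin : 𝔼 s : Seed P, 𝔼 s' : Seed P, T s s' ≤ 𝔼 s : Seed P, 𝔼 s' : Seed P,
      (p ^ 2 / P + if sdet s s' = 0 then 4 * p ^ 2 else 0) :=
    expect_le_expect fun s _ => expect_le_expect fun s' _ => hall s s'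
  refine hfin.trans ?_
  simp only [expect_add_distrib, Fintype.expect_const]
  calc _ ≤ p ^ 2 / P + 8 * p ^ 2 / P := add_le_add le_rfl hsum
    _ = 9 * p ^ 2 / P := by ring

end Pool.Agent.Lib.MP_634427_lc.Maj
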