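import Pool.Agent.Lib.MP_634427_lc.Maj.Check
import Pool.Agent.Lib.MP_634427_lc.Maj.BridgeB

/-!
# The local means and the means over a list, in terms of the answers

`net_flatMap`, `sum_kids`, `normN_eq`.
-/

namespace Pool.Agent.Lib.MP_634427_lc.Maj

open Pool.Agent.Lib.MP_634427_lc

/-- `φ` for the answers of the reduction. -/
noncomputable def phiN (f : Word → SB) (x : Word) (P m : ℕ) (n : ℕ) (D : Itm P m n)
    (b : List Word) : ℝ := net (f (quest x P (itmL D))) b

theorem loc_phiN (f : Word → SB) (x : Word) (P m n : ℕ) [NeZero P] (a : Node) (b : List Word) :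
    loc (phiN f x P m (n + 1)) (itmC P m n a.1.1) (parC P m n a.1.2) b =
      net (kidsV f x P m n a) b / ((P ^ 4 : ℕ) : ℝ) := by
  unfold loc kidsV
  rw [net_flatMap, sum_kids P m n a.1.1 a.1.2 (fun D => net (f (quest x P D)) b)]
  push_cast
  rfl

theorem mean_phiN (f : Word → SB) (x : Word) (P m n : ℕ) [NeZero P] (Y : List Node) (b : List Word)
    {M : ℕ} (hY : Y.length = M) :
    ∑ l : Fin M, phiN f x P m n (itmC P m n (Y.getD l.val (([], (([], []), [])), [])).1.1) b =
      net (listV f x P m n Y) b := by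
  subst hY
  unfold listV
  rw [net_flatMap, ← List.sum_ofFn]
  refine congrArg List.sum (List.ext_getElem (by simp) fun i h1 h2 => ?_)
  have h3 : i < Y.length := by simpa using h1
  rw [List.getElem_ofFn, List.getElem_map, List.getD_eq_getElem Y _ h3, normN_eq]
  rfl

end Pool.Agent.Lib.MP_634427_lc.Maj
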