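import Pool.Agent.Lib.MP_634427_lc.Maj.LtIso

/-!
# Isotropic position with an integer matrix

Proof. Take `t`, `T0` of `iso_real` and put `T r k = round (2 ^ L * T0 r k)`, `e = K - t`,
`K = ltK p b c`, `L = ltL p b`, `U = 2 ^ (K + L)`. With `Psi = lpsi T (e g j) (a g) j` and
`psi r = 2 ^ (- t g j) * ∑ k, T0 r k * v k` (`v = ltv (a g) j`, `|v k| ≤ 2 ^ (b + 2)`) we have
`|Psi r / U - psi r| ≤ 2 ^ (- t) * p * 2 ^ (b + 2) / 2 ^ L =: rho ≤ 1 / (40 * p ^ 2)`, since
`40 * p ^ 3 * 2 ^ (b + 2) ≤ 2 ^ L`. So the length of `Psi / U` is at most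
`2 * p + √p * rho ≤ 3 * p`, and `|Psi r * Psi s / U ^ 2 - psi r * psi s| ≤ 2 * (2 * p) * rho +
rho ^ 2 ≤ 5 * p * rho ≤ 1 / (8 * p)` because `|psi r| ≤ 2 * p`.
-/

namespace Pool.Agent.Lib.MP_634427_lc.Maj

private lemma rnd_eps {p : ℕ} (hp : 0 < p) (b : ℕ) :
    (p : ℝ) * (2 ^ (b + 2) / 2 ^ ltL p b) ≤ 1 / (40 * p ^ 2) := by
  have hp' : (0 : ℝ) < p := by exact_mod_cast hp
  have h1 : (p : ℝ) ^ 3 ≤ 2 ^ (3 * p) := by
    have h : (p : ℝ) ≤ 2 ^ p := by exact_mod_cast (Nat.lt_two_pow_self (n := p)).le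
    calc (p : ℝ) ^ 3 ≤ (2 ^ p) ^ 3 := by gcongr
      _ = 2 ^ (3 * p) := by rw [← pow_mul, mul_comm]
  have h2 : (2 : ℝ) ^ ltL p b = 2 ^ b * 2 ^ (3 * p) * 256 := by
    rw [ltL, pow_add, pow_add]
    norm_num
  rw [h2, le_div_iff₀ (by positivity), pow_add]
  have h3 : (p : ℝ) * (2 ^ b * 2 ^ 2 / (2 ^ b * 2 ^ (3 * p) * 256)) * (40 * p ^ 2) =
      p ^ 3 / 2 ^ (3 * p) * (5 / 8) := by
    field_simp
    norm_num
  rw [h3]
  have h4 : (p : ℝ) ^ 3 / 2 ^ (3 * p) ≤ 1 := by
    rw [div_le_one (by positivity)]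
    exact h1
  linarith

private lemma rnd_abs_ltv {p b : ℕ} {a : Fin p → ℤ} (ha : ∀ k, |a k| ≤ 2 ^ b) (j k : Fin p) :
    |(ltv a j k : ℝ)| ≤ 2 ^ (b + 2) := by
  have h1 : |ltv a j k| ≤ 2 ^ (b + 2) := by
    have h2 := abs_le.1 (ha k)
    have h3 : (1 : ℤ) ≤ 2 ^ b := one_le_pow₀ (by norm_num)
    rw [abs_le, pow_add]
    unfold ltv
    split_ifs <;> constructor <;> linarith [h2.1, h2.2]
  exact_mod_cast h1

/-- The rounded vector is near the real one. -/
private lemma rnd_close {p b : ℕ} (hp : 0 < p) (T0 : Matrix (Fin p) (Fin p) ℝ) {a : Fin p → ℤ}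
    (ha : ∀ k, |a k| ≤ 2 ^ b) {K t : ℕ} (ht : t ≤ K) (j r : Fin p) :
    |(lpsi (fun r k => round (2 ^ ltL p b * T0 r k)) (K - t) a j r : ℝ) / 2 ^ (K + ltL p b) -
      ((2 : ℝ) ^ t)⁻¹ * ∑ k, T0 r k * (ltv a j k : ℝ)| ≤ 1 / (40 * p ^ 2) := by
  set L := ltL p b with hL
  have h1 : (lpsi (fun r k => round (2 ^ L * T0 r k)) (K - t) a j r : ℝ) / 2 ^ (K + L) =
      ∑ k, (round (2 ^ L * T0 r k) : ℝ) / 2 ^ L * (((2 : ℝ) ^ t)⁻¹ * (ltv a j k : ℝ)) := by
    unfold lpsi
    push_cast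
    rw [Finset.mul_sum, Finset.sum_div]
    refine Finset.sum_congr rfl fun s _ => ?_
    have h2 : (2 : ℝ) ^ (K + L) = 2 ^ (K - t) * 2 ^ t * 2 ^ L := by
      rw [← pow_add, ← pow_add, Nat.sub_add_cancel ht]
    rw [h2]
    field_simp
  have h2 : ((2 : ℝ) ^ t)⁻¹ * ∑ k, T0 r k * (ltv a j k : ℝ) =
      ∑ k, T0 r k * (((2 : ℝ) ^ t)⁻¹ * (ltv a j k : ℝ)) := by
    rw [Finset.mul_sum]
    refine Finset.sum_congr rfl fun k _ => ?_
    ring
  rw [h1, h2, ← Finset.sum_sub_distrib]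
  refine (Finset.abs_sum_le_sum_abs _ _).trans (le_trans ?_ (rnd_eps hp b))
  have h3 : ∀ k ∈ (Finset.univ : Finset (Fin p)),
      |(round (2 ^ L * T0 r k) : ℝ) / 2 ^ L * (((2 : ℝ) ^ t)⁻¹ * (ltv a j k : ℝ)) -
        T0 r k * (((2 : ℝ) ^ t)⁻¹ * (ltv a j k : ℝ))| ≤ 2 ^ (b + 2) / 2 ^ L := by
    intro k _
    rw [← sub_mul, abs_mul]
    have h4 : |(round (2 ^ L * T0 r k) : ℝ) / 2 ^ L - T0 r k| ≤ 1 / 2 ^ L := by
      have h5 : (round (2 ^ L * T0 r k) : ℝ) / 2 ^ L - T0 r k =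
          ((round (2 ^ L * T0 r k) : ℝ) - 2 ^ L * T0 r k) / 2 ^ L := by
        field_simp
      rw [h5, abs_div, abs_of_pos (by positivity : (0 : ℝ) < 2 ^ L), abs_sub_comm]
      have h6 := abs_sub_round (2 ^ L * T0 r k)
      gcongr
      linarith
    have h7 : |((2 : ℝ) ^ t)⁻¹ * (ltv a j k : ℝ)| ≤ 2 ^ (b + 2) := by
      rw [abs_mul, abs_of_nonneg (by positivity)]
      calc ((2 : ℝ) ^ t)⁻¹ * |(ltv a j k : ℝ)| ≤ 1 * |(ltv a j k : ℝ)| :=
            mul_le_mul_of_nonneg_right (inv_le_one_of_one_le₀ (one_le_pow₀ (by norm_num)))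
              (abs_nonneg _)
        _ ≤ _ := by rw [one_mul]; exact rnd_abs_ltv ha j k
    calc _ ≤ 1 / 2 ^ L * 2 ^ (b + 2) := mul_le_mul h4 h7 (abs_nonneg _) (by positivity)
      _ = 2 ^ (b + 2) / 2 ^ L := by ring
  have h9 := Finset.sum_le_card_nsmul _ _ _ h3
  rwa [Finset.card_univ, Fintype.card_fin, nsmul_eq_mul] at h9

/-- Isotropic position with an integer matrix. -/
theorem iso_int {G : Type} [Fintype G] [Nonempty G] {p b c : ℕ} (hp : 0 < p)
    (a : G → Fin p → ℤ) (ha : ∀ g k, |a g k| ≤ 2 ^ b) (hc : Fintype.card G ≤ 2 ^ c) :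
    ∃ (e : G → Fin p → ℕ) (T : Fin p → Fin p → ℤ), (∀ g j, e g j ≤ ltK p b c) ∧
      (∀ r s, |T r s| ≤ 2 ^ (ltK p b c + ltL p b)) ∧
      (∀ g j, ∑ r, lpsi T (e g j) (a g) j r ^ 2 ≤
        9 * (p : ℤ) ^ 2 * (2 ^ (ltK p b c + ltL p b)) ^ 2) ∧
      ∀ r s, 8 * (p : ℤ) * |(∑ g, ∑ j, lpsi T (e g j) (a g) j r * lpsi T (e g j) (a g) j s) -
        (if r = s then (Fintype.card G : ℤ) * p * (2 ^ (ltK p b c + ltL p b)) ^ 2 else 0)| ≤
          (Fintype.card G : ℤ) * p * (2 ^ (ltK p b c + ltL p b)) ^ 2 := by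
  have hp' : (0 : ℝ) < p := by exact_mod_cast hp
  have hp1 : (1 : ℝ) ≤ p := by exact_mod_cast hp
  obtain ⟨t, T0, ht, hT, hx, hm⟩ := iso_real hp a ha hc
  set K := ltK p b c with hK
  set L := ltL p b with hL
  set U : ℝ := 2 ^ (K + L) with hU
  have hU0 : 0 < U := by positivity
  set T : Fin p → Fin p → ℤ := fun r k => round (2 ^ L * T0 r k) with hTdef
  set x : G → Fin p → Fin p → ℝ := fun g j r =>
    ((2 : ℝ) ^ t g j)⁻¹ * ∑ k, T0 r k * (ltv (a g) j k : ℝ) with hxdef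
  set y : G → Fin p → Fin p → ℝ := fun g j r =>
    (lpsi T (K - t g j) (a g) j r : ℝ) / U with hydef
  have hcl : ∀ g j r, |y g j r - x g j r| ≤ 1 / (40 * p ^ 2) := fun g j r =>
    rnd_close hp T0 (ha g) (ht g j) j r
  have hy : ∀ g j r, (lpsi T (K - t g j) (a g) j r : ℝ) = U * y g j r := fun g j r => by
    rw [hydef]
    field_simp
  have hx2 : ∀ g j, ∑ r, x g j r ^ 2 ≤ 4 * p ^ 2 := hx
  have hm2 : ∀ r s, ∑ g, ∑ j, x g j r * x g j s = if r = s then (Fintype.card G : ℝ) * p else 0 :=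
    hm
  have hxle : ∀ g j r, |x g j r| ≤ 2 * p := by
    intro g j r
    apply abs_le_of_sq_le_sq _ (by positivity)
    have h1 := Finset.single_le_sum (f := fun r => x g j r ^ 2) (fun r _ => sq_nonneg _)
      (Finset.mem_univ r)
    have h2 := hx2 g j
    nlinarith
  have hrho : (1 : ℝ) / (40 * p ^ 2) ≤ 1 / 40 := by
    apply one_div_le_one_div_of_le (by norm_num)
    nlinarith
  have hrho0 : (0 : ℝ) < 1 / (40 * p ^ 2) := by positivity
  refine ⟨fun g j => K - t g j, T, fun g j => Nat.sub_le _ _, ?_, ?_, ?_⟩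
  · intro r s
    have h1 := abs_sub_round (2 ^ L * T0 r s)
    have h2 : |2 ^ L * T0 r s| ≤ 2 ^ L * 2 ^ K := by
      rw [abs_mul, abs_of_pos (by positivity : (0 : ℝ) < 2 ^ L)]
      exact mul_le_mul_of_nonneg_left (hT r s) (by positivity)
    have h3 : |(T r s : ℝ)| ≤ 2 ^ (K + L) + 1 / 2 := by
      have h4 := abs_add_le (-(2 ^ L * T0 r s - round (2 ^ L * T0 r s))) (2 ^ L * T0 r s)
      rw [neg_sub, sub_add_cancel, abs_sub_comm] at h4
      have h5 : (2 : ℝ) ^ (K + L) = 2 ^ L * 2 ^ K := by rw [pow_add, mul_comm]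
      rw [h5]
      linarith
    have h6 : |(T r s : ℝ)| < 2 ^ (K + L) + 1 := by linarith
    have h7 : |T r s| < 2 ^ (K + L) + 1 := by exact_mod_cast h6
    omega
  · intro g j
    have h1 : ∑ r, y g j r ^ 2 ≤ 9 * p ^ 2 := by
      have h2 : ∀ r ∈ (Finset.univ : Finset (Fin p)),
          y g j r ^ 2 ≤ 2 * x g j r ^ 2 + 2 * (1 / 40) * (1 / 40) := by
        intro r _
        have h3 := (hcl g j r).trans hrho
        have h4 : (y g j r - x g j r) ^ 2 ≤ (1 / 40) * (1 / 40) := by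
          rw [← sq_abs, sq]
          exact mul_le_mul h3 h3 (abs_nonneg _) (by norm_num)
        nlinarith [sq_nonneg (y g j r - 2 * x g j r)]
      refine (Finset.sum_le_sum h2).trans ?_
      rw [Finset.sum_add_distrib, ← Finset.mul_sum, Finset.sum_const, Finset.card_univ,
        Fintype.card_fin, nsmul_eq_mul]
      have h5 := hx2 g j
      nlinarith
    have h2 : ∑ r, (lpsi T (K - t g j) (a g) j r : ℝ) ^ 2 ≤ 9 * (p : ℝ) ^ 2 * U ^ 2 := by
      simp only [hy, mul_pow, ← Finset.mul_sum]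
      rw [mul_comm]
      exact mul_le_mul_of_nonneg_right h1 (sq_nonneg _)
    rw [hU] at h2
    exact_mod_cast h2
  · intro r s
    have h1 : |(∑ g, ∑ j, y g j r * y g j s) - if r = s then (Fintype.card G : ℝ) * p else 0| ≤
        Fintype.card G / 8 := by
      rw [← hm2 r s, ← Finset.sum_sub_distrib]
      have h2 : ∀ g ∈ (Finset.univ : Finset G),
          |(∑ j, y g j r * y g j s) - ∑ j, x g j r * x g j s| ≤ 1 / 8 := by
        intro g _
        rw [← Finset.sum_sub_distrib]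
        have h3 : ∀ j ∈ (Finset.univ : Finset (Fin p)),
            |y g j r * y g j s - x g j r * x g j s| ≤ 1 / (8 * p) := by
          intro j _
          have e1 : y g j r * y g j s - x g j r * x g j s =
              x g j r * (y g j s - x g j s) + (y g j r - x g j r) * x g j s +
                (y g j r - x g j r) * (y g j s - x g j s) := by ring
          rw [e1]
          have h4 := mul_le_mul (hxle g j r) (hcl g j s) (abs_nonneg _) (by positivity)
          have h5 := mul_le_mul (hcl g j r) (hxle g j s) (abs_nonneg _) hrho0.le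
          have h6 := mul_le_mul (hcl g j r) ((hcl g j s).trans hrho) (abs_nonneg _) hrho0.le
          rw [← abs_mul] at h4 h5 h6
          have h7 := abs_add_three (x g j r * (y g j s - x g j s))
            ((y g j r - x g j r) * x g j s) ((y g j r - x g j r) * (y g j s - x g j s))
          have h8 : 2 * (p : ℝ) * (1 / (40 * p ^ 2)) + 1 / (40 * p ^ 2) * (2 * p) +
              1 / (40 * p ^ 2) * (1 / 40) ≤ 1 / (8 * p) := by
            have h9 : 2 * (p : ℝ) * (1 / (40 * p ^ 2)) + 1 / (40 * p ^ 2) * (2 * p) +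
              1 / (40 * p ^ 2) * (1 / 40) = (1 / 10 + 1 / (1600 * p)) * (1 / p) := by
              field_simp
              ring
            have h10 : 1 / (8 * (p : ℝ)) = 1 / 8 * (1 / p) := by
              field_simp
            rw [h9, h10]
            apply mul_le_mul_of_nonneg_right _ (by positivity)
            have h11 : 1 / (1600 * (p : ℝ)) ≤ 1 / 1600 := by
              apply one_div_le_one_div_of_le (by norm_num)
              linarith
            linarith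
          linarith
        refine (Finset.abs_sum_le_sum_abs _ _).trans ?_
        have h9 := Finset.sum_le_card_nsmul _ _ _ h3
        rw [Finset.card_univ, Fintype.card_fin, nsmul_eq_mul] at h9
        refine h9.trans (le_of_eq ?_)
        field_simp
      refine (Finset.abs_sum_le_sum_abs _ _).trans ?_
      have h9 := Finset.sum_le_card_nsmul _ _ _ h2
      rw [Finset.card_univ, nsmul_eq_mul] at h9
      refine h9.trans (le_of_eq ?_)
      ring
    have h2 : 8 * (p : ℝ) * |(∑ g, ∑ j, (lpsi T (K - t g j) (a g) j r : ℝ) *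
        lpsi T (K - t g j) (a g) j s) - (if r = s then (Fintype.card G : ℝ) * p * U ^ 2 else 0)| ≤
          (Fintype.card G : ℝ) * p * U ^ 2 := by
      have h3 : (∑ g, ∑ j, (lpsi T (K - t g j) (a g) j r : ℝ) *
          lpsi T (K - t g j) (a g) j s) - (if r = s then (Fintype.card G : ℝ) * p * U ^ 2 else 0) =
          U ^ 2 * ((∑ g, ∑ j, y g j r * y g j s) -
            if r = s then (Fintype.card G : ℝ) * p else 0) := by
        rw [mul_sub, Finset.mul_sum]
        congr 1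
        · refine Finset.sum_congr rfl fun g _ => ?_
          rw [Finset.mul_sum]
          refine Finset.sum_congr rfl fun j _ => ?_
          rw [hy, hy]
          ring
        · split_ifs
          · ring
          · rw [mul_zero]
      rw [h3, abs_mul, abs_of_pos (by positivity : 0 < U ^ 2)]
      calc 8 * (p : ℝ) * (U ^ 2 * |(∑ g, ∑ j, y g j r * y g j s) -
            if r = s then (Fintype.card G : ℝ) * p else 0|) ≤
          8 * (p : ℝ) * (U ^ 2 * (Fintype.card G / 8)) := by gcongr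
        _ = _ := by ring
    rw [hU] at h2
    exact_mod_cast h2

end Pool.Agent.Lib.MP_634427_lc.Maj
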