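import Pool.Agent.Lib.MP_634427_lc.Maj.LtExistA
import Pool.Agent.Lib.MP_634427_lc.Maj.LtRound

/-!
# Existence of the lists, matrices and exponents of the weighted version

Proof. For `n + 1 ≤ m + 2` take `T`, `e` of `iso_int` for all items of level `n + 1`. Apply the
existence theorem for lists to `B = univ : Finset (Fin p ⊕ (Fin p × Fin p))` and
`φ (n + 1) E (inl r) = (∑ j, Psi_r) / (p * U)`, `φ (n + 1) E (inr (r, s)) =
(∑ j, Psi_r * Psi_s) / (p * U ^ 2)` (with bound `(10 * p ^ 2) ^ 2` for the sum of the squares: by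
Jensen it is `≤ (3 * p) ^ 2 + (3 * p) ^ 4 ≤ (10 * p ^ 2) ^ 2`), `δ = 1 / (16 * p ^ 2)`.
-/

namespace Pool.Agent.Lib.MP_634427_lc.Maj

open Finset
open scoped BigOperators

section stat

variable {P m p : ℕ}

/-- The statistics of the items of a level. -/
private noncomputable def ltStat {n : ℕ} (a : Itm P m n → Fin p → ℤ) (U : ℤ)
    (T : Fin p → Fin p → ℤ) (e : Itm P m n → Fin p → ℕ) (E : Itm P m n) :
    Fin p ⊕ (Fin p × Fin p) → ℝ
  | .inl r => ((∑ j, lpsi T (e E j) (a E) j r : ℤ) : ℝ) / (p * U)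
  | .inr q => ((∑ j, lpsi T (e E j) (a E) j q.1 * lpsi T (e E j) (a E) j q.2 : ℤ) : ℝ) /
      (p * (U : ℝ) ^ 2)

/-- The statistics of all levels. -/
private noncomputable def ltPhi (a : ∀ n, Itm P m n → Fin p → ℤ) (U : ℤ)
    (T : ℕ → Fin p → Fin p → ℤ) (e : ∀ n, Itm P m (n + 1) → Fin p → ℕ) :
    ∀ n, Itm P m n → Fin p ⊕ (Fin p × Fin p) → ℝ
  | 0 => fun _ _ => 0
  | n + 1 => ltStat (a (n + 1)) U (T n) (e n)

private theorem lt_jensen (hp : 0 < p) (x : Fin p → ℝ) :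
    ((∑ j, x j) / p) ^ 2 ≤ (∑ j, x j ^ 2) / p := by
  have hp' : (0 : ℝ) < p := by exact_mod_cast hp
  have h1 := sq_sum_le_card_mul_sum_sq (s := (univ : Finset (Fin p))) (f := x)
  rw [Finset.card_univ, Fintype.card_fin] at h1
  rw [div_pow, div_le_div_iff₀ (by positivity) hp']
  nlinarith

private theorem lt_bound (hp : 0 < p) (y : Fin p → Fin p → ℝ)
    (hy : ∀ j, ∑ r, y j r ^ 2 ≤ 9 * (p : ℝ) ^ 2) :
    ∑ r, ((∑ j, y j r) / p) ^ 2 + ∑ q : Fin p × Fin p, ((∑ j, y j q.1 * y j q.2) / p) ^ 2 ≤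
      (10 * (p : ℝ) ^ 2) ^ 2 := by
  have hp' : (0 : ℝ) < p := by exact_mod_cast hp
  have hp1 : (1 : ℝ) ≤ p := by exact_mod_cast hp
  have h1 : ∑ r, ((∑ j, y j r) / p) ^ 2 ≤ 9 * (p : ℝ) ^ 2 := by
    calc ∑ r, ((∑ j, y j r) / p) ^ 2 ≤ ∑ r, (∑ j, y j r ^ 2) / p :=
          Finset.sum_le_sum fun r _ => lt_jensen hp fun j => y j r
      _ = (∑ j, ∑ r, y j r ^ 2) / p := by rw [← Finset.sum_div, Finset.sum_comm]
      _ ≤ (∑ _j : Fin p, 9 * (p : ℝ) ^ 2) / p :=
          div_le_div_of_nonneg_right (Finset.sum_le_sum fun j _ => hy j) hp'.le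
      _ = 9 * (p : ℝ) ^ 2 := by
          rw [Finset.sum_const, Finset.card_univ, Fintype.card_fin, nsmul_eq_mul]
          field_simp
  have h2 : ∑ q : Fin p × Fin p, ((∑ j, y j q.1 * y j q.2) / p) ^ 2 ≤
      (9 * (p : ℝ) ^ 2) ^ 2 := by
    calc ∑ q : Fin p × Fin p, ((∑ j, y j q.1 * y j q.2) / p) ^ 2 ≤
          ∑ q : Fin p × Fin p, (∑ j, (y j q.1 * y j q.2) ^ 2) / p :=
          Finset.sum_le_sum fun q _ => lt_jensen hp fun j => y j q.1 * y j q.2
      _ = (∑ j, (∑ r, y j r ^ 2) ^ 2) / p := by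
          rw [← Finset.sum_div, Finset.sum_comm]
          congr 1
          refine Finset.sum_congr rfl fun j _ => ?_
          rw [pow_two (∑ r, y j r ^ 2), Finset.sum_mul_sum, ← Finset.univ_product_univ,
            Finset.sum_product]
          refine Finset.sum_congr rfl fun r _ => Finset.sum_congr rfl fun s _ => ?_
          ring
      _ ≤ (∑ _j : Fin p, (9 * (p : ℝ) ^ 2) ^ 2) / p :=
          div_le_div_of_nonneg_right (Finset.sum_le_sum fun j _ =>
            pow_le_pow_left₀ (Finset.sum_nonneg fun r _ => sq_nonneg _) (hy j) 2) hp'.le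
      _ = (9 * (p : ℝ) ^ 2) ^ 2 := by
          rw [Finset.sum_const, Finset.card_univ, Fintype.card_fin, nsmul_eq_mul]
          field_simp
  have h3 : (p : ℝ) ^ 2 ≤ (p : ℝ) ^ 4 := pow_le_pow_right₀ hp1 (by norm_num)
  nlinarith

private theorem ltStat_bound (hp : 0 < p) {n : ℕ} (a : Itm P m n → Fin p → ℤ) {U : ℤ}
    (hU : 0 < U) (T : Fin p → Fin p → ℤ) (e : Itm P m n → Fin p → ℕ) (E : Itm P m n)
    (h : ∀ j, ∑ r, lpsi T (e E j) (a E) j r ^ 2 ≤ 9 * (p : ℤ) ^ 2 * U ^ 2) :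
    ∑ b, ltStat a U T e E b ^ 2 ≤ (10 * (p : ℝ) ^ 2) ^ 2 := by
  have hp' : (0 : ℝ) < p := by exact_mod_cast hp
  have hU' : (0 : ℝ) < U := by exact_mod_cast hU
  have h1 := lt_bound hp (fun j r => (lpsi T (e E j) (a E) j r : ℝ) / U) fun j => by
    have h2 : ((∑ r, lpsi T (e E j) (a E) j r ^ 2 : ℤ) : ℝ) ≤
        ((9 * (p : ℤ) ^ 2 * U ^ 2 : ℤ) : ℝ) := Int.cast_le.2 (h j)
    push_cast at h2
    simp only [div_pow]
    rw [← Finset.sum_div, div_le_iff₀ (by positivity)]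
    exact h2
  rw [Fintype.sum_sum_type]
  refine le_trans (le_of_eq ?_) h1
  congr 1
  · refine Finset.sum_congr rfl fun r _ => ?_
    congr 1
    unfold ltStat
    push_cast
    rw [← Finset.sum_div]
    field_simp
  · refine Finset.sum_congr rfl fun q _ => ?_
    congr 1
    unfold ltStat
    push_cast
    have h3 : ∀ j, (lpsi T (e E j) (a E) j q.1 : ℝ) / U * ((lpsi T (e E j) (a E) j q.2 : ℝ) / U) =
        (lpsi T (e E j) (a E) j q.1 : ℝ) * (lpsi T (e E j) (a E) j q.2 : ℝ) / (U : ℝ) ^ 2 := by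
      intro j
      field_simp
    simp only [h3]
    rw [← Finset.sum_div]
    field_simp

end stat

/-- Existence of the certificate of the weighted version, in the language of items. -/
theorem lt_exist {P m p b c : ℕ} [Fact P.Prime] (hp : 0 < p) (a : ∀ n, Itm P m n → Fin p → ℤ)
    (ha : ∀ n D k, |a n D k| ≤ 2 ^ b) (hc : ∀ n ≤ m + 2, Fintype.card (Itm P m n) ≤ 2 ^ c)
    (M : ℕ) (hM : 409600 * p ^ 8 ≤ M) (hP : 4 * M * (921600 * p ^ 8 + 1) ≤ P) :
    ∃ (Y : ∀ n, Fin M → Itm P m n) (π : ∀ n, Fin M → Par P m n)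
      (T : ℕ → Fin p → Fin p → ℤ) (ec : ℕ → Fin M → Seed P → ZMod P → Fin p → ℕ)
      (ey : ℕ → Fin M → Fin p → ℕ),
      (∀ n < m + 2, (∀ r s, |T n r s| ≤ 2 ^ (ltK p b c + ltL p b)) ∧
        (∀ l j, ey n l j ≤ ltK p b c) ∧
        ∀ k, (∀ s x j, ec n k s x j ≤ ltK p b c) ∧
          LtC1 (a (n + 1)) (2 ^ (ltK p b c + ltL p b)) (T n) (Y n k) (π n k) (ec n k) ∧
          LtC2 (a (n + 1)) (2 ^ (ltK p b c + ltL p b)) (T n) (Y n k) (π n k) (ec n k) ∧
          LtC3 (a (n + 1)) (2 ^ (ltK p b c + ltL p b)) (T n) (Y n k) (π n k) (ec n k)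
            (Y (n + 1)) (ey n)) ∧
      ∀ k, ∃ y : Fin (m + 2) → ZMod P,
        ∑ i, y i • Y (m + 2) k i = ((0 : Fin m → ZMod P), (1 : ZMod P)) := by
  classical
  have hPp : (0 : ℝ) < P := by
    exact_mod_cast (Fact.out : P.Prime).pos
  have hp' : (0 : ℝ) < p := by exact_mod_cast hp
  have hp1 : (1 : ℝ) ≤ p := by exact_mod_cast hp
  have hM0 : 0 < M := lt_of_lt_of_le (by positivity) hM
  have hMp : (0 : ℝ) < M := by exact_mod_cast hM0
  set U : ℤ := 2 ^ (ltK p b c + ltL p b) with hUdef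
  have hU : 0 < U := by positivity
  have hU' : (0 : ℝ) < U := by exact_mod_cast hU
  -- isotropic position on every level
  have hiso : ∀ n, ∃ (e : Itm P m (n + 1) → Fin p → ℕ) (T : Fin p → Fin p → ℤ),
      (∀ g j, ∑ r, lpsi T (e g j) (a (n + 1) g) j r ^ 2 ≤ 9 * (p : ℤ) ^ 2 * U ^ 2) ∧
      (n < m + 2 → (∀ g j, e g j ≤ ltK p b c) ∧ (∀ r s, |T r s| ≤ U) ∧
        ∀ r s, 8 * (p : ℤ) * |(∑ g, ∑ j, lpsi T (e g j) (a (n + 1) g) j r *
            lpsi T (e g j) (a (n + 1) g) j s) -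
          (if r = s then (Fintype.card (Itm P m (n + 1)) : ℤ) * p * U ^ 2 else 0)| ≤
            (Fintype.card (Itm P m (n + 1)) : ℤ) * p * U ^ 2) := by
    intro n
    by_cases hn : n < m + 2
    · obtain ⟨e, T, h1, h2, h3, h4⟩ := iso_int hp (a (n + 1)) (ha (n + 1))
        (hc (n + 1) (by omega))
      exact ⟨e, T, h3, fun _ => ⟨h1, h2, h4⟩⟩
    · refine ⟨fun _ _ => 0, fun _ _ => 0, fun g j => ?_, fun h => absurd h hn⟩
      have h0 : ∀ r, lpsi (fun _ _ => 0) 0 (a (n + 1) g) j r = 0 := fun r => by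
        unfold lpsi
        simp
      simp only [h0]
      have : (0 : ℤ) ≤ 9 * (p : ℤ) ^ 2 * U ^ 2 := by positivity
      simpa using this
  choose e T hb hiso using hiso
  set δ : ℝ := 1 / (16 * (p : ℝ) ^ 2) with hδ
  have hδ0 : 0 < δ := by positivity
  have hφ : ∀ n D, ∑ b ∈ (univ : Finset (Fin p ⊕ (Fin p × Fin p))),
      ltPhi a U T e n D b ^ 2 ≤ (10 * (p : ℝ) ^ 2) ^ 2 := by
    intro n D
    cases n with
    | zero =>
      have h0 : ∀ b, ltPhi a U T e 0 D b = 0 := fun b => rfl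
      simp only [h0]
      simp only [ne_eq, OfNat.ofNat_ne_zero, not_false_eq_true, zero_pow, Finset.sum_const_zero]
      positivity
    | succ n => exact ltStat_bound hp (a (n + 1)) hU (T n) (e n) D (hb n D)
  have hM' : 16 * (10 * (p : ℝ) ^ 2) ^ 2 / δ ^ 2 ≤ M := by
    have h1 : 16 * (10 * (p : ℝ) ^ 2) ^ 2 / δ ^ 2 = 409600 * (p : ℝ) ^ 8 := by
      rw [hδ]
      field_simp
      ring
    rw [h1]
    exact_mod_cast hM
  have hP' : 4 * M * (36 * (10 * (p : ℝ) ^ 2) ^ 2 / δ ^ 2 + 1) ≤ P := by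
    have h1 : 36 * (10 * (p : ℝ) ^ 2) ^ 2 / δ ^ 2 = 921600 * (p : ℝ) ^ 8 := by
      rw [hδ]
      field_simp
      ring
    rw [h1]
    exact_mod_cast hP
  obtain ⟨Y, π, hY, hE, hy⟩ := exist_lists_mean (P := P) (m := m) univ (ltPhi a U T e)
    (10 * (p : ℝ) ^ 2) δ M hφ hδ0 hM0 hM' hP'
  refine ⟨Y, π, T, fun n k s x j => e n (kid (Y n k) (π n k) s x) j,
    fun n l j => e n (Y (n + 1) l) j, fun n hn => ?_, hy⟩
  obtain ⟨h1, h2, h3⟩ := hiso n hn
  refine ⟨h2, fun l j => h1 _ _, fun k => ⟨fun s x j => h1 _ _, ?_, ?_, ?_⟩⟩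
  · intro s x j
    exact hb n _ j
  · -- second moments
    intro r r'
    have h4 := hE n hn k (.inr (r, r')) (Finset.mem_univ _)
    set S : ℤ := ∑ s : Seed P, ∑ x : ZMod P, ∑ j,
      lpsi (T n) (e n (kid (Y n k) (π n k) s x) j) (a (n + 1) (kid (Y n k) (π n k) s x)) j r *
      lpsi (T n) (e n (kid (Y n k) (π n k) s x) j) (a (n + 1) (kid (Y n k) (π n k) s x)) j r'
      with hS
    set G : ℤ := ∑ g : Itm P m (n + 1), ∑ j, lpsi (T n) (e n g j) (a (n + 1) g) j r *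
            lpsi (T n) (e n g j) (a (n + 1) g) j r' with hG
    have hN : (0 : ℝ) < Fintype.card (Itm P m (n + 1)) := by
      exact_mod_cast Fintype.card_pos
    have h5 : loc (ltPhi a U T e (n + 1)) (Y n k) (π n k) (.inr (r, r')) =
        (S : ℝ) / (p * (U : ℝ) ^ 2 * (P : ℝ) ^ 4) := by
      unfold loc
      rw [div_mul_eq_div_div, hS]
      congr 1
      rw [Int.cast_sum, Finset.sum_div]
      refine Finset.sum_congr rfl fun s _ => ?_
      rw [Int.cast_sum, Finset.sum_div]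
      exact Finset.sum_congr rfl fun x _ => rfl
    have h6 : 𝔼 E : Itm P m (n + 1), ltPhi a U T e (n + 1) E (.inr (r, r')) =
        (G : ℝ) / (p * (U : ℝ) ^ 2 * (Fintype.card (Itm P m (n + 1)) : ℝ)) := by
      rw [Fintype.expect_eq_sum_div_card, div_mul_eq_div_div, hG]
      congr 1
      rw [Int.cast_sum, Finset.sum_div]
      exact Finset.sum_congr rfl fun x _ => rfl
    have h7 : 8 * (p : ℝ) * |(G : ℝ) - (if r = r' then (Fintype.card (Itm P m (n + 1)) : ℝ) * p *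
        (U : ℝ) ^ 2 else 0)| ≤ (Fintype.card (Itm P m (n + 1)) : ℝ) * p * (U : ℝ) ^ 2 := by
      have h8 := h3 r r'
      rw [← hG] at h8
      exact_mod_cast h8
    rw [h5, h6] at h4
    set N : ℝ := (Fintype.card (Itm P m (n + 1)) : ℝ) with hNdef
    set ι : ℝ := if r = r' then 1 else 0 with hι
    have h8 : |(G : ℝ) / (p * (U : ℝ) ^ 2 * N) - ι| ≤ 1 / (8 * p) := by
      have h9 : (G : ℝ) / (p * (U : ℝ) ^ 2 * N) - ι = ((G : ℝ) - (if r = r' then N * p *
          (U : ℝ) ^ 2 else 0)) / (p * (U : ℝ) ^ 2 * N) := by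
        rw [hι]
        split_ifs
        · field_simp
        · simp
      rw [h9, abs_div, abs_of_pos (show 0 < (p : ℝ) * (U : ℝ) ^ 2 * N by positivity),
        div_le_div_iff₀ (by positivity) (by positivity)]
      linarith
    have h10 : |(S : ℝ) / (p * (U : ℝ) ^ 2 * (P : ℝ) ^ 4) - ι| ≤ 1 / (2 * p) := by
      have h11 : δ / 2 + 1 / (8 * (p : ℝ)) ≤ 1 / (2 * p) := by
        have h12 : δ / 2 ≤ 1 / (8 * (p : ℝ)) := by
          rw [hδ, div_div, div_le_div_iff₀ (by positivity) (by positivity)]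
          nlinarith
        have h13 : 1 / (8 * (p : ℝ)) + 1 / (8 * (p : ℝ)) ≤ 1 / (2 * p) := by
          rw [← two_mul, mul_one_div, div_le_div_iff₀ (by positivity) (by positivity)]
          linarith
        linarith
      refine le_trans ?_ h11
      refine (abs_sub_le _ ((G : ℝ) / (p * (U : ℝ) ^ 2 * N)) _).trans (add_le_add h4 h8)
    have h14 : |2 * (p : ℝ) * S - (if r = r' then 2 * (p : ℝ) * ((P : ℝ) ^ 4 * p *
        (U : ℝ) ^ 2) else 0)| ≤ (P : ℝ) ^ 4 * p * (U : ℝ) ^ 2 := by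
      have h15 : 2 * (p : ℝ) * S - (if r = r' then 2 * (p : ℝ) * ((P : ℝ) ^ 4 * p *
          (U : ℝ) ^ 2) else 0) = ((S : ℝ) / (p * (U : ℝ) ^ 2 * (P : ℝ) ^ 4) - ι) *
            (2 * p * (p * (U : ℝ) ^ 2 * (P : ℝ) ^ 4)) := by
        rw [hι]
        split_ifs
        · field_simp
        · rw [sub_zero, sub_zero]
          field_simp
      rw [h15, abs_mul, abs_of_pos (show 0 < 2 * (p : ℝ) * (p * (U : ℝ) ^ 2 * (P : ℝ) ^ 4) by
        positivity)]
      refine (mul_le_mul_of_nonneg_right h10 (by positivity)).trans (le_of_eq ?_)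
      field_simp
    exact_mod_cast h14
  · -- closeness to the next list
    intro r
    have h4 := hY n hn k (.inl r) (Finset.mem_univ _)
    set S : ℤ := ∑ s : Seed P, ∑ x : ZMod P, ∑ j,
      lpsi (T n) (e n (kid (Y n k) (π n k) s x) j) (a (n + 1) (kid (Y n k) (π n k) s x)) j r
      with hS
    set R : ℤ := ∑ l, ∑ j, lpsi (T n) (e n (Y (n + 1) l) j) (a (n + 1) (Y (n + 1) l)) j r with hR
    have h5 : loc (ltPhi a U T e (n + 1)) (Y n k) (π n k) (.inl r) =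
        (S : ℝ) / (p * (U : ℝ) * (P : ℝ) ^ 4) := by
      unfold loc
      rw [div_mul_eq_div_div, hS]
      congr 1
      rw [Int.cast_sum, Finset.sum_div]
      refine Finset.sum_congr rfl fun s _ => ?_
      rw [Int.cast_sum, Finset.sum_div]
      exact Finset.sum_congr rfl fun x _ => rfl
    have h6 : (∑ l, ltPhi a U T e (n + 1) (Y (n + 1) l) (.inl r)) / M =
        (R : ℝ) / (p * (U : ℝ) * M) := by
      rw [div_mul_eq_div_div, hR]
      congr 1
      rw [Int.cast_sum, Finset.sum_div]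
      exact Finset.sum_congr rfl fun x _ => rfl
    rw [h5, h6] at h4
    have h7 : 16 * (p : ℝ) ^ 2 * |(M : ℝ) * S - (P : ℝ) ^ 4 * R| ≤
        M * (P : ℝ) ^ 4 * p * U := by
      have h8 : (M : ℝ) * S - (P : ℝ) ^ 4 * R = ((S : ℝ) / (p * (U : ℝ) * (P : ℝ) ^ 4) -
          (R : ℝ) / (p * (U : ℝ) * M)) * (p * U * (P : ℝ) ^ 4 * M) := by
        field_simp
      rw [h8, abs_mul, abs_of_pos (show 0 < (p : ℝ) * U * (P : ℝ) ^ 4 * M by positivity)]
      have h9 := mul_le_mul_of_nonneg_right h4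
        (show 0 ≤ (p : ℝ) * U * (P : ℝ) ^ 4 * M by positivity)
      refine (mul_le_mul_of_nonneg_left h9 (by positivity)).trans (le_of_eq ?_)
      rw [hδ]
      field_simp
    exact_mod_cast h7

end Pool.Agent.Lib.MP_634427_lc.Maj
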