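import Pool.Agent.Lib.MP_634427_lc.Maj.LtBridge
import Pool.Agent.Lib.MP_634427_lc.Maj.LtExist
import Pool.Agent.Lib.MP_634427_lc.Maj.SizeNode

/-!
# Completeness of the weighted check

Apply `lt_exist` to `a n = aZ vt x P m p n` for `n ≤ m + 2` and `a n = 0` for larger `n`.
The certificate: level `n` is the pair of the matrix `T n` (for `n = m + 2` the empty matrix) and of
the list of the `M` nodes; a node is the item, its parameters, the coefficients of the combination
(for `n = m + 2` only), the exponents of the item (from the comparison of level `n - 1` with level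
`n`), the exponents of its children by position.
-/

namespace Pool.Agent.Lib.MP_634427_lc.Maj

open Pool.Agent.Lib.MP_634427_lc

/-- Bound for the size of a certificate. -/
def wlen (P m M p u : ℕ) : ℕ := (m + 3) * (p * (p * (2 * u + 4) + 1) +
  M * (nlen P m + p * (u + 1) + P ^ 4 * (p * (u + 1) + 1) + 3) + 2)

private theorem cw_getD {α : Type} {n : ℕ} (f : Fin n → α) (d : α) (i : Fin n) :
    (List.ofFn f).getD i.val d = f i := by
  rw [List.getD_eq_getElem _ _ (by rw [List.length_ofFn]; exact i.isLt), List.getElem_ofFn]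

private theorem cw_mr {α : Type} {n : ℕ} (f : ℕ → α) {i : ℕ} (hi : i < n) (d : α) :
    ((List.range n).map f).getD i d = f i := by
  rw [List.getD_eq_getElem _ _ (by rw [List.length_map, List.length_range]; exact hi),
    List.getElem_map, List.getElem_range]

private theorem cw_sz {α : Type} [Enc α] (B : ℕ) (l : List α) (h : ∀ a ∈ l, sz a ≤ B) :
    sz l ≤ l.length * (B + 1) := by
  induction l with
  | nil => simp
  | cons a l ih =>
    have h1 := h a List.mem_cons_self
    have h2 := ih fun b hb => h b (List.mem_cons_of_mem a hb)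
    rw [sz_cons, List.length_cons, Nat.succ_mul]
    omega

private theorem cw_szf {α : Type} [Enc α] (B n : ℕ) (f : Fin n → α) (h : ∀ i, sz (f i) ≤ B) :
    sz (List.ofFn f) ≤ n * (B + 1) := by
  have h1 := cw_sz B (List.ofFn f) (by
    intro a ha
    obtain ⟨i, rfl⟩ := (List.mem_ofFn' _ _).1 ha
    exact h i)
  rwa [List.length_ofFn] at h1

private theorem cw_word (t : ℕ) : ∀ n : ℕ, n < 2 ^ t → ∃ w : Word, w.length = t ∧ LT.bval w = n := by
  induction t with
  | zero =>
    intro n h
    rw [pow_zero] at h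
    exact ⟨[], rfl, by rw [LT.bval_nil]; omega⟩
  | succ t ih =>
    intro n h
    rw [pow_succ] at h
    obtain ⟨w, h1, h2⟩ := ih (n / 2) (by omega)
    refine ⟨decide (n % 2 = 1) :: w, by rw [List.length_cons, h1], ?_⟩
    rw [LT.bval_cons, h2]
    by_cases h3 : n % 2 = 1
    · simp only [h3, decide_true, LT.dg_true]
      omega
    · simp only [h3, decide_false, LT.dg_false]
      omega

private theorem cw_num {z : ℤ} {u : ℕ} (h : |z| ≤ 2 ^ u) :
    ∃ N : LT.Num, LT.nval N = z ∧ sz N ≤ 2 * u + 3 := by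
  have h1 : z.natAbs < 2 ^ (u + 1) := by
    have h2 : ((z.natAbs : ℕ) : ℤ) ≤ 2 ^ u := by rwa [Int.natCast_natAbs]
    have h3 : z.natAbs ≤ 2 ^ u := by exact_mod_cast h2
    have h4 := Nat.one_le_two_pow (n := u)
    rw [pow_succ]
    omega
  obtain ⟨w, h2, h3⟩ := cw_word _ _ h1
  have h4 := sz_word_le w
  rcases le_total 0 z with h5 | h5
  · refine ⟨(w, []), ?_, ?_⟩
    · show (LT.bval w : ℤ) - ((LT.bval [] : ℕ) : ℤ) = z
      rw [h3, LT.bval_nil]
      omega
    · rw [sz_pair, sz_lnil]
      omega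
  · refine ⟨([], w), ?_, ?_⟩
    · show ((LT.bval [] : ℕ) : ℤ) - (LT.bval w : ℤ) = z
      rw [h3, LT.bval_nil]
      omega
    · rw [sz_pair, sz_lnil]
      omega

private theorem cw_lt {a b N P : ℕ} (ha : a < N) (hb : b < P) : a * P + b < N * P := by
  calc a * P + b < a * P + P := Nat.add_lt_add_left hb _
    _ = (a + 1) * P := by ring
    _ ≤ N * P := Nat.mul_le_mul_right _ ha

private theorem cw_div {a b P : ℕ} (hb : b < P) : (a * P + b) / P = a := by
  rw [Nat.add_comm, Nat.add_mul_div_right _ _ (by omega), Nat.div_eq_of_lt hb, Nat.zero_add]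

private theorem cw_cast {P : ℕ} [NeZero P] (a : ℕ) (e : ZMod P) :
    ((a * P + e.val : ℕ) : ZMod P) = e := by
  push_cast
  rw [ZMod.natCast_self, mul_zero, zero_add, ZMod.natCast_zmod_val]

/-- The list of the exponents of the children. -/
private def cwE (P p : ℕ) (f : Seed P → ZMod P → Fin p → ℕ) : List (List ℕ) :=
  (List.range (P ^ 4)).map fun i => List.ofFn (f (((i / P / P / P : ℕ) : ZMod P),
    (((i / P / P : ℕ) : ZMod P), ((i / P : ℕ) : ZMod P))) ((i : ℕ) : ZMod P))

private theorem cw_expK {P p : ℕ} [NeZero P] (f : Seed P → ZMod P → Fin p → ℕ) :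
    expK P p (cwE P p f) = f := by
  funext s c j
  obtain ⟨t, t', g⟩ := s
  have ht := ZMod.val_lt t
  have ht' := ZMod.val_lt t'
  have hg := ZMod.val_lt g
  have hc := ZMod.val_lt c
  have hlt : sidx P t.val t'.val g.val * P + c.val < P ^ 4 := by
    have h1 := cw_lt (cw_lt (cw_lt ht ht') hg) hc
    have h2 : P * P * P * P = P ^ 4 := by ring
    rw [h2] at h1
    exact h1
  have e1 : (sidx P t.val t'.val g.val * P + c.val) / P = sidx P t.val t'.val g.val := cw_div hc
  have e2 : sidx P t.val t'.val g.val / P = t.val * P + t'.val := cw_div hg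
  have e3 : (t.val * P + t'.val) / P = t.val := cw_div ht'
  show ((cwE P p f).getD (sidx P t.val t'.val g.val * P + c.val) []).getD j.val 0 = f (t, (t', g)) c j
  unfold cwE
  rw [cw_mr _ hlt, cw_getD, e1, e2, e3, cw_cast, cw_cast]
  have e4 : ((sidx P t.val t'.val g.val : ℕ) : ZMod P) = g := cw_cast _ g
  rw [e4, ZMod.natCast_zmod_val]

private theorem cw_szE {P p : ℕ} (u : ℕ) (f : Seed P → ZMod P → Fin p → ℕ)
    (h : ∀ s c j, f s c j ≤ u) : sz (cwE P p f) ≤ P ^ 4 * (p * (u + 1) + 1) := by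
  have h1 := cw_sz (p * (u + 1)) (cwE P p f) (by
    intro a ha
    obtain ⟨i, -, rfl⟩ := List.mem_map.1 ha
    refine cw_szf u p _ fun j => ?_
    rw [sz_nat]
    exact h _ _ j)
  unfold cwE at h1 ⊢
  rwa [List.length_map, List.length_range] at h1

/-- If there is no witness and the parameters are large enough, a certificate passes the check. -/
theorem checkW_complete {vt : Word × Word → List LT.Num} {gap : (Word × (ℕ × ℕ)) × IL → Bool}
    {m P k0 M p u : Word → ℕ} (x : Word) (hprime : (P x).Prime) (hp : 0 < p x) (b c : ℕ)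
    (hv : ∀ n ≤ m x + 2, ∀ (D : Itm (P x) (m x) n) (k : Fin (p x)),
      |aZ vt x (P x) (m x) (p x) n D k| ≤ 2 ^ b)
    (hc : P x ^ ((m x + 1) * (m x + 2)) ≤ 2 ^ c)
    (hu : u x = ltK (p x) b c + ltL (p x) b)
    (hgap : ∀ D : IL, gap ((x, (P x, k0 x)), D) = true)
    (hM : 409600 * p x ^ 8 ≤ M x) (hP : 4 * M x * (921600 * p x ^ 8 + 1) ≤ P x) :
    ∃ Y : List WLev, sz Y ≤ wlen (P x) (m x) (M x) (p x) (u x) ∧
      checkW vt gap m P k0 M p u (x, Y) = true := by
  classical
  have : Fact (P x).Prime := ⟨hprime⟩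
  have : NeZero (P x) := ⟨hprime.ne_zero⟩
  obtain ⟨av, hav⟩ : ∃ av : ∀ n, Itm (P x) (m x) n → Fin (p x) → ℤ, av = fun n D k =>
    if n ≤ m x + 2 then aZ vt x (P x) (m x) (p x) n D k else 0 := ⟨_, rfl⟩
  have hav1 : ∀ n ≤ m x + 2, av n = aZ vt x (P x) (m x) (p x) n := by
    intro n hn
    rw [hav]
    funext D k
    exact if_pos hn
  have hav2 : ∀ n D k, |av n D k| ≤ 2 ^ b := by
    intro n D k
    by_cases hn : n ≤ m x + 2
    · rw [hav1 n hn]
      exact hv n hn D k
    · have h0 : av n D k = 0 := by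
        rw [hav]
        exact if_neg hn
      rw [h0, abs_zero]
      positivity
  have hcard : ∀ n ≤ m x + 2, Fintype.card (Itm (P x) (m x) n) ≤ 2 ^ c := by
    intro n hn
    have h1 : Fintype.card (Itm (P x) (m x) n) = P x ^ ((m x + 1) * n) := by
      rw [Fintype.card_fun, Fintype.card_prod, Fintype.card_fun, ZMod.card, Fintype.card_fin,
        Fintype.card_fin, ← pow_succ, ← pow_mul]
    rw [h1]
    exact (Nat.pow_le_pow_right hprime.pos (Nat.mul_le_mul_left _ hn)).trans hc
  obtain ⟨Y, π, T, ec, ey, h1, h2⟩ := lt_exist hp av hav2 hcard (M x) hM hP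
  rw [← hu] at h1
  have hKu : ltK (p x) b c ≤ u x := by omega
  have h3 : ∀ n k, ∃ y : Fin n → ZMod (P x), n = m x + 2 →
      ∑ i, y i • Y n k i = ((0 : Fin (m x) → ZMod (P x)), (1 : ZMod (P x))) := by
    intro n k
    by_cases hn : n = m x + 2
    · subst hn
      obtain ⟨y, hy⟩ := h2 k
      exact ⟨y, fun _ => hy⟩
    · exact ⟨0, fun h => absurd h hn⟩
  choose y hy using h3
  have hT : ∀ n, ∃ TL : List (List LT.Num), (n < m x + 2 → matZ (p x) TL = T n) ∧
      sz TL ≤ p x * (p x * (2 * u x + 4) + 1) := by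
    intro n
    by_cases hn : n < m x + 2
    · have h4 := (h1 n hn).1
      choose N hN using fun r s => cw_num (h4 r s)
      refine ⟨List.ofFn fun r => List.ofFn fun s => N r s, fun _ => ?_, ?_⟩
      · funext r s
        unfold matZ LT.entry
        rw [cw_getD (fun r => List.ofFn fun s => N r s), cw_getD]
        exact (hN r s).1
      · exact cw_szf _ _ _ fun r => cw_szf _ _ _ fun s => (hN r s).2
    · refine ⟨[], fun h => absurd h hn, ?_⟩
      rw [sz_lnil]
      exact Nat.zero_le _
  choose TL hTL hTs using hT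
  have hEY : ∀ n l, ∃ E : List ℕ, (∀ n', n = n' + 1 → n' < m x + 2 → expZ (p x) E = ey n' l) ∧
      sz E ≤ p x * (u x + 1) := by
    intro n l
    by_cases hn : n - 1 < m x + 2
    · refine ⟨List.ofFn (ey (n - 1) l), ?_, cw_szf _ _ _ fun j => ?_⟩
      · rintro n' rfl _
        funext j
        exact cw_getD _ 0 j
      · rw [sz_nat]
        exact ((h1 _ hn).2.1 l j).trans hKu
    · refine ⟨[], ?_, ?_⟩
      · rintro n' rfl h
        exact absurd h hn
      · rw [sz_lnil]
        exact Nat.zero_le _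
  choose EY hEY1 hEY2 using hEY
  have hEC : ∀ n k, ∃ E : List (List ℕ), (n < m x + 2 → expK (P x) (p x) E = ec n k) ∧
      sz E ≤ P x ^ 4 * (p x * (u x + 1) + 1) := by
    intro n k
    by_cases hn : n < m x + 2
    · exact ⟨cwE (P x) (p x) (ec n k), fun _ => cw_expK _,
        cw_szE _ _ fun s c j => (((h1 n hn).2.2 k).1 s c j).trans hKu⟩
    · refine ⟨[], fun h => absurd h hn, ?_⟩
      rw [sz_lnil]
      exact Nat.zero_le _
  choose EC hEC1 hEC2 using hEC
  obtain ⟨nd, hnd⟩ : ∃ nd : ℕ → Fin (M x) → WNode, ∀ n k, nd n k =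
    (((itmL (Y n k), parL (π n k)), List.ofFn fun i => (y n k i).val), (EY n k, EC n k)) :=
    ⟨_, fun _ _ => rfl⟩
  obtain ⟨Z, hZ⟩ : ∃ Z : List WLev, Z = List.ofFn fun n : Fin (m x + 3) =>
    ((TL n.val, List.ofFn fun k : Fin (M x) => nd n.val k) : WLev) := ⟨_, rfl⟩
  have hZ1 : ∀ n < m x + 3, Z.getD n ([], []) =
      (TL n, List.ofFn fun k : Fin (M x) => nd n k) := by
    intro n hn
    rw [hZ]
    exact cw_getD (fun n : Fin (m x + 3) =>
      ((TL n.val, List.ofFn fun k : Fin (M x) => nd n.val k) : WLev)) ([], [])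
      (⟨n, hn⟩ : Fin (m x + 3))
  refine ⟨Z, ?_, ?_⟩
  · have h4 : ∀ n : ℕ, n < m x + 3 → ∀ k, sz (nd n k) ≤
        nlen (P x) (m x) + p x * (u x + 1) + P x ^ 4 * (p x * (u x + 1) + 1) + 2 := by
      intro n hn k
      rw [hnd, sz_pair, sz_pair (EY n k)]
      have h5 := sz_node_le (Y n k) (π n k) (y n k) (by omega)
      have h6 := hEY2 n k
      have h7 := hEC2 n k
      omega
    rw [hZ]
    refine (cw_szf (p x * (p x * (2 * u x + 4) + 1) + M x * (nlen (P x) (m x) +
      p x * (u x + 1) + P x ^ 4 * (p x * (u x + 1) + 1) + 3) + 1) (m x + 3) _ fun n => ?_).trans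
      (le_of_eq ?_)
    · rw [sz_pair]
      have h5 := hTs n.val
      have h6 := cw_szf _ (M x) (fun k => nd n.val k) (h4 n.val n.isLt)
      exact Nat.add_le_add_right (Nat.add_le_add h5 h6) 1
    · rfl
  · have hdef : checkW vt gap m P k0 M p u (x, Z) =
        (((List.range (m x + 3)).all fun n => decide ((Z.getD n ([], [])).2.length = M x)) &&
        (((List.range (m x + 2)).all fun n => (Z.getD n ([], [])).2.all fun b =>
          nodeW vt gap x (P x) (m x) (k0 x) (M x) (p x) (u x) n (Z.getD n ([], [])).1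
            (famL vt x (P x) (m x) (n + 1) (Z.getD (n + 1) ([], [])).2) b) &&
        (Z.getD (m x + 2) ([], [])).2.all fun b =>
          botN (P x) (m x) (m x + 2) b.1.1.1 b.1.2)) := rfl
    rw [hdef, Bool.and_eq_true, Bool.and_eq_true]
    refine ⟨List.all_eq_true.2 fun n hn => ?_, List.all_eq_true.2 fun n hn => ?_, ?_⟩
    · refine decide_eq_true ?_
      rw [hZ1 n (List.mem_range.1 hn), List.length_ofFn]
    · have hn' : n < m x + 2 := List.mem_range.1 hn
      rw [hZ1 n (by omega), hZ1 (n + 1) (by omega)]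
      refine List.all_eq_true.2 fun a ha => ?_
      obtain ⟨k, rfl⟩ := (List.mem_ofFn' _ _).1 ha
      obtain ⟨-, h5, h6, h7⟩ := (h1 n hn').2.2 k
      rw [hav1 (n + 1) (by omega)] at h5 h6 h7
      have e1 : itmC (P x) (m x) n (nd n k).1.1.1 = Y n k := by rw [hnd]; exact itmC_itmL _
      have e2 : parC (P x) (m x) n (nd n k).1.1.2 = π n k := by rw [hnd]; exact parC_parL _
      have e3 : expK (P x) (p x) (nd n k).2.2 = ec n k := by rw [hnd]; exact hEC1 n k hn'
      have e4 : (fun l : Fin (M x) => itmC (P x) (m x) (n + 1)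
          ((List.ofFn fun k : Fin (M x) => nd (n + 1) k).getD l.val wnil).1.1.1) = Y (n + 1) := by
        funext l
        rw [cw_getD (fun k : Fin (M x) => nd (n + 1) k), hnd]
        exact itmC_itmL _
      have e5 : (fun l : Fin (M x) => expZ (p x)
          ((List.ofFn fun k : Fin (M x) => nd (n + 1) k).getD l.val wnil).2.1) = ey n := by
        funext l
        rw [cw_getD (fun k : Fin (M x) => nd (n + 1) k), hnd]
        exact hEY1 (n + 1) l n rfl hn'
      unfold nodeW
      rw [Bool.and_eq_true, Bool.and_eq_true, Bool.and_eq_true]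
      refine ⟨hgap _, c1_iff.2 ?_, c2_iff.2 ?_, (c3_iff (List.length_ofFn)).2 ?_⟩
      · show LtC1 _ _ (matZ (p x) (TL n)) _ _ _
        rw [e1, e2, e3, hTL n hn']
        exact h5
      · show LtC2 _ _ (matZ (p x) (TL n)) _ _ _
        rw [e1, e2, e3, hTL n hn']
        exact h6
      · show LtC3 _ _ (matZ (p x) (TL n)) _ _ _ _ _
        rw [e1, e2, e3, hTL n hn', e4, e5]
        exact h7
    · rw [hZ1 (m x + 2) (by omega)]
      refine List.all_eq_true.2 fun a ha => ?_
      obtain ⟨k, rfl⟩ := (List.mem_ofFn' _ _).1 ha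
      show botN (P x) (m x) (m x + 2) (nd (m x + 2) k).1.1.1 (nd (m x + 2) k).1.2 = true
      rw [hnd]
      exact botN_ofFn _ _ (hy (m x + 2) k rfl)

end Pool.Agent.Lib.MP_634427_lc.Maj
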