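import Pool.Agent.Lib.MP_634427_lc.Maj.Sound
import Pool.Agent.Lib.MP_634427_lc.Maj.LtStep

/-!
# Soundness of the weighted version, in the language of items

Proof. As in `sound`: every list contains an item with a solution in `A`. Step: let `Y n k` be such
an item. By the gap and `cover` at most an `ε ≤ 1 / (72 * p ^ 2)` part of the children is false. By
`LtC2` the quadratic form `mean ⟨x, Psi⟩ ^ 2` is at least `U ^ 2 * |x| ^ 2 / 2`, so `T` is invertible and
`w = Tᵀ x` with a real vector `x ≠ 0`; `⟨x, Psi⟩ = 2 ^ e * ⟨w, 2 * a + e_j⟩` is positive for true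
and negative for false items, and `|⟨x, Psi⟩| ≤ 3 * p * U * |x|` by `LtC1`. So the mean of `⟨x, Psi⟩`
over the children is `≥ U * |x| * (1 / (6 * p) - 6 * p * ε) ≥ U * |x| / (12 * p)`, and by `LtC3` the
mean over the list of the next level is positive.
-/

namespace Pool.Agent.Lib.MP_634427_lc.Maj

open Finset

/-- Few children are false. -/
theorem lt_bad {P m p k0 : ℕ} [Fact P.Prime] (u u' : Fin m → ZMod P)
    (A : Finset (Fin m → Bool)) (hg : k0 < A.card) (hk : 144 * p ^ 2 * P ≤ k0)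
    (hP : 144 * p ^ 2 * (m + 1) ^ 2 ≤ P) :
    72 * p ^ 2 * (Finset.univ.filter fun q : Seed P × ZMod P =>
      ∀ w ∈ A, ev (vec u u' q.1, q.2) w ≠ 0).card ≤ P ^ 4 := by
  have hP0 : 0 < P := (Fact.out : P.Prime).pos
  have hc := cover u u' A
  set B := Finset.univ.filter fun q : Seed P × ZMod P => ∀ w ∈ A, ev (vec u u' q.1, q.2) w ≠ 0
  have ht : 144 * p ^ 2 * P ≤ A.card := hk.trans hg.le
  have htP : 0 < A.card * P := Nat.mul_pos (by omega) hP0
  have h1 : 144 * p ^ 2 * (P ^ 2 + A.card * (m + 1) ^ 2) ≤ 2 * (A.card * P) := by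
    have e1 : 144 * p ^ 2 * P * P ≤ A.card * P := Nat.mul_le_mul_right _ ht
    have e2 : 144 * p ^ 2 * (m + 1) ^ 2 * A.card ≤ P * A.card := Nat.mul_le_mul_right _ hP
    calc 144 * p ^ 2 * (P ^ 2 + A.card * (m + 1) ^ 2)
        = 144 * p ^ 2 * P * P + 144 * p ^ 2 * (m + 1) ^ 2 * A.card := by ring
      _ ≤ A.card * P + P * A.card := Nat.add_le_add e1 e2
      _ = 2 * (A.card * P) := by ring
  have h2 : (A.card * P) * (144 * p ^ 2 * B.card) ≤ (A.card * P) * (2 * P ^ 4) := by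
    calc (A.card * P) * (144 * p ^ 2 * B.card)
        = 144 * p ^ 2 * (B.card * (A.card * P)) := by ring
      _ ≤ 144 * p ^ 2 * (P ^ 4 * (P ^ 2 + A.card * (m + 1) ^ 2)) :=
          Nat.mul_le_mul_left _ hc
      _ = P ^ 4 * (144 * p ^ 2 * (P ^ 2 + A.card * (m + 1) ^ 2)) := by ring
      _ ≤ P ^ 4 * (2 * (A.card * P)) := Nat.mul_le_mul_left _ h1
      _ = (A.card * P) * (2 * P ^ 4) := by ring
  have h3 := Nat.le_of_mul_le_mul_left h2 htP
  have h4 : 144 * p ^ 2 * B.card = 2 * (72 * p ^ 2 * B.card) := by ring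
  omega

/-- The sign of the functional at the vectors of an item, positive case. -/
theorem lt_pos {p : ℕ} {w : Fin p → ℤ} (hw : ∀ k, |w k| ≤ 1) {a : Fin p → ℤ}
    (h : 0 < ∑ k, w k * a k) (j : Fin p) : 0 < ∑ k, w k * ltv a j k := by
  have h1 : ∑ k, w k * ltv a j k = 2 * (∑ k, w k * a k) + w j := by
    unfold ltv
    simp only [mul_add, Finset.sum_add_distrib, mul_ite, mul_one, mul_zero,
      Finset.sum_ite_eq', Finset.mem_univ, if_true]
    rw [Finset.mul_sum]
    congr 1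
    refine Finset.sum_congr rfl fun k _ => ?_
    ring
  have h2 := (abs_le.1 (hw j)).1
  rw [h1]
  omega

/-- The sign of the functional at the vectors of an item, negative case. -/
theorem lt_neg {p : ℕ} {w : Fin p → ℤ} (hw : ∀ k, |w k| ≤ 1) {a : Fin p → ℤ}
    (h : ∑ k, w k * a k < 0) (j : Fin p) : ∑ k, w k * ltv a j k < 0 := by
  have h1 : 0 < ∑ k, (-w k) * a k := by
    have : ∑ k, (-w k) * a k = -∑ k, w k * a k := by
      rw [← Finset.sum_neg_distrib]
      exact Finset.sum_congr rfl fun k _ => by ring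
    rw [this]
    omega
  have h2 := lt_pos (w := fun k => -w k) (fun k => by rw [abs_neg]; exact hw k) h1 j
  have h3 : ∑ k, (-w k) * ltv a j k = -∑ k, w k * ltv a j k := by
    rw [← Finset.sum_neg_distrib]
    exact Finset.sum_congr rfl fun k _ => by ring
  rw [h3] at h2
  omega

/-- If the lists pass all tests of the weighted version then there is no witness. -/
theorem lt_sound {P m p : ℕ} [Fact P.Prime] (hp : 0 < p) (A : Finset (Fin m → Bool))
    (a : ∀ n, Itm P m n → Fin p → ℤ) (w : Fin p → ℤ) (hw : ∀ k, |w k| ≤ 1)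
    (h1 : ∀ n ≤ m + 2, ∀ D : Itm P m n, (∃ x ∈ A, Sat D x) → 0 < ∑ k, w k * a n D k)
    (h2 : ∀ n ≤ m + 2, ∀ D : Itm P m n, (¬ ∃ x ∈ A, Sat D x) → ∑ k, w k * a n D k < 0)
    (M k0 : ℕ) (U : ℤ) (hM : 0 < M) (hU : 0 < U)
    (hk : 144 * p ^ 2 * P ≤ k0) (hP : 144 * p ^ 2 * (m + 1) ^ 2 ≤ P)
    (Y : ∀ n, Fin M → Itm P m n) (π : ∀ n, Fin M → Par P m n)
    (T : ℕ → Fin p → Fin p → ℤ) (ec : ℕ → Fin M → Seed P → ZMod P → Fin p → ℕ)
    (ey : ℕ → Fin M → Fin p → ℕ)
    (hgap : ∀ n < m + 2, ∀ k, (∃ x ∈ A, Sat (Y n k) x) →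
      k0 < (A.filter fun x => Sat (Y n k) x).card)
    (hc1 : ∀ n < m + 2, ∀ k, LtC1 (a (n + 1)) U (T n) (Y n k) (π n k) (ec n k))
    (hc2 : ∀ n < m + 2, ∀ k, LtC2 (a (n + 1)) U (T n) (Y n k) (π n k) (ec n k))
    (hc3 : ∀ n < m + 2, ∀ k, LtC3 (a (n + 1)) U (T n) (Y n k) (π n k) (ec n k)
      (Y (n + 1)) (ey n))
    (hbot : ∀ k, ∃ y : Fin (m + 2) → ZMod P,
      ∑ i, y i • Y (m + 2) k i = ((0 : Fin m → ZMod P), (1 : ZMod P))) : A = ∅ := by
  classical
  by_contra hT
  obtain ⟨w0, hw0⟩ := Finset.nonempty_iff_ne_empty.2 hT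
  have hcard : Fintype.card (Seed P × ZMod P) = P ^ 4 := by
    rw [Fintype.card_prod, Fintype.card_prod, Fintype.card_prod, ZMod.card]
    ring
  haveI : Nonempty (Fin M) := ⟨⟨0, hM⟩⟩
  have claim : ∀ n, n ≤ m + 2 → ∃ k, ∃ x ∈ A, Sat (Y n k) x := by
    intro n
    induction n with
    | zero => intro _; exact ⟨⟨0, hM⟩, w0, hw0, fun i => i.elim0⟩
    | succ n ih =>
      intro hn
      obtain ⟨k, hk'⟩ := ih (by omega)
      have hn' : n < m + 2 := by omega
      have hg := hgap n hn' k hk'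
      set A' := A.filter fun x => Sat (Y n k) x with hA'
      have hbad := lt_bad (π n k).1.1 (π n k).1.2 A' hg hk hP
      have key : ∃ z j, 0 < ∑ i, w i * ltv (a (n + 1) (Y (n + 1) z)) j i := by
        refine lt_step_exists (X := Seed P × ZMod P) (Z := Fin M) hp U hU (T n)
          (fun q => a (n + 1) (kid (Y n k) (π n k) q.1 q.2)) (fun q => ec n k q.1 q.2)
          (fun z => a (n + 1) (Y (n + 1) z)) (ey n) w ?_ ?_ ?_
          (Finset.univ.filter fun q : Seed P × ZMod P =>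
            ∀ w ∈ A', ev (vec (π n k).1.1 (π n k).1.2 q.1, q.2) w ≠ 0) ?_ ?_
        · intro q j
          exact hc1 n hn' k q.1 q.2 j
        · intro r r'
          have h := hc2 n hn' k r r'
          rw [hcard, Fintype.sum_prod_type]
          push_cast
          exact h
        · intro r
          have h := hc3 n hn' k r
          rw [hcard, Fintype.sum_prod_type, Fintype.card_fin]
          push_cast
          exact h
        · rw [hcard]
          exact hbad
        · intro q hq j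
          rw [Finset.mem_filter] at hq
          push Not at hq
          obtain ⟨x, hx, hx2⟩ := hq (Finset.mem_univ _)
          rw [hA', Finset.mem_filter] at hx
          exact lt_pos hw (h1 (n + 1) hn _ ⟨x, hx.1, (sat_kid_iff _ _ _ _ _).2 ⟨hx.2, hx2⟩⟩) j
      obtain ⟨z, j, hz⟩ := key
      refine ⟨z, ?_⟩
      by_contra hcon
      have := lt_neg hw (h2 (n + 1) hn _ hcon) j
      omega
  obtain ⟨k, x, _, hx⟩ := claim (m + 2) le_rfl
  obtain ⟨y, hy⟩ := hbot k
  exact not_sat_of_comb hy x hx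

end Pool.Agent.Lib.MP_634427_lc.Maj
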