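import Pool.Agent.Lib.MP_634427_lc.Maj.LtBridge
import Pool.Agent.Lib.MP_634427_lc.Maj.BridgeC
import Pool.Agent.Lib.MP_634427_lc.Maj.LtSound

/-!
# Soundness of the weighted check
-/

namespace Pool.Agent.Lib.MP_634427_lc.Maj

open Pool.Agent.Lib.MP_634427_lc

private theorem csw_mem {α : Type} (l : List α) (d : α) {k : ℕ} (h : k < l.length) :
    l.getD k d ∈ l := by
  rw [List.getD_eq_getElem _ _ h]
  exact List.getElem_mem h

/-- If a certificate passes the check then there is no witness. -/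
theorem checkW_sound {vt : Word × Word → List LT.Num} {gap : (Word × (ℕ × ℕ)) × IL → Bool}
    {m P k0 M p u : Word → ℕ} (x : Word) (hprime : (P x).Prime)
    (A : Finset (Fin (m x) → Bool)) (w : Fin (p x) → ℤ) (hw : ∀ k, |w k| ≤ 1) (hp : 0 < p x)
    (h1 : ∀ n ≤ m x + 2, ∀ D : Itm (P x) (m x) n, (∃ y ∈ A, Sat D y) →
      0 < ∑ k, w k * aZ vt x (P x) (m x) (p x) n D k)
    (h2 : ∀ n ≤ m x + 2, ∀ D : Itm (P x) (m x) n, (¬ ∃ y ∈ A, Sat D y) →
      ∑ k, w k * aZ vt x (P x) (m x) (p x) n D k < 0)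
    (hgap : ∀ n, ∀ D : Itm (P x) (m x) n, gap ((x, (P x, k0 x)), itmL D) = true →
      (∃ y ∈ A, Sat D y) → k0 x < (A.filter fun y => Sat D y).card)
    (hM : 0 < M x) (hk : 144 * p x ^ 2 * P x ≤ k0 x)
    (hP : 144 * p x ^ 2 * (m x + 1) ^ 2 ≤ P x)
    (Y : List WLev) (h : checkW vt gap m P k0 M p u (x, Y) = true) : A = ∅ := by
  have : Fact (P x).Prime := ⟨hprime⟩
  have : NeZero (P x) := ⟨hprime.ne_zero⟩
  have hdef : checkW vt gap m P k0 M p u (x, Y) =
      (((List.range (m x + 3)).all fun n => decide ((Y.getD n ([], [])).2.length = M x)) &&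
      (((List.range (m x + 2)).all fun n => (Y.getD n ([], [])).2.all fun b =>
        nodeW vt gap x (P x) (m x) (k0 x) (M x) (p x) (u x) n (Y.getD n ([], [])).1
          (famL vt x (P x) (m x) (n + 1) (Y.getD (n + 1) ([], [])).2) b) &&
      (Y.getD (m x + 2) ([], [])).2.all fun b =>
        botN (P x) (m x) (m x + 2) b.1.1.1 b.1.2)) := rfl
  rw [hdef, Bool.and_eq_true, Bool.and_eq_true, List.all_eq_true, List.all_eq_true,
    List.all_eq_true] at h
  obtain ⟨hA, hB, hC⟩ := h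
  have hlen : ∀ n < m x + 3, (Y.getD n ([], [])).2.length = M x := by
    intro n hn
    exact of_decide_eq_true (hA n (List.mem_range.2 hn))
  have hnode : ∀ n < m x + 3, ∀ k : Fin (M x),
      (Y.getD n ([], [])).2.getD k.val wnil ∈ (Y.getD n ([], [])).2 := by
    intro n hn k
    exact csw_mem _ _ (by rw [hlen n hn]; exact k.isLt)
  have hlvl : ∀ n < m x + 2, ∀ a ∈ (Y.getD n ([], [])).2,
      gap ((x, (P x, k0 x)), normN (P x) (m x) n a.1.1.1) = true ∧
        c1N (p x) (u x) (Y.getD n ([], [])).1 (famK vt x (P x) (m x) n a) = true ∧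
        c2N (p x) (u x) (P x ^ 4) (Y.getD n ([], [])).1 (famK vt x (P x) (m x) n a) = true ∧
        c3N (p x) (u x) (P x ^ 4) (M x) (Y.getD n ([], [])).1 (famK vt x (P x) (m x) n a)
          (famL vt x (P x) (m x) (n + 1) (Y.getD (n + 1) ([], [])).2) = true := by
    intro n hn a ha
    have h1 := hB n (List.mem_range.2 hn)
    rw [List.all_eq_true] at h1
    have h2 := h1 a ha
    unfold nodeW at h2
    rw [Bool.and_eq_true, Bool.and_eq_true, Bool.and_eq_true] at h2
    exact h2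
  refine lt_sound hp A (aZ vt x (P x) (m x) (p x)) w hw h1 h2 (M x) (k0 x) (2 ^ u x) hM
    (by positivity) hk hP
    (fun n k => itmC (P x) (m x) n ((Y.getD n ([], [])).2.getD k.val wnil).1.1.1)
    (fun n k => parC (P x) (m x) n ((Y.getD n ([], [])).2.getD k.val wnil).1.1.2)
    (fun n => matZ (p x) (Y.getD n ([], [])).1)
    (fun n k => expK (P x) (p x) ((Y.getD n ([], [])).2.getD k.val wnil).2.2)
    (fun n l => expZ (p x) ((Y.getD (n + 1) ([], [])).2.getD l.val wnil).2.1)
    ?_ ?_ ?_ ?_ ?_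
  · intro n hn k hw
    have h1 := (hlvl n hn _ (hnode n (by omega) k)).1
    rw [normN_eq] at h1
    exact hgap n _ h1 hw
  · intro n hn k
    exact c1_iff.1 (hlvl n hn _ (hnode n (by omega) k)).2.1
  · intro n hn k
    exact c2_iff.1 (hlvl n hn _ (hnode n (by omega) k)).2.2.1
  · intro n hn k
    exact (c3_iff (hlen (n + 1) (by omega))).1 (hlvl n hn _ (hnode n (by omega) k)).2.2.2
  · intro k
    have h1 := hC _ (hnode (m x + 2) (by omega) k)
    exact ⟨_, (botN_iff _ _).1 h1⟩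

end Pool.Agent.Lib.MP_634427_lc.Maj
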