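import Pool.Agent.Lib.MP_634427_lc.Maj.LocDev
import Pool.Agent.Lib.MP_634427_lc.Maj.Pick
import Pool.Agent.Lib.MP_634427_lc.Maj.Bot

/-!
# Representative lists of items exist on all levels: variant with the global means

As `exist_lists` of `Exist.lean`; in addition the mean over the children is near the mean over all
items of the next level.
-/

namespace Pool.Agent.Lib.MP_634427_lc.Maj

open Finset
open scoped BigOperators

/-- Markov: for few items all parameters are bad. -/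
private theorem exist_markov {P m : ℕ} [Fact P.Prime] (n : ℕ) {β : Type} (B : Finset β)
    (φ : Itm P m (n + 1) → β → ℝ) (p δ : ℝ) (hφ : ∀ D, ∑ b ∈ B, φ D b ^ 2 ≤ p ^ 2) (hδ : 0 < δ)
    (bad : Finset (Itm P m n))
    (hbad : ∀ D ∈ bad, ∀ π : Par P m n, ∃ b ∈ B,
      δ / 2 < |loc φ D π b - 𝔼 E : Itm P m (n + 1), φ E b|) :
    (bad.card : ℝ) ≤ (36 * p ^ 2 / δ ^ 2 + 1) / P * Fintype.card (Itm P m n) := by
  have hP : (0 : ℝ) < P := by
    exact_mod_cast (Fact.out : P.Prime).pos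
  have h1 := loc_dev n B φ p hφ
  have h2 : ∀ D ∈ bad, (δ / 2) ^ 2 ≤ 𝔼 π : Par P m n,
      ∑ b ∈ B, (loc φ D π b - 𝔼 E : Itm P m (n + 1), φ E b) ^ 2 := by
    intro D hD
    refine Finset.le_expect Finset.univ_nonempty fun π _ => ?_
    obtain ⟨b, hb, hlt⟩ := hbad D hD π
    refine le_trans ?_ (Finset.single_le_sum
      (f := fun b => (loc φ D π b - 𝔼 E : Itm P m (n + 1), φ E b) ^ 2)
      (fun b _ => sq_nonneg _) hb)
    rw [← sq_abs (loc φ D π b - 𝔼 E : Itm P m (n + 1), φ E b)]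
    exact pow_le_pow_left₀ (by positivity) hlt.le 2
  have hcard : (0 : ℝ) < Fintype.card (Itm P m n) := by
    exact_mod_cast Fintype.card_pos
  rw [Fintype.expect_eq_sum_div_card, div_le_iff₀ hcard] at h1
  have h3 : (bad.card : ℝ) * (δ / 2) ^ 2 ≤ ∑ D : Itm P m n, 𝔼 π : Par P m n,
      ∑ b ∈ B, (loc φ D π b - 𝔼 E : Itm P m (n + 1), φ E b) ^ 2 := by
    calc (bad.card : ℝ) * (δ / 2) ^ 2 = ∑ _D ∈ bad, (δ / 2) ^ 2 := by
          rw [Finset.sum_const, nsmul_eq_mul]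
      _ ≤ ∑ D ∈ bad, 𝔼 π : Par P m n,
          ∑ b ∈ B, (loc φ D π b - 𝔼 E : Itm P m (n + 1), φ E b) ^ 2 := Finset.sum_le_sum h2
      _ ≤ _ := Finset.sum_le_sum_of_subset_of_nonneg (Finset.subset_univ _) fun D _ _ =>
          Finset.expect_nonneg fun π _ => Finset.sum_nonneg fun b _ => sq_nonneg _
  have h4 := h3.trans h1
  have hδ2 : 0 < δ ^ 2 := by positivity
  have h5 : (bad.card : ℝ) ≤ 36 * p ^ 2 / δ ^ 2 / P * Fintype.card (Itm P m n) := by
    have h6 : 36 * p ^ 2 / δ ^ 2 / P * Fintype.card (Itm P m n) =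
        (9 * p ^ 2 / P * Fintype.card (Itm P m n)) / (δ / 2) ^ 2 := by
      field_simp
      ring
    rw [h6, le_div_iff₀ (by positivity)]
    exact h4
  refine h5.trans (mul_le_mul_of_nonneg_right ?_ hcard.le)
  exact div_le_div_of_nonneg_right (by linarith) hP.le

/-- The good items of level `n`. -/
private def ExGood {P m : ℕ} [Fact P.Prime] {β : Type} (B : Finset β)
    (φ : ∀ n, Itm P m n → β → ℝ) (δ : ℝ) (n : ℕ) (D : Itm P m n) : Prop :=
  (n < m + 2 → ∃ π : Par P m n, ∀ b ∈ B,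
    |loc (φ (n + 1)) D π b - 𝔼 E : Itm P m (n + 1), φ (n + 1) E b| ≤ δ / 2) ∧
  (n = m + 2 → ∃ y : Fin n → ZMod P, ∑ i, y i • D i = ((0 : Fin m → ZMod P), (1 : ZMod P)))

open scoped Classical in
private theorem exist_good {P m : ℕ} [Fact P.Prime] {β : Type} (B : Finset β)
    (φ : ∀ n, Itm P m n → β → ℝ) (p δ : ℝ) (hφ : ∀ n D, ∑ b ∈ B, φ n D b ^ 2 ≤ p ^ 2)
    (hδ : 0 < δ) (n : ℕ) :
    ((Finset.univ.filter fun D : Itm P m n => ¬ ExGood B φ δ n D).card : ℝ) ≤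
      (36 * p ^ 2 / δ ^ 2 + 1) / P * Fintype.card (Itm P m n) := by
  have hP : (0 : ℝ) < P := by
    exact_mod_cast (Fact.out : P.Prime).pos
  rcases lt_trichotomy n (m + 2) with hn | hn | hn
  · refine exist_markov n B (φ (n + 1)) p δ (hφ (n + 1)) hδ _ fun D hD π => ?_
    rw [Finset.mem_filter] at hD
    by_contra hcon
    push Not at hcon
    exact hD.2 ⟨fun _ => ⟨π, hcon⟩, fun h => absurd h hn.ne⟩
  · subst hn
    have h1 := bot P m
    have h2 : (Finset.univ.filter fun D : Itm P m (m + 2) => ¬ ExGood B φ δ (m + 2) D).card ≤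
        (Finset.univ.filter fun D : Itm P m (m + 2) => ¬ ∃ y : Fin (m + 2) → ZMod P,
          ∑ i, y i • D i = ((0 : Fin m → ZMod P), (1 : ZMod P))).card := by
      refine Finset.card_le_card fun D hD => ?_
      rw [Finset.mem_filter] at hD ⊢
      refine ⟨Finset.mem_univ _, fun h => hD.2 ⟨fun h' => absurd h' (lt_irrefl _), fun _ => h⟩⟩
    have h3 : (((Finset.univ.filter fun D : Itm P m (m + 2) => ¬ ExGood B φ δ (m + 2) D).card : ℕ) : ℝ) * P ≤
        Fintype.card (Itm P m (m + 2)) := by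
      exact_mod_cast (Nat.mul_le_mul_right P h2).trans h1
    have h4 : (0 : ℝ) ≤ Fintype.card (Itm P m (m + 2)) := Nat.cast_nonneg _
    have h5 : (0 : ℝ) ≤ 36 * p ^ 2 / δ ^ 2 := by positivity
    rw [div_mul_eq_mul_div, le_div_iff₀ hP]
    refine h3.trans ?_
    nlinarith [mul_nonneg h5 h4]
  · have h1 : (Finset.univ.filter fun D : Itm P m n => ¬ ExGood B φ δ n D) = ∅ := by
      refine Finset.filter_eq_empty_iff.2 fun D _ h => h ?_
      exact ⟨fun h' => absurd h' (not_lt.2 hn.le), fun h' => absurd h' hn.ne'⟩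
    rw [h1, Finset.card_empty, Nat.cast_zero]
    positivity

/-- Existence of the lists; the children are also near the global mean. -/
theorem exist_lists_mean {P m : ℕ} [Fact P.Prime] {β : Type} (B : Finset β)
    (φ : ∀ n, Itm P m n → β → ℝ) (p δ : ℝ) (M : ℕ)
    (hφ : ∀ n D, ∑ b ∈ B, φ n D b ^ 2 ≤ p ^ 2) (hδ : 0 < δ) (hM0 : 0 < M)
    (hM : 16 * p ^ 2 / δ ^ 2 ≤ M) (hP : 4 * M * (36 * p ^ 2 / δ ^ 2 + 1) ≤ P) :
    ∃ (Y : ∀ n, Fin M → Itm P m n) (π : ∀ n, Fin M → Par P m n),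
      (∀ n < m + 2, ∀ k, ∀ b ∈ B, |loc (φ (n + 1)) (Y n k) (π n k) b -
        (∑ l, φ (n + 1) (Y (n + 1) l) b) / M| ≤ δ) ∧
      (∀ n < m + 2, ∀ k, ∀ b ∈ B, |loc (φ (n + 1)) (Y n k) (π n k) b -
        𝔼 E : Itm P m (n + 1), φ (n + 1) E b| ≤ δ / 2) ∧
      ∀ k, ∃ y : Fin (m + 2) → ZMod P,
        ∑ i, y i • Y (m + 2) k i = ((0 : Fin m → ZMod P), (1 : ZMod P)) := by
  classical
  have hPp : (0 : ℝ) < P := by
    exact_mod_cast (Fact.out : P.Prime).pos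
  have hMp : (0 : ℝ) < M := by
    exact_mod_cast hM0
  have hδ2 : 0 < δ ^ 2 := by positivity
  have hsum : (M : ℝ) * ((36 * p ^ 2 / δ ^ 2 + 1) / P) + 4 * p ^ 2 / (M * δ ^ 2) < 1 := by
    have h1 : (M : ℝ) * ((36 * p ^ 2 / δ ^ 2 + 1) / P) ≤ 1 / 4 := by
      rw [← mul_div_assoc, div_le_iff₀ hPp]
      linarith
    have h2 : 4 * p ^ 2 / (M * δ ^ 2) ≤ 1 / 4 := by
      rw [div_le_iff₀ (by positivity)]
      rw [div_le_iff₀ hδ2] at hM
      linarith
    linarith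
  have hY : ∀ n, ∃ Y : Fin M → Itm P m n, (∀ k, ExGood B φ δ n (Y k)) ∧
      ∀ b ∈ B, |(∑ k, φ n (Y k) b) / M - 𝔼 ω, φ n ω b| ≤ δ / 2 := fun n =>
    pick B (φ n) p (hφ n) (ExGood B φ δ n) _ (exist_good B φ p δ hφ hδ n) M hM0 δ hδ hsum
  choose Y hYg hYm using hY
  have hπ : ∀ n k, ∃ π : Par P m n, n < m + 2 → ∀ b ∈ B,
      |loc (φ (n + 1)) (Y n k) π b - 𝔼 E : Itm P m (n + 1), φ (n + 1) E b| ≤ δ / 2 := by
    intro n k
    by_cases hn : n < m + 2
    · obtain ⟨π, hπ⟩ := (hYg n k).1 hn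
      exact ⟨π, fun _ => hπ⟩
    · exact ⟨0, fun h => absurd h hn⟩
  choose π hπ using hπ
  refine ⟨Y, π, fun n hn k b hb => ?_, fun n hn k b hb => hπ n k hn b hb,
    fun k => (hYg (m + 2) k).2 rfl⟩
  have h1 := hπ n k hn b hb
  have h2 := hYm (n + 1) b hb
  rw [abs_le] at h1 h2 ⊢
  constructor
  · linarith [h1.1, h2.2]
  · linarith [h1.2, h2.1]

end Pool.Agent.Lib.MP_634427_lc.Maj
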