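import Pool.Agent.Lib.MP_634427_lc.Maj.LtLev
import Pool.Agent.Lib.MP_634427_lc.Maj.LtDefs

/-!
# Isotropic position of the vectors of a finite set of items

Every item `g` has an integer vector `a g` and the `p` vectors `2 * a g + e_j`. By the leverage lemma
there are exponents `t` and a real matrix `T` such that the vectors `2 ^ (- t) T v` have length
`≤ 2 p` and second moments the identity; `t` and `T` are bounded polynomially in the bit length of
the entries and of the number of the items.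
-/

namespace Pool.Agent.Lib.MP_634427_lc.Maj

open Finset Matrix
open Pool.Agent.Lib.MP_634427_lc.LT

/-- The real vectors of all items. -/
noncomputable def ltr {G : Type} {p : ℕ} (a : G → Fin p → ℤ) (i : G × Fin p) : Fin p → ℝ :=
  fun k => (ltv (a i.1) i.2 k : ℝ)

private lemma iso_ltv_eq {p : ℕ} (a : Fin p → ℤ) (j k : Fin p) :
    ltv a j k = vv (fun _ k => if h : k < p then a ⟨k, h⟩ else 0) 0 j k := by
  unfold ltv vv
  simp only [Fin.is_lt, dite_true]
  congr 1
  by_cases h : k = j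
  · rw [if_pos h, if_pos (congrArg Fin.val h)]
  · rw [if_neg h, if_neg fun h' => h (Fin.ext h')]

/-- The moment matrix of the vectors of one item has determinant at least one. -/
private lemma iso_one_det {p : ℕ} (a : Fin p → ℤ) :
    1 ≤ (∑ j : Fin p, vecMulVec (fun k => (ltv a j k : ℝ)) (fun k => (ltv a j k : ℝ))).det := by
  set A : ℕ → ℕ → ℤ := fun _ k => if h : k < p then a ⟨k, h⟩ else 0 with hA
  have h1 := one_le_VV_det_sq A p 0
  have h2 : (∑ j : Fin p, vecMulVec (fun k => (ltv a j k : ℝ)) (fun k => (ltv a j k : ℝ))) =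
      ((VV A p 0).map (Int.cast : ℤ → ℝ))ᵀ * (VV A p 0).map (Int.cast : ℤ → ℝ) := by
    ext k l
    simp only [Matrix.sum_apply, vecMulVec_apply, Matrix.mul_apply, Matrix.transpose_apply,
      Matrix.map_apply, VV]
    refine Finset.sum_congr rfl fun j _ => ?_
    rw [iso_ltv_eq, iso_ltv_eq]
  rw [h2, Matrix.det_mul, Matrix.det_transpose]
  have h3 : ((VV A p 0).map (Int.cast : ℤ → ℝ)).det = ((VV A p 0).det : ℝ) := by
    exact (Int.cast_det (VV A p 0)).symm
  rw [h3]
  nlinarith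

/-- If fewer than `|G|` exponents are positive then the determinant is at least one. -/
private lemma iso_det {G : Type} [Fintype G] {p : ℕ} (a : G → Fin p → ℤ)
    (t : G × Fin p → ℕ) (h : (univ.filter fun i => 0 < t i).card < Fintype.card G) :
    1 ≤ (lsig (ltr a) t).det := by
  classical
  obtain ⟨g, hg⟩ : ∃ g : G, ∀ j : Fin p, t (g, j) = 0 := by
    by_contra hcon
    push Not at hcon
    choose f hf using hcon
    have h1 : (univ : Finset G).card ≤ (univ.filter fun i => 0 < t i).card := by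
      apply Finset.card_le_card_of_injOn (fun g => (g, f g))
      · intro g _
        rw [Finset.mem_coe, Finset.mem_filter]
        exact ⟨Finset.mem_univ _, Nat.pos_of_ne_zero (hf g)⟩
      · intro g _ g' _ hgg
        exact (Prod.ext_iff.1 hgg).1
    rw [Finset.card_univ] at h1
    omega
  set A := ∑ j : Fin p, vecMulVec (fun k => (ltv (a g) j k : ℝ)) (fun k => (ltv (a g) j k : ℝ))
    with hA
  have h1 : 1 ≤ A.det := iso_one_det (a g)
  have hpsd : A.PosSemidef := by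
    have : ∀ S : Finset (Fin p), (∑ j ∈ S, vecMulVec (fun k => (ltv (a g) j k : ℝ))
        (fun k => (ltv (a g) j k : ℝ))).PosSemidef := by
      intro S
      induction S using Finset.induction_on with
      | empty =>
        rw [Finset.sum_empty]
        exact PosSemidef.zero
      | insert i S hi ih =>
        rw [Finset.sum_insert hi]
        refine PosSemidef.add ?_ ih
        have := posSemidef_vecMulVec_self_star (fun k => (ltv (a g) i k : ℝ))
        simpa using this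
    exact this _
  have hpd : A.PosDef := hpsd.posDef_iff_det_ne_zero.2 (zero_lt_one.trans_le h1).ne'
  have h2 := (pot_posDef_sum hpd (zero_lt_one.trans_le h1)
    (univ.filter fun i : G × Fin p => i.1 ≠ g) (lvec (ltr a) t)).2
  have h3 : lsig (ltr a) t = A + ∑ i ∈ univ.filter (fun i : G × Fin p => i.1 ≠ g),
      vecMulVec (lvec (ltr a) t i) (lvec (ltr a) t i) := by
    unfold lsig
    rw [← Finset.sum_filter_not_add_sum_filter univ (fun i : G × Fin p => i.1 ≠ g)]
    congr 1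
    have h4 : (univ.filter fun i : G × Fin p => ¬ i.1 ≠ g) =
        (univ : Finset (Fin p)).image fun j => (g, j) := by
      ext ⟨g', j⟩
      simp only [ne_eq, not_not, Finset.mem_filter, Finset.mem_univ, true_and, Finset.mem_image,
        Prod.mk.injEq, exists_eq_right]
      exact eq_comm
    rw [h4, Finset.sum_image (fun j _ j' _ hj => (Prod.ext_iff.1 hj).2), hA]
    refine Finset.sum_congr rfl fun j _ => ?_
    have h5 : lvec (ltr a) t (g, j) = fun k => (ltv (a g) j k : ℝ) := by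
      unfold lvec
      rw [hg j, pow_zero, inv_one, one_smul]
      rfl
    rw [h5]
  rw [h3]
  exact h1.trans h2

private lemma iso_abs_ltv {p b : ℕ} {a : Fin p → ℤ} (ha : ∀ k, |a k| ≤ 2 ^ b) (j k : Fin p) :
    |(ltv a j k : ℝ)| ≤ 2 ^ (b + 2) := by
  have h1 : |ltv a j k| ≤ 2 ^ (b + 2) := by
    have h2 := abs_le.1 (ha k)
    have h3 : (1 : ℤ) ≤ 2 ^ b := one_le_pow₀ (by norm_num)
    rw [abs_le, pow_add]
    unfold ltv
    split_ifs <;> constructor <;> linarith [h2.1, h2.2]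
  have h4 : ((|ltv a j k| : ℤ) : ℝ) ≤ ((2 ^ (b + 2) : ℤ) : ℝ) := Int.cast_le.2 h1
  push_cast at h4
  exact h4

private lemma iso_abs_lvec {G : Type} {p b : ℕ} {a : G → Fin p → ℤ} (ha : ∀ g k, |a g k| ≤ 2 ^ b)
    (t : G × Fin p → ℕ) (i : G × Fin p) (k : Fin p) : |lvec (ltr a) t i k| ≤ 2 ^ (b + 2) := by
  have h1 : lvec (ltr a) t i k = ((2 : ℝ) ^ t i)⁻¹ * (ltv (a i.1) i.2 k : ℝ) := rfl
  rw [h1, abs_mul]
  have h2 : |((2 : ℝ) ^ t i)⁻¹| ≤ 1 := by
    rw [abs_of_nonneg (by positivity)]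
    exact inv_le_one_of_one_le₀ (one_le_pow₀ (by norm_num))
  calc |((2 : ℝ) ^ t i)⁻¹| * |(ltv (a i.1) i.2 k : ℝ)| ≤ 1 * 2 ^ (b + 2) :=
        mul_le_mul h2 (iso_abs_ltv (ha i.1) i.2 k) (abs_nonneg _) zero_le_one
    _ = 2 ^ (b + 2) := one_mul _

/-- Bound for the entries of the moment matrix. -/
private lemma iso_abs_sig {G : Type} [Fintype G] {p b : ℕ} {a : G → Fin p → ℤ}
    (ha : ∀ g k, |a g k| ≤ 2 ^ b) (t : G × Fin p → ℕ) (k l : Fin p) :
    |lsig (ltr a) t k l| ≤ (Fintype.card G * p : ℝ) * (2 ^ (b + 2) * 2 ^ (b + 2)) := by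
  unfold lsig
  rw [Matrix.sum_apply]
  refine (Finset.abs_sum_le_sum_abs _ _).trans ?_
  have h1 : ∀ i ∈ (univ : Finset (G × Fin p)),
      |vecMulVec (lvec (ltr a) t i) (lvec (ltr a) t i) k l| ≤ 2 ^ (b + 2) * 2 ^ (b + 2) := by
    intro i _
    rw [vecMulVec_apply, abs_mul]
    exact mul_le_mul (iso_abs_lvec ha t i k) (iso_abs_lvec ha t i l) (abs_nonneg _) (by positivity)
  refine (Finset.sum_le_sum h1).trans ?_
  rw [Finset.sum_const, Finset.card_univ, Fintype.card_prod, Fintype.card_fin, nsmul_eq_mul]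
  push_cast
  exact le_rfl

/-- Bound for the entries of the inverse. -/
private lemma iso_abs_inv {p : ℕ} {A : Matrix (Fin p) (Fin p) ℝ} {x : ℝ} (hx : 1 ≤ x)
    (hA : ∀ k l, |A k l| ≤ x) (hd : 1 ≤ A.det) (k l : Fin p) :
    |A⁻¹ k l| ≤ (p.factorial : ℝ) * x ^ p := by
  rw [Matrix.inv_def, Matrix.smul_apply, smul_eq_mul, abs_mul, Ring.inverse_eq_inv']
  have h1 : |(A.det)⁻¹| ≤ 1 := by
    rw [abs_of_nonneg (inv_nonneg.2 (zero_le_one.trans hd))]
    exact inv_le_one_of_one_le₀ hd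
  have h2 : |A.adjugate k l| ≤ (p.factorial : ℝ) * x ^ p := by
    rw [Matrix.adjugate_apply]
    have h3 := Matrix.det_le (A := A.updateRow l (Pi.single k 1)) (abv := AbsoluteValue.abs)
      (x := x) (fun i j => by
        change |A.updateRow l (Pi.single k 1) i j| ≤ x
        by_cases hi : i = l
        · subst hi
          rw [Matrix.updateRow_self]
          by_cases hj : j = k
          · subst hj
            rw [Pi.single_eq_same, abs_one]
            exact hx
          · rw [Pi.single_eq_of_ne hj, abs_zero]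
            linarith
        · rw [Matrix.updateRow_ne hi]
          exact hA i j)
    rw [Fintype.card_fin, nsmul_eq_mul] at h3
    exact h3
  calc |(A.det)⁻¹| * |A.adjugate k l| ≤ 1 * ((p.factorial : ℝ) * x ^ p) :=
        mul_le_mul h1 h2 (abs_nonneg _) zero_le_one
    _ = _ := one_mul _

private lemma iso_fact (p : ℕ) : (p.factorial : ℝ) ≤ 2 ^ (p ^ 2) := by
  have h1 : p.factorial ≤ p ^ p := Nat.factorial_le_pow p
  have h2 : p ^ p ≤ (2 ^ p) ^ p := Nat.pow_le_pow_left (Nat.lt_two_pow_self).le p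
  have h3 : (2 ^ p) ^ p = 2 ^ (p ^ 2) := by rw [← pow_mul, pow_two]
  rw [h3] at h2
  exact_mod_cast h1.trans h2

private lemma iso_lt_two_pow (p : ℕ) : (p : ℝ) ≤ 2 ^ p := by
  exact_mod_cast (Nat.lt_two_pow_self (n := p)).le

/-- Bound for the inverse of the moment matrix. -/
private lemma iso_inv_bound {G : Type} [Fintype G] {p b c : ℕ} {a : G → Fin p → ℤ}
    (ha : ∀ g k, |a g k| ≤ 2 ^ b) (hc : Fintype.card G ≤ 2 ^ c) (t : G × Fin p → ℕ) (hd : 1 ≤ (lsig (ltr a) t).det) (k l : Fin p) :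
    |(lsig (ltr a) t)⁻¹ k l| ≤ 2 ^ (p ^ 2 + p * (c + p + 2 * b + 4)) := by
  have h1 : ∀ k l, |lsig (ltr a) t k l| ≤ (2 : ℝ) ^ (c + p + 2 * b + 4) := by
    intro k l
    refine (iso_abs_sig ha t k l).trans ?_
    have h2 : (Fintype.card G : ℝ) ≤ 2 ^ c := by exact_mod_cast hc
    have h3 := iso_lt_two_pow p
    calc (Fintype.card G * p : ℝ) * (2 ^ (b + 2) * 2 ^ (b + 2)) ≤
          (2 ^ c * 2 ^ p) * (2 ^ (b + 2) * 2 ^ (b + 2)) := by
            apply mul_le_mul_of_nonneg_right _ (by positivity)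
            exact mul_le_mul h2 h3 (Nat.cast_nonneg _) (by positivity)
      _ = 2 ^ (c + p + 2 * b + 4) := by
            rw [← pow_add, ← pow_add, ← pow_add]
            congr 1
            ring
  refine (iso_abs_inv (one_le_pow₀ (by norm_num)) h1 hd k l).trans ?_
  rw [pow_add (2 : ℝ) (p ^ 2), ← pow_mul]
  have h4 : (c + p + 2 * b + 4) * p = p * (c + p + 2 * b + 4) := mul_comm _ _
  rw [h4]
  exact mul_le_mul_of_nonneg_right (iso_fact p) (by positivity)

open scoped MatrixOrder in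
/-- A square root of the inverse. -/
private lemma iso_root {p : ℕ} {A : Matrix (Fin p) (Fin p) ℝ} (hA : A.PosDef) :
    ∃ B : Matrix (Fin p) (Fin p) ℝ, A⁻¹ = Bᵀ * B ∧ B * A * Bᵀ = 1 := by
  obtain ⟨B, hB⟩ := CStarAlgebra.nonneg_iff_eq_star_mul_self.mp hA.inv.posSemidef.nonneg
  have hB' : A⁻¹ = Bᵀ * B := by
    rw [hB, star_eq_conjTranspose]
    congr 1
  refine ⟨B, hB', ?_⟩
  have hu : IsUnit A.det := hA.det_pos.ne'.isUnit
  have h1 : (Bᵀ * B) * A = 1 := by rw [← hB', nonsing_inv_mul _ hu]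
  have h2 : (B * A) * Bᵀ = 1 := by
    rw [mul_eq_one_comm, ← Matrix.mul_assoc]
    exact h1
  exact h2

/-- The image of the weighted vector. -/
private lemma iso_psi {G : Type} {p : ℕ} (a : G → Fin p → ℤ) (t : G × Fin p → ℕ)
    (B : Matrix (Fin p) (Fin p) ℝ) (q : ℝ) (g : G) (j r : Fin p) :
    ((2 : ℝ) ^ t (g, j))⁻¹ * ∑ k, (q • B) r k * (ltv (a g) j k : ℝ) =
      q * (B *ᵥ lvec (ltr a) t (g, j)) r := by
  have h1 : (B *ᵥ lvec (ltr a) t (g, j)) r =
      ∑ k, B r k * (((2 : ℝ) ^ t (g, j))⁻¹ * (ltv (a g) j k : ℝ)) := rfl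
  rw [h1, Finset.mul_sum, Finset.mul_sum]
  refine Finset.sum_congr rfl fun k _ => ?_
  rw [Matrix.smul_apply, smul_eq_mul]
  ring

private lemma iso_score {G : Type} [Fintype G] {p : ℕ} (a : G → Fin p → ℤ) (t : G × Fin p → ℕ)
    {B : Matrix (Fin p) (Fin p) ℝ} (hB : (lsig (ltr a) t)⁻¹ = Bᵀ * B) (i : G × Fin p) :
    ∑ r, (B *ᵥ lvec (ltr a) t i) r ^ 2 = lscore (ltr a) t i := by
  unfold lscore
  rw [hB, ← mulVec_mulVec, dotProduct_mulVec, vecMul_transpose]
  simp only [dotProduct, pow_two]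

private lemma iso_moment {G : Type} [Fintype G] {p : ℕ} (a : G → Fin p → ℤ)
    (t : G × Fin p → ℕ) {B : Matrix (Fin p) (Fin p) ℝ} (hB : B * lsig (ltr a) t * Bᵀ = 1)
    (r s : Fin p) : ∑ i, (B *ᵥ lvec (ltr a) t i) r * (B *ᵥ lvec (ltr a) t i) s =
      if r = s then 1 else 0 := by
  have h1 : (B * lsig (ltr a) t * Bᵀ) r s = if r = s then 1 else 0 := by
    rw [hB, Matrix.one_apply]
  rw [← h1]
  unfold lsig
  rw [Matrix.mul_sum, Matrix.sum_mul, Matrix.sum_apply]
  refine Finset.sum_congr rfl fun i _ => ?_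
  rw [mul_vecMulVec, vecMulVec_mul, vecMulVec_apply, vecMul_transpose]

/-- Bound for the exponents. -/
private lemma iso_exp {G : Type} [Fintype G] [Nonempty G] {p b c : ℕ} (hp : 0 < p)
    {a : G → Fin p → ℤ} (ha : ∀ g k, |a g k| ≤ 2 ^ b) (hc : Fintype.card G ≤ 2 ^ c)
    (t : G × Fin p → ℕ)
    (hinv : ∀ k l, |(lsig (ltr a) t)⁻¹ k l| ≤ 2 ^ (p ^ 2 + p * (c + p + 2 * b + 4)))
    (i : G × Fin p) (h2 : 0 < t i → 4 * (p : ℝ) / Fintype.card G / 4 < lscore (ltr a) t i) :
    t i ≤ ltK p b c := by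
  rcases Nat.eq_zero_or_pos (t i) with h0 | h0
  · rw [h0]
    exact Nat.zero_le _
  have h3 := h2 h0
  have hN : (0 : ℝ) < Fintype.card G := by exact_mod_cast Fintype.card_pos
  have hp' : (0 : ℝ) < p := by exact_mod_cast hp
  set E := p ^ 2 + p * (c + p + 2 * b + 4) with hE
  have h4 : lscore (ltr a) t i = ((2 : ℝ) ^ t i)⁻¹ * (((2 : ℝ) ^ t i)⁻¹ *
      (ltr a i ⬝ᵥ ((lsig (ltr a) t)⁻¹ *ᵥ ltr a i))) := by
    unfold lscore
    have : lvec (ltr a) t i = ((2 : ℝ) ^ t i)⁻¹ • ltr a i := rfl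
    rw [this, Matrix.mulVec_smul, smul_dotProduct, dotProduct_smul, smul_eq_mul, smul_eq_mul]
  have h5 : ltr a i ⬝ᵥ ((lsig (ltr a) t)⁻¹ *ᵥ ltr a i) ≤
      (p : ℝ) * (p * (2 ^ (b + 2) * (2 ^ E * 2 ^ (b + 2)))) := by
    unfold dotProduct mulVec dotProduct
    have h6 : ∀ k ∈ (univ : Finset (Fin p)), ltr a i k * ∑ l, (lsig (ltr a) t)⁻¹ k l * ltr a i l ≤
        p * (2 ^ (b + 2) * (2 ^ E * 2 ^ (b + 2))) := by
      intro k _
      rw [Finset.mul_sum]
      have h7 : ∀ l ∈ (univ : Finset (Fin p)), ltr a i k * ((lsig (ltr a) t)⁻¹ k l * ltr a i l) ≤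
          2 ^ (b + 2) * (2 ^ E * 2 ^ (b + 2)) := by
        intro l _
        refine (le_abs_self _).trans ?_
        rw [abs_mul, abs_mul]
        exact mul_le_mul (iso_abs_ltv (ha i.1) i.2 k)
          (mul_le_mul (hinv k l) (iso_abs_ltv (ha i.1) i.2 l) (abs_nonneg _) (by positivity))
          (by positivity) (by positivity)
      refine (Finset.sum_le_sum h7).trans ?_
      rw [Finset.sum_const, Finset.card_univ, Fintype.card_fin, nsmul_eq_mul]
    refine (Finset.sum_le_sum h6).trans ?_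
    rw [Finset.sum_const, Finset.card_univ, Fintype.card_fin, nsmul_eq_mul]
  rw [h4] at h3
  have h8 : (0 : ℝ) < 2 ^ t i := by positivity
  have h9 : 4 * (p : ℝ) / Fintype.card G / 4 = p / Fintype.card G := by
    field_simp
  rw [h9] at h3
  have h10 : (p : ℝ) / Fintype.card G * 2 ^ t i * 2 ^ t i <
      (p : ℝ) * (p * (2 ^ (b + 2) * (2 ^ E * 2 ^ (b + 2)))) := by
    refine lt_of_lt_of_le ?_ h5
    calc (p : ℝ) / Fintype.card G * 2 ^ t i * 2 ^ t i
        < (((2 : ℝ) ^ t i)⁻¹ * (((2 : ℝ) ^ t i)⁻¹ *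
          (ltr a i ⬝ᵥ ((lsig (ltr a) t)⁻¹ *ᵥ ltr a i)))) * 2 ^ t i * 2 ^ t i :=
            mul_lt_mul_of_pos_right (mul_lt_mul_of_pos_right h3 h8) h8
      _ = ltr a i ⬝ᵥ ((lsig (ltr a) t)⁻¹ *ᵥ ltr a i) := by
            field_simp
  have h11 : (2 : ℝ) ^ t i * 2 ^ t i < 2 ^ (c + p + 2 * b + 4 + E) := by
    have h12 : (Fintype.card G : ℝ) ≤ 2 ^ c := by exact_mod_cast hc
    have h13 := iso_lt_two_pow p
    have h14 : (2 : ℝ) ^ t i * 2 ^ t i < Fintype.card G * (p *
        (2 ^ (b + 2) * (2 ^ E * 2 ^ (b + 2)))) := by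
      have h15 : (p : ℝ) * (2 ^ t i * 2 ^ t i) < p * (Fintype.card G * (p *
          (2 ^ (b + 2) * (2 ^ E * 2 ^ (b + 2))))) := by
        calc (p : ℝ) * (2 ^ t i * 2 ^ t i) = ((p : ℝ) / Fintype.card G * 2 ^ t i * 2 ^ t i) *
              Fintype.card G := by field_simp
          _ < ((p : ℝ) * (p * (2 ^ (b + 2) * (2 ^ E * 2 ^ (b + 2))))) * Fintype.card G :=
              mul_lt_mul_of_pos_right h10 hN
          _ = _ := by ring
      exact lt_of_mul_lt_mul_left h15 hp'.le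
    refine h14.trans_le ?_
    calc (Fintype.card G : ℝ) * (p * (2 ^ (b + 2) * (2 ^ E * 2 ^ (b + 2)))) ≤
          2 ^ c * (2 ^ p * (2 ^ (b + 2) * (2 ^ E * 2 ^ (b + 2)))) := by
            apply mul_le_mul h12 _ (by positivity) (by positivity)
            exact mul_le_mul_of_nonneg_right h13 (by positivity)
      _ = 2 ^ (c + p + 2 * b + 4 + E) := by
            rw [← pow_add, ← pow_add, ← pow_add, ← pow_add]
            congr 1
            ring
  rw [← pow_add] at h11
  have h16 := (pow_lt_pow_iff_right₀ (by norm_num : (1 : ℝ) < 2)).1 h11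
  unfold ltK
  omega

/-- Isotropic position over the reals. -/
theorem iso_real {G : Type} [Fintype G] [Nonempty G] {p b c : ℕ} (hp : 0 < p)
    (a : G → Fin p → ℤ) (ha : ∀ g k, |a g k| ≤ 2 ^ b) (hc : Fintype.card G ≤ 2 ^ c) :
    ∃ (t : G → Fin p → ℕ) (T : Matrix (Fin p) (Fin p) ℝ), (∀ g j, t g j ≤ ltK p b c) ∧
      (∀ r s, |T r s| ≤ 2 ^ ltK p b c) ∧
      (∀ g j, ∑ r, (((2 : ℝ) ^ t g j)⁻¹ * ∑ k, T r k * (ltv (a g) j k : ℝ)) ^ 2 ≤ 4 * p ^ 2) ∧
      ∀ r s, ∑ g, ∑ j, (((2 : ℝ) ^ t g j)⁻¹ * ∑ k, T r k * (ltv (a g) j k : ℝ)) *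
        (((2 : ℝ) ^ t g j)⁻¹ * ∑ k, T s k * (ltv (a g) j k : ℝ)) =
          if r = s then (Fintype.card G : ℝ) * p else 0 := by
  classical
  have hN : (0 : ℝ) < Fintype.card G := by exact_mod_cast Fintype.card_pos
  have hp' : (0 : ℝ) < p := by exact_mod_cast hp
  have hα : 0 < 4 * (p : ℝ) / Fintype.card G := by positivity
  obtain ⟨t, hd, h1, h2⟩ := lev_exists (ltr a) (4 * (p : ℝ) / Fintype.card G) hα hp (by
    intro t ht
    apply iso_det
    rw [← Nat.cast_lt (α := ℝ)]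
    rw [mul_div_assoc', div_lt_iff₀ hN] at ht
    nlinarith)
  have hd0 : 0 < (lsig (ltr a) t).det := zero_lt_one.trans_le hd
  have hpd := lsig_pd (ltr a) t hd0
  have hinv := iso_inv_bound ha hc t hd
  obtain ⟨B, hB, hB1⟩ := iso_root hpd
  set q := Real.sqrt (Fintype.card G * p) with hq
  have hq2 : q ^ 2 = Fintype.card G * p := Real.sq_sqrt (by positivity)
  refine ⟨fun g j => t (g, j), q • B, fun g j => iso_exp hp ha hc t hinv (g, j) (h2 (g, j)),
    ?_, ?_, ?_⟩
  · intro r s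
    have h3 : (Bᵀ * B) s s = ∑ k, B k s ^ 2 := by
      rw [Matrix.mul_apply]
      simp only [Matrix.transpose_apply, pow_two]
    have h4 : B r s ^ 2 ≤ (Bᵀ * B) s s := by
      rw [h3]
      exact Finset.single_le_sum (f := fun k => B k s ^ 2) (fun k _ => sq_nonneg _)
        (Finset.mem_univ r)
    rw [← hB] at h4
    have h5 := h4.trans ((le_abs_self _).trans (hinv s s))
    have h6 : ((q • B) r s) ^ 2 ≤ (2 ^ ltK p b c) ^ 2 := by
      rw [Matrix.smul_apply, smul_eq_mul, mul_pow, hq2]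
      have h12 : (Fintype.card G : ℝ) ≤ 2 ^ c := by exact_mod_cast hc
      have h13 := iso_lt_two_pow p
      calc (Fintype.card G * p : ℝ) * B r s ^ 2 ≤
            (2 ^ c * 2 ^ p) * 2 ^ (p ^ 2 + p * (c + p + 2 * b + 4)) := by
              apply mul_le_mul _ h5 (sq_nonneg _) (by positivity)
              exact mul_le_mul h12 h13 (Nat.cast_nonneg _) (by positivity)
        _ = 2 ^ (c + p + (p ^ 2 + p * (c + p + 2 * b + 4))) := by
              rw [← pow_add, ← pow_add]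
        _ ≤ 2 ^ (ltK p b c * 2) := by
              apply pow_le_pow_right₀ (by norm_num)
              unfold ltK
              omega
        _ = (2 ^ ltK p b c) ^ 2 := by rw [pow_mul]
    exact abs_le_of_sq_le_sq h6 (by positivity)
  · intro g j
    have h3 : ∀ r, (((2 : ℝ) ^ t (g, j))⁻¹ * ∑ k, (q • B) r k * (ltv (a g) j k : ℝ)) ^ 2 =
        (Fintype.card G * p) * (B *ᵥ lvec (ltr a) t (g, j)) r ^ 2 := by
      intro r
      rw [iso_psi, mul_pow, hq2]
    rw [Finset.sum_congr rfl fun r _ => h3 r, ← Finset.mul_sum, iso_score a t hB]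
    calc (Fintype.card G * p : ℝ) * lscore (ltr a) t (g, j) ≤
          (Fintype.card G * p : ℝ) * (4 * (p : ℝ) / Fintype.card G) :=
            mul_le_mul_of_nonneg_left (h1 (g, j)) (by positivity)
      _ = 4 * p ^ 2 := by
            field_simp
  · intro r s
    have h3 : ∀ g, ∀ j, (((2 : ℝ) ^ t (g, j))⁻¹ * ∑ k, (q • B) r k * (ltv (a g) j k : ℝ)) *
        (((2 : ℝ) ^ t (g, j))⁻¹ * ∑ k, (q • B) s k * (ltv (a g) j k : ℝ)) =
        (Fintype.card G * p) * ((B *ᵥ lvec (ltr a) t (g, j)) r *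
          (B *ᵥ lvec (ltr a) t (g, j)) s) := by
      intro g j
      rw [iso_psi, iso_psi, ← hq2]
      ring
    rw [Finset.sum_congr rfl fun g _ => Finset.sum_congr rfl fun j _ => h3 g j]
    simp only [← Finset.mul_sum]
    rw [← Fintype.sum_prod_type' (f := fun g j => (B *ᵥ lvec (ltr a) t (g, j)) r *
      (B *ᵥ lvec (ltr a) t (g, j)) s), iso_moment a t hB1]
    split_ifs
    · rw [mul_one]
    · rw [mul_zero]

end Pool.Agent.Lib.MP_634427_lc.Maj
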