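import Pool.Agent.Lib.MP_634427_lc.LT.Potential

/-!
# Leverage scores: a finite family of vectors is scaled so that all leverage scores are small

The vectors `v i` get weights `2 ^ (- t i)`. Call `t` admissible if every `i` with `0 < t i` has
leverage score `> α / 4`. Since the sum of the scores is `p`, few `t i` are positive, and the
hypothesis bounds the determinant of the moment matrix from below. If a score is `> α` then `t i` is
raised by 1; this multiplies the determinant by at most `1 - 3 * α / 4`, the other scores do not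
decrease, and the new score is at least a quarter of the old one.
-/

namespace Pool.Agent.Lib.MP_634427_lc.Maj

open Finset Matrix
open Pool.Agent.Lib.MP_634427_lc.LT

section

variable {ι : Type} [Fintype ι] {p : ℕ}

/-- The weighted vector. -/
noncomputable def lvec (v : ι → Fin p → ℝ) (t : ι → ℕ) (i : ι) : Fin p → ℝ :=
  ((2 : ℝ) ^ t i)⁻¹ • v i

/-- The moment matrix. -/
noncomputable def lsig (v : ι → Fin p → ℝ) (t : ι → ℕ) : Matrix (Fin p) (Fin p) ℝ :=
  ∑ i, vecMulVec (lvec v t i) (lvec v t i)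

/-- The leverage score. -/
noncomputable def lscore (v : ι → Fin p → ℝ) (t : ι → ℕ) (i : ι) : ℝ :=
  lvec v t i ⬝ᵥ ((lsig v t)⁻¹ *ᵥ lvec v t i)

private lemma lev_psd_one (x : Fin p → ℝ) : (vecMulVec x x).PosSemidef := by
  have := posSemidef_vecMulVec_self_star x
  simpa using this

theorem lsig_psd (v : ι → Fin p → ℝ) (t : ι → ℕ) : (lsig v t).PosSemidef := by
  classical
  unfold lsig
  have h : ∀ S : Finset ι, (∑ i ∈ S, vecMulVec (lvec v t i) (lvec v t i)).PosSemidef := by
    intro S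
    induction S using Finset.induction_on with
    | empty =>
      rw [Finset.sum_empty]
      exact PosSemidef.zero
    | insert i S hi ih =>
      rw [Finset.sum_insert hi]
      exact (lev_psd_one _).add ih
  exact h _

theorem lsig_pd (v : ι → Fin p → ℝ) (t : ι → ℕ) (h : 0 < (lsig v t).det) :
    (lsig v t).PosDef :=
  (lsig_psd v t).posDef_iff_det_ne_zero.2 h.ne'

/-- The quadratic form of the moment matrix. -/
theorem lsig_quad (v : ι → Fin p → ℝ) (t : ι → ℕ) (x : Fin p → ℝ) :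
    x ⬝ᵥ (lsig v t *ᵥ x) = ∑ i, (x ⬝ᵥ lvec v t i) ^ 2 := by
  unfold lsig
  rw [Matrix.sum_mulVec, dotProduct_sum]
  refine Finset.sum_congr rfl fun i _ => ?_
  rw [vecMulVec_mulVec, dotProduct_smul, dotProduct_comm (lvec v t i) x, pow_two]
  rfl

private lemma lev_inv_quad {A : Matrix (Fin p) (Fin p) ℝ} (hA : IsUnit A.det)
    (y : Fin p → ℝ) : (A⁻¹ *ᵥ y) ⬝ᵥ (A *ᵥ (A⁻¹ *ᵥ y)) = y ⬝ᵥ (A⁻¹ *ᵥ y) := by
  rw [mulVec_mulVec, mul_nonsing_inv _ hA, one_mulVec, dotProduct_comm]

theorem lscore_nonneg (v : ι → Fin p → ℝ) (t : ι → ℕ) (i : ι) (h : 0 < (lsig v t).det) :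
    0 ≤ lscore v t i := by
  have := (lsig_pd v t h).inv.posSemidef.dotProduct_mulVec_nonneg (lvec v t i)
  simpa [lscore] using this

theorem lscore_le_one (v : ι → Fin p → ℝ) (t : ι → ℕ) (i : ι) (h : 0 < (lsig v t).det) :
    lscore v t i ≤ 1 := by
  have h1 := lsig_quad v t ((lsig v t)⁻¹ *ᵥ lvec v t i)
  rw [lev_inv_quad h.ne'.isUnit] at h1
  have h2 : (((lsig v t)⁻¹ *ᵥ lvec v t i) ⬝ᵥ lvec v t i) ^ 2 ≤
      ∑ j, (((lsig v t)⁻¹ *ᵥ lvec v t i) ⬝ᵥ lvec v t j) ^ 2 :=
    Finset.single_le_sum (f := fun j => (((lsig v t)⁻¹ *ᵥ lvec v t i) ⬝ᵥ lvec v t j) ^ 2)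
      (fun j _ => sq_nonneg _) (Finset.mem_univ i)
  rw [← h1, dotProduct_comm] at h2
  have h3 : lscore v t i ^ 2 ≤ lscore v t i := h2
  by_contra h4
  push Not at h4
  nlinarith

theorem lscore_sum (v : ι → Fin p → ℝ) (t : ι → ℕ) (h : 0 < (lsig v t).det) :
    ∑ i, lscore v t i = p := by
  have h1 : ∀ i, lscore v t i =
      ((lsig v t)⁻¹ * vecMulVec (lvec v t i) (lvec v t i)).trace := by
    intro i
    rw [lscore, mul_vecMulVec, trace_vecMulVec, dotProduct_comm]
  rw [Finset.sum_congr rfl fun i _ => h1 i, ← trace_sum, ← Finset.mul_sum]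
  have h2 : ∑ i, vecMulVec (lvec v t i) (lvec v t i) = lsig v t := rfl
  rw [h2, Matrix.nonsing_inv_mul _ h.ne'.isUnit, trace_one, Fintype.card_fin]

/-- Monotonicity of the inverse form. -/
private lemma lev_inv_mono {A B : Matrix (Fin p) (Fin p) ℝ} (hA : A.PosDef) (hB : B.PosDef)
    (hAB : ∀ x : Fin p → ℝ, x ⬝ᵥ (B *ᵥ x) ≤ x ⬝ᵥ (A *ᵥ x)) (y : Fin p → ℝ) :
    y ⬝ᵥ (A⁻¹ *ᵥ y) ≤ y ⬝ᵥ (B⁻¹ *ᵥ y) := by
  have huA := hA.det_pos.ne'.isUnit
  have huB := hB.det_pos.ne'.isUnit
  have h1 := pot_cauchy hB huB (A⁻¹ *ᵥ y) y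
  have h2 := hAB (A⁻¹ *ᵥ y)
  rw [lev_inv_quad huA] at h2
  have h3 : 0 ≤ y ⬝ᵥ (B⁻¹ *ᵥ y) := by
    have := hB.inv.posSemidef.dotProduct_mulVec_nonneg y
    simpa using this
  have h4 : 0 ≤ y ⬝ᵥ (A⁻¹ *ᵥ y) := by
    have := hA.inv.posSemidef.dotProduct_mulVec_nonneg y
    simpa using this
  rw [dotProduct_comm (A⁻¹ *ᵥ y) y] at h1
  have h5 : (y ⬝ᵥ (A⁻¹ *ᵥ y)) ^ 2 ≤ (y ⬝ᵥ (A⁻¹ *ᵥ y)) * (y ⬝ᵥ (B⁻¹ *ᵥ y)) :=
    h1.trans (mul_le_mul_of_nonneg_right h2 h3)
  rcases h4.eq_or_lt with h6 | h6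
  · rw [← h6]
    exact h3
  · by_contra h7
    push Not at h7
    nlinarith

/-- The effect of raising one exponent on the moment matrix. -/
private lemma lev_update [DecidableEq ι] (v : ι → Fin p → ℝ) (t : ι → ℕ) (i : ι) :
    lsig v (Function.update t i (t i + 1)) =
      lsig v t + (-(3 / 4) : ℝ) • vecMulVec (lvec v t i) (lvec v t i) := by
  unfold lsig
  rw [← Finset.add_sum_erase _ _ (Finset.mem_univ i),
    ← Finset.add_sum_erase (s := Finset.univ) (f := fun j => vecMulVec (lvec v t j) (lvec v t j))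
      (Finset.mem_univ i)]
  have h1 : ∀ j ∈ Finset.univ.erase i, vecMulVec (lvec v (Function.update t i (t i + 1)) j)
      (lvec v (Function.update t i (t i + 1)) j) = vecMulVec (lvec v t j) (lvec v t j) := by
    intro j hj
    have hne := Finset.ne_of_mem_erase hj
    unfold lvec
    rw [Function.update_of_ne hne]
  rw [Finset.sum_congr rfl h1]
  have h2 : lvec v (Function.update t i (t i + 1)) i = (1 / 2 : ℝ) • lvec v t i := by
    unfold lvec
    rw [Function.update_self, smul_smul, pow_succ]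
    congr 1
    field_simp
  rw [h2]
  have h3 : vecMulVec ((1 / 2 : ℝ) • lvec v t i) ((1 / 2 : ℝ) • lvec v t i) =
      (1 / 4 : ℝ) • vecMulVec (lvec v t i) (lvec v t i) := by
    ext k l
    simp only [vecMulVec_apply, Pi.smul_apply, Matrix.smul_apply, smul_eq_mul]
    ring
  rw [h3]
  have h4 : (1 / 4 : ℝ) • vecMulVec (lvec v t i) (lvec v t i) =
      vecMulVec (lvec v t i) (lvec v t i) +
        (-(3 / 4) : ℝ) • vecMulVec (lvec v t i) (lvec v t i) := by
    ext k l
    simp only [Matrix.add_apply, Matrix.smul_apply, smul_eq_mul]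
    ring
  rw [h4]
  abel

/-- Admissible exponents. -/
def LAdm (v : ι → Fin p → ℝ) (α : ℝ) (t : ι → ℕ) : Prop :=
  0 < (lsig v t).det ∧ ∀ i, 0 < t i → α / 4 < lscore v t i

private lemma lev_few (v : ι → Fin p → ℝ) {α : ℝ} (hp : 0 < p) {t : ι → ℕ}
    (h : LAdm v α t) : ((univ.filter fun i => 0 < t i).card : ℝ) * α < 4 * p := by
  have h1 : ∑ i ∈ univ.filter (fun i => 0 < t i), lscore v t i ≤ p := by
    rw [← lscore_sum v t h.1]
    exact Finset.sum_le_sum_of_subset_of_nonneg (Finset.filter_subset _ _)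
      fun i _ _ => lscore_nonneg v t i h.1
  rcases (univ.filter fun i => 0 < t i).eq_empty_or_nonempty with h0 | h0
  · rw [h0]
    have : (0 : ℝ) < p := by exact_mod_cast hp
    simp only [Finset.card_empty, Nat.cast_zero, zero_mul]
    linarith
  · have h2 : ((univ.filter fun i => 0 < t i).card : ℝ) * (α / 4) <
        ∑ i ∈ univ.filter (fun i => 0 < t i), lscore v t i := by
      rw [← nsmul_eq_mul, ← Finset.sum_const]
      exact Finset.sum_lt_sum_of_nonempty h0 fun i hi => h.2 i (Finset.mem_filter.1 hi).2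
    linarith

private lemma lev_step [DecidableEq ι] (v : ι → Fin p → ℝ) {α : ℝ} {t : ι → ℕ}
    (h : LAdm v α t) {i : ι} (hi : α < lscore v t i) :
    LAdm v α (Function.update t i (t i + 1)) ∧
      (lsig v (Function.update t i (t i + 1))).det ≤ (1 - 3 / 4 * α) * (lsig v t).det := by
  obtain ⟨h0, h1⟩ := h
  have hup := lev_update v t i
  have h2 : (lsig v (Function.update t i (t i + 1))).det =
      (lsig v t).det * (1 + (-(3 / 4)) * lscore v t i) := by
    rw [hup, pot_det_update h0.ne'.isUnit]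
    rfl
  have h3 := lscore_le_one v t i h0
  have h4 : 0 < (lsig v (Function.update t i (t i + 1))).det := by
    rw [h2]
    apply mul_pos h0
    linarith
  refine ⟨⟨h4, ?_⟩, ?_⟩
  · intro j hj
    have hmono : ∀ y : Fin p → ℝ, y ⬝ᵥ ((lsig v t)⁻¹ *ᵥ y) ≤
        y ⬝ᵥ ((lsig v (Function.update t i (t i + 1)))⁻¹ *ᵥ y) := by
      refine lev_inv_mono (lsig_pd v t h0) (lsig_pd v _ h4) fun x => ?_
      rw [hup, Matrix.add_mulVec, dotProduct_add, Matrix.smul_mulVec, dotProduct_smul,
        smul_eq_mul]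
      have := (lev_psd_one (lvec v t i)).dotProduct_mulVec_nonneg x
      rw [star_trivial] at this
      linarith
    by_cases hji : j = i
    · subst hji
      have h5 : lvec v (Function.update t j (t j + 1)) j = (1 / 2 : ℝ) • lvec v t j := by
        unfold lvec
        rw [Function.update_self, smul_smul, pow_succ]
        congr 1
        field_simp
      have h6 : lscore v (Function.update t j (t j + 1)) j = 1 / 4 * (lvec v t j ⬝ᵥ
          ((lsig v (Function.update t j (t j + 1)))⁻¹ *ᵥ lvec v t j)) := by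
        rw [lscore, h5, Matrix.mulVec_smul, smul_dotProduct, dotProduct_smul, smul_eq_mul,
          smul_eq_mul]
        ring
      rw [h6]
      have h7 := hmono (lvec v t j)
      have h8 : lvec v t j ⬝ᵥ ((lsig v t)⁻¹ *ᵥ lvec v t j) = lscore v t j := rfl
      rw [h8] at h7
      linarith
    · have h5 : lvec v (Function.update t i (t i + 1)) j = lvec v t j := by
        unfold lvec
        rw [Function.update_of_ne hji]
      rw [Function.update_of_ne hji] at hj
      refine (h1 j hj).trans_le ?_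
      rw [lscore, lscore, h5]
      exact hmono _
  · rw [h2, mul_comm]
    apply mul_le_mul_of_nonneg_right _ h0.le
    linarith

/-- There are exponents for which all leverage scores are `≤ α`. -/
theorem lev_exists (v : ι → Fin p → ℝ) (α : ℝ) (hα : 0 < α) (hp : 0 < p)
    (hdet : ∀ t : ι → ℕ, ((univ.filter fun i => 0 < t i).card : ℝ) * α < 4 * p →
      1 ≤ (lsig v t).det) :
    ∃ t : ι → ℕ, 1 ≤ (lsig v t).det ∧ (∀ i, lscore v t i ≤ α) ∧
      ∀ i, 0 < t i → α / 4 < lscore v t i := by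
  classical
  have hp' : (0 : ℝ) < p := by exact_mod_cast hp
  have h0 : 1 ≤ (lsig v fun _ => 0).det := by
    apply hdet
    simp only [lt_irrefl, Finset.filter_false, Finset.card_empty, Nat.cast_zero, zero_mul]
    linarith
  have hadm : ∀ t, LAdm v α t → 1 ≤ (lsig v t).det := fun t ht => hdet t (lev_few v hp ht)
  rcases le_or_gt 1 α with h1 | h1
  · refine ⟨fun _ => 0, h0, fun i => ?_, fun i hi => absurd hi (lt_irrefl 0)⟩
    exact (lscore_le_one v _ i (zero_lt_one.trans_le h0)).trans h1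
  · have key : ∀ n : ℕ, ∃ t, LAdm v α t ∧ ((∀ i, lscore v t i ≤ α) ∨
        (lsig v t).det ≤ (1 - 3 / 4 * α) ^ n * (lsig v fun _ => 0).det) := by
      intro n
      induction n with
      | zero =>
        refine ⟨fun _ => 0, ⟨zero_lt_one.trans_le h0, fun i hi => absurd hi (lt_irrefl 0)⟩,
          Or.inr ?_⟩
        rw [pow_zero, one_mul]
      | succ n ih =>
        obtain ⟨t, ht, h2⟩ := ih
        by_cases h3 : ∀ i, lscore v t i ≤ α
        · exact ⟨t, ht, Or.inl h3⟩
        · push Not at h3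
          obtain ⟨i, hi⟩ := h3
          obtain ⟨h4, h5⟩ := lev_step v ht hi
          refine ⟨_, h4, Or.inr (h5.trans ?_)⟩
          rcases h2 with h2 | h2
          · exact absurd (h2 i) (not_le.2 hi)
          · rw [pow_succ, mul_comm ((1 - 3 / 4 * α) ^ n), mul_assoc]
            apply mul_le_mul_of_nonneg_left h2
            linarith
    have hD : 0 < (lsig v fun _ => 0).det := zero_lt_one.trans_le h0
    obtain ⟨n, hn⟩ := exists_pow_lt_of_lt_one (y := 1 - 3 / 4 * α) (inv_pos.2 hD)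
      (by linarith)
    obtain ⟨t, ht, h2⟩ := key n
    refine ⟨t, hadm t ht, ?_, ht.2⟩
    rcases h2 with h2 | h2
    · exact h2
    · exfalso
      have h3 := hadm t ht
      have h4 : (1 - 3 / 4 * α) ^ n * (lsig v fun _ => 0).det < 1 := by
        calc (1 - 3 / 4 * α) ^ n * (lsig v fun _ => 0).det <
            (lsig v fun _ => 0).det⁻¹ * (lsig v fun _ => 0).det :=
              mul_lt_mul_of_pos_right hn hD
          _ = 1 := inv_mul_cancel₀ hD.ne'
      linarith

end

end Pool.Agent.Lib.MP_634427_lc.Maj
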