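import Pool.Agent.Lib.MP_634427_lc.Maj.LtModel
import Pool.Agent.Lib.MP_634427_lc.Maj.LtBridge
import Pool.Agent.Lib.MP_634427_lc.Maj.SizeN
import Pool.Agent.Lib.MP_634427_lc.LT.VecPT
import Pool.Agent.Lib.MP_634427_lc.LT.Weighted

/-!
# Weighted votes: the vectors of the questions
-/

namespace Pool.Agent.Lib.MP_634427_lc.Maj

open Pool.Agent.Lib.MP_634427_lc

private lemma ltv_abs (L : List LT.Num) (i : ℕ) : |LT.nval (L.getD i ([], []))| ≤ 2 ^ sz L := by
  rw [List.getD_eq_getElem?_getD]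
  rcases h : L[i]? with _ | a
  · simp [LT.nval]
  · have h1 := sz_mem_le (List.mem_of_getElem? h)
    have h2 := LT.wid_le_sz a
    refine (LT.abs_nval_lt a).le.trans ?_
    exact pow_le_pow_right₀ (by norm_num) (by omega)

private lemma pt_qlen {γ : Type} [Enc γ] {z : γ → ℕ} (hz : PT z) : PT fun a => qlen (z a) :=
  PT.add (PT.add (PT.add (PT.mul (PT.const 4) (PT.pow hz 3)) (PT.mul (PT.const 2) (PT.pow hz 2)))
    (PT.mul (PT.const 10) hz)) (PT.const 5)

/-- The vectors of the questions. -/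
theorem exists_vec {A S : Set Word} (h : WVote A S) :
    ∃ (V : ℕ × Word → List LT.Num) (p b : ℕ → ℕ), PT V ∧ PT p ∧ PT b ∧ (∀ z, 0 < p z) ∧
      (∀ z q, q.length ≤ qlen z → ∀ i, |LT.nval ((V (z, q)).getD i ([], []))| ≤ 2 ^ b z) ∧
      ∀ z, ∃ w : Fin (p z) → ℤ, (∀ k, |w k| ≤ 1) ∧ ∀ q, q.length ≤ qlen z →
        (q ∈ A → 0 < ∑ k, w k * vecZ (p z) (V (z, q)) k) ∧
        (q ∉ A → ∑ k, w k * vecZ (p z) (V (z, q)) k < 0) := by
  classical
  obtain ⟨k, out, d, c, hout, hdm, hSd, hred⟩ := h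
  obtain ⟨cf, hcf0, hcf⟩ : ∃ cf, 1 ≤ cf ∧ ∀ a, sz (out a) ≤ (sz a + 2) ^ cf := by
    obtain ⟨k', hk'⟩ := hout.size_le
    exact ⟨k' + 1, by omega, fun a => (hk' a).trans (Nat.pow_le_pow_right (by omega) (by omega))⟩
  let ℓ : ℕ → ℕ := fun z => (2 * qlen z + 2) ^ cf
  have hℓ : PT ℓ := PT.pow (PT.succ (PT.succ (PT.mul (PT.const 2) (pt_qlen PT.id)))) cf
  have hqℓ : ∀ z, qlen z ≤ ℓ z := by
    intro z
    have h1 : (2 * qlen z + 2) ^ 1 ≤ (2 * qlen z + 2) ^ cf :=
      Nat.pow_le_pow_right (by omega) hcf0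
    rw [pow_one] at h1
    show qlen z ≤ (2 * qlen z + 2) ^ cf
    omega
  have hsz : ∀ z q, q.length ≤ qlen z → sz (out q) ≤ ℓ z := by
    intro z q hq
    refine (hcf q).trans (Nat.pow_le_pow_left ?_ cf)
    have h2 := sz_word_le q
    omega
  let Q : ℕ → ℕ := fun z => ℓ z ^ c + c
  have hQ : PT Q := PT.add (PT.pow hℓ c) (PT.const c)
  let Fs : ℕ → Finset Word := fun z => (finite_words S (ℓ z)).toFinset
  let T : ℕ → Finset (List Word) := fun z =>
    (listsOf (Fs z) (d (ℓ z))).filter fun κ => sz κ ≤ ℓ z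
  have hTcard : ∀ z, (T z).card ≤ Q z := by
    intro z
    refine (Finset.card_filter_le _ _).trans ((card_listsOf_le _ _).trans ?_)
    have h1 := hSd (ℓ z)
    rw [Set.ncard_eq_toFinset_card _ (finite_words S (ℓ z))] at h1
    exact h1
  have hTcd : ∀ z, ∀ κ ∈ T z, (LT.cd κ).length ≤ 2 * ℓ z + 1 := by
    intro z κ hκ
    have h1 := (Finset.mem_filter.1 hκ).2
    rw [LT.length_cd]
    omega
  let pr : ℕ → ℕ := fun z => LT.nextPrime (2 * (ℓ z * (Q z * (2 * ℓ z + 1))))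
  have hpr : PT pr := PT.nextPrime (PT.mul (PT.const 2) (PT.mul hℓ (PT.mul hQ
    (PT.succ (PT.mul (PT.const 2) hℓ)))))
  have hprp : ∀ z, (pr z).Prime := fun z => LT.nextPrime_prime _
  have hprbig : ∀ z, 2 * (ℓ z * (Q z * (2 * ℓ z + 1))) < pr z := fun z => LT.lt_nextPrime _
  let V : ℕ × Word → List LT.Num := fun a => LT.wvec (ℓ a.1) k (pr a.1) (out a.2)
  have hV : PT V := PT.wvec (hℓ.comp PT.fst) k (hpr.comp PT.fst) (fun a => (hprp a.1).pos)
    (hout.comp PT.snd)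
  obtain ⟨kb, hkb⟩ := hV.size_le
  let b : ℕ → ℕ := fun z => (z + 2 * qlen z + 1 + 2) ^ kb
  have hb : PT b := PT.pow (PT.succ (PT.succ (PT.succ (PT.add PT.id
    (PT.mul (PT.const 2) (pt_qlen PT.id)))))) kb
  refine ⟨V, fun z => LT.wdim (ℓ z) k (pr z), b, hV, PT.wdim hℓ k hpr, hb,
    fun z => Nat.succ_pos _, ?_, ?_⟩
  · intro z q hq i
    refine (ltv_abs _ i).trans (pow_le_pow_right₀ (by norm_num) ?_)
    refine (hkb (z, q)).trans (Nat.pow_le_pow_left ?_ kb)
    have h1 := sz_word_le q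
    rw [sz_pair, sz_nat]
    omega
  · intro z
    refine ⟨fun i => (LT.wfun S (T z) (ℓ z) k (pr z)).getD i.val 0,
      fun i => LT.abs_wfun_le _ _ _ _ _ _, ?_⟩
    intro q hq
    obtain ⟨h4, h5⟩ := hred q
    have hszv := hsz z q hq
    have hout' : ∀ e ∈ out q, e.2 ∈ LT.keysT (ℓ z) k ∨
        (e.1.2 = [true] ∧ (e.2 ∈ T z ↔ ∀ w ∈ e.2, w ∈ S) ∧ (LT.cd e.2).length ≤ 2 * ℓ z + 1) := by
      intro e he
      have h6 := sz_mem_le he
      rw [sz_prod] at h6
      have h7 : ∀ w ∈ e.2, w.length ≤ ℓ z := by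
        intro w hw
        have h7 := sz_mem_le hw
        have h8 := length_le_sz w
        omega
      rcases h4 e he with ⟨h8, h9⟩ | ⟨h8, h9⟩
      · exact Or.inl (LT.mem_keysT.2 ⟨h8, fun w hw => ⟨h9 w hw, h7 w hw⟩⟩)
      · right
        have h8' := h8.trans (hdm (hq.trans (hqℓ z)))
        refine ⟨h9, ⟨fun h w hw => ?_, fun h => ?_⟩, ?_⟩
        · have := of_mem_listsOf _ _ _ (Finset.mem_filter.1 h).1 w hw
          simp only [Fs, Set.Finite.mem_toFinset] at this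
          exact this.1
        · refine Finset.mem_filter.2 ⟨mem_listsOf _ _ _ h8' fun w hw => ?_, by omega⟩
          simp only [Fs, Set.Finite.mem_toFinset]
          exact ⟨h w hw, h7 w hw⟩
        · rw [LT.length_cd]
          omega
    have hbig : 2 * ((out q).length * ((T z).card * (2 * ℓ z + 1))) < pr z := by
      refine lt_of_le_of_lt ?_ (hprbig z)
      exact Nat.mul_le_mul_left _ (Nat.mul_le_mul ((length_le_sz _).trans hszv)
        (Nat.mul_le_mul_right _ (hTcard z)))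
    have hsum : ∑ i : Fin (LT.wdim (ℓ z) k (pr z)),
        (LT.wfun S (T z) (ℓ z) k (pr z)).getD i.val 0 *
          vecZ (LT.wdim (ℓ z) k (pr z)) (V (z, q)) i =
        ∑ i ∈ Finset.range (LT.wdim (ℓ z) k (pr z)),
          (LT.wfun S (T z) (ℓ z) k (pr z)).getD i 0 *
            LT.nval ((LT.wvec (ℓ z) k (pr z) (out q)).getD i ([], [])) :=
      (Finset.sum_range fun i => (LT.wfun S (T z) (ℓ z) k (pr z)).getD i 0 *
        LT.nval ((LT.wvec (ℓ z) k (pr z) (out q)).getD i ([], []))).symm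
    constructor
    · intro hA
      have h6 := LT.pairing_sign (lam := 2 * ℓ z + 1) (hprp z) (hTcd z) hout' hbig true
        (by simpa using h5.1 hA)
      rw [hsum]
      simp only [sgn, if_true, one_mul] at h6
      exact h6
    · intro hA
      have h6 := LT.pairing_sign (lam := 2 * ℓ z + 1) (hprp z) (hTcd z) hout' hbig false
        (by simpa using fun h => hA (h5.2 h))
      rw [hsum]
      simp only [sgn, Bool.false_eq_true, if_false] at h6
      linarith

end Pool.Agent.Lib.MP_634427_lc.Maj
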