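import Pool.Agent.Lib.MP_634427_lc.Maj.LtChkSound
import Pool.Agent.Lib.MP_634427_lc.Maj.LtChkComplete
import Pool.Agent.Lib.MP_634427_lc.Maj.LtPT
import Pool.Agent.Lib.MP_634427_lc.Maj.LtPrm
import Pool.Agent.Lib.MP_634427_lc.Maj.LtVec
import Pool.Agent.Lib.MP_634427_lc.Maj.Gap
import Pool.Agent.Lib.MP_634427_lc.Maj.Quest
import Pool.Agent.Lib.MP_634427_lc.Hybrid

/-!
# NP = coNP and P = NP from hard sparse sets for non-adaptive weighted votes
-/

namespace Pool.Agent.Lib.MP_634427_lc.Maj

open Pool.Agent.Lib.MP_634427_lc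

/-- A non-adaptive weighted vote is a weighted reduction without adaptive phase. -/
theorem weighted_of_wvote {A S : Set Word} (h : WVote A S) : WeightedReducible A S := by
  obtain ⟨k, out, d, c, hout, hdm, hSd, hred⟩ := h
  have ha : ∀ (query : List Bool → Word) (n : ℕ),
      answers S (fun _ => true) query n = [] := by
    intro query n
    induction n with
    | zero => rfl
    | succ n ih =>
      show (if (true : Bool) = true then answers S (fun _ => true) query n
        else _) = []
      rw [if_pos rfl, ih]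
  refine ⟨k, fun _ => true, fun _ => [], fun a => out a.1, d, c, PT.const true, PT.const [],
    hout.comp PT.fst, hdm, hSd, fun x => ⟨[], (ha _ _).symm, rfl, Nat.zero_le _, ?_⟩⟩
  exact hred x

/-- If a sparse set is hard for NP under non-adaptive weighted votes, then NP = coNP. -/
theorem coNP_of_wvote (S : Set Word) (hS : Sparse S)
    (hard : ∀ A : Set Word, InNP A → WVote A S) (L : Set Word) (hL : InNP L) : InNP Lᶜ := by
  obtain ⟨Rel, m, hRel, hm, hLR⟩ := Small.exists_rel hL
  obtain ⟨A, hA, hAq⟩ := exists_quest hRel hm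
  obtain ⟨V, p0, b0, hV, hp0, hb0, hp0p, hVb, hw⟩ := exists_vec (hard A hA)
  obtain ⟨gap, hgap, hgs, hgc⟩ := exists_gap
    (projCands_of_weighted S hS fun A hA => weighted_of_wvote (hard A hA)) hRel hm
  obtain ⟨E, hE1, hE⟩ := exists_EW hp0
  let z : Word → ℕ := fun x => E * (x.length + m x + 2)
  have hz : PT z := PT.mul (PT.const E) (PT.succ (PT.succ (PT.add (PT.length PT.id) hm)))
  have hzE : ∀ x, x.length + m x + 2 ≤ z x := fun x => Nat.le_mul_of_pos_left _ hE1
  have hzE' : ∀ x, E ≤ z x := fun x => Nat.le_mul_of_pos_right _ (by omega)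
  let p : Word → ℕ := fun x => p0 (z x)
  let b : Word → ℕ := fun x => b0 (z x)
  let P : Word → ℕ := fun x => PW (p x) (z x)
  let M : Word → ℕ := fun x => MW (p x)
  let k0 : Word → ℕ := fun x => kW (p x) (z x)
  let u : Word → ℕ := fun x => uW (p x) (b x) (z x)
  let vt : Word × Word → List LT.Num := fun a => V (z a.1, a.2)
  have hprime : ∀ x, (P x).Prime := fun x => prime_PW (p x) (z x)
  have hp : PT p := hp0.comp hz
  have hb : PT b := hb0.comp hz
  have hPT : PT P := PT_PW hp hz
  have hMT : PT M := PT_MW hp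
  have hkT : PT k0 := PT_kW hp hz
  have huT : PT u := PT_uW hp hb hz
  have hvt : PT vt := hV.comp (PT.pair (hz.comp PT.fst) PT.snd)
  have hpp : ∀ x, 0 < p x := fun x => hp0p _
  have hlen : ∀ x, ∀ n ≤ m x + 2, ∀ D : Itm (P x) (m x) n,
      (quest x (P x) (itmL D)).length ≤ qlen (z x) := by
    intro x n hn D
    have : NeZero (P x) := ⟨(hprime x).ne_zero⟩
    have h1 := hzE x
    exact length_quest_le D (hE _ (hzE' x)) hn (by omega) (by omega)
  have hcard : ∀ x, P x ^ ((m x + 1) * (m x + 2)) ≤ 2 ^ cW (z x) := by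
    intro x
    have h1 := hzE x
    refine (Nat.pow_le_pow_left (hE _ (hzE' x)).le _).trans ?_
    rw [← pow_mul]
    refine Nat.pow_le_pow_right (by norm_num) (Nat.mul_le_mul_left _ ?_)
    rw [pow_two]
    exact Nat.mul_le_mul (by omega) (by omega)
  let W : Word → ℕ := fun x => wlen (P x) (m x) (M x) (p x) (u x)
  have hW : PT W := by
    have h1 : PT fun x => m x + 3 := PT.add hm (PT.const 3)
    have h2 : PT fun x => p x * (p x * (2 * u x + 4) + 1) :=
      PT.mul hp (PT.add (PT.mul hp (PT.add (PT.mul (PT.const 2) huT) (PT.const 4))) (PT.const 1))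
    have h3 : PT fun x => nlen (P x) (m x) :=
      PT.mul (PT.mul (PT.const 8) (PT.pow h1 2)) (PT.pow (PT.add hPT (PT.const 1)) 4)
    have h4 : PT fun x => p x * (u x + 1) := PT.mul hp (PT.add huT (PT.const 1))
    have h5 : PT fun x => P x ^ 4 * (p x * (u x + 1) + 1) :=
      PT.mul (PT.pow hPT 4) (PT.add h4 (PT.const 1))
    exact PT.mul h1 (PT.add (PT.add h2 (PT.mul hMT (PT.add (PT.add (PT.add h3 h4) h5)
      (PT.const 3)))) (PT.const 2))
  obtain ⟨e, he⟩ := hW.size_le
  have hdI : Small.HasDec IL := Small.hasDec_list (Small.hasDec_list Small.hasDec_nat)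
  have hdL : Small.HasDec (List ℕ) := Small.hasDec_list Small.hasDec_nat
  have hdN : Small.HasDec Node := Small.hasDec_prod (Small.hasDec_prod hdI
    (Small.hasDec_prod (Small.hasDec_prod hdL hdL) hdI)) hdL
  have hdw : Small.HasDec Word := Small.hasDec_list Small.hasDec_bool
  have hdec : Small.HasDec (List WLev) := Small.hasDec_list (Small.hasDec_prod
    (Small.hasDec_list (Small.hasDec_list (Small.hasDec_prod hdw hdw)))
    (Small.hasDec_list (Small.hasDec_prod hdN (Small.hasDec_prod hdL (Small.hasDec_list hdL)))))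
  refine Small.inNP_of_cert hdec (checkW vt gap m P k0 M p u)
    (PT.majCheckW hvt hgap hm hPT hkT hMT hp huT) Lᶜ ?_ e ?_
  · intro x Y h
    have : NeZero (P x) := ⟨(hprime x).ne_zero⟩
    rw [Set.mem_compl_iff, hLR]
    obtain ⟨w, hw1, hw2⟩ := hw (z x)
    have hT := checkW_sound x (hprime x) (TW Rel m x) w hw1 (hpp x)
      (fun n hn D hD => (hw2 _ (hlen x n hn D)).1 ((hAq x (P x) n D).2 hD))
      (fun n hn D hD => (hw2 _ (hlen x n hn D)).2 fun h => hD ((hAq x (P x) n D).1 h))
      (fun n D => hgs x (P x) (k0 x) n D) (MW_pos (hpp x)) le_rfl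
      (wprm_P' _ (by have := hzE x; omega)) Y h
    rintro ⟨w, h1, h2⟩
    have h3 : (fun j : Fin (m x) => w.getD j.val false) ∈ TW Rel m x := by
      have h4 : List.ofFn (fun j : Fin (m x) => w.getD j.val false) = w := by
        refine List.ext_getElem (by simp [h1]) fun i h5 h6 => ?_
        simp [List.getD_eq_getElem?_getD, h6]
      simp only [TW, Finset.mem_filter, Finset.mem_univ, true_and, h4]
      exact h2
    rw [hT] at h3
    exact absurd h3 (Finset.notMem_empty _)
  · intro x hx
    rw [Set.mem_compl_iff, hLR] at hx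
    have hT : TW Rel m x = ∅ := by
      refine Finset.eq_empty_of_forall_notMem fun w hw => hx ⟨List.ofFn w, by simp, ?_⟩
      simpa [TW] using hw
    obtain ⟨Y, h1, h2⟩ := checkW_complete (vt := vt) (gap := gap) (m := m) (P := P) (k0 := k0)
      (M := M) (p := p) (u := u) x (hprime x) (hpp x) (b x) (cW (z x))
      (fun n hn D k => hVb (z x) _ (hlen x n hn D) k.val) (hcard x) rfl
      (fun D => hgc x (P x) (k0 x) D hT) le_rfl (wprm_P _ _)
    have h3 := he x
    rw [sz_nat] at h3
    exact ⟨Y, h1.trans h3, h2⟩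

/-- If a sparse set is hard for NP under non-adaptive weighted votes, then P = NP. -/
theorem inP_of_wvote (S : Set Word) (hS : Sparse S)
    (hard : ∀ A : Set Word, InNP A → WVote A S) (L : Set Word) (hL : InNP L) : InP L :=
  Small.inP_of_coNP (projCands_of_weighted S hS fun A hA => weighted_of_wvote (hard A hA))
    (coNP_of_wvote S hS hard) L hL

end Pool.Agent.Lib.MP_634427_lc.Maj
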