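import Pool.Agent.Lib.MP_634427_lc.LT.WModel

/-!
# Non-adaptive weighted votes
-/

namespace Pool.Agent.Lib.MP_634427_lc

/-- `A` is reducible to `S` by a polynomial-time non-adaptive weighted vote: from the input `x` one
computes in polynomial time a list of bundles of words with integer weights in binary (`out`), and
`x ∈ A` if and only if the sum of the weights of the bundles inside `S` is positive. Each bundle
either consists of at most `k` words in `0*`, with an arbitrary weight, or of at most `d |x|` words,
with weight `1` or `-1`. Here `k` is a constant, `d` is nondecreasing and `(σ n + 1) ^ d n` is at most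
polynomial for the density `σ` of `S` (for sparse `S` any constant `d` is admitted). -/
def WVote (A S : Set Word) : Prop :=
  ∃ (k : ℕ) (out : Word → List ((Bool × List Bool) × List Word)) (d : ℕ → ℕ) (c : ℕ),
    PT out ∧ Monotone d ∧ (∀ n, ({w ∈ S | w.length ≤ n}.ncard + 1) ^ d n ≤ n ^ c + c) ∧
    ∀ x, (∀ e ∈ out x, (e.2.length ≤ k ∧ ∀ w ∈ e.2, onlyZeros w = true) ∨
        (e.2.length ≤ d x.length ∧ e.1.2 = [true])) ∧
      (x ∈ A ↔ 0 < votes S (out x))

end Pool.Agent.Lib.MP_634427_lc
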