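import Pool.Agent.Lib.MP_634427_lc.Maj.Num
import Pool.Agent.Lib.MP_634427_lc.LT.IsoAlg

/-!
# Weighted votes: the certificate and its check, on lists

`vt (x, q)` is the list of the `p` integers (in binary) attached to the question `q`.
-/

namespace Pool.Agent.Lib.MP_634427_lc.Maj

open Pool.Agent.Lib.MP_634427_lc

/-- An entry of `2 a + e_j`. -/
def vvN (a : List LT.Num) (j s : ℕ) : LT.Num :=
  LT.nadd (LT.nadd (a.getD s ([], [])) (a.getD s ([], [])))
    (bif decide (s = j) then LT.nofNat 1 else LT.nofNat 0)

/-- The `r`-th entry of `2 ^ e • T (2 a + e_j)`. -/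
def psiN (p : ℕ) (T : List (List LT.Num)) (a : List LT.Num) (e j r : ℕ) : LT.Num :=
  LT.nmul (LT.npow2 e) (LT.nsum ((List.range p).map fun s =>
    LT.nmul (LT.entry T r s) (vvN a j s)))

/-- A family of items: for each item its vector and its exponents. -/
abbrev Fam : Type := List (List LT.Num × List ℕ)

/-- The sum of the vectors of a family, an entry. -/
def fm1 (p : ℕ) (T : List (List LT.Num)) (G : Fam) (r : ℕ) : LT.Num :=
  LT.nsum (G.flatMap fun g => (List.range p).map fun j => psiN p T g.1 (g.2.getD j 0) j r)

/-- The second moment of the vectors of a family, an entry. -/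
def fm2 (p : ℕ) (T : List (List LT.Num)) (G : Fam) (r r' : ℕ) : LT.Num :=
  LT.nsum (G.flatMap fun g => (List.range p).map fun j =>
    LT.nmul (psiN p T g.1 (g.2.getD j 0) j r) (psiN p T g.1 (g.2.getD j 0) j r'))

/-- Is `|a| ≤ b`? -/
def absle (a b : LT.Num) : Bool := LT.nle a b && LT.nle (LT.nneg a) b

/-- The vectors have length at most `3 p U`, `U = 2 ^ u`. -/
def c1N (p u : ℕ) (T : List (List LT.Num)) (G : Fam) : Bool :=
  G.all fun g => (List.range p).all fun j =>
    LT.nle (LT.nsum ((List.range p).map fun r =>
        LT.nmul (psiN p T g.1 (g.2.getD j 0) j r) (psiN p T g.1 (g.2.getD j 0) j r)))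
      (LT.nmul (LT.nofNat (9 * p ^ 2)) (LT.npow2 (2 * u)))

/-- The family of `N` items is almost isotropic. -/
def c2N (p u N : ℕ) (T : List (List LT.Num)) (G : Fam) : Bool :=
  (List.range p).all fun r => (List.range p).all fun r' =>
    absle (LT.nadd (LT.nmul (LT.nofNat (2 * p)) (fm2 p T G r r'))
        (LT.nneg (LT.nmul (LT.nofNat (if r = r' then 2 * p * (N * p) else 0)) (LT.npow2 (2 * u)))))
      (LT.nmul (LT.nofNat (N * p)) (LT.npow2 (2 * u)))

/-- The means over the family `G` of `N` items and over the family `G'` of `M` items are close. -/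
def c3N (p u N M : ℕ) (T : List (List LT.Num)) (G G' : Fam) : Bool :=
  (List.range p).all fun r =>
    absle (LT.nmul (LT.nofNat (16 * p ^ 2)) (LT.nadd (LT.nmul (LT.nofNat M) (fm1 p T G r))
        (LT.nneg (LT.nmul (LT.nofNat N) (fm1 p T G' r)))))
      (LT.nmul (LT.nofNat (M * N * p)) (LT.npow2 u))

/-- A node: item, parameters, coefficients of a combination, exponents of the item, exponents of
its children. -/
abbrev WNode : Type := Node × (List ℕ × List (List ℕ))

/-- The default node. -/
def wnil : WNode := ((([], (([], []), [])), []), ([], []))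

/-- Level `n` of the certificate: the matrix for the comparison with level `n + 1`, the nodes. -/
abbrev WLev : Type := List (List LT.Num) × List WNode

/-- The family of the children of a node. -/
def famK (vt : Word × Word → List LT.Num) (x : Word) (P m n : ℕ) (a : WNode) : Fam :=
  (List.range P).flatMap fun t => (List.range P).flatMap fun t' =>
    (List.range P).flatMap fun g => (List.range P).map fun c =>
      (vt (x, quest x P (kidN P m n a.1.1.1 a.1.1.2 t t' g c)),
        a.2.2.getD (sidx P t t' g * P + c) [])

/-- The family of the items of a list of nodes of level `n`. -/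
def famL (vt : Word × Word → List LT.Num) (x : Word) (P m n : ℕ) (Y : List WNode) : Fam :=
  Y.map fun a => (vt (x, quest x P (normN P m n a.1.1.1)), a.2.1)

/-- The tests for a node of level `n`. -/
def nodeW (vt : Word × Word → List LT.Num) (gap : (Word × (ℕ × ℕ)) × IL → Bool) (x : Word)
    (P m k0 M p u n : ℕ) (T : List (List LT.Num)) (G' : Fam) (a : WNode) : Bool :=
  gap ((x, (P, k0)), normN P m n a.1.1.1) && (c1N p u T (famK vt x P m n a) &&
    (c2N p u (P ^ 4) T (famK vt x P m n a) && c3N p u (P ^ 4) M T (famK vt x P m n a) G'))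

/-- The check of a certificate. -/
def checkW (vt : Word × Word → List LT.Num) (gap : (Word × (ℕ × ℕ)) × IL → Bool)
    (m P k0 M p u : Word → ℕ) (a : Word × List WLev) : Bool :=
  ((List.range (m a.1 + 3)).all fun n => decide ((a.2.getD n ([], [])).2.length = M a.1)) &&
  (((List.range (m a.1 + 2)).all fun n => (a.2.getD n ([], [])).2.all fun b =>
      nodeW vt gap a.1 (P a.1) (m a.1) (k0 a.1) (M a.1) (p a.1) (u a.1) n
        (a.2.getD n ([], [])).1
        (famL vt a.1 (P a.1) (m a.1) (n + 1) (a.2.getD (n + 1) ([], [])).2) b) &&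
    (a.2.getD (m a.1 + 2) ([], [])).2.all fun b =>
      botN (P a.1) (m a.1) (m a.1 + 2) b.1.1.1 b.1.2)

end Pool.Agent.Lib.MP_634427_lc.Maj
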