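import Pool.Agent.Lib.MP_634427_lc.Maj.CheckComplete
import Pool.Agent.Lib.MP_634427_lc.Maj.CheckPT
import Pool.Agent.Lib.MP_634427_lc.Maj.Gap
import Pool.Agent.Lib.MP_634427_lc.Maj.PrmPT
import Pool.Agent.Lib.MP_634427_lc.Maj.CheckSound
import Pool.Agent.Lib.MP_634427_lc.Maj.Quest
import Pool.Agent.Lib.MP_634427_lc.Hybrid

/-!
# NP = coNP and P = NP from hard sparse sets for threshold truth-table reductions
-/

namespace Pool.Agent.Lib.MP_634427_lc.Maj

open Pool.Agent.Lib.MP_634427_lc

/-- If a set is hard for NP under threshold truth-table reductions, then NP = coNP. -/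
theorem coNP_of_thr (S : Set Word) (hard : ∀ A : Set Word, InNP A → PThrReducible A S)
    (L : Set Word) (hL : InNP L) : InNP Lᶜ := by
  obtain ⟨Rel, m, hRel, hm, hLR⟩ := Small.exists_rel hL
  obtain ⟨A, hA, hAq⟩ := exists_quest hRel hm
  obtain ⟨f, d, c, hf, hdm, hS, hfd, hfA⟩ := hard A hA
  obtain ⟨cf, hcf0, hcf⟩ : ∃ cf, 1 ≤ cf ∧ ∀ a, sz (f a) ≤ (sz a + 2) ^ cf := by
    obtain ⟨k, hk⟩ := hf.size_le
    exact ⟨k + 1, by omega, fun a => (hk a).trans (Nat.pow_le_pow_right (by omega) (by omega))⟩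
  obtain ⟨gap, hgap, hgs, hgc⟩ := exists_gap (projCands_of_thr S hard) hRel hm
  obtain ⟨E, hE1, hE⟩ := exists_E cf c
  let z : Word → ℕ := fun x => E * (x.length + m x + 2)
  have hz : PT z := PT.mul (PT.const E) (PT.succ (PT.succ (PT.add (PT.length PT.id) hm)))
  have hzE : ∀ x, x.length + m x + 2 ≤ z x := fun x => Nat.le_mul_of_pos_left _ hE1
  have hzE' : ∀ x, E ≤ z x := fun x => Nat.le_mul_of_pos_right _ (by omega)
  let P : Word → ℕ := fun x => PZ cf c (z x)
  let R : Word → ℕ := fun x => RZ cf c (z x)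
  let M : Word → ℕ := fun x => MZ cf c (z x)
  let k0 : Word → ℕ := fun x => kZ cf c (z x)
  let p : Word → ℕ := fun x => pZ cf (z x)
  have hprime : ∀ x, (P x).Prime := fun x => prime_PZ cf c (z x)
  have hPT : PT P := PT.majP cf c hz
  have hRT : PT R := PT.majR cf c hz
  have hMT : PT M := PT.majM cf c hz
  have hkT : PT k0 := PT.majk cf c hz
  have hlen : ∀ x, ∀ n ≤ m x + 2, ∀ D : Itm (P x) (m x) n,
      (quest x (P x) (itmL D)).length ≤ qlen (z x) := by
    intro x n hn D
    have : NeZero (P x) := ⟨(hprime x).ne_zero⟩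
    have h1 := hzE x
    exact length_quest_le D (hE _ (hzE' x)) hn (by omega) (by omega)
  have hsz : ∀ x, ∀ n ≤ m x + 2, ∀ D : Itm (P x) (m x) n,
      sz (f (quest x (P x) (itmL D))) ≤ p x := by
    intro x n hn D
    refine (hcf _).trans (Nat.pow_le_pow_left ?_ cf)
    have h1 := hlen x n hn D
    have h2 := sz_word_le (quest x (P x) (itmL D))
    omega
  have hp : ∀ x, ∀ n ≤ m x + 2, ∀ D : Itm (P x) (m x) n,
      (f (quest x (P x) (itmL D))).length ≤ p x := fun x n hn D =>
    (length_le_sz _).trans (hsz x n hn D)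
  have hqp : ∀ x, qlen (z x) ≤ p x := by
    intro x
    have h1 : (2 * qlen (z x) + 2) ^ 1 ≤ (2 * qlen (z x) + 2) ^ cf :=
      Nat.pow_le_pow_right (by omega) hcf0
    rw [pow_one] at h1
    show qlen (z x) ≤ (2 * qlen (z x) + 2) ^ cf
    omega
  let BS : Word → Finset (List Word) := fun x =>
    listsOf (finite_words S (p x)).toFinset (d (p x))
  have hBS : ∀ x, ∀ b ∈ BS x, ∀ w ∈ b, w ∈ S := by
    intro x b hb w hw
    have h1 := of_mem_listsOf _ _ _ hb w hw
    rw [Set.Finite.mem_toFinset] at h1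
    exact h1.1
  have hBS' : ∀ x, ∀ n ≤ m x + 2, ∀ D : Itm (P x) (m x) n, ∀ e ∈ f (quest x (P x) (itmL D)),
      (∀ w ∈ e.2, w ∈ S) → e.2 ∈ BS x := by
    intro x n hn D e he hw
    have h1 := hsz x n hn D
    refine mem_listsOf _ _ _ ((hfd _ e he).trans (hdm ((hlen x n hn D).trans (hqp x))))
      fun w hwe => ?_
    rw [Set.Finite.mem_toFinset]
    refine ⟨hw w hwe, ?_⟩
    have h2 := sz_mem_le he
    have h3 := sz_mem_le hwe
    have h4 := length_le_sz w
    rw [sz_prod] at h2
    omega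
  have hcard : ∀ x, 4 * (BS x).card ≤ R x := by
    intro x
    have h1 := card_listsOf_le (finite_words S (p x)).toFinset (d (p x))
    have h2 := hS (p x)
    rw [Set.ncard_eq_toFinset_card _ (finite_words S (p x))] at h2
    show 4 * (BS x).card ≤ 4 * (pZ cf (z x) ^ c + c) + 1
    have h3 : (BS x).card ≤ pZ cf (z x) ^ c + c := h1.trans h2
    omega
  have hM0 : ∀ x, 0 < M x := fun x => Nat.succ_pos _
  have hR0 : ∀ x, 0 < R x := fun x => Nat.succ_pos _
  let W : Word → ℕ := fun x => (m x + 3) * (M x * (8 * (m x + 3) ^ 2 * (P x + 1) ^ 4 + 1) + 1)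
  have hW : PT W := by
    have h3 : PT fun x => m x + 3 := PT.succ (PT.succ (PT.succ hm))
    exact PT.mul h3 (PT.succ (PT.mul hMT (PT.succ (PT.mul (PT.mul (PT.const 8) (PT.pow h3 2))
      (PT.pow (PT.succ hPT) 4)))))
  obtain ⟨e, he⟩ := hW.size_le
  have hdI : Small.HasDec IL := Small.hasDec_list (Small.hasDec_list Small.hasDec_nat)
  have hdL : Small.HasDec (List ℕ) := Small.hasDec_list Small.hasDec_nat
  have hdec : Small.HasDec (List (List Node)) := Small.hasDec_list (Small.hasDec_list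
    (Small.hasDec_prod (Small.hasDec_prod hdI (Small.hasDec_prod (Small.hasDec_prod hdL hdL) hdI))
      hdL))
  refine Small.inNP_of_cert hdec (check f gap m P k0 M R)
    (pt_check hf hgap hm hPT hkT hMT hRT) Lᶜ ?_ e ?_
  · intro x Y h
    have : NeZero (P x) := ⟨(hprime x).ne_zero⟩
    rw [Set.mem_compl_iff, hLR]
    have hT := check_sound x (hprime x) S (TW Rel m x) (BS x) (p x)
      (fun n _ D => by rw [← hfA, hAq]) (hBS x) (hBS' x) (hp x)
      (fun n _ D => hgs x (P x) (k0 x) n D) (hM0 x) (hcard x) (hR0 x) le_rfl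
      (prm_P' cf c (by have := hzE x; omega)) Y h
    rintro ⟨w, h1, h2⟩
    have h3 : (fun j : Fin (m x) => w.getD j.val false) ∈ TW Rel m x := by
      have h4 : List.ofFn (fun j : Fin (m x) => w.getD j.val false) = w := by
        refine List.ext_getElem (by simp [h1]) fun i h5 h6 => ?_
        simp [List.getD_eq_getElem?_getD, h6]
      simp only [TW, Finset.mem_filter, Finset.mem_univ, true_and, h4]
      exact h2
    rw [hT] at h3
    exact absurd h3 (Finset.notMem_empty _)
  · intro x hx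
    rw [Set.mem_compl_iff, hLR] at hx
    have hT : TW Rel m x = ∅ := by
      refine Finset.eq_empty_of_forall_notMem fun w hw => hx ⟨List.ofFn w, by simp, ?_⟩
      simpa [TW] using hw
    obtain ⟨Y, h1, h2⟩ := check_complete (f := f) (gap := gap) (m := m) (P := P) (k0 := k0)
      (M := M) (R := R) x (hprime x) (p x) (hp x) (fun D => hgc x (P x) (k0 x) D hT) (hM0 x)
      (hR0 x) (prm_M cf c (z x)) (prm_P cf c (z x))
    have h3 := he x
    rw [sz_nat] at h3
    exact ⟨Y, h1.trans h3, h2⟩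

/-- If a set is hard for NP under threshold truth-table reductions, then P = NP. -/
theorem inP_of_thr (S : Set Word) (hard : ∀ A : Set Word, InNP A → PThrReducible A S)
    (L : Set Word) (hL : InNP L) : InP L :=
  Small.inP_of_coNP (projCands_of_thr S hard) (coNP_of_thr S hard) L hL

end Pool.Agent.Lib.MP_634427_lc.Maj
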