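import Pool.Agent.Lib.MP_634427_lc.Maj.Defs
import Pool.Agent.Lib.MP_634427_lc.LD.Bits
import Pool.Agent.Lib.MP_634427_lc.LT.Hash

/-!
# Items, parameters and children as lists of natural numbers
-/

namespace Pool.Agent.Lib.MP_634427_lc.Maj

open Pool.Agent.Lib.MP_634427_lc

/-- An item as a list of rows, each row is the list of the constant and the coefficients. -/
abbrev IL : Type := List (List ℕ)

/-- The parameters `u`, `u'` and the list of the multipliers, ordered by the seeds. -/
abbrev PL : Type := (List ℕ × List ℕ) × List (List ℕ)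

/-- A node of the certificate: an item, its parameters, and the coefficients of a combination. -/
abbrev Node : Type := (IL × PL) × List ℕ

/-! ### From items to lists and back -/

/-- The list of a row. -/
def rowL {P m : ℕ} (r : Row P m) : List ℕ := r.2.val :: List.ofFn fun j => (r.1 j).val

/-- The list of an item. -/
def itmL {P m n : ℕ} (D : Itm P m n) : IL := List.ofFn fun i => rowL (D i)

/-- The row given by a list. -/
def rowC (P m : ℕ) (r : List ℕ) : Row P m :=
  (fun j => ((r.getD (j.val + 1) 0 : ℕ) : ZMod P), ((r.getD 0 0 : ℕ) : ZMod P))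

/-- The item given by a list. -/
def itmC (P m n : ℕ) (D : IL) : Itm P m n := fun i => rowC P m (D.getD i.val [])

/-- The position of a seed. -/
def sidx (P t t' g : ℕ) : ℕ := (t * P + t') * P + g

/-- The parameters given by lists. -/
def parC (P m n : ℕ) (π : PL) : Par P m n :=
  ((fun j => ((π.1.1.getD j.val 0 : ℕ) : ZMod P), fun j => ((π.1.2.getD j.val 0 : ℕ) : ZMod P)),
    fun s i => (((π.2.getD (sidx P s.1.val s.2.1.val s.2.2.val) []).getD i.val 0 : ℕ) : ZMod P))

/-- The lists of given parameters. -/
def parL {P m n : ℕ} (π : Par P m n) : PL :=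
  ((List.ofFn fun j => (π.1.1 j).val, List.ofFn fun j => (π.1.2 j).val),
    (List.range (P ^ 3)).map fun k => List.ofFn fun i =>
      (π.2 (((k / P / P : ℕ) : ZMod P), (((k / P : ℕ) : ZMod P), ((k : ℕ) : ZMod P))) i).val)

/-! ### Computations -/

/-- Reduce the entries, fill up with zeros. -/
def normN (P m n : ℕ) (D : IL) : IL :=
  (List.range n).map fun i => (List.range (m + 1)).map fun j => (D.getD i []).getD j 0 % P

/-- Powers modulo `P` (the modulus is written so that it is positive also for `P = 0`). -/
def pwN (P t j : ℕ) : ℕ := t ^ j % (P - 1 + 1)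

/-- A coefficient of the new row. -/
def vecN (P : ℕ) (u u' : List ℕ) (t t' g j : ℕ) : ℕ :=
  g * pwN P t (j + 2) + pwN P t' (j + 2) + (g + 1) * u.getD j 0 + (g * t + t') * u'.getD j 0

/-- The new row. -/
def newN (P m : ℕ) (u u' : List ℕ) (t t' g c : ℕ) : List ℕ :=
  c % P :: (List.range m).map fun j => vecN P u u' t t' g j % P

/-- The child of `D` with new row `x` and multipliers `v`. -/
def chN (P m n : ℕ) (D : IL) (v x : List ℕ) : IL :=
  x :: (List.range n).map fun i => (List.range (m + 1)).map fun j =>
    ((D.getD i []).getD j 0 + v.getD i 0 * x.getD j 0) % P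

/-- A child. -/
def kidN (P m n : ℕ) (D : IL) (π : PL) (t t' g c : ℕ) : IL :=
  chN P m n D (π.2.getD (sidx P t t' g) []) (newN P m π.1.1 π.1.2 t t' g c)

/-- All children. -/
def kidsN (P m n : ℕ) (D : IL) (π : PL) : List IL :=
  (List.range P).flatMap fun t => (List.range P).flatMap fun t' =>
    (List.range P).flatMap fun g => (List.range P).map fun c => kidN P m n D π t t' g c

/-- Is the combination of the rows with coefficients `y` the equation `1 = 0`? -/
def botN (P m n : ℕ) (D : IL) (y : List ℕ) : Bool :=
  (List.range (m + 1)).all fun j =>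
    decide (((List.range n).map fun i => y.getD i 0 * (D.getD i []).getD j 0).sum % P =
      if j = 0 then 1 else 0)

/-- The question about an item: binary numbers. -/
def quest (x : Word) (P : ℕ) (D : IL) : Word :=
  code (enc (x, (LD.bits P, D.map fun r => r.map LD.bits)))

/-- The witnesses. -/
def TW (Rel : Word × Word → Bool) (m : Word → ℕ) (x : Word) : Finset (Fin (m x) → Bool) :=
  Finset.univ.filter fun w => Rel (x, List.ofFn w) = true

end Pool.Agent.Lib.MP_634427_lc.Maj
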