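import Pool.Agent.Lib.MP_634427_lc.Maj.Defs

/-!
# Pairs of seeds: independence of the children

Proof. `sdet s s' ≠ 0` gives `s ≠ s'`, so the multiplier vectors `π.2 s`, `π.2 s'` are independent
and uniform, and independent of `u, u'`. The coefficient vectors are
`vec u u' s = a • u + b • u' + k`, `vec u u' s' = a' • u + b' • u' + k'` with
`a * b' - a' * b = sdet s s' ≠ 0` and `k, k'` independent of `u, u'`, so
`(u, u') ↦ (vec u u' s, vec u u' s')` is a bijection of `(Fin m → ZMod P) × (Fin m → ZMod P)`.
Hence the mean over `π, c, c'` of `F (child D (π.2 s) (vec u u' s, c)) * G (child D (π.2 s') ..)`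
is the mean over independent `x, v, x', v'` of `F (child D v x) * G (child D v' x')`
(Finset.expect_equiv / Fintype.expect_equiv, split of the product space, Finset.expect_mul_expect).
-/

namespace Pool.Agent.Lib.MP_634427_lc.Maj

open Finset
open scoped BigOperators

/-- The mean over the source of a surjective homomorphism. -/
private theorem pair_surj {A B : Type*} [AddCommGroup A] [Fintype A] [AddCommGroup B] [Fintype B]
    [DecidableEq B] (f : A →+ B) (hf : Function.Surjective f) (Φ : B → ℝ) :
    𝔼 a, Φ (f a) = 𝔼 b, Φ b := by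
  obtain ⟨N, hN⟩ : ∃ N : ℕ, N = (univ.filter fun a => f a = 0).card := ⟨_, rfl⟩
  have h1 : ∀ b, (univ.filter fun a => f a = b).card = N := by
    intro b
    rw [hN]
    exact AddMonoidHom.card_fiber_eq_of_mem_range f (hf b) (hf 0)
  have h2 : ∀ Ψ : B → ℝ, ∑ a, Ψ (f a) = N * ∑ b, Ψ b := by
    intro Ψ
    rw [← Finset.sum_fiberwise univ (fun a => f a) (fun a => Ψ (f a)), Finset.mul_sum]
    refine Finset.sum_congr rfl fun b _ => ?_
    have h3 : ∑ a ∈ univ.filter (fun a => f a = b), Ψ (f a) =
        ∑ a ∈ univ.filter (fun a => f a = b), Ψ b := by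
      refine Finset.sum_congr rfl fun a ha => ?_
      rw [(Finset.mem_filter.1 ha).2]
    rw [h3, Finset.sum_const, h1, nsmul_eq_mul]
  have h4 : (Fintype.card A : ℝ) = N * Fintype.card B := by
    have h5 := h2 fun _ => 1
    simpa using h5
  have hN0 : (N : ℝ) ≠ 0 := by
    rw [Nat.cast_ne_zero, hN, ← Nat.pos_iff_ne_zero, Finset.card_pos]
    exact ⟨0, Finset.mem_filter.2 ⟨Finset.mem_univ _, map_zero f⟩⟩
  rw [Fintype.expect_eq_sum_div_card, Fintype.expect_eq_sum_div_card, h2, h4,
    mul_div_mul_left _ _ hN0]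

/-- Two different values of a random function are independent. -/
private theorem pair_indep {ι β : Type*} [Fintype ι] [DecidableEq ι] [AddCommGroup β] [Fintype β]
    [DecidableEq β] {s s' : ι} (h : s ≠ s') (a b : β → ℝ) :
    𝔼 V : ι → β, a (V s) * b (V s') = (𝔼 v, a v) * 𝔼 v, b v := by
  have h1 := pair_surj (A := ι → β) (B := β × β)
    ((Pi.evalAddMonoidHom (fun _ : ι => β) s).prod (Pi.evalAddMonoidHom (fun _ : ι => β) s'))
    (fun p => ⟨Function.update (fun _ => p.1) s' p.2, by
      refine Prod.ext ?_ ?_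
      · change Function.update (fun _ : ι => p.1) s' p.2 s = p.1
        exact Function.update_of_ne h _ _
      · change Function.update (fun _ : ι => p.1) s' p.2 s' = p.2
        exact Function.update_self _ _ _⟩) (fun p => a p.1 * b p.2)
  refine h1.trans ?_
  rw [← Finset.univ_product_univ, Finset.expect_product, Fintype.expect_mul_expect]

/-- For the other pairs the children are independent, given the item. -/
theorem pair_good {P m n : ℕ} [Fact P.Prime] {s s' : Seed P} (h : sdet s s' ≠ 0)
    (F G : Itm P m (n + 1) → ℝ) :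
    𝔼 D : Itm P m n, 𝔼 π : Par P m n, 𝔼 c : ZMod P, 𝔼 c' : ZMod P,
        F (kid D π s c) * G (kid D π s' c') =
      𝔼 D : Itm P m n, (𝔼 x : Row P m, 𝔼 v : Fin n → ZMod P, F (child D v x)) *
        (𝔼 x : Row P m, 𝔼 v : Fin n → ZMod P, G (child D v x)) := by
  have hne : s ≠ s' := by
    rintro rfl
    exact h (sub_self _)
  refine Finset.expect_congr rfl fun D _ => ?_
  -- the coefficients of the new equations
  have hbij : Function.Bijective fun p : (Fin m → ZMod P) × (Fin m → ZMod P) =>
      (vec p.1 p.2 s, vec p.1 p.2 s') := by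
    refine Finite.injective_iff_bijective.1 ?_
    rintro ⟨u, u'⟩ ⟨w, w'⟩ he
    have he1 : vec u u' s = vec w w' s := congrArg Prod.fst he
    have he2 : vec u u' s' = vec w w' s' := congrArg Prod.snd he
    have key : ∀ j, u j = w j ∧ u' j = w' j := by
      intro j
      have e1 := congrFun he1 j
      have e2 := congrFun he2 j
      simp only [vec] at e1 e2
      have f1 : (s.2.2 + 1) * (u j - w j) + (s.2.2 * s.1 + s.2.1) * (u' j - w' j) = 0 := by
        linear_combination e1
      have f2 : (s'.2.2 + 1) * (u j - w j) + (s'.2.2 * s'.1 + s'.2.1) * (u' j - w' j) = 0 := by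
        linear_combination e2
      have g1 : sdet s s' * (u j - w j) = 0 := by
        unfold sdet
        linear_combination (s'.2.2 * s'.1 + s'.2.1) * f1 - (s.2.2 * s.1 + s.2.1) * f2
      have g2 : sdet s s' * (u' j - w' j) = 0 := by
        unfold sdet
        linear_combination (s.2.2 + 1) * f2 - (s'.2.2 + 1) * f1
      exact ⟨sub_eq_zero.1 ((mul_eq_zero.1 g1).resolve_left h),
        sub_eq_zero.1 ((mul_eq_zero.1 g2).resolve_left h)⟩
    refine Prod.ext (funext fun j => (key j).1) (funext fun j => (key j).2)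
  have h1 : ∀ V : Seed P → Fin n → ZMod P,
      𝔼 p : (Fin m → ZMod P) × (Fin m → ZMod P), 𝔼 c : ZMod P, 𝔼 c' : ZMod P,
        F (kid D (p, V) s c) * G (kid D (p, V) s' c') =
      (𝔼 x : Row P m, F (child D (V s) x)) * 𝔼 x : Row P m, G (child D (V s') x) := by
    intro V
    have h2 := Fintype.expect_bijective _ hbij
      (fun p => 𝔼 c : ZMod P, 𝔼 c' : ZMod P, F (kid D (p, V) s c) * G (kid D (p, V) s' c'))
      (fun q => (𝔼 c : ZMod P, F (child D (V s) (q.1, c))) *
        𝔼 c : ZMod P, G (child D (V s') (q.2, c)))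
      (fun p => (Fintype.expect_mul_expect _ _).symm)
    refine h2.trans ?_
    have h3 : ∀ f : Row P m → ℝ, 𝔼 x : Row P m, f x =
        𝔼 y : Fin m → ZMod P, 𝔼 c : ZMod P, f (y, c) := by
      intro f
      rw [← Finset.univ_product_univ, Finset.expect_product]
    rw [h3, h3, Fintype.expect_mul_expect, ← Finset.univ_product_univ, Finset.expect_product]
  have h4 : 𝔼 π : Par P m n, 𝔼 c : ZMod P, 𝔼 c' : ZMod P,
      F (kid D π s c) * G (kid D π s' c') =
      𝔼 V : Seed P → Fin n → ZMod P, 𝔼 p : (Fin m → ZMod P) × (Fin m → ZMod P),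
        𝔼 c : ZMod P, 𝔼 c' : ZMod P, F (kid D (p, V) s c) * G (kid D (p, V) s' c') := by
    rw [← Finset.univ_product_univ, Finset.expect_product, Finset.expect_comm]
  rw [h4, Finset.expect_congr rfl fun V _ => h1 V,
    pair_indep hne (fun v => 𝔼 x : Row P m, F (child D v x))
      (fun v => 𝔼 x : Row P m, G (child D v x)),
    Finset.expect_comm univ univ (fun v x => F (child D v x)),
    Finset.expect_comm univ univ (fun v x => G (child D v x))]

end Pool.Agent.Lib.MP_634427_lc.Maj
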