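import Pool.Agent.Lib.MP_634427_lc.Maj.SizeN

/-!
# The parameters

`z` is the main parameter (`E * (|x| + m x + 2)`), `cf` is the exponent of the size bound of the
reduction, `c` the exponent of the census bound. All are polynomials in `z` up to the choice of the
prime number.
-/

namespace Pool.Agent.Lib.MP_634427_lc.Maj

open Pool.Agent.Lib.MP_634427_lc

/-- Bound for the size of the answers of the reduction. -/
def pZ (cf z : ℕ) : ℕ := (2 * qlen z + 2) ^ cf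

/-- Inverse of the precision. -/
def RZ (cf c z : ℕ) : ℕ := 4 * (pZ cf z ^ c + c) + 1

/-- Length of the lists. -/
def MZ (cf c z : ℕ) : ℕ := 16 * pZ cf z ^ 2 * RZ cf c z ^ 2 + 1

/-- The prime number. -/
def PZ (cf c z : ℕ) : ℕ := LT.nextPrime (4 * MZ cf c z * (36 * pZ cf z ^ 2 * RZ cf c z ^ 2 + 1) +
  4 * (pZ cf z + 1) * (z + 1) ^ 2)

/-- Bound for the gap test. -/
def kZ (cf c z : ℕ) : ℕ := 4 * (pZ cf z + 1) * PZ cf c z

theorem prime_PZ (cf c z : ℕ) : (PZ cf c z).Prime := LT.nextPrime_prime _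

private theorem prm_pb (cf c : ℕ) : PB (PZ cf c) := by
  have hz : PB fun z => z := PB.id
  have hq : PB qlen := ((((PB.const 4).mul (hz.pow 3)).add ((PB.const 2).mul (hz.pow 2))).add
    ((PB.const 10).mul hz)).add (PB.const 5)
  have hp : PB (pZ cf) := (((PB.const 2).mul hq).add (PB.const 2)).pow cf
  have hR : PB (RZ cf c) := ((PB.const 4).mul ((hp.pow c).add (PB.const c))).add (PB.const 1)
  have hM : PB (MZ cf c) := (((PB.const 16).mul (hp.pow 2)).mul (hR.pow 2)).add (PB.const 1)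
  have hN : PB fun z => 4 * MZ cf c z * (36 * pZ cf z ^ 2 * RZ cf c z ^ 2 + 1) +
      4 * (pZ cf z + 1) * (z + 1) ^ 2 :=
    (((PB.const 4).mul hM).mul ((((PB.const 36).mul (hp.pow 2)).mul (hR.pow 2)).add
      (PB.const 1))).add (((PB.const 4).mul (hp.add (PB.const 1))).mul ((hz.add (PB.const 1)).pow 2))
  exact (((PB.const 2).mul hN).add (PB.const 2)).mono fun z => LT.nextPrime_le _

private theorem prm_exp (q : ℕ) : ∃ E : ℕ, ∀ z, E ≤ z → (z + 2) ^ q < 2 ^ z := by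
  have h := (tendsto_pow_const_div_const_pow_of_one_lt q (one_lt_two (α := ℝ))).comp
    (Filter.tendsto_add_atTop_nat 2)
  have h1 := h.eventually (gt_mem_nhds (show (0 : ℝ) < 1 / 4 by norm_num))
  obtain ⟨E, hE⟩ := h1.exists_forall_of_atTop
  refine ⟨E, fun z hz => ?_⟩
  have h2 := hE z hz
  simp only [Function.comp_apply] at h2
  rw [div_lt_iff₀ (by positivity), pow_add] at h2
  have h3 : ((z + 2 : ℕ) : ℝ) ^ q < 2 ^ z := by
    have h4 : (1 / 4 : ℝ) * (2 ^ z * 2 ^ 2) = 2 ^ z := by ring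
    rwa [h4] at h2
  exact_mod_cast h3

private theorem prm_lt (cf c z : ℕ) : 4 * MZ cf c z * (36 * pZ cf z ^ 2 * RZ cf c z ^ 2 + 1) +
    4 * (pZ cf z + 1) * (z + 1) ^ 2 < PZ cf c z := LT.lt_nextPrime _

private theorem prm_div (a : ℝ) (R : ℕ) : a / (1 / (R : ℝ)) ^ 2 = a * (R : ℝ) ^ 2 := by
  rw [one_div, inv_pow, div_inv_eq_mul]

/-- The prime number is small: `PZ ≤ 2 * (polynomial in z) + 2` (`LT.nextPrime_le`, `PB`), and
`(z + 2) ^ q < 2 ^ z` for all large `z`. -/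
theorem exists_E (cf c : ℕ) : ∃ E : ℕ, 1 ≤ E ∧ ∀ z, E ≤ z → PZ cf c z < 2 ^ z := by
  obtain ⟨q, hq⟩ := prm_pb cf c
  obtain ⟨E, hE⟩ := prm_exp q
  refine ⟨E + 1, by omega, fun z hz => (hq z).trans_lt (hE z (by omega))⟩

/-- `hM` of `exist_lists` with `δ = 1 / R`. -/
theorem prm_M (cf c z : ℕ) :
    16 * (pZ cf z : ℝ) ^ 2 / (1 / (RZ cf c z : ℝ)) ^ 2 ≤ (MZ cf c z : ℕ) := by
  rw [prm_div]
  have h : 16 * pZ cf z ^ 2 * RZ cf c z ^ 2 ≤ MZ cf c z := by
    unfold MZ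
    omega
  exact_mod_cast h

/-- `hP` of `exist_lists` with `δ = 1 / R`. -/
theorem prm_P (cf c z : ℕ) :
    4 * (MZ cf c z : ℕ) * (36 * (pZ cf z : ℝ) ^ 2 / (1 / (RZ cf c z : ℝ)) ^ 2 + 1) ≤
      (PZ cf c z : ℕ) := by
  rw [prm_div]
  have h := prm_lt cf c z
  have h1 : 4 * MZ cf c z * (36 * pZ cf z ^ 2 * RZ cf c z ^ 2 + 1) ≤ PZ cf c z := by omega
  exact_mod_cast h1

/-- `hP` of `sound`. -/
theorem prm_P' (cf c : ℕ) {z m : ℕ} (h : m ≤ z) :
    4 * (pZ cf z + 1) * (m + 1) ^ 2 ≤ PZ cf c z := by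
  have h1 := prm_lt cf c z
  have h2 : 4 * (pZ cf z + 1) * (m + 1) ^ 2 ≤ 4 * (pZ cf z + 1) * (z + 1) ^ 2 :=
    Nat.mul_le_mul_left _ (Nat.pow_le_pow_left (by omega) 2)
  omega

end Pool.Agent.Lib.MP_634427_lc.Maj
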