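import Pool.Agent.Lib.MP_634427_lc.Maj.Num
import Pool.Agent.Lib.MP_634427_lc.LT.Bin
import Pool.Agent.Lib.MP_634427_lc.Small.Dec

/-!
# The verifier of the questions

The verifier gets `((x, (p, rows)), u)` with binary numbers `p` and `rows` and tests `Rel (x, u)` and
for each row whether the sum of the constant and of the coefficients selected by `u` (binary
addition `sumB`) equals `k * p` (sum of `k` copies of `p`) for some `k < |u| + 2`.
-/

namespace Pool.Agent.Lib.MP_634427_lc.Maj

open Pool.Agent.Lib.MP_634427_lc

/-- Sum of binary numbers. -/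
def sumB (l : List Word) : Word := l.foldr LT.addB []

/-- Equality of the values of binary numbers. -/
def eqB (a b : Word) : Bool := LT.leB a b && LT.leB b a

/-- The constant and the selected coefficients of a row. -/
def selB (u : Word) (r : List Word) : List Word :=
  r.getD 0 [] :: (List.range u.length).map fun j => bif u.getD j false then r.getD (j + 1) [] else []

/-- Is the value of the row at `u` divisible by `p`? -/
def zeroB (u p : Word) (r : List Word) : Bool :=
  (List.range (u.length + 2)).any fun k => eqB (sumB (selB u r)) (sumB (List.replicate k p))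

/-- The verifier. -/
def qver (Rel : Word × Word → Bool) (a : (Word × (Word × List (List Word))) × Word) : Bool :=
  Rel (a.1.1, a.2) && a.1.2.2.all fun r => zeroB a.2 a.1.2.1 r

end Pool.Agent.Lib.MP_634427_lc.Maj

namespace Pool.Agent.Lib.MP_634427_lc.PT

open Pool.Agent.Lib.MP_634427_lc

private theorem length_majSumB {l : List Word} {w : ℕ} (h : ∀ a ∈ l, a.length ≤ w) :
    (Maj.sumB l).length ≤ w + l.length := by
  induction l with
  | nil => exact Nat.zero_le _
  | cons a l ih =>
    have h1 := ih fun b hb => h b (List.mem_cons_of_mem _ hb)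
    have h2 := h a List.mem_cons_self
    have h3 := LT.length_addB_le a (Maj.sumB l)
    have h4 : Maj.sumB (a :: l) = LT.addB a (Maj.sumB l) := rfl
    rw [h4, List.length_cons]
    omega

/-- The binary sum is computed in polynomial time (see `PT.nsum` in LT/Bin.lean). -/
theorem majSumB {γ : Type} [Enc γ] {l : γ → List Word} (hl : PT l) :
    PT fun c => Maj.sumB (l c) :=
  foldr (f := fun (_ : γ) a r => LT.addB a r) hl (const ([] : Word))
    (addB (fst' snd) (snd' snd)) (by
      obtain ⟨k, hk⟩ := hl.size_le
      obtain ⟨e, he⟩ := PB.mul (PB.const 4) (G := fun n => (n + 2) ^ k) ⟨k, fun n => le_rfl⟩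
      refine ⟨e, fun c l' hl' => (sz_word_le _).trans ?_⟩
      have h1 := hk c
      have h3 := he (sz c)
      have h4 := length_le_sz l'
      have h5 := sz_suffix_le hl'
      have h6 : (Maj.sumB l').length ≤ sz l' + l'.length :=
        length_majSumB fun a ha => (length_le_sz a).trans (sz_mem_le ha)
      have h7 : l'.foldr (fun a r => LT.addB a r) [] = Maj.sumB l' := rfl
      rw [h7]
      beta_reduce at h3
      omega)

private theorem majEqB {γ : Type} [Enc γ] {f g : γ → Word} (hf : PT f) (hg : PT g) :
    PT fun c => Maj.eqB (f c) (g c) :=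
  and (leB hf hg) (leB hg hf)

private theorem majSelB {γ : Type} [Enc γ] {u : γ → Word} {r : γ → List Word} (hu : PT u)
    (hr : PT r) : PT fun c => Maj.selB (u c) (r c) := by
  refine cons (getLD (const 0) hr (const [])) ?_
  exact map (f := fun c j => bif (u c).getD j false then (r c).getD (j + 1) [] else [])
    (range (length hu))
    (cond (getLD snd (hu.comp fst) (const false)) (getLD (succ snd) (hr.comp fst) (const []))
      (const []))

private theorem majZeroB {γ : Type} [Enc γ] {u p : γ → Word} {r : γ → List Word} (hu : PT u)
    (hp : PT p) (hr : PT r) : PT fun c => Maj.zeroB (u c) (p c) (r c) := by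
  refine any (p := fun c k => Maj.eqB (Maj.sumB (Maj.selB (u c) (r c)))
    (Maj.sumB (List.replicate k (p c)))) (range (succ (succ (length hu)))) ?_
  exact majEqB (majSumB (majSelB (hu.comp fst) (hr.comp fst)))
    (majSumB (replicate snd (hp.comp fst)))

theorem majQver {Rel : Word × Word → Bool} (hRel : PT Rel) : PT (Maj.qver Rel) := by
  have h1 : PT fun a : (Word × (Word × List (List Word))) × Word => Rel (a.1.1, a.2) :=
    hRel.comp (pair (fst' fst) snd)
  have h2 : PT fun a : (Word × (Word × List (List Word))) × Word =>
      a.1.2.2.all fun r => Maj.zeroB a.2 a.1.2.1 r :=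
    all (p := fun a r => Maj.zeroB a.2 a.1.2.1 r) (snd' (snd' fst))
      (majZeroB (snd' fst) (fst' (snd' (fst' fst))) snd)
  exact and h1 h2

end Pool.Agent.Lib.MP_634427_lc.PT
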