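import Mathlib

/-!
# Correlation of a function with its shifts by `v ⊗ x`

Proof, by induction on `n`. `n = 0`: all three expectations are values at one point. `n + 1`: write
`Y = (y, Y')`, `v = (w, v')`, `k Y' = 𝔼 y, h (y, Y')`, `g = h - k` (mean 0 over `y` for every
`Y'`). The cross terms vanish (for fixed `Y', v', x`, `w` the mean over `y` of `g (y, Y')` and of
`g (y + w • x, Y' + v' ⊗ x)` is 0). The part with `k` is `≤ (𝔼 k) ^ 2 + (𝔼 k ^ 2 - (𝔼 k) ^ 2) / |K|`
by induction. In the part `𝔼 g (y, Y') * g (y + w • x, Y' + v' ⊗ x)` replace `y` by `y + w' • x`,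
take the mean over `w'`, and put `A x y Y' = 𝔼 w, g (y + w • x, Y')`: it is
`𝔼 A x y Y' * A x y (Y' + v' ⊗ x) ≤ 𝔼 (A x y Y' ^ 2 + A x y (Y' + v' ⊗ x) ^ 2) / 2 =
𝔼 A x y Y' ^ 2`. For each `Y'`, `𝔼 x y, A x y Y' ^ 2 = 𝔼 w w', 𝔼 x y, g (y + w • x, Y') *
g (y + w' • x, Y')`; for `w ≠ w'` the map `(x, y) ↦ (y + w • x, y + w' • x)` is a bijection of
`V × V`, so the term is `(𝔼 y, g (y, Y')) ^ 2 = 0`; for `w = w'` it is `𝔼 y, g (y, Y') ^ 2`. So the
part is `≤ 𝔼 g ^ 2 / |K|`. Finally `𝔼 h ^ 2 = 𝔼 k ^ 2 + 𝔼 g ^ 2`, `𝔼 h = 𝔼 k`.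
-/

namespace Pool.Agent.Lib.MP_634427_lc.Maj

open Finset
open scoped BigOperators

private theorem sh_cons {α : Type} [Fintype α] {n : ℕ} (F : (Fin (n + 1) → α) → ℝ) :
    𝔼 Y : Fin (n + 1) → α, F Y = 𝔼 y : α, 𝔼 Y' : Fin n → α, F (Fin.cons y Y') := by
  rw [← Finset.expect_product' univ univ (fun (y : α) (Y' : Fin n → α) => F (Fin.cons y Y')),
    Finset.univ_product_univ]
  exact (Fintype.expect_equiv (Fin.consEquiv fun _ => α) _ _ fun i => rfl).symm

private theorem sh_trans {V : Type} [AddCommGroup V] [Fintype V] (f : V → ℝ) (a : V) :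
    𝔼 y : V, f (y + a) = 𝔼 y : V, f y :=
  Fintype.expect_equiv (Equiv.addRight a) _ _ fun _ => rfl

section step

variable {K V : Type} [Field K] [Fintype K] [AddCommGroup V] [Module K V] [Fintype V]

/-- Averaging over the line of `x`. -/
private theorem sh_avg (x : V) (g₁ g₂ : V → ℝ) :
    𝔼 w : K, 𝔼 y : V, g₁ y * g₂ (y + w • x) =
      𝔼 y : V, (𝔼 w : K, g₁ (y + w • x)) * (𝔼 w : K, g₂ (y + w • x)) := by
  have h1 : ∀ y : V, (𝔼 w : K, g₁ (y + w • x)) * (𝔼 w : K, g₂ (y + w • x)) =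
      𝔼 w' : K, 𝔼 w : K, g₁ (y + w' • x) * g₂ (y + w • x) := fun y => by
    rw [Finset.expect_mul]
    refine Finset.expect_congr rfl fun w' _ => ?_
    rw [Finset.mul_expect]
  have h0 : 𝔼 y : V, (𝔼 w : K, g₁ (y + w • x)) * (𝔼 w : K, g₂ (y + w • x)) =
      𝔼 w' : K, 𝔼 y : V, 𝔼 w : K, g₁ (y + w' • x) * g₂ (y + w • x) := by
    rw [Finset.expect_congr rfl fun y _ => h1 y]
    exact Finset.expect_comm _ _ _
  rw [h0]
  have h2 : ∀ w' : K, 𝔼 y : V, 𝔼 w : K, g₁ (y + w' • x) * g₂ (y + w • x) =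
      𝔼 w : K, 𝔼 y : V, g₁ y * g₂ (y + w • x) := fun w' => by
    rw [Finset.expect_comm, ← sh_trans (fun w : K => 𝔼 y : V, g₁ y * g₂ (y + w • x)) (-w')]
    refine Finset.expect_congr rfl fun w _ => ?_
    rw [← sh_trans (fun y : V => g₁ y * g₂ (y + (w + -w') • x)) (w' • x)]
    refine Finset.expect_congr rfl fun y _ => ?_
    have e : y + w' • x + (w + -w') • x = y + w • x := by
      rw [add_smul, neg_smul]
      abel
    rw [e]
  rw [Finset.expect_congr rfl fun w' _ => h2 w', Fintype.expect_const]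

/-- The mean of the squares of the averages. -/
private theorem sh_var (g : V → ℝ) (hg : 𝔼 y : V, g y = 0) :
    𝔼 x : V, 𝔼 y : V, (𝔼 w : K, g (y + w • x)) ^ 2 =
      (𝔼 y : V, g y ^ 2) / (Fintype.card K : ℝ) := by
  classical
  have h1 : ∀ x : V, 𝔼 y : V, (𝔼 w : K, g (y + w • x)) ^ 2 =
      𝔼 w : K, 𝔼 y : V, g y * g (y + w • x) := fun x => by
    rw [sh_avg]
    exact Finset.expect_congr rfl fun y _ => sq _
  rw [Finset.expect_congr rfl fun x _ => h1 x, Finset.expect_comm]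
  have h2 : ∀ w : K, 𝔼 x : V, 𝔼 y : V, g y * g (y + w • x) =
      if w = 0 then 𝔼 y : V, g y ^ 2 else 0 := fun w => by
    by_cases hw : w = 0
    · rw [if_pos hw, hw]
      have h3 : ∀ x : V, 𝔼 y : V, g y * g (y + (0 : K) • x) = 𝔼 y : V, g y ^ 2 := fun x => by
        refine Finset.expect_congr rfl fun y _ => ?_
        rw [zero_smul, add_zero, sq]
      rw [Finset.expect_congr rfl fun x _ => h3 x, Fintype.expect_const]
    · rw [if_neg hw, Finset.expect_comm]
      refine Finset.expect_eq_zero fun y _ => ?_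
      rw [← Finset.mul_expect]
      have h3 : 𝔼 x : V, g (y + w • x) = 𝔼 z : V, g z := by
        refine Fintype.expect_bijective (fun x => y + w • x) ⟨?_, ?_⟩ _ _ fun _ => rfl
        · intro a b hab
          exact smul_right_injective V hw (add_left_cancel hab)
        · intro z
          exact ⟨w⁻¹ • (z - y), by
            dsimp only
            rw [smul_smul, mul_inv_cancel₀ hw, one_smul, add_sub_cancel]⟩
      rw [h3, hg, mul_zero]
  rw [Finset.expect_congr rfl fun w _ => h2 w, Fintype.expect_eq_sum_div_card,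
    Finset.sum_ite_eq' univ (0 : K), if_pos (Finset.mem_univ _)]

/-- One coordinate: the part of mean `0`. -/
private theorem sh_step {T : Type} [Fintype T] (x : V) (S : T ≃ T) (g : V → T → ℝ) :
    𝔼 w : K, 𝔼 y : V, 𝔼 Y : T, g y Y * g (y + w • x) (S Y) ≤
      𝔼 Y : T, 𝔼 y : V, (𝔼 w : K, g (y + w • x) Y) ^ 2 := by
  have h1 : 𝔼 w : K, 𝔼 y : V, 𝔼 Y : T, g y Y * g (y + w • x) (S Y) =
      𝔼 Y : T, 𝔼 y : V, (𝔼 w : K, g (y + w • x) Y) * (𝔼 w : K, g (y + w • x) (S Y)) := by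
    have h2 : ∀ w : K, 𝔼 y : V, 𝔼 Y : T, g y Y * g (y + w • x) (S Y) =
        𝔼 Y : T, 𝔼 y : V, g y Y * g (y + w • x) (S Y) := fun w => Finset.expect_comm _ _ _
    rw [Finset.expect_congr rfl fun w _ => h2 w, Finset.expect_comm]
    refine Finset.expect_congr rfl fun Y _ => ?_
    exact sh_avg x (fun y => g y Y) (fun y => g y (S Y))
  have h3 : 𝔼 Y : T, 𝔼 y : V, (𝔼 w : K, g (y + w • x) (S Y)) ^ 2 =
      𝔼 Y : T, 𝔼 y : V, (𝔼 w : K, g (y + w • x) Y) ^ 2 :=
    Fintype.expect_equiv S _ _ fun _ => rfl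
  have h4 : 𝔼 Y : T, 𝔼 y : V, (𝔼 w : K, g (y + w • x) Y) * (𝔼 w : K, g (y + w • x) (S Y)) ≤
      𝔼 Y : T, 𝔼 y : V, ((1 / 2) * (𝔼 w : K, g (y + w • x) Y) ^ 2 +
        (1 / 2) * (𝔼 w : K, g (y + w • x) (S Y)) ^ 2) := by
    refine Finset.expect_le_expect fun Y _ => Finset.expect_le_expect fun y _ => ?_
    nlinarith [sq_nonneg ((𝔼 w : K, g (y + w • x) Y) - (𝔼 w : K, g (y + w • x) (S Y)))]
  have h5 : 𝔼 Y : T, 𝔼 y : V, ((1 / 2) * (𝔼 w : K, g (y + w • x) Y) ^ 2 +
        (1 / 2) * (𝔼 w : K, g (y + w • x) (S Y)) ^ 2) =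
      (1 / 2) * (𝔼 Y : T, 𝔼 y : V, (𝔼 w : K, g (y + w • x) Y) ^ 2) +
      (1 / 2) * (𝔼 Y : T, 𝔼 y : V, (𝔼 w : K, g (y + w • x) (S Y)) ^ 2) := by
    rw [Finset.mul_expect, Finset.mul_expect, ← Finset.expect_add_distrib]
    refine Finset.expect_congr rfl fun Y _ => ?_
    rw [Finset.mul_expect, Finset.mul_expect, ← Finset.expect_add_distrib]
  rw [h1]
  refine h4.trans ?_
  rw [h5, h3]
  linarith

/-- One coordinate: the mean splits off. -/
private theorem sh_split {T : Type} [Fintype T] (a : V) (S : T ≃ T) (H : V → T → ℝ) (k : T → ℝ)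
    (hk : ∀ Y, k Y = 𝔼 y : V, H y Y) :
    𝔼 y : V, 𝔼 Y : T, H y Y * H (y + a) (S Y) = (𝔼 Y : T, k Y * k (S Y)) +
      𝔼 y : V, 𝔼 Y : T, (H y Y - k Y) * (H (y + a) (S Y) - k (S Y)) := by
  rw [Finset.expect_comm, Finset.expect_comm (f := fun (y : V) (Y : T) =>
    (H y Y - k Y) * (H (y + a) (S Y) - k (S Y))), ← Finset.expect_add_distrib]
  refine Finset.expect_congr rfl fun Y _ => ?_
  have h1 : ∀ y : V, (H y Y - k Y) * (H (y + a) (S Y) - k (S Y)) =
      H y Y * H (y + a) (S Y) - H y Y * k (S Y) - k Y * H (y + a) (S Y) + k Y * k (S Y) :=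
    fun y => by ring
  rw [Finset.expect_congr rfl fun y _ => h1 y, Finset.expect_add_distrib,
    Finset.expect_sub_distrib, Finset.expect_sub_distrib, ← Finset.expect_mul, ← Finset.mul_expect,
    Fintype.expect_const, sh_trans (fun y => H y (S Y)) a, ← hk, ← hk]
  ring

end step

/-- For random `x`, `v`, `Y` the values of `h` at `Y` and at `Y + v ⊗ x` are nearly
uncorrelated. -/
theorem shift_corr {K V : Type} [Field K] [Fintype K] [AddCommGroup V] [Module K V] [Fintype V]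
    (n : ℕ) (h : (Fin n → V) → ℝ) :
    𝔼 x : V, 𝔼 v : Fin n → K, 𝔼 Y : Fin n → V, h Y * h (fun i => Y i + v i • x) ≤
      (𝔼 Y : Fin n → V, h Y) ^ 2 +
        ((𝔼 Y : Fin n → V, h Y ^ 2) - (𝔼 Y : Fin n → V, h Y) ^ 2) / (Fintype.card K : ℝ) := by
  classical
  induction n with
  | zero =>
    have h1 : ∀ Y : Fin 0 → V, h Y = h default := fun Y => by rw [Subsingleton.elim Y default]
    have e1 : 𝔼 x : V, 𝔼 v : Fin 0 → K, 𝔼 Y : Fin 0 → V, h Y * h (fun i => Y i + v i • x) =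
        h default ^ 2 := by
      have h2 : ∀ x : V, 𝔼 v : Fin 0 → K, 𝔼 Y : Fin 0 → V, h Y * h (fun i => Y i + v i • x) =
          h default ^ 2 := fun x => by
        have h3 : ∀ v : Fin 0 → K, 𝔼 Y : Fin 0 → V, h Y * h (fun i => Y i + v i • x) =
            h default ^ 2 := fun v => by
          have h4 : ∀ Y : Fin 0 → V, h Y * h (fun i => Y i + v i • x) = h default ^ 2 :=
            fun Y => by rw [h1 Y, h1 (fun i => Y i + v i • x), sq]
          rw [Finset.expect_congr rfl fun Y _ => h4 Y, Fintype.expect_const]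
        rw [Finset.expect_congr rfl fun v _ => h3 v, Fintype.expect_const]
      rw [Finset.expect_congr rfl fun x _ => h2 x, Fintype.expect_const]
    have e2 : 𝔼 Y : Fin 0 → V, h Y = h default := by
      rw [Finset.expect_congr rfl fun Y _ => h1 Y, Fintype.expect_const]
    have e3 : 𝔼 Y : Fin 0 → V, h Y ^ 2 = h default ^ 2 := by
      have h2 : ∀ Y : Fin 0 → V, h Y ^ 2 = h default ^ 2 := fun Y => by rw [h1 Y]
      rw [Finset.expect_congr rfl fun Y _ => h2 Y, Fintype.expect_const]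
    rw [e1, e2, e3, sub_self, zero_div, add_zero]
  | succ n ih =>
    obtain ⟨H, hH⟩ : ∃ H : V → (Fin n → V) → ℝ, ∀ y Y, H y Y = h (Fin.cons y Y) :=
      ⟨_, fun _ _ => rfl⟩
    obtain ⟨k, hk⟩ : ∃ k : (Fin n → V) → ℝ, ∀ Y, k Y = 𝔼 y : V, H y Y := ⟨_, fun _ => rfl⟩
    obtain ⟨g, hg⟩ : ∃ g : V → (Fin n → V) → ℝ, ∀ y Y, g y Y = H y Y - k Y := ⟨_, fun _ _ => rfl⟩
    have hg0 : ∀ Y, 𝔼 y : V, g y Y = 0 := fun Y => by
      rw [Finset.expect_congr rfl fun y _ => hg y Y, Finset.expect_sub_distrib,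
        Fintype.expect_const, ← hk, sub_self]
    -- the left side
    have e1 : 𝔼 x : V, 𝔼 v : Fin (n + 1) → K, 𝔼 Y : Fin (n + 1) → V,
        h Y * h (fun i => Y i + v i • x) =
        (𝔼 x : V, 𝔼 v : Fin n → K, 𝔼 Y : Fin n → V, k Y * k (fun i => Y i + v i • x)) +
        𝔼 x : V, 𝔼 v : Fin n → K, 𝔼 w : K, 𝔼 y : V, 𝔼 Y : Fin n → V,
          g y Y * g (y + w • x) (fun i => Y i + v i • x) := by
      rw [← Finset.expect_add_distrib]
      refine Finset.expect_congr rfl fun x _ => ?_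
      rw [sh_cons, Finset.expect_comm, ← Finset.expect_add_distrib]
      refine Finset.expect_congr rfl fun v _ => ?_
      have h1 : ∀ w : K, 𝔼 Y : Fin (n + 1) → V, h Y *
          h (fun i => Y i + (Fin.cons w v : Fin (n + 1) → K) i • x) =
          (𝔼 Y : Fin n → V, k Y * k (fun i => Y i + v i • x)) +
          𝔼 y : V, 𝔼 Y : Fin n → V, g y Y * g (y + w • x) (fun i => Y i + v i • x) := fun w => by
        rw [sh_cons]
        have h2 := sh_split (w • x) (Equiv.addRight (fun i : Fin n => v i • x)) H k hk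
        have h3 : 𝔼 y : V, 𝔼 Y' : Fin n → V, h (Fin.cons y Y') *
            h (fun i => (Fin.cons y Y' : Fin (n + 1) → V) i +
              (Fin.cons w v : Fin (n + 1) → K) i • x) =
            𝔼 y : V, 𝔼 Y : Fin n → V, H y Y * H (y + w • x)
              ((Equiv.addRight (fun i : Fin n => v i • x)) Y) := by
          refine Finset.expect_congr rfl fun y _ => Finset.expect_congr rfl fun Y _ => ?_
          rw [hH, hH]
          congr 2
          funext i
          refine Fin.cases ?_ (fun j => ?_) i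
          · simp
          · simp
        rw [h3, h2]
        congr 1
        refine Finset.expect_congr rfl fun y _ => Finset.expect_congr rfl fun Y _ => ?_
        rw [hg, hg]
        rfl
      rw [Finset.expect_congr rfl fun w _ => h1 w, Finset.expect_add_distrib, Fintype.expect_const]
    have e2 : 𝔼 Y : Fin (n + 1) → V, h Y = 𝔼 Y : Fin n → V, k Y := by
      rw [sh_cons, Finset.expect_comm]
      refine Finset.expect_congr rfl fun Y _ => ?_
      rw [hk]
      exact Finset.expect_congr rfl fun y _ => (hH y Y).symm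
    have e3 : 𝔼 Y : Fin (n + 1) → V, h Y ^ 2 = (𝔼 Y : Fin n → V, k Y ^ 2) +
        𝔼 Y : Fin n → V, 𝔼 y : V, g y Y ^ 2 := by
      rw [sh_cons, Finset.expect_comm, ← Finset.expect_add_distrib]
      refine Finset.expect_congr rfl fun Y _ => ?_
      have h1 : ∀ y : V, h (Fin.cons y Y) ^ 2 = k Y ^ 2 + 2 * k Y * g y Y + g y Y ^ 2 := fun y => by
        rw [← hH, hg]
        ring
      rw [Finset.expect_congr rfl fun y _ => h1 y, Finset.expect_add_distrib,
        Finset.expect_add_distrib, Fintype.expect_const, ← Finset.mul_expect, hg0, mul_zero,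
        add_zero]
    have e4 : 𝔼 x : V, 𝔼 v : Fin n → K, 𝔼 w : K, 𝔼 y : V, 𝔼 Y : Fin n → V,
          g y Y * g (y + w • x) (fun i => Y i + v i • x) ≤
        (𝔼 Y : Fin n → V, 𝔼 y : V, g y Y ^ 2) / (Fintype.card K : ℝ) := by
      have h1 : ∀ x : V, 𝔼 v : Fin n → K, 𝔼 w : K, 𝔼 y : V, 𝔼 Y : Fin n → V,
          g y Y * g (y + w • x) (fun i => Y i + v i • x) ≤
          𝔼 Y : Fin n → V, 𝔼 y : V, (𝔼 w : K, g (y + w • x) Y) ^ 2 := fun x => by
        calc 𝔼 v : Fin n → K, 𝔼 w : K, 𝔼 y : V, 𝔼 Y : Fin n → V,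
              g y Y * g (y + w • x) (fun i => Y i + v i • x)
            ≤ 𝔼 v : Fin n → K, 𝔼 Y : Fin n → V, 𝔼 y : V, (𝔼 w : K, g (y + w • x) Y) ^ 2 :=
              Finset.expect_le_expect fun v _ =>
                sh_step x (Equiv.addRight (fun i : Fin n => v i • x)) g
          _ = 𝔼 Y : Fin n → V, 𝔼 y : V, (𝔼 w : K, g (y + w • x) Y) ^ 2 := Fintype.expect_const _
      refine (Finset.expect_le_expect fun x _ => h1 x).trans ?_
      rw [Finset.expect_comm]
      have h2 : ∀ Y : Fin n → V, 𝔼 x : V, 𝔼 y : V, (𝔼 w : K, g (y + w • x) Y) ^ 2 =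
          (𝔼 y : V, g y Y ^ 2) / (Fintype.card K : ℝ) := fun Y => sh_var (fun y => g y Y) (hg0 Y)
      rw [Finset.expect_congr rfl fun Y _ => h2 Y, ← Finset.expect_div]
    have e5 := ih k
    rw [e1, e2, e3]
    refine (add_le_add e5 e4).trans (le_of_eq ?_)
    ring

end Pool.Agent.Lib.MP_634427_lc.Maj
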